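import Pool.Agent.LibPer37.Defs

/-! Task A01 (pure linear algebra, 60-120 lines).

HINT.  Write `B'` for the matrix on the right: its rows are the rows of `B` and, last, the row `A i`;
its columns are the columns `0, …, n-1, n+1` (column `n` is skipped).  Expand this determinant along
its last row (`Matrix.det_succ_row _ (Fin.last n)`): it is `∑_b (-1)^(n+b) * A i (σ b) * m b` where
`σ b = (n : Fin (n+2)).succAbove b` and the minors `m b` do not depend on `i`.  Exchange the sums.
For each `b` the sum `∑_i (-1)^i * A i (σ b) * det (A without row i and without the last column)` is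
`± det` of the matrix `A` with its last column replaced by its column `σ b` (expansion along the last
column, `Matrix.det_succ_column _ (Fin.last _)`): it vanishes for `b ≠ last` (two equal columns), and it is
`± det A` for `b = Fin.last n` (then `σ b = Fin.last (n+1)`); and `m (Fin.last n) = det (B cols 0..n-1)`.
Signs: `(-1)^(i+n+1) * (-1)^(n+n) ` and `det A = ∑_i (-1)^(i+(n+1)) A i last * det(...)`. -/

set_option autoImplicit false

namespace Pool.Agent.LibPer37

/-- the columns that are not skipped -/
private def A01_sig (n : ℕ) (b : Fin (n + 1)) : Fin (n + 2) :=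
  (Fin.castSucc (Fin.last n)).succAbove b

private theorem A01_sig_castSucc (n : ℕ) (b : Fin n) :
    A01_sig n b.castSucc = b.castSucc.castSucc := by
  unfold A01_sig
  rw [Fin.succAbove_of_castSucc_lt]
  exact Fin.castSucc_lt_castSucc_iff.mpr (Fin.castSucc_lt_last b)

private theorem A01_sig_last (n : ℕ) : A01_sig n (Fin.last n) = Fin.last (n + 1) := by
  unfold A01_sig
  rw [Fin.succAbove_of_le_castSucc]
  · exact Fin.succ_last n
  · exact le_refl _

/-- the minors of the second matrix along its last row -/
private def A01_m {R : Type*} [CommRing R] (n : ℕ) (B : Matrix (Fin n) (Fin (n + 2)) R)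
    (j : Fin (n + 1)) : R :=
  (Matrix.of fun a b : Fin n => B a (A01_sig n (j.succAbove b))).det

private theorem A01_expand {R : Type*} [CommRing R] (n : ℕ) (r : Fin (n + 2) → R)
    (B : Matrix (Fin n) (Fin (n + 2)) R) :
    (Matrix.of fun a b : Fin (n + 1) =>
      (Fin.snoc (α := fun _ => Fin (n + 2) → R) (fun a => B a) r :
        Fin (n + 1) → Fin (n + 2) → R) a ((Fin.castSucc (Fin.last n)).succAbove b)).det =
      ∑ j : Fin (n + 1), (-1) ^ (n + (j : ℕ)) * r (A01_sig n j) * A01_m n B j := by
  rw [Matrix.det_succ_row _ (Fin.last n)]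
  refine Finset.sum_congr rfl fun j _ => ?_
  have h1 : (Fin.snoc (α := fun _ => Fin (n + 2) → R) (fun a => B a) r :
      Fin (n + 1) → Fin (n + 2) → R) (Fin.last n) = r := by
    exact Fin.snoc_last (α := fun _ => Fin (n + 2) → R) r (fun a => B a)
  have h2 : (Matrix.of fun a b : Fin (n + 1) =>
      (Fin.snoc (α := fun _ => Fin (n + 2) → R) (fun a => B a) r :
        Fin (n + 1) → Fin (n + 2) → R) a ((Fin.castSucc (Fin.last n)).succAbove b)).submatrix
        (Fin.last n).succAbove j.succAbove =
      Matrix.of fun a b : Fin n => B a (A01_sig n (j.succAbove b)) := by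
    ext a b
    simp only [Matrix.submatrix_apply, Matrix.of_apply]
    have h3 : (Fin.snoc (α := fun _ => Fin (n + 2) → R) (fun a => B a) r :
        Fin (n + 1) → Fin (n + 2) → R) ((Fin.last n).succAbove a) = B a := by
      rw [Fin.succAbove_last]
      exact Fin.snoc_castSucc (α := fun _ => Fin (n + 2) → R) r (fun a => B a) a
    rw [h3]
    rfl
  rw [h2, Matrix.of_apply, h1, Fin.val_last]
  rfl

private theorem A01_inner {R : Type*} [CommRing R] (n : ℕ)
    (A : Matrix (Fin (n + 2)) (Fin (n + 2)) R) (c : Fin (n + 2)) :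
    ∑ i : Fin (n + 2), (-1) ^ ((i : ℕ) + n + 1) * A i c *
      (Matrix.of fun a b : Fin (n + 1) => A (i.succAbove a) b.castSucc).det =
      (A.updateCol (Fin.last (n + 1)) (fun i => A i c)).det := by
  rw [Matrix.det_succ_column _ (Fin.last (n + 1))]
  refine Finset.sum_congr rfl fun i _ => ?_
  have h2 : (A.updateCol (Fin.last (n + 1)) (fun i => A i c)).submatrix i.succAbove
      (Fin.last (n + 1)).succAbove =
      Matrix.of fun a b : Fin (n + 1) => A (i.succAbove a) b.castSucc := by
    ext a b
    simp only [Matrix.submatrix_apply, Matrix.of_apply]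
    rw [Fin.succAbove_last, Matrix.updateCol_ne (Fin.castSucc_lt_last b).ne]
  rw [h2, Matrix.updateCol_self, Fin.val_last, add_assoc]

theorem star_alg {R : Type*} [CommRing R] (n : ℕ) (A : Matrix (Fin (n + 2)) (Fin (n + 2)) R)
    (B : Matrix (Fin n) (Fin (n + 2)) R) :
    A.det * (Matrix.of fun i a : Fin n => B i a.castSucc.castSucc).det =
      ∑ i : Fin (n + 2), (-1) ^ ((i : ℕ) + n + 1) *
        (Matrix.of fun a b : Fin (n + 1) => A (i.succAbove a) b.castSucc).det *
        (Matrix.of fun a b : Fin (n + 1) =>
          (Fin.snoc (α := fun _ => Fin (n + 2) → R) (fun a => B a) (A i) : Fin (n + 1) → Fin (n + 2) → R) a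
            ((Fin.castSucc (Fin.last n)).succAbove b)).det := by
  have h1 : ∀ i : Fin (n + 2), (-1) ^ ((i : ℕ) + n + 1) *
        (Matrix.of fun a b : Fin (n + 1) => A (i.succAbove a) b.castSucc).det *
        (Matrix.of fun a b : Fin (n + 1) =>
          (Fin.snoc (α := fun _ => Fin (n + 2) → R) (fun a => B a) (A i) : Fin (n + 1) → Fin (n + 2) → R) a
            ((Fin.castSucc (Fin.last n)).succAbove b)).det =
      ∑ j : Fin (n + 1), (-1) ^ (n + (j : ℕ)) * A01_m n B j *
        ((-1) ^ ((i : ℕ) + n + 1) * A i (A01_sig n j) *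
          (Matrix.of fun a b : Fin (n + 1) => A (i.succAbove a) b.castSucc).det) := by
    intro i
    rw [A01_expand, Finset.mul_sum]
    refine Finset.sum_congr rfl fun j _ => ?_
    ring
  rw [Finset.sum_congr rfl fun i _ => h1 i, Finset.sum_comm]
  have h2 : ∀ j : Fin (n + 1), ∑ i : Fin (n + 2), (-1) ^ (n + (j : ℕ)) * A01_m n B j *
        ((-1) ^ ((i : ℕ) + n + 1) * A i (A01_sig n j) *
          (Matrix.of fun a b : Fin (n + 1) => A (i.succAbove a) b.castSucc).det) =
      (-1) ^ (n + (j : ℕ)) * A01_m n B j *
        (A.updateCol (Fin.last (n + 1)) (fun i => A i (A01_sig n j))).det := by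
    intro j
    rw [← Finset.mul_sum, A01_inner]
  rw [Finset.sum_congr rfl fun j _ => h2 j, Fin.sum_univ_castSucc]
  have h3 : ∑ j : Fin n, (-1) ^ (n + (j.castSucc : ℕ)) * A01_m n B j.castSucc *
      (A.updateCol (Fin.last (n + 1)) (fun i => A i (A01_sig n j.castSucc))).det = 0 := by
    refine Finset.sum_eq_zero fun j _ => ?_
    have hne : j.castSucc.castSucc ≠ Fin.last (n + 1) := (Fin.castSucc_lt_last _).ne
    rw [A01_sig_castSucc, Matrix.det_zero_of_column_eq hne, mul_zero]
    intro i
    rw [Matrix.updateCol_ne hne, Matrix.updateCol_self]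
  have h4 : A.updateCol (Fin.last (n + 1)) (fun i => A i (Fin.last (n + 1))) = A := by
    ext i c
    by_cases hc : c = Fin.last (n + 1)
    · subst hc
      rw [Matrix.updateCol_self]
    · rw [Matrix.updateCol_ne hc]
  have h5 : A01_m n B (Fin.last n) = (Matrix.of fun i a : Fin n => B i a.castSucc.castSucc).det := by
    unfold A01_m
    congr 1
    ext a b
    simp only [Matrix.of_apply]
    rw [Fin.succAbove_last, A01_sig_castSucc]
  have h6 : ((-1 : R)) ^ (n + n) = 1 := Even.neg_one_pow ⟨n, rfl⟩
  rw [h3, zero_add, A01_sig_last, h4, h5, Fin.val_last, h6, one_mul, mul_comm]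

end Pool.Agent.LibPer37
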