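import Pool.Agent.LibPer37.Defs

/-! Task A02 (60-120 lines): the derivative of a Wronskian of entire functions is the determinant in
which the last column is differentiated once more.

HINT.  Leibniz formula `Matrix.det_apply'`, `HasDerivAt.sum`, `HasDerivAt.finset_prod` (or prove first:
if all entries `m i a` are differentiable at `z` then `det (m · ·)` has derivative
`∑ a, det (m with column a replaced by its derivative)`, `Matrix.updateCol`).
`iteratedDeriv_succ`; iterated derivatives of an entire function are entire (`ContDiff`, or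
`(hu i).analyticAt`, `Differentiable.iteratedDeriv`...).  For `a < n` the differentiated column `a` equals column `a + 1`, so this determinant
vanishes (`Matrix.det_zero_of_column_eq`); for `a = n` one gets the right hand side:
`(Fin.castSucc (Fin.last n)).succAbove b` is `b` for `b < n` and `n + 1` for `b = n`. -/

set_option autoImplicit false

namespace Pool.Agent.LibPer37

/-- the derivative of a determinant -/
theorem A02_det {k : ℕ} (m : Fin k → Fin k → ℂ → ℂ) (m' : Fin k → Fin k → ℂ) (z : ℂ)
    (h : ∀ i a, HasDerivAt (m i a) (m' i a) z) :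
    HasDerivAt (fun w => (Matrix.of fun i a : Fin k => m i a w).det)
      (∑ a, ((Matrix.of fun i a : Fin k => m i a z).updateCol a (fun i => m' i a)).det) z := by
  have e1 : (fun w => (Matrix.of fun i a : Fin k => m i a w).det) =
      fun w => ∑ σ : Equiv.Perm (Fin k), ((Equiv.Perm.sign σ : ℤ) : ℂ) * ∏ a, m (σ a) a w := by
    funext w
    rw [Matrix.det_apply']
    rfl
  have e2 : ∑ a, ((Matrix.of fun i a : Fin k => m i a z).updateCol a (fun i => m' i a)).det =
      ∑ σ : Equiv.Perm (Fin k), ((Equiv.Perm.sign σ : ℤ) : ℂ) *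
        ∑ a, (∏ j ∈ Finset.univ.erase a, m (σ j) j z) • m' (σ a) a := by
    simp only [Matrix.det_apply', Finset.mul_sum]
    rw [Finset.sum_comm]
    refine Finset.sum_congr rfl fun σ _ => Finset.sum_congr rfl fun a _ => ?_
    congr 1
    rw [← Finset.mul_prod_erase Finset.univ _ (Finset.mem_univ a), smul_eq_mul, mul_comm]
    congr 1
    · refine Finset.prod_congr rfl fun j hj => ?_
      rw [Matrix.updateCol_ne (Finset.ne_of_mem_erase hj)]
      rfl
    · rw [Matrix.updateCol_self]
  rw [e1, e2]
  apply HasDerivAt.fun_sum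
  intro σ _
  apply HasDerivAt.const_mul
  exact HasDerivAt.fun_finsetProd fun a _ => h (σ a) a

theorem iteratedDeriv_differentiable {g : ℂ → ℂ} (hg : Differentiable ℂ g) (a : ℕ) :
    Differentiable ℂ (iteratedDeriv a g) := by
  have h : ContDiff ℂ ((a + 1 : ℕ) : WithTop ℕ∞) g := hg.contDiff
  apply h.differentiable_iteratedDeriv a
  exact_mod_cast Nat.lt_succ_self a

theorem A02_has {g : ℂ → ℂ} (hg : Differentiable ℂ g) (a : ℕ) (z : ℂ) :
    HasDerivAt (iteratedDeriv a g) (iteratedDeriv (a + 1) g z) z := by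
  rw [iteratedDeriv_succ]
  exact (iteratedDeriv_differentiable hg a z).hasDerivAt

theorem A02_Wr {k : ℕ} (u : Fin k → ℂ → ℂ) (hu : ∀ i, Differentiable ℂ (u i)) (z : ℂ) :
    HasDerivAt (Wr u) (∑ a, ((Matrix.of fun i a : Fin k =>
      iteratedDeriv (a : ℕ) (u i) z).updateCol a
        (fun i => iteratedDeriv ((a : ℕ) + 1) (u i) z)).det) z :=
  A02_det (fun i a => iteratedDeriv (a : ℕ) (u i))
    (fun i a => iteratedDeriv ((a : ℕ) + 1) (u i) z) z fun i _ => A02_has (hu i) _ z

theorem Wr_differentiable {k : ℕ} (u : Fin k → ℂ → ℂ) (hu : ∀ i, Differentiable ℂ (u i)) :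
    Differentiable ℂ (Wr u) := fun z => (A02_Wr u hu z).differentiableAt

theorem Wr_deriv (n : ℕ) (u : Fin (n + 1) → ℂ → ℂ) (hu : ∀ i, Differentiable ℂ (u i)) (z : ℂ) :
    deriv (Wr u) z = (Matrix.of fun i b : Fin (n + 1) =>
      iteratedDeriv (((Fin.castSucc (Fin.last n)).succAbove b : Fin (n + 2)) : ℕ) (u i) z).det := by
  rw [(A02_Wr u hu z).deriv, Fin.sum_univ_castSucc]
  have h0 : ∑ b : Fin n, ((Matrix.of fun i a : Fin (n + 1) =>
      iteratedDeriv (a : ℕ) (u i) z).updateCol b.castSucc
        (fun i => iteratedDeriv ((b.castSucc : ℕ) + 1) (u i) z)).det = 0 := by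
    apply Finset.sum_eq_zero
    intro b _
    have hne : b.castSucc ≠ b.succ := by
      intro h
      have := congrArg Fin.val h
      simp at this
    apply Matrix.det_zero_of_column_eq hne
    intro i
    rw [Matrix.updateCol_self, Matrix.updateCol_ne hne.symm]
    rfl
  rw [h0, zero_add]
  congr 1
  ext i b
  by_cases hb : b = Fin.last n
  · subst hb
    rw [Matrix.updateCol_self, Matrix.of_apply,
      Fin.succAbove_of_le_castSucc _ _ le_rfl]
    rfl
  · rw [Matrix.updateCol_ne hb, Matrix.of_apply, Matrix.of_apply,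
      Fin.succAbove_of_castSucc_lt _ _ (Fin.castSucc_lt_castSucc_iff.2 (Fin.lt_last_iff_ne_last.2 hb))]
    rfl

end Pool.Agent.LibPer37
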