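import Pool.Agent.LibPer37.A01
import Pool.Agent.LibPer37.A02

/-! Task A03 (40-100 lines): the star identity and Jacobi's identity for Wronskians.

HINT.  `star`: apply `star_alg` to `A i a = iteratedDeriv a (S i) z`, `B i a = iteratedDeriv a (T i) z`
and rewrite with `Wr_deriv`; the matrices agree entrywise (`Fin.snoc` commutes with applying a map:
treat the rows `Fin.castSucc` and `Fin.last` separately with `Fin.lastCases`).
`jacobi`: apply `star` to `S = app (app T a) b`.  For `i = castSucc (castSucc j)` the function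
`app T (S i)` has two equal entries, its Wronskian vanishes identically (`Matrix.det_zero_of_row_eq`), so
does its derivative.  The two remaining terms are `i = castSucc (last n)` (sign `-1`,
`S ∘ succAbove = app T b`) and `i = last (n+1)` (sign `+1`, `S ∘ succAbove = app T a`). -/

set_option autoImplicit false

namespace Pool.Agent.LibPer37

theorem A03_app_castSucc {n : ℕ} (T : Fin n → ℂ → ℂ) (a : ℂ → ℂ) (j : Fin n) :
    app T a j.castSucc = T j := by
  unfold app
  exact Fin.snoc_castSucc (α := fun _ => ℂ → ℂ) a T j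

theorem A03_app_last {n : ℕ} (T : Fin n → ℂ → ℂ) (a : ℂ → ℂ) :
    app T a (Fin.last n) = a := by
  unfold app
  exact Fin.snoc_last (α := fun _ => ℂ → ℂ) a T

theorem A03_app_diff {n : ℕ} (T : Fin n → ℂ → ℂ) (a : ℂ → ℂ)
    (hT : ∀ i, Differentiable ℂ (T i)) (ha : Differentiable ℂ a) (i : Fin (n + 1)) :
    Differentiable ℂ (app T a i) := by
  refine Fin.lastCases ?_ (fun j => ?_) i
  · rw [A03_app_last]; exact ha
  · rw [A03_app_castSucc]; exact hT j

theorem star (n : ℕ) (S : Fin (n + 2) → ℂ → ℂ) (T : Fin n → ℂ → ℂ)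
    (hS : ∀ i, Differentiable ℂ (S i)) (hT : ∀ i, Differentiable ℂ (T i)) (z : ℂ) :
    Wr S z * Wr T z = ∑ i : Fin (n + 2), (-1) ^ ((i : ℕ) + n + 1) *
      Wr (fun a => S (i.succAbove a)) z * deriv (Wr (app T (S i))) z := by
  have h := star_alg n (Matrix.of fun i a : Fin (n + 2) => iteratedDeriv (a : ℕ) (S i) z)
    (Matrix.of fun (i : Fin n) (a : Fin (n + 2)) => iteratedDeriv (a : ℕ) (T i) z)
  have h2 : (Matrix.of fun i a : Fin n =>
      (Matrix.of fun (i : Fin n) (a : Fin (n + 2)) => iteratedDeriv (a : ℕ) (T i) z)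
        i a.castSucc.castSucc).det = Wr T z := by
    unfold Wr
    congr 1
  rw [h2] at h
  unfold Wr at h ⊢
  rw [h]
  refine Finset.sum_congr rfl fun i _ => ?_
  have h3 := Wr_deriv n (app T (S i)) (A03_app_diff T (S i) hT (hS i)) z
  unfold Wr at h3
  rw [h3]
  congr 2
  ext a b
  simp only [Matrix.of_apply]
  refine Fin.lastCases ?_ (fun j => ?_) a
  · rw [A03_app_last, Fin.snoc_last]
    rfl
  · rw [A03_app_castSucc, Fin.snoc_castSucc]
    rfl

theorem A03_Wr_app_self {n : ℕ} (T : Fin n → ℂ → ℂ) (j : Fin n) :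
    Wr (app T (T j)) = fun _ => 0 := by
  funext z
  unfold Wr
  refine Matrix.det_zero_of_row_eq (i := j.castSucc) (j := Fin.last n) ?_ ?_
  · exact (Fin.castSucc_lt_last j).ne
  · funext a
    simp only [Matrix.of_apply, A03_app_last, A03_app_castSucc]

theorem jacobi (n : ℕ) (T : Fin n → ℂ → ℂ) (a b : ℂ → ℂ) (hT : ∀ i, Differentiable ℂ (T i))
    (ha : Differentiable ℂ a) (hb : Differentiable ℂ b) (z : ℂ) :
    Wr T z * Wr (app (app T a) b) z =
      Wr (app T a) z * deriv (Wr (app T b)) z - deriv (Wr (app T a)) z * Wr (app T b) z := by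
  have h := star n (app (app T a) b) T
    (A03_app_diff (app T a) b (A03_app_diff T a hT ha) hb) hT z
  rw [Fin.sum_univ_castSucc, Fin.sum_univ_castSucc] at h
  have h0 : ∑ i : Fin n, (-1 : ℂ) ^ (((i.castSucc.castSucc : Fin (n + 2)) : ℕ) + n + 1) *
      Wr (fun c => app (app T a) b (i.castSucc.castSucc.succAbove c)) z *
        deriv (Wr (app T (app (app T a) b i.castSucc.castSucc))) z = 0 := by
    refine Finset.sum_eq_zero fun i _ => ?_
    rw [A03_app_castSucc, A03_app_castSucc, A03_Wr_app_self]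
    simp
  have h1 : (fun c => app (app T a) b ((Fin.last n).castSucc.succAbove c)) = app T b := by
    funext c
    refine Fin.lastCases ?_ (fun j => ?_) c
    · rw [A03_app_last, Fin.succAbove_castSucc_self, Fin.succ_last, A03_app_last]
    · rw [A03_app_castSucc, Fin.succAbove_castSucc_of_lt _ _ (Fin.castSucc_lt_last j),
        A03_app_castSucc, A03_app_castSucc]
  have h2 : (fun c => app (app T a) b ((Fin.last (n + 1)).succAbove c)) = app T a := by
    funext c
    rw [Fin.succAbove_last, A03_app_castSucc]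
  rw [h0, h1, h2, A03_app_castSucc, A03_app_last, A03_app_last] at h
  have e1 : (-1 : ℂ) ^ (((Fin.last n).castSucc : ℕ) + n + 1) = -1 := by
    rw [Fin.val_castSucc, Fin.val_last]
    exact Odd.neg_one_pow ⟨n, by ring⟩
  have e2 : (-1 : ℂ) ^ (((Fin.last (n + 1)) : ℕ) + n + 1) = 1 := by
    rw [Fin.val_last]
    exact Even.neg_one_pow ⟨n + 1, by ring⟩
  rw [e1, e2] at h
  rw [mul_comm, h]
  ring

end Pool.Agent.LibPer37
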