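import Pool.Agent.LibPer37.A02

/-! Task A04: entire functions with identically vanishing Wronskian are linearly dependent. -/

set_option autoImplicit false

namespace Pool.Agent.LibPer37

open Metric

/-- the cofactors of the last column: a left kernel vector when the Wronskian vanishes -/
noncomputable def A04_d {n : ℕ} (u : Fin (n + 1) → ℂ → ℂ) (j : Fin (n + 1)) (z : ℂ) : ℂ :=
  (-1) ^ ((j : ℕ) + n) * Wr (fun i => u (j.succAbove i)) z

theorem A04_d_diff {n : ℕ} (u : Fin (n + 1) → ℂ → ℂ) (hu : ∀ i, Differentiable ℂ (u i))
    (j : Fin (n + 1)) : Differentiable ℂ (A04_d u j) := by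
  unfold A04_d
  exact (Wr_differentiable _ (fun i => hu _)).const_mul _

theorem A04_d_ker {n : ℕ} (u : Fin (n + 1) → ℂ → ℂ) (z : ℂ) (h : Wr u z = 0) (a : ℕ)
    (ha : a ≤ n) : ∑ j, A04_d u j z * iteratedDeriv a (u j) z = 0 := by
  set M : Matrix (Fin (n + 1)) (Fin (n + 1)) ℂ :=
    Matrix.of fun i a : Fin (n + 1) => iteratedDeriv (a : ℕ) (u i) z with hM
  have h1 : ∀ j, A04_d u j z = M.adjugate (Fin.last n) j := by
    intro j
    rw [Matrix.adjugate_fin_succ_eq_det_submatrix]
    unfold A04_d Wr
    simp only [Fin.val_last, hM]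
    congr 2
    ext i b
    simp
  have h2 := Matrix.adjugate_mul M
  have h3 : M.det = 0 := h
  rw [h3, zero_smul] at h2
  have h4 := congrFun (congrFun h2 (Fin.last n)) ⟨a, Nat.lt_succ_of_le ha⟩
  rw [Matrix.mul_apply] at h4
  simp only [h1]
  simpa [hM] using h4

theorem A04_d_last {n : ℕ} (u : Fin (n + 1) → ℂ → ℂ) (z : ℂ) :
    A04_d u (Fin.last n) z = Wr (fun i => u (Fin.castSucc i)) z := by
  unfold A04_d
  simp [← two_mul, pow_mul]

/-- if the derivative equations hold, the coefficients vanish -/
theorem A04_zero {n : ℕ} (v : Fin n → ℂ → ℂ) (z : ℂ) (h : Wr v z ≠ 0) (x : Fin n → ℂ)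
    (hx : ∀ a : Fin n, ∑ i, x i * iteratedDeriv (a : ℕ) (v i) z = 0) : x = 0 := by
  have h1 : (Matrix.of fun i a : Fin n => iteratedDeriv (a : ℕ) (v i) z).det ≠ 0 := h
  refine Matrix.eq_zero_of_vecMul_eq_zero h1 ?_
  ext a
  simpa [Matrix.vecMul, dotProduct] using hx a

theorem dependent_of_Wr (n : ℕ) (u : Fin n → ℂ → ℂ) (hu : ∀ i, Differentiable ℂ (u i))
    (h : ∀ z, Wr u z = 0) : ∃ c : Fin n → ℂ, c ≠ 0 ∧ ∀ z, ∑ i, c i * u i z = 0 := by
  induction n with
  | zero =>
    exfalso
    have := h 0
    unfold Wr at this
    simp at this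
  | succ n ih =>
    by_cases hv : ∀ z, Wr (fun i => u (Fin.castSucc i)) z = 0
    · obtain ⟨c, hc, hc'⟩ := ih (fun i => u (Fin.castSucc i)) (fun i => hu _) hv
      refine ⟨Fin.snoc (α := fun _ => ℂ) c 0, ?_, ?_⟩
      · intro h0
        apply hc
        ext i
        have := congrFun h0 (Fin.castSucc i)
        simpa using this
      · intro z
        rw [Fin.sum_univ_castSucc]
        simpa using hc' z
    · push Not at hv
      obtain ⟨z0, hz0⟩ := hv
      set W : ℂ → ℂ := Wr (fun i => u (Fin.castSucc i)) with hW
      have hWd : Differentiable ℂ W := Wr_differentiable _ (fun i => hu _)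
      have hopen : IsOpen {z | W z ≠ 0} := isOpen_ne_fun hWd.continuous continuous_const
      obtain ⟨r, hr, hball⟩ := Metric.isOpen_iff.1 hopen z0 hz0
      have hne : ∀ z ∈ ball z0 r, W z ≠ 0 := fun z hz => hball hz
      set c : Fin (n + 1) → ℂ → ℂ := fun j z => A04_d u j z / W z with hcdef
      have hcd : ∀ j, ∀ z ∈ ball z0 r, DifferentiableAt ℂ (c j) z := by
        intro j z hz
        exact (A04_d_diff u hu j z).div (hWd z) (hne z hz)
      have hlast : ∀ z ∈ ball z0 r, c (Fin.last n) z = 1 := by
        intro z hz
        simp only [hcdef]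
        rw [A04_d_last]
        exact div_self (hne z hz)
      have hker : ∀ a : ℕ, a ≤ n → ∀ z ∈ ball z0 r, ∑ j, c j z * iteratedDeriv a (u j) z = 0 := by
        intro a ha z hz
        have h1 := A04_d_ker u z (h z) a ha
        have h2 : ∑ j, c j z * iteratedDeriv a (u j) z
            = (∑ j, A04_d u j z * iteratedDeriv a (u j) z) / W z := by
          rw [Finset.sum_div]
          refine Finset.sum_congr rfl fun j _ => ?_
          simp only [hcdef]
          ring
        rw [h2, h1, zero_div]
      have hderivlast : ∀ z ∈ ball z0 r, deriv (c (Fin.last n)) z = 0 := by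
        intro z hz
        have he : c (Fin.last n) =ᶠ[nhds z] fun _ => 1 := by
          filter_upwards [isOpen_ball.mem_nhds hz] with y hy using hlast y hy
        rw [he.deriv_eq]
        simp
      have hderiv : ∀ j, ∀ z ∈ ball z0 r, deriv (c j) z = 0 := by
        intro j z hz
        have hx : (fun i : Fin n => deriv (c (Fin.castSucc i)) z) = 0 := by
          refine A04_zero (fun i => u (Fin.castSucc i)) z (hne z hz) _ ?_
          intro a
          have he : (fun y => ∑ j, c j y * iteratedDeriv (a : ℕ) (u j) y) =ᶠ[nhds z]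
              fun _ => 0 := by
            filter_upwards [isOpen_ball.mem_nhds hz] with y hy
            exact hker a a.2.le y hy
          have h1 : HasDerivAt (fun y => ∑ j, c j y * iteratedDeriv (a : ℕ) (u j) y)
              (∑ j, (deriv (c j) z * iteratedDeriv (a : ℕ) (u j) z
                + c j z * iteratedDeriv ((a : ℕ) + 1) (u j) z)) z := by
            refine HasDerivAt.fun_sum fun j _ => ?_
            refine HasDerivAt.mul (hcd j z hz).hasDerivAt ?_
            rw [iteratedDeriv_succ]
            exact (iteratedDeriv_differentiable (hu j) a z).hasDerivAt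
          have h2 : (∑ j, (deriv (c j) z * iteratedDeriv (a : ℕ) (u j) z
                + c j z * iteratedDeriv ((a : ℕ) + 1) (u j) z)) = 0 := by
            rw [← h1.deriv, he.deriv_eq]
            simp
          rw [Finset.sum_add_distrib, hker (a + 1) a.2 z hz, add_zero,
            Fin.sum_univ_castSucc, hderivlast z hz, zero_mul, add_zero] at h2
          exact h2
        refine Fin.lastCases ?_ (fun i => ?_) j
        · exact hderivlast z hz
        · exact congrFun hx i
      have hconst : ∀ j, ∀ z ∈ ball z0 r, c j z = c j z0 := by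
        intro j z hz
        refine isOpen_ball.is_const_of_deriv_eq_zero (convex_ball z0 r).isPreconnected
          (fun y hy => (hcd j y hy).differentiableWithinAt) (fun y hy => ?_) hz
          (mem_ball_self hr)
        simpa using hderiv j y hy
      refine ⟨fun j => c j z0, ?_, ?_⟩
      · intro h0
        have := congrFun h0 (Fin.last n)
        simp only [Pi.zero_apply] at this
        rw [hlast z0 (mem_ball_self hr)] at this
        exact one_ne_zero this
      · have hG : Differentiable ℂ (fun z => ∑ j, c j z0 * u j z) :=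
          Differentiable.fun_sum fun j _ => (hu j).const_mul _
        have hana : AnalyticOnNhd ℂ (fun z => ∑ j, c j z0 * u j z) Set.univ :=
          (Complex.analyticOnNhd_univ_iff_differentiable).2 hG
        have hev : (fun z => ∑ j, c j z0 * u j z) =ᶠ[nhds z0] fun _ => 0 := by
          filter_upwards [isOpen_ball.mem_nhds (mem_ball_self hr)] with y hy
          have := hker 0 (Nat.zero_le _) y hy
          simp only [iteratedDeriv_zero] at this
          rw [← this]
          refine Finset.sum_congr rfl fun j _ => ?_
          rw [hconst j y hy]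
        have := hana.eq_of_eventuallyEq (g := fun _ => 0)
          (fun z _ => analyticAt_const) hev
        intro z
        exact congrFun this z

end Pool.Agent.LibPer37
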