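import Pool.Agent.LibPer37.A04

/-! Task A05 (30-70 lines).

HINT.  `Wr_zero_of_dependent`: the iterated derivatives of `∑ c_i u_i = 0` give a left kernel vector of the
matrix (`Matrix.exists_vecMul_eq_zero_iff` or `Matrix.det_eq_zero_of...`), so the determinant vanishes.
`Wr_app_zero`: `dependent_of_Wr` gives a relation for `T`; extend it by `0` to `app T a`. -/

set_option autoImplicit false

namespace Pool.Agent.LibPer37

theorem A05_iter (n : ℕ) (u : Fin n → ℂ → ℂ) (hu : ∀ i, Differentiable ℂ (u i))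
    (c : Fin n → ℂ) (h : ∀ z, ∑ i, c i * u i z = 0) (a : ℕ) :
    ∀ z, ∑ i, c i * iteratedDeriv a (u i) z = 0 := by
  induction a with
  | zero => simpa using h
  | succ a ih =>
    intro z
    have h1 : HasDerivAt (fun w => ∑ i, c i * iteratedDeriv a (u i) w)
        (∑ i, c i * iteratedDeriv (a + 1) (u i) z) z := by
      refine HasDerivAt.fun_sum fun i _ => ?_
      refine HasDerivAt.const_mul (c i) ?_
      rw [iteratedDeriv_succ]
      exact (iteratedDeriv_differentiable (hu i) a z).hasDerivAt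
    have h2 : (fun w => ∑ i, c i * iteratedDeriv a (u i) w) = fun _ => (0 : ℂ) := funext ih
    rw [h2] at h1
    exact h1.unique (hasDerivAt_const z 0)

theorem Wr_zero_of_dependent (n : ℕ) (u : Fin n → ℂ → ℂ) (hu : ∀ i, Differentiable ℂ (u i))
    (c : Fin n → ℂ) (hc : c ≠ 0) (h : ∀ z, ∑ i, c i * u i z = 0) (z : ℂ) : Wr u z = 0 := by
  unfold Wr
  rw [← Matrix.exists_vecMul_eq_zero_iff]
  refine ⟨c, hc, ?_⟩
  funext a
  have := A05_iter n u hu c h a z
  simpa [Matrix.vecMul, dotProduct] using this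

theorem Wr_app_zero (n : ℕ) (T : Fin n → ℂ → ℂ) (a : ℂ → ℂ) (hT : ∀ i, Differentiable ℂ (T i))
    (ha : Differentiable ℂ a) (h : ∀ z, Wr T z = 0) (z : ℂ) : Wr (app T a) z = 0 := by
  obtain ⟨c, hc, hc0⟩ := dependent_of_Wr n T hT h
  refine Wr_zero_of_dependent (n + 1) (app T a) ?_ (Fin.snoc (α := fun _ => ℂ) c 0) ?_ ?_ z
  · intro i
    refine Fin.lastCases ?_ (fun j => ?_) i
    · unfold app; rw [Fin.snoc_last]; exact ha
    · unfold app; rw [Fin.snoc_castSucc]; exact hT j
  · intro h0
    apply hc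
    funext j
    have := congrFun h0 j.castSucc
    rw [Fin.snoc_castSucc] at this
    simpa using this
  · intro w
    rw [Fin.sum_univ_castSucc]
    unfold app
    simp only [Fin.snoc_castSucc, Fin.snoc_last]
    rw [hc0 w]
    simp

end Pool.Agent.LibPer37
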