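import Pool.Agent.LibPer37.Defs

/-! Task A06 (50-90 lines, pure linear algebra): Cramer bound. -/

set_option autoImplicit false

namespace Pool.Agent.LibPer37

private lemma A06_update {k : ℕ} (V : Fin k → ℂ → ℂ) (u : ℂ → ℂ) (j : Fin k) (z : ℂ) :
    (Matrix.of fun i a : Fin k => iteratedDeriv (a : ℕ) (Function.update V j u i) z) =
      (Matrix.of fun i a : Fin k => iteratedDeriv (a : ℕ) (V i) z).updateRow j
        (fun a : Fin k => iteratedDeriv (a : ℕ) u z) := by
  ext i a
  by_cases hi : i = j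
  · subst hi
    simp
  · simp [Matrix.updateRow_ne hi, Function.update_of_ne hi]

theorem cramer_bound (k : ℕ) (V U : Fin k → ℂ → ℂ) (z : ℂ) (c : ℝ) (hc : 0 ≤ c)
    (hV : Wr V z ≠ 0)
    (h : ∀ i j, ‖Wr (Function.update V j (U i)) z‖ ≤ c * ‖Wr V z‖) :
    ‖Wr U z‖ ≤ (k.factorial : ℝ) * c ^ k * ‖Wr V z‖ := by
  set A : Matrix (Fin k) (Fin k) ℂ := Matrix.of fun i a : Fin k => iteratedDeriv (a : ℕ) (V i) z
    with hA
  set B : Matrix (Fin k) (Fin k) ℂ := Matrix.of fun i a : Fin k => iteratedDeriv (a : ℕ) (U i) z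
    with hB
  have hAdet : A.det ≠ 0 := hV
  have hunit : IsUnit A.det := isUnit_iff_ne_zero.mpr hAdet
  have hWV : Wr V z = A.det := rfl
  have hWU : Wr U z = B.det := rfl
  have hP : ∀ i j, ‖(B * A⁻¹) i j‖ ≤ c := by
    intro i j
    have h1 : A.det * (B * A⁻¹) i j = Wr (Function.update V j (U i)) z := by
      have h2 := congrFun (Matrix.det_smul_inv_vecMul_eq_cramer_transpose A (B i) hunit) j
      rw [Matrix.cramer_transpose_apply] at h2
      have h3 : Wr (Function.update V j (U i)) z = (A.updateRow j (B i)).det := by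
        unfold Wr
        rw [A06_update]
        rfl
      rw [h3, ← h2]
      rfl
    have h4 := h i j
    rw [← h1, norm_mul, hWV, mul_comm] at h4
    exact le_of_mul_le_mul_right h4 (norm_pos_iff.mpr hAdet)
  have hdet : ‖(B * A⁻¹).det‖ ≤ (k.factorial : ℝ) * c ^ k := by
    have h5 := Matrix.det_le (A := B * A⁻¹) (abv := NormedField.toAbsoluteValue ℂ) (x := c) hP
    rw [Fintype.card_fin, nsmul_eq_mul] at h5
    exact h5
  have hBA : B.det = (B * A⁻¹).det * A.det := by
    rw [← Matrix.det_mul, Matrix.mul_assoc, Matrix.nonsing_inv_mul A hunit, Matrix.mul_one]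
  rw [hWU, hWV, hBA, norm_mul]
  exact mul_le_mul_of_nonneg_right hdet (norm_nonneg _)

end Pool.Agent.LibPer37
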