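import Pool.Agent.LibPer37.A03

/-! Task A07 (50-100 lines): derivative of a quotient of Wronskians.

HINT.  Let `T = fun a => V (j.succAbove a)`.  There is a sign `ε = ±1` (a power of `-1`, depending only on
`n, j`; the permutation moving row `j` to the last place) such that for every function `y`
`Wr (Function.update V j y) w = ε * Wr (app T y) w` for all `w`
(`Matrix.det_permute`, or expansion along row `j` and along the last row), in particular
`Wr V w = ε * Wr (app T (V j)) w` (`Function.update_eq_self`).  Likewise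
`Wr (app V x) z = ε' * Wr (app (app T (V j)) x) z` with `ε' = ±1`.
Quotient rule, then `jacobi` with `a = V j`, `b = x`. -/

set_option autoImplicit false

namespace Pool.Agent.LibPer37

private theorem Wr_perm {k : ℕ} (u v : Fin k → ℂ → ℂ) (σ : Equiv.Perm (Fin k))
    (h : ∀ i, u i = v (σ i)) (w : ℂ) :
    Wr u w = ((Equiv.Perm.sign σ : ℤ) : ℂ) * Wr v w := by
  unfold Wr
  rw [← Matrix.det_permute]
  congr 1
  ext i a
  simp [h i]

private theorem norm_sign {k : ℕ} (σ : Equiv.Perm (Fin k)) :
    ‖((Equiv.Perm.sign σ : ℤ) : ℂ)‖ = 1 := by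
  rcases Int.units_eq_one_or (Equiv.Perm.sign σ) with h | h <;> simp [h]

/-- The permutation which moves `j` to the last place. -/
private def mv {n : ℕ} (j : Fin (n + 1)) : Equiv.Perm (Fin (n + 1)) :=
  (finSuccEquiv' (Fin.last n)).trans (finSuccEquiv' j).symm

private theorem mv_last {n : ℕ} (j : Fin (n + 1)) : mv j (Fin.last n) = j := by
  simp [mv]

private theorem mv_castSucc {n : ℕ} (j : Fin (n + 1)) (a : Fin n) :
    mv j (Fin.castSucc a) = j.succAbove a := by
  have h : finSuccEquiv' (Fin.last n) (Fin.castSucc a) = some a := by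
    rw [← Fin.succAbove_last]
    exact finSuccEquiv'_succAbove _ _
  simp [mv, h]

/-- The extension by a fixed last point. -/
private def ext {n : ℕ} (σ : Equiv.Perm (Fin n)) : Equiv.Perm (Fin (n + 1)) :=
  ((finSuccEquiv' (Fin.last n)).trans (Equiv.optionCongr σ)).trans (finSuccEquiv' (Fin.last n)).symm

private theorem ext_last {n : ℕ} (σ : Equiv.Perm (Fin n)) : ext σ (Fin.last n) = Fin.last n := by
  simp [ext]

private theorem ext_castSucc {n : ℕ} (σ : Equiv.Perm (Fin n)) (a : Fin n) :
    ext σ (Fin.castSucc a) = Fin.castSucc (σ a) := by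
  have h : finSuccEquiv' (Fin.last n) (Fin.castSucc a) = some a := by
    rw [← Fin.succAbove_last]
    exact finSuccEquiv'_succAbove _ _
  simp [ext, h, Fin.succAbove_last]

theorem ratio_deriv (n : ℕ) (V : Fin (n + 1) → ℂ → ℂ) (x : ℂ → ℂ) (j : Fin (n + 1)) (z : ℂ)
    (hV : ∀ i, Differentiable ℂ (V i)) (hx : Differentiable ℂ x) (h0 : Wr V z ≠ 0) :
    DifferentiableAt ℂ (fun w => Wr (Function.update V j x) w / Wr V w) z ∧
      ‖deriv (fun w => Wr (Function.update V j x) w / Wr V w) z‖ * ‖Wr V z‖ ^ 2 =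
        ‖Wr (fun a => V (j.succAbove a)) z‖ * ‖Wr (app V x) z‖ := by
  set T : Fin n → ℂ → ℂ := fun a => V (j.succAbove a) with hT
  have happ : ∀ y : ℂ → ℂ, ∀ i, app T y i = Function.update V j y (mv j i) := by
    intro y i
    refine Fin.lastCases ?_ (fun a => ?_) i
    · rw [mv_last, Function.update_self]
      simp [app]
    · rw [mv_castSucc, Function.update_of_ne (Fin.succAbove_ne j a)]
      simp [app, hT]
  have hW : ∀ y : ℂ → ℂ, ∀ w, Wr (app T y) w
      = ((Equiv.Perm.sign (mv j) : ℤ) : ℂ) * Wr (Function.update V j y) w := fun y w =>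
    Wr_perm _ _ (mv j) (happ y) w
  set ε : ℂ := ((Equiv.Perm.sign (mv j) : ℤ) : ℂ) with hε
  have hεn : ‖ε‖ = 1 := norm_sign _
  have hε0 : ε ≠ 0 := by
    intro h
    rw [h, norm_zero] at hεn
    exact zero_ne_one hεn
  have hWV : ∀ w, Wr (app T (V j)) w = ε * Wr V w := by
    intro w
    rw [hW (V j) w, Function.update_eq_self]
  have hfun : (fun w => Wr (Function.update V j x) w / Wr V w)
      = fun w => Wr (app T x) w / Wr (app T (V j)) w := by
    funext w
    rw [hW x w, hWV w, mul_div_mul_left _ _ hε0]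
  have hTd : ∀ i, Differentiable ℂ (T i) := fun i => hV _
  have happd : ∀ y : ℂ → ℂ, Differentiable ℂ y → ∀ i, Differentiable ℂ (app T y i) := by
    intro y hy i
    refine Fin.lastCases ?_ (fun a => ?_) i
    · simpa [app] using hy
    · simpa [app] using hTd a
  have hd1 : DifferentiableAt ℂ (Wr (app T x)) z := Wr_differentiable _ (happd x hx) z
  have hd2 : DifferentiableAt ℂ (Wr (app T (V j))) z := Wr_differentiable _ (happd _ (hV j)) z
  have h0' : Wr (app T (V j)) z ≠ 0 := by
    rw [hWV]
    exact mul_ne_zero hε0 h0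
  have hder : HasDerivAt (fun w => Wr (app T x) w / Wr (app T (V j)) w)
      ((deriv (Wr (app T x)) z * Wr (app T (V j)) z - Wr (app T x) z * deriv (Wr (app T (V j))) z)
        / Wr (app T (V j)) z ^ 2) z := hd1.hasDerivAt.div hd2.hasDerivAt h0'
  have hj := jacobi n T (V j) x hTd (hV j) hx z
  have hnum : deriv (Wr (app T x)) z * Wr (app T (V j)) z
      - Wr (app T x) z * deriv (Wr (app T (V j))) z
      = Wr T z * Wr (app (app T (V j)) x) z := by
    rw [hj]
    ring
  have hnV : ‖Wr (app T (V j)) z‖ = ‖Wr V z‖ := by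
    rw [hWV, norm_mul, hεn, one_mul]
  have happ2 : ∀ i, app (app T (V j)) x i = app V x (ext (mv j) i) := by
    intro i
    refine Fin.lastCases ?_ (fun a => ?_) i
    · rw [ext_last]
      simp [app]
    · rw [ext_castSucc]
      have h1 : app (app T (V j)) x (Fin.castSucc a) = app T (V j) a := by
        simp [app]
      have h2 : app V x (Fin.castSucc (mv j a)) = V (mv j a) := by
        simp [app]
      rw [h1, h2, happ, Function.update_eq_self]
  have hn2 : ‖Wr (app (app T (V j)) x) z‖ = ‖Wr (app V x) z‖ := by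
    rw [Wr_perm _ _ _ happ2 z, norm_mul, norm_sign, one_mul]
  rw [hfun]
  refine ⟨hder.differentiableAt, ?_⟩
  rw [hder.deriv, hnum, norm_div, norm_pow, hnV, norm_mul, hn2]
  have h5 : ‖Wr V z‖ ≠ 0 := norm_ne_zero_iff.mpr h0
  field_simp

end Pool.Agent.LibPer37
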