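import Pool.Agent.LibPer37.Defs

/-! Task A08 (40-80 lines, real analysis): a continuity (trapping) argument.

HINT.  Suppose `‖φ i t‖ > 2` for some `t ∈ [0, L]`.  Let `g t = ⨆ i ‖φ i t‖` (or the maximum over the
finite type; `ι` empty is trivial), continuous on `[0, L]`, `g 0 ≤ 1`.  Let `t₁` be the infimum of the
closed set `{t ∈ [0,L] | 2 ≤ g t}`: then `g t₁ = 2` (so some `‖φ i t₁‖ = 2`) and `g ≤ 2` on `[0, t₁]`, so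
by the mean value inequality (`Convex.norm_image_sub_le_of_norm_hasDerivWithin_le` on `[0,t₁]`)
`‖φ i t₁‖ ≤ 1 + η * t₁ < 2`, contradiction. -/

set_option autoImplicit false

namespace Pool.Agent.LibPer37

theorem trap {ι : Type*} [Finite ι] (φ φ' : ι → ℝ → ℂ) (L η : ℝ) (hL : 0 ≤ L) (hη : 0 ≤ η)
    (hLη : η * L < 1) (h0 : ∀ i, ‖φ i 0‖ ≤ 1)
    (hd : ∀ i, ∀ t ∈ Set.Icc 0 L, HasDerivAt (φ i) (φ' i t) t)
    (hb : ∀ t ∈ Set.Icc 0 L, (∀ i, ‖φ i t‖ ≤ 2) → ∀ i, ‖φ' i t‖ ≤ η) :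
    ∀ t ∈ Set.Icc 0 L, ∀ i, ‖φ i t‖ ≤ 2 := by
  by_contra hcon
  push Not at hcon
  obtain ⟨t₀, ht₀, i₀, hi₀⟩ := hcon
  have hc : ∀ i, ContinuousOn (fun t => ‖φ i t‖) (Set.Icc 0 L) := fun i t ht =>
    ((hd i t ht).continuousAt.norm).continuousWithinAt
  have hcl : ∀ i, IsClosed (Set.Icc 0 L ∩ (fun t => ‖φ i t‖) ⁻¹' Set.Ici 2) := fun i =>
    (hc i).preimage_isClosed_of_isClosed isClosed_Icc isClosed_Ici
  set A : Set ℝ := ⋃ i, (Set.Icc 0 L ∩ (fun t => ‖φ i t‖) ⁻¹' Set.Ici 2) with hA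
  have hAc : IsCompact A := by
    apply isCompact_Icc.of_isClosed_subset (isClosed_iUnion_of_finite hcl)
    intro t ht
    obtain ⟨i, hi⟩ := Set.mem_iUnion.mp ht
    exact hi.1
  obtain ⟨t₁, ht₁, hmin⟩ := hAc.exists_isLeast ⟨t₀, Set.mem_iUnion.mpr ⟨i₀, ht₀, hi₀.le⟩⟩
  obtain ⟨i₁, hi₁, hn⟩ := Set.mem_iUnion.mp ht₁
  have hlt : ∀ t ∈ Set.Ico 0 t₁, ∀ i, ‖φ i t‖ ≤ 2 := by
    intro t ht i
    by_contra hgt
    push Not at hgt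
    have hm : t ∈ A := Set.mem_iUnion.mpr ⟨i, ⟨ht.1, ht.2.le.trans hi₁.2⟩, hgt.le⟩
    exact absurd (hmin hm) (not_le.mpr ht.2)
  have h1 := norm_image_sub_le_of_norm_deriv_right_le_segment (f := φ i₁) (a := 0) (b := t₁)
    (f' := φ' i₁) (C := η)
    (fun t ht => (hd i₁ t ⟨ht.1, ht.2.trans hi₁.2⟩).continuousAt.continuousWithinAt)
    (fun t ht => (hd i₁ t ⟨ht.1, ht.2.le.trans hi₁.2⟩).hasDerivWithinAt)
    (fun t ht => hb t ⟨ht.1, ht.2.le.trans hi₁.2⟩ (hlt t ht) i₁) t₁ ⟨hi₁.1, le_refl _⟩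
  have h2 : ‖φ i₁ t₁‖ ≤ ‖φ i₁ t₁ - φ i₁ 0‖ + ‖φ i₁ 0‖ := by
    have := norm_add_le (φ i₁ t₁ - φ i₁ 0) (φ i₁ 0)
    rwa [sub_add_cancel] at this
  have h3 : (2 : ℝ) ≤ ‖φ i₁ t₁‖ := hn
  have h4 : η * (t₁ - 0) ≤ η * L := by
    apply mul_le_mul_of_nonneg_left _ hη
    rw [sub_zero]
    exact hi₁.2
  have h5 := h0 i₁
  linarith

end Pool.Agent.LibPer37
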