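import Pool.Agent.LibPer37.Defs2
import Pool.Agent.LibPer37.A02

/-! Task B01 (60-110 lines): rotations.

HINT.  `ZMod.stdAddChar` is an additive character (`AddChar.map_add_eq_mul`), `AddChar.norm_apply`
gives norm one.  `iteratedDeriv a (fun z => f (c * z)) = fun z => c ^ a * iteratedDeriv a f (c * z)`
(`iteratedDeriv_comp_const_mul` or induction).  Hence the matrix of `WS f (fun a => s a + i)` at `z` is the
matrix of `WS f s` at `ζ^i z` with column `a` multiplied by `(ζ^i)^a` (`Matrix.det_mul_column`), and the norm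
does not change.  `Mx_rot`: the shift `s ↦ (fun a => s a + i)` is a bijection of the tuples.
`Mx_continuous`: finite supremum of continuous functions (`Continuous.finset_sup'_apply` or similar).
`norm_WS_perm`: `Matrix.det_permute`. -/

set_option autoImplicit false

open Filter Topology

namespace Pool.Agent.LibPer37

variable {q : ℕ} [NeZero q]

theorem norm_char (i : ZMod q) : ‖(ZMod.stdAddChar i : ℂ)‖ = 1 := AddChar.norm_apply _ _

theorem rot_add (f : ℂ → ℂ) (j i : ZMod q) (z : ℂ) :
    rot f (j + i) z = rot f j (ZMod.stdAddChar i * z) := by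
  unfold rot
  rw [AddChar.map_add_eq_mul, mul_assoc]

theorem WS_differentiable {f : ℂ → ℂ} (hf : Differentiable ℂ f) {k : ℕ} (s : Fin k → ZMod q) :
    Differentiable ℂ (WS f s) :=
  Wr_differentiable _ fun i => rot_differentiable hf (s i)

theorem norm_WS_shift {f : ℂ → ℂ} (hf : Differentiable ℂ f) {k : ℕ} (s : Fin k → ZMod q) (i : ZMod q)
    (z : ℂ) : ‖WS f (fun a => s a + i) z‖ = ‖WS f s (ZMod.stdAddChar i * z)‖ := by
  have h1 : ∀ (j : ZMod q) (a : ℕ), iteratedDeriv a (rot f (j + i)) z =
      (ZMod.stdAddChar i : ℂ) ^ a * iteratedDeriv a (rot f j) (ZMod.stdAddChar i * z) := by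
    intro j a
    have h2 : rot f (j + i) = fun z => rot f j (ZMod.stdAddChar i * z) := by
      funext w
      exact rot_add f j i w
    have h3 : ContDiff ℂ a (rot f j) := (rot_differentiable hf j).contDiff
    rw [h2, iteratedDeriv_comp_const_mul h3]
  have h4 : (Matrix.of fun b a : Fin k => iteratedDeriv (a : ℕ) (rot f (s b + i)) z) =
      Matrix.of fun b a : Fin k => (ZMod.stdAddChar i : ℂ) ^ (a : ℕ) *
        (Matrix.of fun b a : Fin k => iteratedDeriv (a : ℕ) (rot f (s b))
          (ZMod.stdAddChar i * z)) b a := by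
    ext b a
    simp only [Matrix.of_apply]
    exact h1 _ _
  unfold WS Wr
  rw [h4, Matrix.det_mul_row, norm_mul, norm_prod]
  have h5 : ∏ a : Fin k, ‖(ZMod.stdAddChar i : ℂ) ^ (a : ℕ)‖ = 1 := by
    refine Finset.prod_eq_one (fun a _ => ?_)
    rw [norm_pow, norm_char, one_pow]
  rw [h5, one_mul]

theorem Mx_rot {f : ℂ → ℂ} (hf : Differentiable ℂ f) (k : ℕ) (i : ZMod q) (z : ℂ) :
    Mx q f k (ZMod.stdAddChar i * z) = Mx q f k z := by
  refine le_antisymm (Finset.sup'_le _ _ fun s _ => ?_) (Finset.sup'_le _ _ fun s _ => ?_)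
  · rw [← norm_WS_shift hf s i z]
    exact norm_WS_le_Mx f _ z
  · have h1 : s = fun a => (s a - i) + i := by
      funext a
      ring
    rw [h1, norm_WS_shift hf (fun a => s a - i) i z]
    exact norm_WS_le_Mx f _ _

theorem Mx_continuous {f : ℂ → ℂ} (hf : Differentiable ℂ f) (k : ℕ) : Continuous (Mx q f k) := by
  unfold Mx
  exact Continuous.finset_sup'_apply _ (fun s _ => (WS_differentiable hf s).continuous.norm)

theorem norm_WS_perm (f : ℂ → ℂ) {k : ℕ} (s : Fin k → ZMod q) (σ : Equiv.Perm (Fin k)) (z : ℂ) :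
    ‖WS f (fun a => s (σ a)) z‖ = ‖WS f s z‖ := by
  unfold WS Wr
  have h1 : (Matrix.of fun b a : Fin k => iteratedDeriv (a : ℕ) (rot f (s (σ b))) z) =
      (Matrix.of fun b a : Fin k => iteratedDeriv (a : ℕ) (rot f (s b)) z).submatrix σ id := by
    ext b a
    rfl
  rw [h1, Matrix.det_permute, norm_mul]
  have h2 : ‖(((Equiv.Perm.sign σ : ℤˣ) : ℤ) : ℂ)‖ = 1 := by
    rcases Int.units_eq_one_or (Equiv.Perm.sign σ) with h | h
    · rw [h]
      simp
    · rw [h]
      simp
  rw [h2, one_mul]

/-- moving one entry to the last place -/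
theorem norm_WS_move (f : ℂ → ℂ) {k : ℕ} (s : Fin (k + 1) → ZMod q) (p : Fin (k + 1)) (z : ℂ) :
    ‖WS f (appZ (fun a => s (p.succAbove a)) (s p)) z‖ = ‖WS f s z‖ := by
  set g : Fin (k + 1) → Fin (k + 1) :=
    Fin.snoc (α := fun _ => Fin (k + 1)) (fun a => p.succAbove a) p with hg
  have hg1 : ∀ a : Fin k, g a.castSucc = p.succAbove a := by
    intro a
    simp [hg]
  have hg2 : g (Fin.last k) = p := by simp [hg]
  have hinj : Function.Injective g := by
    intro a b hab
    induction a using Fin.lastCases with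
    | last =>
      induction b using Fin.lastCases with
      | last => rfl
      | cast b =>
        rw [hg1, hg2] at hab
        exact absurd hab.symm (Fin.succAbove_ne p b)
    | cast a =>
      induction b using Fin.lastCases with
      | last =>
        rw [hg1, hg2] at hab
        exact absurd hab (Fin.succAbove_ne p a)
      | cast b =>
        rw [hg1, hg1] at hab
        rw [Fin.succAbove_right_injective hab]
  have hbij : Function.Bijective g := Finite.injective_iff_bijective.1 hinj
  have h1 : appZ (fun a => s (p.succAbove a)) (s p) =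
      fun a => s ((Equiv.ofBijective g hbij) a) := by
    funext a
    rw [Equiv.ofBijective_apply]
    induction a using Fin.lastCases with
    | last => simp [appZ, hg2]
    | cast a => simp [appZ, hg1]
  rw [h1]
  exact norm_WS_perm f s _ z

theorem Mx_zero (f : ℂ → ℂ) (z : ℂ) : Mx q f 0 z = 1 := by
  obtain ⟨s, hs⟩ := exists_Mx (q := q) f 0 z
  rw [← hs]
  unfold WS Wr
  rw [Matrix.det_isEmpty]
  simp

theorem B01_WS_one (f : ℂ → ℂ) (s : Fin 1 → ZMod q) (z : ℂ) : WS f s z = rot f (s 0) z := by
  unfold WS Wr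
  rw [Matrix.det_unique]
  simp

theorem Mx_one (f : ℂ → ℂ) (z : ℂ) :
    (∀ j : ZMod q, ‖rot f j z‖ ≤ Mx q f 1 z) ∧ ∃ j : ZMod q, Mx q f 1 z = ‖rot f j z‖ := by
  constructor
  · intro j
    have h := norm_WS_le_Mx f (fun _ : Fin 1 => j) z
    rwa [B01_WS_one] at h
  · obtain ⟨s, hs⟩ := exists_Mx (q := q) f 1 z
    refine ⟨s 0, ?_⟩
    rw [← hs, B01_WS_one]

end Pool.Agent.LibPer37
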