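import Pool.Agent.LibPer37.B01
import Pool.Agent.LibPer37.A03
import Pool.Agent.LibPer37.A05

/-! Task B02 (60-100 lines): fact (P). -/

set_option autoImplicit false

namespace Pool.Agent.LibPer37

variable {q : ℕ} [NeZero q]

/-- the derivative bound holds also for Wronskians that vanish identically -/
theorem Good.deriv_le {f : ℂ → ℂ} {M C : ℕ} {r : ℝ} (hg : Good q f M C r) {k : ℕ} (hk : k ≤ M + 1)
    (s : Fin k → ZMod q) {z : ℂ} (hz : ‖z‖ = r) : ‖deriv (WS f s) z‖ ≤ r ^ C * ‖WS f s z‖ := by
  by_cases hs : ∃ z, WS f s z ≠ 0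
  · exact (hg k hk s hs z hz).2
  · have h0 : ∀ z, WS f s z = 0 := fun w => by
      by_contra hw
      exact hs ⟨w, hw⟩
    have h1 : WS f s = fun _ => (0 : ℂ) := funext h0
    rw [h1]
    simp

theorem fact_P {f : ℂ → ℂ} (hf : Differentiable ℂ f) {M C : ℕ} {r : ℝ} (hr : 1 ≤ r)
    (hg : Good q f M C r) (k : ℕ) (hk : k ≤ M) (T : Fin k → ZMod q) (j : ZMod q) {z : ℂ}
    (hz : ‖z‖ = r) :
    ‖WS f (appZ T j) z‖ ≤ (2 * r ^ C) ^ k * ‖WS f T z‖ * ‖rot f j z‖ := by
  have hr0 : 0 ≤ r ^ C := pow_nonneg (by linarith) C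
  induction k generalizing j with
  | zero =>
    have h1 : WS f (appZ T j) z = rot f j z := by
      rw [WS_appZ]
      unfold Wr
      rw [Matrix.det_fin_one]
      simp [app]
      rfl
    have h2 : WS f T z = 1 := by
      unfold WS Wr
      exact Matrix.det_fin_zero
    rw [h1, h2]
    simp
  | succ k ih =>
    set T' : Fin k → ZMod q := fun i => T i.castSucc with hT'
    set t : ZMod q := T (Fin.last k) with ht
    have hT : T = appZ T' t := (Fin.snoc_init_self T).symm
    have hd : ∀ i, Differentiable ℂ (fun z => rot f (T' i) z) := fun i => rot_differentiable hf _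
    have hrow : (fun i => rot f (T i)) = app (fun i => rot f (T' i)) (rot f t) := by
      have h := rot_appZ f T' t
      rw [← hT] at h
      exact h
    have hWT : WS f T = Wr (app (fun i => rot f (T' i)) (rot f t)) := by
      unfold WS
      rw [hrow]
    have hWTj : WS f (appZ T j) =
        Wr (app (app (fun i => rot f (T' i)) (rot f t)) (rot f j)) := by
      rw [WS_appZ, hrow]
    have hWT'j : WS f (appZ T' j) = Wr (app (fun i => rot f (T' i)) (rot f j)) := WS_appZ f T' j
    have hWT' : WS f T' = Wr (fun i => rot f (T' i)) := rfl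
    by_cases h0 : ∀ z, WS f T' z = 0
    · have h1 : ∀ z, Wr (fun i => rot f (T i)) z = 0 := by
        intro w
        rw [hrow]
        exact Wr_app_zero k _ (rot f t) hd (rot_differentiable hf t) h0 w
      have h2 : WS f (appZ T j) z = 0 := by
        rw [WS_appZ]
        exact Wr_app_zero (k + 1) _ (rot f j) (fun i => rot_differentiable hf _)
          (rot_differentiable hf j) h1 z
      rw [h2, norm_zero]
      positivity
    · have hex : ∃ z, WS f T' z ≠ 0 := by
        by_contra hne
        exact h0 fun w => by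
          by_contra hw
          exact hne ⟨w, hw⟩
      have hpos : 0 < ‖WS f T' z‖ :=
        norm_pos_iff.mpr (hg k (by omega) T' hex z hz).1
      have hj := jacobi k (fun i => rot f (T' i)) (rot f t) (rot f j) hd
        (rot_differentiable hf t) (rot_differentiable hf j) z
      rw [← hWT', ← hWTj, ← hWT, ← hWT'j] at hj
      have hn := congrArg (fun x : ℂ => ‖x‖) hj
      simp only [norm_mul] at hn
      have hdT := hg.deriv_le (k := k + 1) (by omega) T hz
      have hdT' := hg.deriv_le (k := k + 1) (by omega) (appZ T' j) hz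
      have hih := ih (by omega) T' j
      have hb : ‖WS f T z * deriv (WS f (appZ T' j)) z - deriv (WS f T) z * WS f (appZ T' j) z‖ ≤
          2 * r ^ C * ‖WS f T z‖ * ‖WS f (appZ T' j) z‖ := by
        refine (norm_sub_le _ _).trans ?_
        rw [norm_mul, norm_mul]
        have e1 : ‖WS f T z‖ * ‖deriv (WS f (appZ T' j)) z‖ ≤
            ‖WS f T z‖ * (r ^ C * ‖WS f (appZ T' j) z‖) :=
          mul_le_mul_of_nonneg_left hdT' (norm_nonneg _)
        have e2 : ‖deriv (WS f T) z‖ * ‖WS f (appZ T' j) z‖ ≤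
            r ^ C * ‖WS f T z‖ * ‖WS f (appZ T' j) z‖ :=
          mul_le_mul_of_nonneg_right hdT (norm_nonneg _)
        nlinarith [e1, e2]
      have hc : 0 ≤ 2 * r ^ C * ‖WS f T z‖ := by positivity
      have hfin : ‖WS f T' z‖ * ‖WS f (appZ T j) z‖ ≤
          ‖WS f T' z‖ * ((2 * r ^ C) ^ (k + 1) * ‖WS f T z‖ * ‖rot f j z‖) := by
        calc ‖WS f T' z‖ * ‖WS f (appZ T j) z‖
            = ‖WS f T z * deriv (WS f (appZ T' j)) z -
                deriv (WS f T) z * WS f (appZ T' j) z‖ := hn
          _ ≤ 2 * r ^ C * ‖WS f T z‖ * ‖WS f (appZ T' j) z‖ := hb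
          _ ≤ 2 * r ^ C * ‖WS f T z‖ * ((2 * r ^ C) ^ k * ‖WS f T' z‖ * ‖rot f j z‖) :=
              mul_le_mul_of_nonneg_left hih hc
          _ = ‖WS f T' z‖ * ((2 * r ^ C) ^ (k + 1) * ‖WS f T z‖ * ‖rot f j z‖) := by ring
      exact le_of_mul_le_mul_left hfin hpos

end Pool.Agent.LibPer37
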