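import Pool.Agent.LibPer37.B02

/-! Task B03 (40-70 lines): fact (A).

HINT.  Choose tuples `S`, `T` with `‖WS f S z‖ = Mx q f (n+2) z`, `‖WS f T z‖ = Mx q f n z` (`exists_Mx`) and
apply `star`; each of the `n + 2` summands is at most `Mx (n+1) * (r^C * Mx (n+1))` by `norm_WS_le_Mx`,
`WS_appZ` and `Good.deriv_le` (length `n + 1 ≤ M + 1`). -/

set_option autoImplicit false

namespace Pool.Agent.LibPer37

variable {q : ℕ} [NeZero q]

theorem fact_A {f : ℂ → ℂ} (hf : Differentiable ℂ f) {M C : ℕ} {r : ℝ} (hr : 1 ≤ r)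
    (hg : Good q f M C r) (n : ℕ) (hn : n ≤ M) {z : ℂ} (hz : ‖z‖ = r) :
    Mx q f (n + 2) z * Mx q f n z ≤ (n + 2) * r ^ C * Mx q f (n + 1) z ^ 2 := by
  obtain ⟨S, hS⟩ := exists_Mx (q := q) f (n + 2) z
  obtain ⟨T, hT⟩ := exists_Mx (q := q) f n z
  have h1 := star n (fun i => rot f (S i)) (fun i => rot f (T i))
    (fun i => rot_differentiable hf _) (fun i => rot_differentiable hf _) z
  have hrC : (0 : ℝ) ≤ r ^ C := by positivity
  rw [← hS, ← hT, ← norm_mul]
  show ‖Wr (fun i => rot f (S i)) z * Wr (fun i => rot f (T i)) z‖ ≤ _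
  rw [h1]
  refine (norm_sum_le _ _).trans ?_
  have h2 : ∀ i : Fin (n + 2), ‖(-1 : ℂ) ^ ((i : ℕ) + n + 1) *
      Wr (fun a => rot f (S (i.succAbove a))) z *
        deriv (Wr (app (fun i => rot f (T i)) (rot f (S i)))) z‖
      ≤ Mx q f (n + 1) z * (r ^ C * Mx q f (n + 1) z) := by
    intro i
    rw [norm_mul, norm_mul, norm_pow, norm_neg, norm_one, one_pow, one_mul]
    have e1 : ‖Wr (fun a => rot f (S (i.succAbove a))) z‖ ≤ Mx q f (n + 1) z :=
      norm_WS_le_Mx f (fun a => S (i.succAbove a)) z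
    have e2 : ‖deriv (Wr (app (fun i => rot f (T i)) (rot f (S i)))) z‖
        ≤ r ^ C * Mx q f (n + 1) z := by
      rw [← WS_appZ]
      refine (hg.deriv_le (by omega) _ hz).trans ?_
      exact mul_le_mul_of_nonneg_left (norm_WS_le_Mx f _ z) hrC
    exact mul_le_mul e1 e2 (norm_nonneg _) (Mx_nonneg _ _ _)
  refine (Finset.sum_le_sum (fun i _ => h2 i)).trans ?_
  rw [Finset.sum_const, Finset.card_univ, Fintype.card_fin, nsmul_eq_mul]
  push_cast
  apply le_of_eq
  ring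

end Pool.Agent.LibPer37
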