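import Pool.Agent.LibPer37.B02
import Pool.Agent.LibPer37.A06
import Pool.Agent.LibPer37.A07
import Pool.Agent.LibPer37.A08

/-! Task B04 (120-180 lines): fact (B), the gap lemma.

HINT.  Write `K = (n+1)! * 2^(n+1)`.  If `Mx q f (n+1) z = 0` the claim is trivial (its right side is
nonnegative), so let it be positive at the given point `z` of the circle; this point is also called `z₀`.
Choose `V : Fin (n+1) → ZMod q` with
`‖WS f V z₀‖ = Mx q f (n+1) z₀`; as `WS f V` is not identically zero it has no zero on the circle (`hg`).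
For `p : Fin (n+1)`, `u : ZMod q` let
`Φ p u w = Wr (Function.update (fun i => rot f (V i)) p (rot f u)) w / WS f V w`
(the numerator is `WS f (Function.update V p u)`) and `φ (p,u) t = Φ p u (z₀ * exp (i t))`, `t ∈ [0, 2π]`.
`‖φ (p,u) 0‖ ≤ 1` because the numerator is at most `Mx q f (n+1) z₀`.  As long as all `‖φ‖ ≤ 2`,
`cramer_bound` (with `c = 2`, for every tuple `U`) gives `Mx q f (n+1) w ≤ K * ‖WS f V w‖`, so by `ratio_deriv`
`‖φ'‖ = r ‖Φ'‖ ≤ r * Mx n w * Mx (n+2) w / ‖WS f V w‖^2 ≤ r * K^2 * Mx n w * Mx (n+2) w / Mx (n+1) w ^ 2 ≤ 1/(4π)`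
(the removed tuple `V ∘ succAbove` has length `n`, the enlarged one length `n+2`; if
`Mx q f (n+1) w = 0` then the numerator of `hgap` forces... but `WS f V w ≠ 0`, so it is positive).
`trap` with `L = 2π`, `η = 1/(4π)` shows `‖φ‖ ≤ 2` on `[0,2π]`, so
`Mx q f (n+1) w ≤ K * ‖WS f V w‖` for all `w` on the circle.
Let `j` be given, `i = j - V 0` and `V' a = V a + i`, so `V' 0 = j`.  By `norm_WS_shift` and `Mx_rot`
`‖WS f V' z‖ = ‖WS f V (ζ^i z)‖ ≥ Mx q f (n+1) (ζ^i z) / K = Mx q f (n+1) z / K`.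
Move the entry `V' 0 = j` to the end (`norm_WS_move`) and apply `fact_P` (length `n`). -/

set_option autoImplicit false

namespace Pool.Agent.LibPer37

variable {q : ℕ} [NeZero q]

theorem B04_update (f : ℂ → ℂ) {k : ℕ} (V : Fin k → ZMod q) (p : Fin k) (u : ZMod q) :
    Wr (Function.update (fun i => rot f (V i)) p (rot f u)) = WS f (Function.update V p u) := by
  unfold WS
  congr 1
  funext i
  by_cases h : i = p
  · subst h
    rw [Function.update_self, Function.update_self]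
  · rw [Function.update_of_ne h, Function.update_of_ne h]

/-- every point of the circle is on the path -/
theorem B04_path (z w : ℂ) (hz : z ≠ 0) (h : ‖w‖ = ‖z‖) :
    ∃ t ∈ Set.Icc (0 : ℝ) (2 * Real.pi), w = z * Complex.exp (t * Complex.I) := by
  have hz' : 0 < ‖z‖ := norm_pos_iff.2 hz
  have h1 : ‖w / z‖ = 1 := by rw [norm_div, h, div_self hz'.ne']
  have h2 : w = z * Complex.exp ((w / z).arg * Complex.I) := by
    have := Complex.norm_mul_exp_arg_mul_I (w / z)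
    rw [h1, Complex.ofReal_one, one_mul] at this
    rw [this]
    field_simp
  have hpi := Real.pi_pos
  rcases le_or_gt 0 (w / z).arg with h3 | h3
  · refine ⟨(w / z).arg, ⟨h3, ?_⟩, h2⟩
    have := Complex.arg_le_pi (w / z)
    linarith
  · refine ⟨(w / z).arg + 2 * Real.pi, ⟨?_, by linarith⟩, ?_⟩
    · have := Complex.neg_pi_lt_arg (w / z)
      linarith
    · have e1 : (((w / z).arg + 2 * Real.pi : ℝ) : ℂ) * Complex.I =
          (w / z).arg * Complex.I + 2 * Real.pi * Complex.I := by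
        push_cast
        ring
      rw [e1, Complex.exp_add, Complex.exp_two_pi_mul_I, mul_one]
      exact h2

theorem B04_all {f : ℂ → ℂ} (hf : Differentiable ℂ f) {r : ℝ} (hr : 1 ≤ r) (n : ℕ)
    (hgap : ∀ z : ℂ, ‖z‖ = r → Mx q f (n + 2) z * Mx q f n z *
      (4 * Real.pi * r * (((n + 1).factorial : ℝ) * 2 ^ (n + 1)) ^ 2) ≤ Mx q f (n + 1) z ^ 2)
    {z : ℂ} (hz : ‖z‖ = r) (V : Fin (n + 1) → ZMod q) (hV : ‖WS f V z‖ = Mx q f (n + 1) z)
    (hne : ∀ w : ℂ, ‖w‖ = r → WS f V w ≠ 0) {w : ℂ} (hw : ‖w‖ = r) :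
    Mx q f (n + 1) w ≤ ((n + 1).factorial : ℝ) * 2 ^ (n + 1) * ‖WS f V w‖ := by
  have hr0 : 0 < r := by linarith
  have hpi := Real.pi_pos
  have hK : (0 : ℝ) < ((n + 1).factorial : ℝ) * 2 ^ (n + 1) := by positivity
  set K : ℝ := ((n + 1).factorial : ℝ) * 2 ^ (n + 1) with hKdef
  have hz0 : z ≠ 0 := by
    rw [← norm_pos_iff, hz]
    exact hr0
  -- Cramer
  have hcr : ∀ w : ℂ, ‖w‖ = r → (∀ (p : Fin (n + 1)) (u : ZMod q),
      ‖Wr (Function.update (fun i => rot f (V i)) p (rot f u)) w / WS f V w‖ ≤ 2) →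
      Mx q f (n + 1) w ≤ K * ‖WS f V w‖ := by
    intro w hw h2
    obtain ⟨U, hU⟩ := exists_Mx (q := q) f (n + 1) w
    rw [← hU]
    have hpos : 0 < ‖WS f V w‖ := norm_pos_iff.2 (hne w hw)
    refine cramer_bound (n + 1) (fun i => rot f (V i)) (fun i => rot f (U i)) w 2 (by norm_num)
      (hne w hw) ?_
    intro i j
    have := h2 j (U i)
    rw [norm_div, div_le_iff₀ hpos] at this
    exact this
  -- the path
  set c : ℝ → ℂ := fun t => z * Complex.exp (t * Complex.I) with hc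
  have hcn : ∀ t, ‖c t‖ = r := by
    intro t
    rw [hc]
    simp only []
    rw [norm_mul, Complex.norm_exp_ofReal_mul_I, mul_one, hz]
  have hcd : ∀ t : ℝ, HasDerivAt c (c t * Complex.I) t := by
    intro t
    have h1 : HasDerivAt (fun t : ℝ => ((t : ℂ) * Complex.I)) (1 * Complex.I) t :=
      (Complex.ofRealCLM.hasDerivAt (x := t)).mul_const _
    have h2 := (h1.cexp).const_mul z
    have e1 : c t * Complex.I = z * (Complex.exp (t * Complex.I) * (1 * Complex.I)) := by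
      rw [hc]
      ring
    rw [e1]
    exact h2
  set Φ : Fin (n + 1) × ZMod q → ℂ → ℂ := fun x w =>
    Wr (Function.update (fun i => rot f (V i)) x.1 (rot f x.2)) w /
      Wr (fun i => rot f (V i)) w with hΦ
  have hrat : ∀ (x : Fin (n + 1) × ZMod q) (w : ℂ), ‖w‖ = r →
      DifferentiableAt ℂ (Φ x) w ∧ ‖deriv (Φ x) w‖ * ‖WS f V w‖ ^ 2 ≤
        Mx q f n w * Mx q f (n + 2) w := by
    intro x w hw
    obtain ⟨h1, h2⟩ := ratio_deriv n (fun i => rot f (V i)) (rot f x.2) x.1 w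
      (fun i => rot_differentiable hf _) (rot_differentiable hf _) (hne w hw)
    refine ⟨h1, ?_⟩
    refine (le_of_eq h2).trans ?_
    refine mul_le_mul ?_ ?_ (norm_nonneg _) (Mx_nonneg _ _ _)
    · exact norm_WS_le_Mx f (fun a => V (x.1.succAbove a)) w
    · rw [← WS_appZ]
      exact norm_WS_le_Mx f (appZ V x.2) w
  have htrap := trap (fun x t => Φ x (c t)) (fun x t => deriv (Φ x) (c t) * (c t * Complex.I))
    (2 * Real.pi) (1 / (4 * Real.pi)) (by positivity) (by positivity) (by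
      have : 1 / (4 * Real.pi) * (2 * Real.pi) = 1 / 2 := by field_simp; norm_num
      rw [this]
      norm_num) ?_ ?_ ?_
  · -- conclusion
    obtain ⟨t, ht, hwt⟩ := B04_path z w hz0 (by rw [hw, hz])
    refine hcr w hw fun p u => ?_
    have := htrap t ht (p, u)
    have e1 : c t = w := hwt.symm
    rw [e1] at this
    exact this
  · -- at the start
    rintro ⟨p, u⟩
    have e1 : c 0 = z := by
      rw [hc]
      simp
    have e2 : Φ (p, u) (c 0) = WS f (Function.update V p u) z / WS f V z := by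
      rw [e1, ← B04_update]
      rfl
    rw [e2, norm_div, hV]
    exact div_le_one_of_le₀ (norm_WS_le_Mx _ _ _) (Mx_nonneg _ _ _)
  · -- derivative
    intro x t _
    exact (hrat x (c t) (hcn t)).1.hasDerivAt.comp_of_eq t (hcd t) rfl
  · -- bound
    intro t _ h2 x
    have hM := hcr (c t) (hcn t) (fun p u => h2 (p, u))
    have hpos : 0 < ‖WS f V (c t)‖ := norm_pos_iff.2 (hne _ (hcn t))
    have h3 := (hrat x (c t) (hcn t)).2
    have h4 := hgap (c t) (hcn t)
    have h5 : Mx q f (n + 1) (c t) ^ 2 ≤ (K * ‖WS f V (c t)‖) ^ 2 :=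
      pow_le_pow_left₀ (Mx_nonneg _ _ _) hM 2
    have h6 : ‖deriv (Φ x) (c t)‖ * ‖WS f V (c t)‖ ^ 2 * (4 * Real.pi * r * K ^ 2) ≤
        (K * ‖WS f V (c t)‖) ^ 2 := by
      calc ‖deriv (Φ x) (c t)‖ * ‖WS f V (c t)‖ ^ 2 * (4 * Real.pi * r * K ^ 2)
          ≤ Mx q f n (c t) * Mx q f (n + 2) (c t) * (4 * Real.pi * r * K ^ 2) :=
            mul_le_mul_of_nonneg_right h3 (by positivity)
        _ = Mx q f (n + 2) (c t) * Mx q f n (c t) * (4 * Real.pi * r * K ^ 2) := by ring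
        _ ≤ Mx q f (n + 1) (c t) ^ 2 := h4
        _ ≤ _ := h5
    have h7 : ‖deriv (Φ x) (c t)‖ * r * (4 * Real.pi) ≤ 1 := by
      have h8 : 0 < K ^ 2 * ‖WS f V (c t)‖ ^ 2 := by positivity
      have h9 : ‖deriv (Φ x) (c t)‖ * r * (4 * Real.pi) * (K ^ 2 * ‖WS f V (c t)‖ ^ 2) ≤
          1 * (K ^ 2 * ‖WS f V (c t)‖ ^ 2) := by
        calc ‖deriv (Φ x) (c t)‖ * r * (4 * Real.pi) * (K ^ 2 * ‖WS f V (c t)‖ ^ 2)
            = ‖deriv (Φ x) (c t)‖ * ‖WS f V (c t)‖ ^ 2 * (4 * Real.pi * r * K ^ 2) := by ring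
          _ ≤ (K * ‖WS f V (c t)‖) ^ 2 := h6
          _ = 1 * (K ^ 2 * ‖WS f V (c t)‖ ^ 2) := by ring
      exact le_of_mul_le_mul_right h9 h8
    rw [norm_mul, norm_mul, Complex.norm_I, mul_one, hcn, le_div_iff₀ (by positivity)]
    exact h7

theorem fact_B {f : ℂ → ℂ} (hf : Differentiable ℂ f) {M C : ℕ} {r : ℝ} (hr : 1 ≤ r)
    (hg : Good q f M C r) (n : ℕ) (hn : n + 1 ≤ M)
    (hgap : ∀ z : ℂ, ‖z‖ = r → Mx q f (n + 2) z * Mx q f n z *
      (4 * Real.pi * r * (((n + 1).factorial : ℝ) * 2 ^ (n + 1)) ^ 2) ≤ Mx q f (n + 1) z ^ 2)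
    {z : ℂ} (hz : ‖z‖ = r) (j : ZMod q) :
    Mx q f (n + 1) z ≤ (((n + 1).factorial : ℝ) * 2 ^ (n + 1)) * (2 * r ^ C) ^ n *
      Mx q f n z * ‖rot f j z‖ := by
  have hr0 : 0 < r := by linarith
  have hK : (0 : ℝ) < ((n + 1).factorial : ℝ) * 2 ^ (n + 1) := by positivity
  have hMn := Mx_nonneg (q := q) f n z
  rcases (Mx_nonneg (q := q) f (n + 1) z).eq_or_lt with h0 | h0
  · rw [← h0]
    positivity
  obtain ⟨V, hV⟩ := exists_Mx (q := q) f (n + 1) z
  have hVz : WS f V z ≠ 0 := by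
    rw [← norm_pos_iff, hV]
    exact h0
  have hne : ∀ w : ℂ, ‖w‖ = r → WS f V w ≠ 0 := fun w hw =>
    (hg (n + 1) (by omega) V ⟨z, hVz⟩ w hw).1
  set i : ZMod q := j - V 0 with hi
  set V' : Fin (n + 1) → ZMod q := fun a => V a + i with hV'
  have hV0 : V' 0 = j := by
    rw [hV', hi]
    ring
  have hrz : ‖(ZMod.stdAddChar i : ℂ) * z‖ = r := by
    rw [norm_mul, norm_char, one_mul, hz]
  have h1 : Mx q f (n + 1) z ≤ ((n + 1).factorial : ℝ) * 2 ^ (n + 1) * ‖WS f V' z‖ := by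
    rw [hV', norm_WS_shift hf V i z, ← Mx_rot hf (n + 1) i z]
    exact B04_all hf hr n hgap hz V hV hne hrz
  have h2 := norm_WS_move f V' 0 z
  rw [hV0] at h2
  have h3 := fact_P hf hr hg n (by omega) (fun a => V' (Fin.succAbove 0 a)) j hz
  rw [h2] at h3
  calc Mx q f (n + 1) z ≤ ((n + 1).factorial : ℝ) * 2 ^ (n + 1) * ‖WS f V' z‖ := h1
    _ ≤ ((n + 1).factorial : ℝ) * 2 ^ (n + 1) * ((2 * r ^ C) ^ n *
          ‖WS f (fun a => V' (Fin.succAbove 0 a)) z‖ * ‖rot f j z‖) :=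
        mul_le_mul_of_nonneg_left h3 hK.le
    _ ≤ ((n + 1).factorial : ℝ) * 2 ^ (n + 1) * ((2 * r ^ C) ^ n *
          Mx q f n z * ‖rot f j z‖) := by
        refine mul_le_mul_of_nonneg_left ?_ hK.le
        refine mul_le_mul_of_nonneg_right ?_ (norm_nonneg _)
        exact mul_le_mul_of_nonneg_left (norm_WS_le_Mx _ _ _) (by positivity)
    _ = _ := by ring

end Pool.Agent.LibPer37
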