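import Pool.Agent.LibPer37.B02

/-! Task B05 (100-150 lines): fact (C), the top level.

HINT.  `lower_level`: if all `WS f s`, `s : Fin k → ZMod q`, vanish identically then so do all of length `k + 1`
(`Fin.snoc_init_self`, `Wr_app_zero`); downward induction from `M`.
`fact_C`: choose `V : Fin (n+1) → ZMod q` with `WS f V` not identically zero.  For every `u : ZMod q` the
tuple `appZ V u` has Wronskian zero (`Top`), so `dependent_of_Wr` gives a relation whose last coefficient is not
zero (otherwise `V` would be dependent, contradicting `Wr_zero_of_dependent`): there are constants `c u i` with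
`rot f u z = ∑ i, c u i * rot f (V i) z` for all `z`.  Hence for every tuple `U` of length `n+1`
`WS f U z = det (c (U a) i)_{a,i} * WS f V z` (product of matrices, `Matrix.det_mul`, iterated derivatives of a
linear combination), so `Mx q f (n+1) z ≤ C₁ * ‖WS f V z‖` with a constant `C₁`.
For `j : ZMod q` some `c j p ≠ 0` (else `rot f j = 0`, so `f = 0`, contradiction), and the tuple
`V' = Function.update V p j` has `WS f V' z = c j p * WS f V z`.  Now `norm_WS_move` and `fact_P`.
The constant `c` is a minimum over the finitely many `j`. -/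

set_option autoImplicit false

namespace Pool.Agent.LibPer37

variable {q : ℕ} [NeZero q]

theorem B05_last {f : ℂ → ℂ} (hf : Differentiable ℂ f) {k : ℕ} (s : Fin (k + 1) → ZMod q)
    (h : ∀ z, WS f (fun i => s i.castSucc) z = 0) (z : ℂ) : WS f s z = 0 := by
  have e1 : s = appZ (fun i => s i.castSucc) (s (Fin.last k)) := by
    unfold appZ
    exact (Fin.snoc_init_self s).symm
  rw [e1, WS_appZ]
  exact Wr_app_zero k _ _ (fun i => rot_differentiable hf _) (rot_differentiable hf _) h z

theorem lower_level {f : ℂ → ℂ} (hf : Differentiable ℂ f) {M : ℕ} (hT : Top q f M) (k : ℕ)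
    (hk : k ≤ M) : ∃ s : Fin k → ZMod q, ∃ z, WS f s z ≠ 0 := by
  obtain ⟨d, hd⟩ := Nat.exists_eq_add_of_le hk
  clear hk
  induction d generalizing k with
  | zero =>
    have : k = M := by omega
    subst this
    exact hT.1
  | succ d ih =>
    obtain ⟨s, z, hz⟩ := ih (k + 1) (by omega)
    refine ⟨fun i => s i.castSucc, ?_⟩
    by_contra hcon
    push Not at hcon
    exact hz (B05_last hf s hcon z)

/-- iterated derivatives of linear combinations -/
theorem B05_iter {ι : Type*} (s : Finset ι) (d : ι → ℂ) (u : ι → ℂ → ℂ)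
    (hu : ∀ i, Differentiable ℂ (u i)) (b : ℕ) (z : ℂ) :
    iteratedDeriv b (fun w => ∑ i ∈ s, d i * u i w) z = ∑ i ∈ s, d i * iteratedDeriv b (u i) z := by
  have hc : ∀ i, ContDiffAt ℂ b (u i) z := fun i => (hu i).contDiff.contDiffAt
  rw [iteratedDeriv_fun_sum fun i _ => contDiffAt_const.mul (hc i)]
  exact Finset.sum_congr rfl fun i _ => iteratedDeriv_const_mul (d i) (hc i)

theorem fact_C {f : ℂ → ℂ} (hf : Differentiable ℂ f) (n : ℕ) (hT : Top q f (n + 1)) :
    ∃ c : ℝ, 0 < c ∧ ∀ (C : ℕ) (r : ℝ), 1 ≤ r → Good q f (n + 1) C r → ∀ z : ℂ, ‖z‖ = r →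
      ∀ j : ZMod q, c * Mx q f (n + 1) z ≤ (2 * r ^ C) ^ n * Mx q f n z * ‖rot f j z‖ := by
  obtain ⟨⟨V, z₀, hV⟩, htop⟩ := hT
  -- the relations
  have hrel : ∀ u : ZMod q, ∃ d : Fin (n + 1) → ℂ, ∀ z, rot f u z = ∑ i, d i * rot f (V i) z := by
    intro u
    have h0 : ∀ z, Wr (app (fun i => rot f (V i)) (rot f u)) z = 0 := by
      intro z
      rw [← WS_appZ]
      exact htop _ z
    obtain ⟨c, hc, hcz⟩ := dependent_of_Wr (n + 2) _ (by
      intro i
      refine Fin.lastCases ?_ (fun i => ?_) i
      · simp only [app, Fin.snoc_last]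
        exact rot_differentiable hf _
      · simp only [app, Fin.snoc_castSucc]
        exact rot_differentiable hf _) h0
    have hsum : ∀ z, ∑ i : Fin (n + 1), c i.castSucc * rot f (V i) z +
        c (Fin.last (n + 1)) * rot f u z = 0 := by
      intro z
      have := hcz z
      rw [Fin.sum_univ_castSucc] at this
      simpa [app] using this
    have hlast : c (Fin.last (n + 1)) ≠ 0 := by
      intro hl
      apply hV
      refine Wr_zero_of_dependent (n + 1) _ (fun i => rot_differentiable hf _)
        (fun i => c i.castSucc) ?_ ?_ z₀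
      · intro hall
        apply hc
        funext i
        refine Fin.lastCases ?_ (fun i => ?_) i
        · exact hl
        · exact congrFun hall i
      · intro z
        have := hsum z
        rw [hl, zero_mul, add_zero] at this
        exact this
    refine ⟨fun i => -c i.castSucc / c (Fin.last (n + 1)), fun z => ?_⟩
    have h1 := hsum z
    have h2 : c (Fin.last (n + 1)) * rot f u z =
        -∑ i : Fin (n + 1), c i.castSucc * rot f (V i) z := by
      linear_combination h1
    have h3 : rot f u z = (-∑ i : Fin (n + 1), c i.castSucc * rot f (V i) z) /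
        c (Fin.last (n + 1)) := by
      rw [← h2]
      field_simp
    rw [h3, ← Finset.sum_neg_distrib, Finset.sum_div]
    refine Finset.sum_congr rfl fun i _ => ?_
    ring
  choose D hD using hrel
  have hDf : ∀ u, rot f u = fun z => ∑ i, D u i * rot f (V i) z := fun u => funext (hD u)
  -- all Wronskians in terms of the one of `V`
  have hWU : ∀ (U : Fin (n + 1) → ZMod q) (z : ℂ),
      WS f U z = (Matrix.of fun a i => D (U a) i).det * WS f V z := by
    intro U z
    unfold WS Wr
    rw [← Matrix.det_mul]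
    congr 1
    ext a b
    rw [Matrix.mul_apply]
    show iteratedDeriv (b : ℕ) (rot f (U a)) z =
      ∑ i, D (U a) i * iteratedDeriv (b : ℕ) (rot f (V i)) z
    rw [hDf (U a)]
    exact B05_iter Finset.univ (D (U a)) (fun i => rot f (V i))
      (fun i => rot_differentiable hf _) b z
  set C₁ : ℝ := ∑ U : Fin (n + 1) → ZMod q, ‖(Matrix.of fun a i => D (U a) i).det‖ with hC₁
  have hC₁0 : 0 ≤ C₁ := Finset.sum_nonneg fun _ _ => norm_nonneg _
  have hMx : ∀ z, Mx q f (n + 1) z ≤ (C₁ + 1) * ‖WS f V z‖ := by
    intro z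
    obtain ⟨U, hU⟩ := exists_Mx (q := q) f (n + 1) z
    rw [← hU, hWU U z, norm_mul]
    refine mul_le_mul_of_nonneg_right ?_ (norm_nonneg _)
    have : ‖(Matrix.of fun a i => D (U a) i).det‖ ≤ C₁ :=
      Finset.single_le_sum (f := fun U : Fin (n + 1) → ZMod q =>
        ‖(Matrix.of fun a i => D (U a) i).det‖) (fun _ _ => norm_nonneg _) (Finset.mem_univ U)
    linarith
  -- some coefficient does not vanish
  have hp : ∀ j : ZMod q, ∃ p, D j p ≠ 0 := by
    intro j
    by_contra hcon
    push Not at hcon
    have hf0 : ∀ z, f z = 0 := by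
      intro z
      have h1 := hD j ((ZMod.stdAddChar j : ℂ)⁻¹ * z)
      have hne : (ZMod.stdAddChar j : ℂ) ≠ 0 := by
        rw [← norm_pos_iff, norm_char]
        exact one_pos
      unfold rot at h1
      rw [mul_inv_cancel_left₀ hne] at h1
      rw [h1]
      exact Finset.sum_eq_zero fun i _ => by rw [hcon i, zero_mul]
    apply hV
    refine Wr_zero_of_dependent (n + 1) _ (fun i => rot_differentiable hf _)
      (fun _ => 1) ?_ ?_ z₀
    · intro hall
      exact one_ne_zero (congrFun hall 0)
    · intro z
      refine Finset.sum_eq_zero fun i _ => ?_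
      unfold rot
      rw [hf0, mul_zero]
  choose p hp using hp
  -- replacing one row
  have hrow : ∀ (j : ZMod q) (z : ℂ),
      WS f (Function.update V (p j) j) z = D j (p j) * WS f V z := by
    intro j z
    unfold WS Wr
    rw [← smul_eq_mul, ← Matrix.det_updateRow_sum]
    congr 1
    ext a b
    by_cases ha : a = p j
    · subst ha
      rw [Matrix.updateRow_self]
      show iteratedDeriv (b : ℕ) (rot f (Function.update V (p j) j (p j))) z =
        (∑ k, D j k • (fun a : Fin (n + 1) => iteratedDeriv (a : ℕ) (rot f (V k)) z)) b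
      rw [Function.update_self, hDf j, Finset.sum_apply]
      exact B05_iter Finset.univ (D j) (fun i => rot f (V i)) (fun i => rot_differentiable hf _) b z
    · rw [Matrix.updateRow_ne ha]
      show iteratedDeriv (b : ℕ) (rot f (Function.update V (p j) j a)) z =
        iteratedDeriv (b : ℕ) (rot f (V a)) z
      rw [Function.update_of_ne ha]
  obtain ⟨j₀, hj₀⟩ := Finite.exists_min (fun j : ZMod q => ‖D j (p j)‖)
  have hDpos : 0 < ‖D j₀ (p j₀)‖ := norm_pos_iff.2 (hp j₀)
  refine ⟨‖D j₀ (p j₀)‖ / (C₁ + 1), by positivity, ?_⟩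
  intro C r hr hg z hz j
  have hr0 : 0 < r := by linarith
  have h1 := norm_WS_move f (Function.update V (p j) j) (p j) z
  rw [Function.update_self] at h1
  have h2 := fact_P hf hr hg n (by omega)
    (fun a => Function.update V (p j) j ((p j).succAbove a)) j hz
  rw [h1, hrow j z, norm_mul] at h2
  calc ‖D j₀ (p j₀)‖ / (C₁ + 1) * Mx q f (n + 1) z
      ≤ ‖D j₀ (p j₀)‖ / (C₁ + 1) * ((C₁ + 1) * ‖WS f V z‖) :=
        mul_le_mul_of_nonneg_left (hMx z) (by positivity)
    _ = ‖D j₀ (p j₀)‖ * ‖WS f V z‖ := by field_simp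
    _ ≤ ‖D j (p j)‖ * ‖WS f V z‖ := mul_le_mul_of_nonneg_right (hj₀ j) (norm_nonneg _)
    _ ≤ (2 * r ^ C) ^ n * ‖WS f (fun a => Function.update V (p j) j ((p j).succAbove a)) z‖ *
          ‖rot f j z‖ := h2
    _ ≤ (2 * r ^ C) ^ n * Mx q f n z * ‖rot f j z‖ := by
        refine mul_le_mul_of_nonneg_right ?_ (norm_nonneg _)
        exact mul_le_mul_of_nonneg_left (norm_WS_le_Mx _ _ _) (by positivity)

end Pool.Agent.LibPer37
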