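import Mathlib

/-! Task B06 (80-140 lines, elementary real inequalities): the chain.

HINT.  Write `c j = cos (j * α)`; `c (j+1) + c (j-1) = 2 * c 1 * c j`.  Summation by parts:
`∑_{k=1}^{M-1} c (M-k) * (S (k+1) + S (k-1) - 2 * c 1 * S k) = c 1 * S M - S (M-1) - c M * S 1` (uses `S 0 = 0`;
prove it by induction in the more general form with upper limit `n ≤ M`, or by induction on `M` with shifted
weights), so the left side of the claim equals
`I M - S (M-1) - ∑_{k=1}^{M-1} c (M-k) * d k`, `d k = S (k+1) - 2 * I k + S (k-1)`.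
All weights `c (M-k)`, `1 ≤ k ≤ M-1`, lie in `[0,1]`.
Case 1: for all `1 ≤ k < M` the first alternative of `hB` holds: `S (k+1) ≥ ψ (k+1) x ≥ 2 ψ k x - ψ (k-1) x - L ≥
2 I k - S (k-1) - L`, so `d k ≥ -L`; and `ℓ ≥ ψ M y - ψ (M-1) y - L ≥ I M - S (M-1) - L` by `hC`.
Case 2: let `K` be the least `k` for which the first alternative fails, so the second holds for `K`.
`d k ≥ -L` for `k < K`; for `k ≥ K`, with `μ k = ψ k y - ψ (k-1) y`,
`-d k ≤ μ k - μ (k+1)` (because `I k ≤ ψ k y ≤ S k`) and `μ k - μ (k+1) ≥ -L` by `hA`, so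
`-c (M-k) * d k ≤ c (M-k) * (μ k - μ (k+1)) ≤ μ k - μ (k+1) + L`;
`I M - S (M-1) ≤ μ M`.  Sum: `≤ μ K + M L ≤ ℓ + (M + 1) L`. -/

set_option autoImplicit false

namespace Pool.Agent.LibPer37

/-- summation by parts -/
theorem B06_sum (m α : ℝ) (S : ℕ → ℝ) (hS0 : S 0 = 0) (n : ℕ) :
    ∑ k ∈ Finset.Ico 1 (n + 1), Real.cos ((m - k) * α) *
      (S (k + 1) + S (k - 1) - 2 * Real.cos α * S k) =
      Real.cos ((m - n) * α) * S (n + 1) - Real.cos ((m - n - 1) * α) * S n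
        - Real.cos (m * α) * S 1 := by
  induction n with
  | zero => simp [hS0]
  | succ n ih =>
    rw [Finset.sum_Ico_succ_top (by omega), ih]
    have h1 : Real.cos ((m - n) * α) = Real.cos ((m - (n + 1 : ℕ)) * α) * Real.cos α -
        Real.sin ((m - (n + 1 : ℕ)) * α) * Real.sin α := by
      rw [← Real.cos_add]
      congr 1
      push_cast
      ring
    have h2 : Real.cos ((m - (n + 1 : ℕ) - 1) * α) = Real.cos ((m - (n + 1 : ℕ)) * α) * Real.cos α +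
        Real.sin ((m - (n + 1 : ℕ)) * α) * Real.sin α := by
      rw [← Real.cos_sub]
      congr 1
      push_cast
      ring
    have h3 : (m - (n : ℝ) - 1) = (m - ((n + 1 : ℕ) : ℝ)) := by push_cast; ring
    rw [h1, h2, h3]
    simp only [Nat.add_sub_cancel]
    ring

theorem chain {X : Type*} (y : X) (M : ℕ) (hM : 1 ≤ M) (α : ℝ) (hα : 0 ≤ α)
    (hMα : ((M : ℝ) - 1) * α ≤ Real.pi / 2) (ψ : ℕ → X → ℝ) (S I : ℕ → ℝ) (L ℓ : ℝ) (hL : 0 ≤ L)
    (hψ0 : ∀ x, ψ 0 x = 0) (hS0 : S 0 = 0) (hS : ∀ k ≤ M, ∀ x, ψ k x ≤ S k)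
    (hI : ∀ k ≤ M, ∀ x, I k ≤ ψ k x)
    (hA : ∀ k, 1 ≤ k → k < M → ∀ x, ψ (k + 1) x + ψ (k - 1) x ≤ 2 * ψ k x + L)
    (hB : ∀ k, 1 ≤ k → k < M → (∃ x, 2 * ψ k x - L ≤ ψ (k + 1) x + ψ (k - 1) x) ∨
      ψ k y - ψ (k - 1) y - L ≤ ℓ)
    (hC : ψ M y - ψ (M - 1) y - L ≤ ℓ) :
    Real.cos (M * α) * S 1 + (I M - Real.cos α * S M) +
      2 * ∑ k ∈ Finset.Ico 1 M, Real.cos (((M : ℝ) - k) * α) * (I k - Real.cos α * S k) ≤
      ℓ + (2 * M + 1) * L := by
  classical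
  -- the least `K` where the second alternative holds
  have hex : ∃ K, 1 ≤ K ∧ K ≤ M ∧ ψ K y - ψ (K - 1) y - L ≤ ℓ := ⟨M, hM, le_refl _, hC⟩
  obtain ⟨hK1, hKM, hK⟩ := Nat.find_spec hex
  have hmin : ∀ k, 1 ≤ k → k < Nat.find hex → ∃ x, 2 * ψ k x - L ≤ ψ (k + 1) x + ψ (k - 1) x := by
    intro k hk1 hk
    rcases hB k hk1 (lt_of_lt_of_le hk hKM) with h | h
    · exact h
    · exact absurd ⟨hk1, (hk.le.trans hKM), h⟩ (Nat.find_min hex hk)
  set K := Nat.find hex with hKdef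
  -- weights
  have hw0 : ∀ k, k ∈ Finset.Ico 1 M → 0 ≤ Real.cos (((M : ℝ) - k) * α) := by
    intro k hk
    rw [Finset.mem_Ico] at hk
    have h1 : (1 : ℝ) ≤ k := by exact_mod_cast hk.1
    have h2 : (k : ℝ) ≤ M := by exact_mod_cast hk.2.le
    apply Real.cos_nonneg_of_neg_pi_div_two_le_of_le
    · have : 0 ≤ ((M : ℝ) - k) * α := mul_nonneg (by linarith) hα
      linarith [Real.pi_pos]
    · refine le_trans ?_ hMα
      exact mul_le_mul_of_nonneg_right (by linarith) hα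
  -- summation by parts
  have hsum : ∑ k ∈ Finset.Ico 1 M, Real.cos (((M : ℝ) - k) * α) *
      (S (k + 1) + S (k - 1) - 2 * Real.cos α * S k) =
      Real.cos α * S M - S (M - 1) - Real.cos (M * α) * S 1 := by
    obtain ⟨n, rfl⟩ : ∃ n, M = n + 1 := ⟨M - 1, by omega⟩
    rw [B06_sum _ α S hS0 n]
    have e1 : (((n + 1 : ℕ) : ℝ) - n) * α = α := by push_cast; ring
    have e2 : (((n + 1 : ℕ) : ℝ) - n - 1) * α = 0 := by push_cast; ring
    rw [e1, e2, Real.cos_zero]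
    simp
  have hsum2 : Real.cos (M * α) * S 1 + (I M - Real.cos α * S M) +
      2 * ∑ k ∈ Finset.Ico 1 M, Real.cos (((M : ℝ) - k) * α) * (I k - Real.cos α * S k) =
      I M - S (M - 1) + ∑ k ∈ Finset.Ico 1 M, Real.cos (((M : ℝ) - k) * α) *
        (2 * I k - S (k + 1) - S (k - 1)) := by
    have h1 : ∑ k ∈ Finset.Ico 1 M, Real.cos (((M : ℝ) - k) * α) *
        (2 * I k - S (k + 1) - S (k - 1)) =
        2 * ∑ k ∈ Finset.Ico 1 M, Real.cos (((M : ℝ) - k) * α) * (I k - Real.cos α * S k) -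
        ∑ k ∈ Finset.Ico 1 M, Real.cos (((M : ℝ) - k) * α) *
          (S (k + 1) + S (k - 1) - 2 * Real.cos α * S k) := by
      rw [Finset.mul_sum, ← Finset.sum_sub_distrib]
      refine Finset.sum_congr rfl (fun k _ => ?_)
      ring
    rw [h1, hsum]
    ring
  rw [hsum2]
  -- split the sum
  have hsplit : ∑ k ∈ Finset.Ico 1 M, Real.cos (((M : ℝ) - k) * α) *
        (2 * I k - S (k + 1) - S (k - 1)) ≤
      ∑ k ∈ Finset.Ico 1 K, L + ∑ k ∈ Finset.Ico K M,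
        ((ψ k y - ψ (k - 1) y) - (ψ (k + 1) y - ψ k y) + L) := by
    rw [← Finset.sum_Ico_consecutive _ hK1 hKM]
    refine add_le_add (Finset.sum_le_sum fun k hk => ?_) (Finset.sum_le_sum fun k hk => ?_)
    · rw [Finset.mem_Ico] at hk
      have hkM : k < M := lt_of_lt_of_le hk.2 hKM
      have hwk := hw0 k (Finset.mem_Ico.2 ⟨hk.1, hkM⟩)
      have hw1 := Real.cos_le_one (((M : ℝ) - k) * α)
      obtain ⟨x, hx⟩ := hmin k hk.1 hk.2
      have a1 := hS (k + 1) hkM x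
      have a2 := hS (k - 1) (by omega) x
      have a3 := hI k hkM.le x
      have a4 : 2 * I k - S (k + 1) - S (k - 1) ≤ L := by linarith
      calc Real.cos (((M : ℝ) - k) * α) * (2 * I k - S (k + 1) - S (k - 1))
          ≤ Real.cos (((M : ℝ) - k) * α) * L := mul_le_mul_of_nonneg_left a4 hwk
        _ ≤ 1 * L := mul_le_mul_of_nonneg_right hw1 hL
        _ = L := one_mul L
    · rw [Finset.mem_Ico] at hk
      have hk1 : 1 ≤ k := hK1.trans hk.1
      have hwk := hw0 k (Finset.mem_Ico.2 ⟨hk1, hk.2⟩)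
      have hw1 := Real.cos_le_one (((M : ℝ) - k) * α)
      have a1 := hS (k + 1) hk.2 y
      have a2 := hS (k - 1) (by omega) y
      have a3 := hI k hk.2.le y
      have a5 := hA k hk1 hk.2 y
      have a4 : 2 * I k - S (k + 1) - S (k - 1) ≤
          (ψ k y - ψ (k - 1) y) - (ψ (k + 1) y - ψ k y) + L := by linarith
      have a6 : 0 ≤ (ψ k y - ψ (k - 1) y) - (ψ (k + 1) y - ψ k y) + L := by linarith
      calc Real.cos (((M : ℝ) - k) * α) * (2 * I k - S (k + 1) - S (k - 1))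
          ≤ Real.cos (((M : ℝ) - k) * α) * ((ψ k y - ψ (k - 1) y) - (ψ (k + 1) y - ψ k y) + L) :=
            mul_le_mul_of_nonneg_left a4 hwk
        _ ≤ 1 * ((ψ k y - ψ (k - 1) y) - (ψ (k + 1) y - ψ k y) + L) :=
            mul_le_mul_of_nonneg_right hw1 a6
        _ = _ := one_mul _
  have htel : ∑ k ∈ Finset.Ico K M, ((ψ k y - ψ (k - 1) y) - (ψ (k + 1) y - ψ k y) + L) =
      (ψ K y - ψ (K - 1) y) - (ψ M y - ψ (M - 1) y) + (M - K) * L := by
    rw [Finset.sum_add_distrib, Finset.sum_const, Nat.card_Ico, nsmul_eq_mul, Nat.cast_sub hKM]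
    congr 1
    have h1 := Finset.sum_Ico_sub (fun k => -(ψ k y - ψ (k - 1) y)) hKM
    have h2 : ∀ k, (ψ k y - ψ (k - 1) y) - (ψ (k + 1) y - ψ k y) =
        -(ψ (k + 1) y - ψ (k + 1 - 1) y) - -(ψ k y - ψ (k - 1) y) := by
      intro k
      simp only [Nat.add_sub_cancel]
      ring
    rw [Finset.sum_congr rfl (fun k _ => h2 k), h1]
    ring
  have hconst : ∑ k ∈ Finset.Ico 1 K, L = ((K : ℝ) - 1) * L := by
    rw [Finset.sum_const, Nat.card_Ico, nsmul_eq_mul, Nat.cast_sub hK1]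
    simp
  rw [htel, hconst] at hsplit
  have b1 := hI M (le_refl _) y
  have b2 := hS (M - 1) (by omega) y
  have hMr : (1 : ℝ) ≤ M := by exact_mod_cast hM
  nlinarith [mul_nonneg (by linarith : (0:ℝ) ≤ M) hL]

end Pool.Agent.LibPer37
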