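import Pool.Agent.LibPer37.B03
import Pool.Agent.LibPer37.B04
import Pool.Agent.LibPer37.B05
import Pool.Agent.LibPer37.B06

/-! Task B07 (100-170 lines): the inequality on good circles. -/

set_option autoImplicit false

namespace Pool.Agent.LibPer37

variable {q : ℕ} [NeZero q]

private lemma B07_one (f : ℂ → ℂ) (s : Fin 1 → ZMod q) (z : ℂ) : WS f s z = rot f (s 0) z := by
  unfold WS Wr
  rw [Matrix.det_fin_one]
  simp

private lemma B07_rot_zero (f : ℂ → ℂ) (z : ℂ) : rot f (0 : ZMod q) z = f z := by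
  unfold rot
  rw [AddChar.map_zero_eq_one, one_mul]

private lemma B07_conc (M : ℕ) (ψ : ℕ → ℝ) (L : ℝ) (hL : 0 ≤ L) (h0 : ψ 0 = 0)
    (hA : ∀ k, 1 ≤ k → k < M → ψ (k + 1) + ψ (k - 1) ≤ 2 * ψ k + L) (k : ℕ) :
    k + 1 ≤ M → ψ (k + 1) - ψ k ≤ ψ 1 + k * L ∧ ψ (k + 1) ≤ (k + 1) * ψ 1 + (k + 1) ^ 2 * L := by
  induction k with
  | zero =>
    intro _
    constructor
    · rw [h0]
      simp
    · simp
      exact hL
  | succ k ih =>
    intro hk
    obtain ⟨h1, h2⟩ := ih (by omega)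
    have h3 := hA (k + 1) (by omega) (by omega)
    rw [Nat.add_sub_cancel] at h3
    have h4 : ψ (k + 1 + 1) - ψ (k + 1) ≤ ψ 1 + ((k + 1 : ℕ) : ℝ) * L := by
      push_cast
      linarith
    refine ⟨h4, ?_⟩
    push_cast at h4 ⊢
    have h5 : 0 ≤ (k : ℝ) * L := by positivity
    nlinarith [h2, h4, h5]

/-- everything on one good circle, with a given constant `L₁` -/
private lemma B07_core {f : ℂ → ℂ} (hf : Differentiable ℂ f) (M : ℕ) (hM : 1 ≤ M)
    (hT : Top q f M) (α : ℝ) (hα : 0 ≤ α) (hMα : ((M : ℝ) - 1) * α ≤ Real.pi / 2) (C : ℕ)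
    (r : ℝ) (hr : 1 ≤ r) (hg : Good q f M C r) (c : ℝ) (hc : 0 < c)
    (hcC : ∀ z : ℂ, ‖z‖ = r → c * Mx q f M z ≤
      (2 * r ^ C) ^ (M - 1) * Mx q f (M - 1) z * ‖rot f (0 : ZMod q) z‖)
    (L : ℝ) (hL : 0 ≤ L)
    (hL1 : ∀ n : ℕ, n ≤ M → Real.log ((n : ℝ) + 2) + C * Real.log r ≤ L)
    (hL2 : ∀ n : ℕ, n ≤ M → Real.log (((n + 1).factorial : ℝ) * 2 ^ (n + 1)) +
      n * (Real.log 2 + C * Real.log r) ≤ L)
    (hL3 : ∀ n : ℕ, n ≤ M →
      Real.log (4 * Real.pi * r * (((n + 1).factorial : ℝ) * 2 ^ (n + 1)) ^ 2) ≤ L)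
    (hL4 : -Real.log c + ((M - 1 : ℕ) : ℝ) * (Real.log 2 + C * Real.log r) ≤ L) :
    (∀ k ≤ M, ∀ z : ℂ, ‖z‖ = r → 0 < Mx q f k z) ∧
      (∀ k ≤ M, ∀ z : ℂ, ‖z‖ = r → II q f k r ≤ Real.log (Mx q f k z) ∧
        Real.log (Mx q f k z) ≤ SS q f k r) ∧
      (∀ z : ℂ, ‖z‖ = r → f z ≠ 0 ∧
        Real.cos (M * α) * SS q f 1 r + (II q f M r - Real.cos α * SS q f M r) +
          2 * ∑ k ∈ Finset.Ico 1 M, Real.cos (((M : ℝ) - k) * α) *
            (II q f k r - Real.cos α * SS q f k r) ≤ Real.log ‖f z‖ + (2 * M + 1) * L) ∧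
      (∀ k, 1 ≤ k → k ≤ M → SS q f k r ≤ k * SS q f 1 r + (k : ℝ) ^ 2 * L) := by
  have hr0 : 0 < r := by linarith
  have hrC : 0 < r ^ C := pow_pos hr0 C
  -- positivity of the maxima
  have hpos : ∀ k ≤ M, ∀ z : ℂ, ‖z‖ = r → 0 < Mx q f k z := by
    intro k hk z hz
    obtain ⟨s, hs⟩ := lower_level hf hT k hk
    have h1 := (hg k (by omega) s hs z hz).1
    exact (norm_pos_iff.mpr h1).trans_le (norm_WS_le_Mx f s z)
  -- extreme values on the circle
  have hcomp : IsCompact (Metric.sphere (0 : ℂ) r) := isCompact_sphere 0 r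
  have hne : (Metric.sphere (0 : ℂ) r).Nonempty := ⟨(r : ℂ), by
    rw [mem_sphere_zero_iff_norm, Complex.norm_real, Real.norm_of_nonneg hr0.le]⟩
  have hcont : ∀ k, ContinuousOn (Mx q f k) (Metric.sphere (0 : ℂ) r) := fun k =>
    (Mx_continuous hf k).continuousOn
  have hmax : ∀ k, ∃ x : ℂ, ‖x‖ = r ∧ sSup (Mx q f k '' Metric.sphere 0 r) = Mx q f k x ∧
      ∀ y : ℂ, ‖y‖ = r → Mx q f k y ≤ Mx q f k x := by
    intro k
    obtain ⟨x, hx, hx1, hx2⟩ := hcomp.exists_sSup_image_eq_and_ge hne (hcont k)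
    exact ⟨x, mem_sphere_zero_iff_norm.mp hx, hx1, fun y hy =>
      hx2 y (mem_sphere_zero_iff_norm.mpr hy)⟩
  have hmin : ∀ k, ∃ x : ℂ, ‖x‖ = r ∧ sInf (Mx q f k '' Metric.sphere 0 r) = Mx q f k x ∧
      ∀ y : ℂ, ‖y‖ = r → Mx q f k x ≤ Mx q f k y := by
    intro k
    obtain ⟨x, hx, hx1, hx2⟩ := hcomp.exists_sInf_image_eq_and_le hne (hcont k)
    exact ⟨x, mem_sphere_zero_iff_norm.mp hx, hx1, fun y hy =>
      hx2 y (mem_sphere_zero_iff_norm.mpr hy)⟩
  have hSI : ∀ k ≤ M, ∀ z : ℂ, ‖z‖ = r → II q f k r ≤ Real.log (Mx q f k z) ∧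
      Real.log (Mx q f k z) ≤ SS q f k r := by
    intro k hk z hz
    constructor
    · obtain ⟨x, hx, hx1, hx2⟩ := hmin k
      unfold II
      rw [hx1]
      exact Real.log_le_log (hpos k hk x hx) (hx2 z hz)
    · obtain ⟨x, hx, hx1, hx2⟩ := hmax k
      unfold SS
      rw [hx1]
      exact Real.log_le_log (hpos k hk z hz) (hx2 z hz)
  -- the function does not vanish on the circle
  have hfne : ∀ z : ℂ, ‖z‖ = r → f z ≠ 0 := by
    intro z hz
    obtain ⟨s, w, hw⟩ := lower_level hf hT 1 hM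
    have h1 : ∃ z, WS f (fun _ : Fin 1 => (0 : ZMod q)) z ≠ 0 := by
      refine ⟨ZMod.stdAddChar (s 0) * w, ?_⟩
      rw [B07_one, B07_rot_zero]
      rw [B07_one] at hw
      exact hw
    have h2 := (hg 1 (by omega) _ h1 z hz).1
    rw [B07_one, B07_rot_zero] at h2
    exact h2
  have hM0 : ∀ x : ℂ, Real.log (Mx q f 0 x) = 0 := by
    intro x
    rw [Mx_zero, Real.log_one]
  have hS0 : SS q f 0 r = 0 := by
    obtain ⟨x, hx, hx1, hx2⟩ := hmax 0
    unfold SS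
    rw [hx1]
    exact hM0 x
  have hlogpow : ∀ n : ℕ, Real.log ((2 * r ^ C) ^ n) = n * (Real.log 2 + C * Real.log r) := by
    intro n
    rw [Real.log_pow, Real.log_mul two_ne_zero hrC.ne', Real.log_pow]
  have hA : ∀ k, 1 ≤ k → k < M → ∀ x : ℂ, ‖x‖ = r →
      Real.log (Mx q f (k + 1) x) + Real.log (Mx q f (k - 1) x) ≤
        2 * Real.log (Mx q f k x) + L := by
    intro k hk1 hkM x hx
    obtain ⟨n, rfl⟩ : ∃ n, k = n + 1 := ⟨k - 1, by omega⟩
    rw [Nat.add_sub_cancel]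
    have p0 := hpos n (by omega) x hx
    have p1 := hpos (n + 1) (by omega) x hx
    have p2 := hpos (n + 2) (by omega) x hx
    have h1 := fact_A hf hr hg n (by omega) hx
    have h2 := Real.log_le_log (mul_pos p2 p0) h1
    have hn2 : (0 : ℝ) < (n : ℝ) + 2 := by positivity
    rw [Real.log_mul p2.ne' p0.ne', Real.log_mul (mul_pos hn2 hrC).ne' (pow_pos p1 2).ne',
      Real.log_mul hn2.ne' hrC.ne', Real.log_pow, Real.log_pow] at h2
    have h3 := hL1 n (by omega)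
    push_cast at h2
    have e : Real.log (Mx q f (n + 1 + 1) x) = Real.log (Mx q f (n + 2) x) := rfl
    rw [e]
    linarith
  have hK : ∀ n : ℕ, (0 : ℝ) < ((n + 1).factorial : ℝ) * 2 ^ (n + 1) := fun n => by positivity
  have hB : ∀ k, 1 ≤ k → k < M → ∀ y : ℂ, ‖y‖ = r →
      (∃ x : ℂ, ‖x‖ = r ∧ 2 * Real.log (Mx q f k x) - L ≤
        Real.log (Mx q f (k + 1) x) + Real.log (Mx q f (k - 1) x)) ∨
      Real.log (Mx q f k y) - Real.log (Mx q f (k - 1) y) - L ≤ Real.log ‖f y‖ := by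
    intro k hk1 hkM y hy
    obtain ⟨n, rfl⟩ : ∃ n, k = n + 1 := ⟨k - 1, by omega⟩
    rw [Nat.add_sub_cancel]
    by_cases hgap : ∀ z : ℂ, ‖z‖ = r → Mx q f (n + 2) z * Mx q f n z *
      (4 * Real.pi * r * (((n + 1).factorial : ℝ) * 2 ^ (n + 1)) ^ 2) ≤ Mx q f (n + 1) z ^ 2
    · right
      have p0 := hpos n (by omega) y hy
      have p1 := hpos (n + 1) (by omega) y hy
      have h1 := fact_B hf hr hg n (by omega) hgap hy 0
      rw [B07_rot_zero] at h1
      have pf := norm_pos_iff.mpr (hfne y hy)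
      have h2 := Real.log_le_log p1 h1
      have pp : (0 : ℝ) < (2 * r ^ C) ^ n := by positivity
      rw [Real.log_mul (mul_pos (mul_pos (hK n) pp) p0).ne' pf.ne',
        Real.log_mul (mul_pos (hK n) pp).ne' p0.ne', Real.log_mul (hK n).ne' pp.ne',
        hlogpow] at h2
      have h3 := hL2 n (by omega)
      linarith
    · left
      have hex : ∃ x : ℂ, ‖x‖ = r ∧ Mx q f (n + 1) x ^ 2 < Mx q f (n + 2) x * Mx q f n x *
          (4 * Real.pi * r * (((n + 1).factorial : ℝ) * 2 ^ (n + 1)) ^ 2) := by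
        by_contra hno
        refine hgap fun z hz => ?_
        by_contra hlt
        exact hno ⟨z, hz, not_le.mp hlt⟩
      obtain ⟨x, hx, hlt⟩ := hex
      refine ⟨x, hx, ?_⟩
      have p0 := hpos n (by omega) x hx
      have p1 := hpos (n + 1) (by omega) x hx
      have p2 := hpos (n + 2) (by omega) x hx
      have h2 := Real.log_le_log (pow_pos p1 2) hlt.le
      have pc : (0 : ℝ) < 4 * Real.pi * r * (((n + 1).factorial : ℝ) * 2 ^ (n + 1)) ^ 2 :=
        mul_pos (mul_pos (mul_pos (by norm_num) Real.pi_pos) hr0) (pow_pos (hK n) 2)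
      rw [Real.log_mul (mul_pos p2 p0).ne' pc.ne', Real.log_mul p2.ne' p0.ne',
        Real.log_pow] at h2
      have h3 := hL3 n (by omega)
      push_cast at h2
      have e : Real.log (Mx q f (n + 1 + 1) x) = Real.log (Mx q f (n + 2) x) := rfl
      rw [e]
      linarith
  have hCC : ∀ y : ℂ, ‖y‖ = r →
      Real.log (Mx q f M y) - Real.log (Mx q f (M - 1) y) - L ≤ Real.log ‖f y‖ := by
    intro y hy
    have h1 := hcC y hy
    rw [B07_rot_zero] at h1
    have p0 := hpos (M - 1) (by omega) y hy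
    have p1 := hpos M le_rfl y hy
    have pf := norm_pos_iff.mpr (hfne y hy)
    have pp : (0 : ℝ) < (2 * r ^ C) ^ (M - 1) := by positivity
    have h2 := Real.log_le_log (mul_pos hc p1) h1
    rw [Real.log_mul hc.ne' p1.ne', Real.log_mul (mul_pos pp p0).ne' pf.ne',
      Real.log_mul pp.ne' p0.ne', hlogpow] at h2
    linarith
  refine ⟨hpos, hSI, fun z hz => ⟨hfne z hz, ?_⟩, ?_⟩
  · exact chain (X := {z : ℂ // ‖z‖ = r}) ⟨z, hz⟩ M hM α hα hMα
      (fun k x => Real.log (Mx q f k (x : ℂ))) (fun k => SS q f k r) (fun k => II q f k r)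
      L (Real.log ‖f z‖) hL (fun x => hM0 x) hS0 (fun k hk x => (hSI k hk x x.2).2)
      (fun k hk x => (hSI k hk x x.2).1) (fun k h1 h2 x => hA k h1 h2 x x.2)
      (fun k h1 h2 => by
        rcases hB k h1 h2 z hz with ⟨x, hx, hx2⟩ | h
        · exact Or.inl ⟨⟨x, hx⟩, hx2⟩
        · exact Or.inr h)
      (hCC z hz)
  · intro k hk1 hkM
    obtain ⟨x, hx, hx1, hx2⟩ := hmax k
    have h1 : SS q f k r = Real.log (Mx q f k x) := by
      unfold SS
      rw [hx1]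
    obtain ⟨n, rfl⟩ : ∃ n, k = n + 1 := ⟨k - 1, by omega⟩
    have h2 := (B07_conc M (fun k => Real.log (Mx q f k x)) L hL (hM0 x)
      (fun k h1 h2 => hA k h1 h2 x hx) n hkM).2
    have h3 := (hSI 1 hM x hx).2
    rw [h1]
    push_cast
    have h4 : ((n : ℝ) + 1) * Real.log (Mx q f 1 x) ≤ ((n : ℝ) + 1) * SS q f 1 r :=
      mul_le_mul_of_nonneg_left h3 (by positivity)
    linarith

theorem pointwise {f : ℂ → ℂ} (hf : Differentiable ℂ f) (M : ℕ) (hM : 1 ≤ M) (hT : Top q f M)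
    (α : ℝ) (hα : 0 ≤ α) (hMα : ((M : ℝ) - 1) * α ≤ Real.pi / 2) (C : ℕ) :
    ∃ C' : ℝ, 0 ≤ C' ∧ ∀ r : ℝ, 1 ≤ r → Good q f M C r →
      (∀ k ≤ M, ∀ z : ℂ, ‖z‖ = r → 0 < Mx q f k z) ∧
      (∀ k ≤ M, ∀ z : ℂ, ‖z‖ = r → II q f k r ≤ Real.log (Mx q f k z) ∧
        Real.log (Mx q f k z) ≤ SS q f k r) ∧
      (∀ z : ℂ, ‖z‖ = r → f z ≠ 0 ∧
        Real.cos (M * α) * SS q f 1 r + (II q f M r - Real.cos α * SS q f M r) +
          2 * ∑ k ∈ Finset.Ico 1 M, Real.cos (((M : ℝ) - k) * α) *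
            (II q f k r - Real.cos α * SS q f k r) ≤ Real.log ‖f z‖ + C' * (1 + Real.log r)) ∧
      (∀ k, 1 ≤ k → k ≤ M → SS q f k r ≤ k * SS q f 1 r + C' * (1 + Real.log r)) := by
  obtain ⟨c, hc, hcC⟩ : ∃ c : ℝ, 0 < c ∧ ∀ (C : ℕ) (r : ℝ), 1 ≤ r → Good q f M C r →
      ∀ z : ℂ, ‖z‖ = r → c * Mx q f M z ≤
        (2 * r ^ C) ^ (M - 1) * Mx q f (M - 1) z * ‖rot f (0 : ZMod q) z‖ := by
    obtain ⟨n, rfl⟩ : ∃ n, M = n + 1 := ⟨M - 1, by omega⟩
    obtain ⟨c, hc, h⟩ := fact_C hf n hT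
    exact ⟨c, hc, fun C r hr hg z hz => h C r hr hg z hz 0⟩
  set K : ℝ := ((M + 1).factorial : ℝ) * 2 ^ (M + 1) with hKdef
  have hKpos : 0 < K := by positivity
  have hKn : ∀ n : ℕ, n ≤ M → ((n + 1).factorial : ℝ) * 2 ^ (n + 1) ≤ K := by
    intro n hn
    have h1 : ((n + 1).factorial : ℝ) ≤ ((M + 1).factorial : ℝ) := by
      exact_mod_cast Nat.factorial_le (by omega)
    have h2 : (2 : ℝ) ^ (n + 1) ≤ 2 ^ (M + 1) := pow_le_pow_right₀ (by norm_num) (by omega)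
    exact mul_le_mul h1 h2 (by positivity) (by positivity)
  have hlog : ∀ x : ℝ, 0 < x → Real.log x ≤ x := fun x hx => by
    have := Real.log_le_sub_one_of_pos hx
    linarith
  have hlog2 : Real.log 2 ≤ 1 := by
    have := Real.log_le_sub_one_of_pos (show (0 : ℝ) < 2 by norm_num)
    linarith
  have hlog2' : 0 ≤ Real.log 2 := Real.log_nonneg (by norm_num)
  set L₁ : ℝ := ((M : ℝ) + 2 + C) + (K + M * (1 + C)) + (4 * Real.pi * K ^ 2 + 1) +
    (|Real.log c| + M * (1 + C)) with hL₁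
  have hpi := Real.pi_pos
  have a1 : (0 : ℝ) ≤ (M : ℝ) + 2 + C := by positivity
  have a2 : 0 ≤ K + (M : ℝ) * (1 + C) := by positivity
  have a3 : 0 ≤ 4 * Real.pi * K ^ 2 + 1 := by positivity
  have a4 : 0 ≤ |Real.log c| + (M : ℝ) * (1 + C) := by positivity
  have hL₁0 : 0 ≤ L₁ := by rw [hL₁]; linarith
  refine ⟨(2 * M + 1) * L₁ + (M : ℝ) ^ 2 * L₁, by positivity, fun r hr hg => ?_⟩
  have hlr : 0 ≤ Real.log r := Real.log_nonneg hr
  have h1lr : 1 ≤ 1 + Real.log r := by linarith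
  set L : ℝ := L₁ * (1 + Real.log r) with hLdef
  have hL0 : 0 ≤ L := by positivity
  have b1 : ((M : ℝ) + 2 + C) * (1 + Real.log r) ≤ L := by
    rw [hLdef, hL₁]
    exact mul_le_mul_of_nonneg_right (by linarith) (by linarith)
  have b2 : (K + (M : ℝ) * (1 + C)) * (1 + Real.log r) ≤ L := by
    rw [hLdef, hL₁]
    exact mul_le_mul_of_nonneg_right (by linarith) (by linarith)
  have b3 : (4 * Real.pi * K ^ 2 + 1) * (1 + Real.log r) ≤ L := by
    rw [hLdef, hL₁]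
    exact mul_le_mul_of_nonneg_right (by linarith) (by linarith)
  have b4 : (|Real.log c| + (M : ℝ) * (1 + C)) * (1 + Real.log r) ≤ L := by
    rw [hLdef, hL₁]
    exact mul_le_mul_of_nonneg_right (by linarith) (by linarith)
  have hMl : 0 ≤ (M : ℝ) * Real.log r := by positivity
  have hCl : 0 ≤ (C : ℝ) * Real.log r := by positivity
  have hmid : ∀ n : ℕ, n ≤ M → (n : ℝ) * (Real.log 2 + C * Real.log r) ≤
      (M : ℝ) * (1 + C) * (1 + Real.log r) := by
    intro n hn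
    have h1 : (n : ℝ) ≤ M := by exact_mod_cast hn
    have h2 : Real.log 2 + C * Real.log r ≤ (1 + C) * (1 + Real.log r) := by
      nlinarith [hlog2, hCl, hlr, Nat.cast_nonneg (α := ℝ) C]
    have h3 : 0 ≤ Real.log 2 + C * Real.log r := by linarith
    calc (n : ℝ) * (Real.log 2 + C * Real.log r)
        ≤ (M : ℝ) * ((1 + C) * (1 + Real.log r)) := mul_le_mul h1 h2 h3 (by positivity)
      _ = (M : ℝ) * (1 + C) * (1 + Real.log r) := by ring
  obtain ⟨r1, r2, r3, r4⟩ := B07_core hf M hM hT α hα hMα C r hr hg c hc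
    (fun z hz => hcC C r hr hg z hz) L hL0
    (by
      intro n hn
      have h1 := hlog ((n : ℝ) + 2) (by positivity)
      have h2 : (n : ℝ) ≤ M := by exact_mod_cast hn
      have h3 : (0 : ℝ) ≤ C := Nat.cast_nonneg C
      have h5 : ((M : ℝ) + 2 + C) * (1 + Real.log r) =
          (M : ℝ) + 2 + C + M * Real.log r + 2 * Real.log r + C * Real.log r := by
        ring
      refine le_trans ?_ b1
      rw [h5]
      linarith)
    (by
      intro n hn
      have hKp : (0 : ℝ) < ((n + 1).factorial : ℝ) * 2 ^ (n + 1) := by positivity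
      have h1 := (hlog _ hKp).trans (hKn n hn)
      have h2 := hmid n hn
      have h3 := mul_nonneg hKpos.le hlr
      have h5 : (K + (M : ℝ) * (1 + C)) * (1 + Real.log r) =
          K + K * Real.log r + (M : ℝ) * (1 + C) * (1 + Real.log r) := by
        ring
      refine le_trans ?_ b2
      rw [h5]
      linarith)
    (by
      intro n hn
      have hKp : (0 : ℝ) < ((n + 1).factorial : ℝ) * 2 ^ (n + 1) := by positivity
      have hr0 : 0 < r := by linarith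
      have h1 : 4 * Real.pi * r * (((n + 1).factorial : ℝ) * 2 ^ (n + 1)) ^ 2 ≤
          (4 * Real.pi * K ^ 2) * r := by
        have h2 := pow_le_pow_left₀ hKp.le (hKn n hn) 2
        have h3 : 0 ≤ 4 * Real.pi * r := by positivity
        nlinarith [mul_le_mul_of_nonneg_left h2 h3]
      have h4 : 0 < 4 * Real.pi * r * (((n + 1).factorial : ℝ) * 2 ^ (n + 1)) ^ 2 := by
        positivity
      have h5 : (0 : ℝ) < 4 * Real.pi * K ^ 2 := by positivity
      have h6 := Real.log_le_log h4 h1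
      rw [Real.log_mul h5.ne' hr0.ne'] at h6
      have h7 := hlog _ h5
      have h8 := mul_nonneg h5.le hlr
      have h9 : (4 * Real.pi * K ^ 2 + 1) * (1 + Real.log r) =
          4 * Real.pi * K ^ 2 + 4 * Real.pi * K ^ 2 * Real.log r + 1 + Real.log r := by
        ring
      refine le_trans ?_ b3
      rw [h9]
      linarith)
    (by
      have h1 := hmid (M - 1) (by omega)
      have h2 := neg_abs_le (Real.log c)
      have h3 : 0 ≤ |Real.log c| * Real.log r := by positivity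
      have h5 : (|Real.log c| + (M : ℝ) * (1 + C)) * (1 + Real.log r) =
          |Real.log c| + |Real.log c| * Real.log r + (M : ℝ) * (1 + C) * (1 + Real.log r) := by
        ring
      refine le_trans ?_ b4
      rw [h5]
      linarith)
  refine ⟨r1, r2, fun z hz => ⟨(r3 z hz).1, (r3 z hz).2.trans ?_⟩, fun k hk1 hkM =>
    (r4 k hk1 hkM).trans ?_⟩
  · have h1 : 0 ≤ (M : ℝ) ^ 2 * L₁ * (1 + Real.log r) := by positivity
    have h2 : ((2 * (M : ℝ) + 1) * L₁ + (M : ℝ) ^ 2 * L₁) * (1 + Real.log r) =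
        (2 * M + 1) * L + (M : ℝ) ^ 2 * L₁ * (1 + Real.log r) := by
      rw [hLdef]
      ring
    rw [h2]
    linarith
  · have h1 : 0 ≤ (2 * (M : ℝ) + 1) * L := by positivity
    have h2 : ((2 * (M : ℝ) + 1) * L₁ + (M : ℝ) ^ 2 * L₁) * (1 + Real.log r) =
        (2 * M + 1) * L + (M : ℝ) ^ 2 * L := by
      rw [hLdef]
      ring
    have h3 : (k : ℝ) ^ 2 * L ≤ (M : ℝ) ^ 2 * L := by
      have h4 : (k : ℝ) ≤ M := by exact_mod_cast hkM
      exact mul_le_mul_of_nonneg_right (pow_le_pow_left₀ (by positivity) h4 2) hL0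
    rw [h2]
    linarith

end Pool.Agent.LibPer37
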