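import Pool.Agent.LibPer37.Defs2

/-! Task C01 (60-120 lines): an entire function `F` with `F (ζ z) = ζ^e F(z)` is `z^e h(z^q)`.

HINT.  Power series: let `a n = iteratedDeriv n F 0 / n!`, `F z = ∑ a n z^n` for all `z`
(`Complex.hasSum_taylorSeries_of_entire` or similar).  The functional equation gives
`a n * ζ^n = ζ^e * a n` (iterated derivatives at `0` of `z ↦ F (ζ z)`), so `a n = 0` unless `n ≡ e mod q`
(`ζ^n = ζ^e` iff `(n : ZMod q) = e`: `ZMod.injective_stdAddChar`, or the order of the root of unity).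
Put `h w = ∑ a (e + q n) w^n`; it is entire because its radius of convergence is infinite
(`‖a (e+qn)‖ ≤ M(R) / R^(e+qn)` by Cauchy for every `R`).  An alternative without power series: divide by `z^e`
(removable singularity after `e` zeros, `dslope`), reduce to `e = 0`, and show that a `ζ`-invariant entire `F`
factors through `z ↦ z^q` by removing `F 0`, dividing by `z^q`, and so on; power series are easier. -/

set_option autoImplicit false

namespace Pool.Agent.LibPer37

variable {q : ℕ} [NeZero q]

theorem eigen_factor (F : ℂ → ℂ) (hF : Differentiable ℂ F) (e : ℕ) (he : e < q)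
    (h : ∀ z, F (ZMod.stdAddChar (1 : ZMod q) * z) = (ZMod.stdAddChar (1 : ZMod q) : ℂ) ^ e * F z) :
    ∃ g : ℂ → ℂ, Differentiable ℂ g ∧ ∀ z, F z = z ^ e * g (z ^ q) := by
  have hq : 0 < q := Nat.pos_of_ne_zero (NeZero.ne q)
  set a : ℕ → ℂ := fun n => (n.factorial : ℂ)⁻¹ * iteratedDeriv n F 0 with ha
  have hsum : ∀ z, HasSum (fun n => a n * z ^ n) (F z) := by
    intro z
    have h1 := Complex.hasSum_taylorSeries_of_entire hF 0 z
    refine h1.congr_fun ?_
    intro n
    simp only [ha, smul_eq_mul, sub_zero]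
    ring
  -- the coefficients vanish off the residue class
  have hcoef : ∀ n : ℕ, (n : ZMod q) ≠ (e : ZMod q) → a n = 0 := by
    intro n hn
    have h1 : iteratedDeriv n (fun z => F (ZMod.stdAddChar (1 : ZMod q) * z)) 0 =
        (ZMod.stdAddChar (1 : ZMod q) : ℂ) ^ n * iteratedDeriv n F 0 := by
      rw [iteratedDeriv_comp_const_mul hF.contDiff]
      simp
    have h2 : (fun z => F (ZMod.stdAddChar (1 : ZMod q) * z)) =
        fun z => (ZMod.stdAddChar (1 : ZMod q) : ℂ) ^ e * F z := funext h
    rw [h2, iteratedDeriv_const_mul_field] at h1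
    have h3 : ((ZMod.stdAddChar (1 : ZMod q) : ℂ) ^ e - (ZMod.stdAddChar (1 : ZMod q) : ℂ) ^ n) *
        iteratedDeriv n F 0 = 0 := by
      rw [sub_mul, h1, sub_self]
    have h4 : (ZMod.stdAddChar (1 : ZMod q) : ℂ) ^ e - (ZMod.stdAddChar (1 : ZMod q) : ℂ) ^ n ≠ 0 := by
      rw [sub_ne_zero, ← AddChar.map_nsmul_eq_pow, ← AddChar.map_nsmul_eq_pow]
      intro h5
      have h6 := ZMod.injective_stdAddChar h5
      rw [nsmul_one, nsmul_one] at h6
      exact hn h6.symm
    have h5 := (mul_eq_zero.1 h3).resolve_left h4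
    simp only [ha, h5, mul_zero]
  set σ : ℕ → ℕ := fun n => e + q * n with hσ
  have hσinj : Function.Injective σ := by
    intro m n hmn
    simp only [hσ] at hmn
    have h1 : q * m = q * n := by omega
    exact Nat.eq_of_mul_eq_mul_left hq h1
  have hrange : ∀ m : ℕ, m ∉ Set.range σ → a m = 0 := by
    intro m hm
    apply hcoef
    intro h1
    apply hm
    rw [ZMod.natCast_eq_natCast_iff'] at h1
    rw [Nat.mod_eq_of_lt he] at h1
    refine ⟨m / q, ?_⟩
    simp only [hσ]
    have := Nat.mod_add_div m q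
    omega
  -- the new power series
  have hbound : ∀ R : ℝ, 0 ≤ R → Summable (fun n : ℕ => ‖a (σ n)‖ * R ^ n) := by
    intro R hR
    set r : ℝ := max R 1 with hr
    have hr1 : 1 ≤ r := le_max_right _ _
    have hrR : R ≤ r := le_max_left _ _
    have h1 : Summable (fun m : ℕ => ‖a m‖ * r ^ m) := by
      have h2 := ((hsum (r : ℂ)).summable).norm
      refine h2.congr (fun m => ?_)
      rw [norm_mul, norm_pow, Complex.norm_real, Real.norm_of_nonneg (by linarith)]
    have h3 : Summable (fun n : ℕ => ‖a (σ n)‖ * r ^ (σ n)) := h1.comp_injective hσinj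
    refine Summable.of_nonneg_of_le (fun n => by positivity) (fun n => ?_) h3
    refine mul_le_mul_of_nonneg_left ?_ (norm_nonneg _)
    calc R ^ n ≤ r ^ n := pow_le_pow_left₀ hR hrR n
      _ ≤ r ^ (σ n) := by
        refine pow_le_pow_right₀ hr1 ?_
        simp only [hσ]
        nlinarith
  refine ⟨fun w => ∑' n : ℕ, a (σ n) * w ^ n, ?_, ?_⟩
  · intro w
    have h1 : DifferentiableOn ℂ (fun w => ∑' n : ℕ, a (σ n) * w ^ n)
        (Metric.ball 0 (‖w‖ + 1)) := by
      refine Complex.differentiableOn_tsum_of_summable_norm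
        (u := fun n => ‖a (σ n)‖ * (‖w‖ + 1) ^ n) (hbound _ (by positivity)) ?_
        Metric.isOpen_ball ?_
      · intro n
        fun_prop
      · intro n v hv
        rw [mem_ball_zero_iff] at hv
        rw [norm_mul, norm_pow]
        exact mul_le_mul_of_nonneg_left (pow_le_pow_left₀ (norm_nonneg _) hv.le n) (norm_nonneg _)
    refine h1.differentiableAt (Metric.isOpen_ball.mem_nhds ?_)
    rw [mem_ball_zero_iff]
    linarith
  · intro z
    show F z = z ^ e * ∑' n : ℕ, a (σ n) * (z ^ q) ^ n
    rw [← (hsum z).tsum_eq, ← tsum_mul_left]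
    have h1 : ∑' n : ℕ, a (σ n) * z ^ (σ n) = ∑' m : ℕ, a m * z ^ m := by
      refine hσinj.tsum_eq (f := fun m => a m * z ^ m) ?_
      intro m hm
      by_contra h2
      apply hm
      show a m * z ^ m = 0
      rw [hrange m h2, zero_mul]
    rw [← h1]
    refine tsum_congr (fun n => ?_)
    simp only [hσ]
    rw [pow_add, pow_mul]
    ring

end Pool.Agent.LibPer37
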