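import Pool.Agent.LibPer37.Defs2

/-! Task C02 (70-120 lines): the projections `proj f c`.

HINT.  Orthogonality of characters of `ZMod q`: `∑ j, stdAddChar (j * d) = if d = 0 then q else 0`
(`AddChar.sum_eq_ite`, `AddChar.sum_mulShift`, `ZMod.isPrimitive_stdAddChar`).
`proj_rot`: change the summation variable.  `rot_eq_sum`: exchange the sums.
`proj_eq_zero`: the `n`-th Taylor coefficient of `proj f c` is that of `f` if `(n : ZMod q) = c` and `0` otherwise
(`iteratedDeriv n (fun z => f (a z)) 0 = a^n * iteratedDeriv n f 0`, `stdAddChar j ^ n = stdAddChar (n * j)`),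
and an entire function with vanishing Taylor coefficients at `0` is zero. -/

set_option autoImplicit false

namespace Pool.Agent.LibPer37

variable {q : ℕ} [NeZero q]

theorem C02_sum (b : ZMod q) :
    ∑ x : ZMod q, (ZMod.stdAddChar (x * b) : ℂ) = if b = 0 then (q : ℂ) else 0 := by
  have h := AddChar.sum_mulShift (R' := ℂ) b (ZMod.isPrimitive_stdAddChar q)
  rw [h]
  split_ifs
  · rw [ZMod.card]
  · simp

theorem proj_differentiable {f : ℂ → ℂ} (hf : Differentiable ℂ f) (c : ZMod q) :
    Differentiable ℂ (proj f c) := by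
  unfold proj
  fun_prop

theorem proj_rot (f : ℂ → ℂ) (c : ZMod q) (z : ℂ) :
    proj f c (ZMod.stdAddChar (1 : ZMod q) * z) = ZMod.stdAddChar c * proj f c z := by
  unfold proj
  have h1 : ∑ j : ZMod q, ZMod.stdAddChar (-(j * c)) *
        f (ZMod.stdAddChar j * (ZMod.stdAddChar (1 : ZMod q) * z)) =
      ∑ j : ZMod q, ZMod.stdAddChar c * (ZMod.stdAddChar (-(j * c)) *
        f (ZMod.stdAddChar j * z)) := by
    refine Fintype.sum_equiv (Equiv.addRight (1 : ZMod q)) _ _ (fun j => ?_)
    rw [Equiv.coe_addRight, ← mul_assoc, ← mul_assoc (ZMod.stdAddChar c : ℂ), ← AddChar.map_add_eq_mul,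
      ← AddChar.map_add_eq_mul]
    congr 2
    ring
  rw [h1, ← Finset.mul_sum]
  ring

theorem rot_eq_sum (f : ℂ → ℂ) (j : ZMod q) (z : ℂ) :
    rot f j z = ∑ c : ZMod q, ZMod.stdAddChar (j * c) * proj f c z := by
  classical
  have hq : (q : ℂ) ≠ 0 := Nat.cast_ne_zero.2 (NeZero.ne q)
  unfold rot proj
  have h1 : ∀ c : ZMod q, (ZMod.stdAddChar (j * c) : ℂ) * ((q : ℂ)⁻¹ *
        ∑ i : ZMod q, ZMod.stdAddChar (-(i * c)) * f (ZMod.stdAddChar i * z)) =
      ∑ i : ZMod q, (q : ℂ)⁻¹ * f (ZMod.stdAddChar i * z) *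
        (ZMod.stdAddChar (c * (j - i)) : ℂ) := by
    intro c
    rw [Finset.mul_sum, Finset.mul_sum]
    refine Finset.sum_congr rfl (fun i _ => ?_)
    have h2 : (ZMod.stdAddChar (c * (j - i)) : ℂ) =
        ZMod.stdAddChar (j * c) * ZMod.stdAddChar (-(i * c)) := by
      rw [← AddChar.map_add_eq_mul]
      congr 1
      ring
    rw [h2]
    ring
  rw [Finset.sum_congr rfl (fun c _ => h1 c), Finset.sum_comm]
  have h3 : ∀ i : ZMod q, ∑ c : ZMod q, (q : ℂ)⁻¹ * f (ZMod.stdAddChar i * z) *
        (ZMod.stdAddChar (c * (j - i)) : ℂ) =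
      if i = j then f (ZMod.stdAddChar j * z) else 0 := by
    intro i
    rw [← Finset.mul_sum, C02_sum]
    by_cases h : i = j
    · subst h
      rw [if_pos (sub_self _), if_pos rfl]
      field_simp
    · rw [if_neg (sub_ne_zero.2 (fun hh => h hh.symm)), if_neg h, mul_zero]
  rw [Finset.sum_congr rfl (fun i _ => h3 i)]
  simp

theorem proj_eq_zero {f : ℂ → ℂ} (hf : Differentiable ℂ f) (c : ZMod q)
    (h : ∀ n : ℕ, iteratedDeriv n f 0 ≠ 0 → (n : ZMod q) ≠ c) (z : ℂ) : proj f c z = 0 := by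
  classical
  have hcoef : ∀ n : ℕ, iteratedDeriv n (proj f c) 0 = 0 := by
    intro n
    have h1 : iteratedDeriv n (proj f c) 0 =
        (q : ℂ)⁻¹ * ∑ j : ZMod q, ZMod.stdAddChar (-(j * c)) *
          ((ZMod.stdAddChar j : ℂ) ^ n * iteratedDeriv n f 0) := by
      unfold proj
      rw [iteratedDeriv_const_mul_field, iteratedDeriv_fun_sum]
      · congr 1
        refine Finset.sum_congr rfl (fun j _ => ?_)
        rw [iteratedDeriv_const_mul_field, iteratedDeriv_comp_const_mul hf.contDiff]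
        simp
      · intro j _
        have : Differentiable ℂ (fun z => (ZMod.stdAddChar (-(j * c)) : ℂ) *
            f (ZMod.stdAddChar j * z)) := by fun_prop
        exact this.contDiff.contDiffAt
    rw [h1]
    by_cases h0 : iteratedDeriv n f 0 = 0
    · simp [h0]
    · have h2 := h n h0
      have h3 : ∑ j : ZMod q, (ZMod.stdAddChar (-(j * c)) : ℂ) *
          ((ZMod.stdAddChar j : ℂ) ^ n * iteratedDeriv n f 0) =
          (∑ j : ZMod q, (ZMod.stdAddChar (j * ((n : ZMod q) - c)) : ℂ)) *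
            iteratedDeriv n f 0 := by
        rw [Finset.sum_mul]
        refine Finset.sum_congr rfl (fun j _ => ?_)
        rw [← mul_assoc]
        congr 1
        rw [← AddChar.map_nsmul_eq_pow, ← AddChar.map_add_eq_mul]
        congr 1
        rw [nsmul_eq_mul]
        ring
      rw [h3, C02_sum, if_neg (sub_ne_zero.2 h2)]
      simp
  rw [← Complex.taylorSeries_eq_of_entire' 0 z (proj_differentiable hf c)]
  simp [hcoef]

end Pool.Agent.LibPer37
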