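import Pool.Agent.LibPer37.C02
import Pool.Agent.LibPer37.C01
import Pool.Agent.LibPer37.B01

/-! Task C03 (100-160 lines): Wronskians of rotated functions against Wronskians of projections.

HINT.  The Wronskian is multilinear in the rows (`Matrix.detRowAlternating`, `MultilinearMap.map_sum`,
`MultilinearMap.map_smul_univ`): if `u i = ∑ c, a i c • v c` then
`Wr u z = ∑ γ : Fin k → ZMod q, (∏ i, a i (γ i)) * Wr (fun i => v (γ i)) z`.
Apply it to `rot f (s i) = ∑ c, stdAddChar (s i * c) • proj f c` (`rot_eq_sum`) and to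
`proj f (c i) = ∑ j, (q⁻¹ * stdAddChar (-(j * c i))) • rot f j` (definition); all coefficients have absolute
value `1`, respectively `q⁻¹`, and there are `q^k` tuples.
`Wr_proj_factor`: `iteratedDeriv a (proj f c) (ζ z) * ζ^a = ζ^c * iteratedDeriv a (proj f c) z` (differentiate
`proj_rot`), so `Wr (fun i => proj f (c i)) (ζ z) = ζ^(∑ c i - k(k-1)/2) * Wr ... z`; choose `e < q` with
`(e : ZMod q) = ∑ c i - k(k-1)/2` (`ZMod.val`) and apply `eigen_factor`. -/

set_option autoImplicit false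

namespace Pool.Agent.LibPer37

variable {q : ℕ} [NeZero q]

theorem C03_char_sum {ι : Type*} (s : Finset ι) (g : ι → ZMod q) :
    (ZMod.stdAddChar (∑ i ∈ s, g i) : ℂ) = ∏ i ∈ s, (ZMod.stdAddChar (g i) : ℂ) := by
  classical
  induction s using Finset.induction_on with
  | empty => simp
  | insert i s hi ih => rw [Finset.sum_insert hi, Finset.prod_insert hi, AddChar.map_add_eq_mul, ih]

/-- multilinearity of the Wronskian -/
theorem C03_multi {ι : Type*} [Fintype ι] {k : ℕ} (u : Fin k → ℂ → ℂ) (v : ι → ℂ → ℂ)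
    (hv : ∀ c, Differentiable ℂ (v c)) (a : Fin k → ι → ℂ)
    (hu : ∀ i z, u i z = ∑ c, a i c * v c z) (z : ℂ) :
    Wr u z = ∑ γ : Fin k → ι, (∏ i, a i (γ i)) * Wr (fun i => v (γ i)) z := by
  classical
  have h1 : (fun i : Fin k => fun b : Fin k => iteratedDeriv (b : ℕ) (u i) z) =
      fun i => ∑ c : ι, a i c • (fun b : Fin k => iteratedDeriv (b : ℕ) (v c) z) := by
    funext i b
    rw [Finset.sum_apply]
    have h2 : u i = fun z => ∑ c, a i c * v c z := funext (hu i)
    rw [h2, iteratedDeriv_fun_sum]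
    · refine Finset.sum_congr rfl (fun c _ => ?_)
      rw [iteratedDeriv_const_mul_field]
      rfl
    · intro c _
      have : Differentiable ℂ (fun z => a i c * v c z) := (hv c).const_mul _
      exact this.contDiff.contDiffAt
  have h3 : Wr u z = (Matrix.detRowAlternating (n := Fin k) (R := ℂ)).toMultilinearMap
      (fun i : Fin k => fun b : Fin k => iteratedDeriv (b : ℕ) (u i) z) := rfl
  rw [h3, h1, MultilinearMap.map_sum]
  refine Finset.sum_congr rfl (fun γ _ => ?_)
  rw [MultilinearMap.map_smul_univ]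
  rfl

theorem Mx_le_sum_proj {f : ℂ → ℂ} (hf : Differentiable ℂ f) (k : ℕ) (z : ℂ) :
    Mx q f k z ≤ ∑ c : Fin k → ZMod q, ‖Wr (fun i => proj f (c i)) z‖ := by
  obtain ⟨s, hs⟩ := exists_Mx (q := q) f k z
  rw [← hs]
  unfold WS
  rw [C03_multi (fun i => rot f (s i)) (fun c => proj f c) (fun c => proj_differentiable hf c)
    (fun i c => ZMod.stdAddChar (s i * c)) (fun i z => rot_eq_sum f (s i) z) z]
  refine (norm_sum_le _ _).trans (Finset.sum_le_sum fun γ _ => ?_)
  rw [norm_mul, norm_prod]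
  have h1 : ∏ i : Fin k, ‖(ZMod.stdAddChar (s i * γ i) : ℂ)‖ = 1 :=
    Finset.prod_eq_one (fun i _ => norm_char _)
  rw [h1, one_mul]

theorem Wr_proj_le_Mx {f : ℂ → ℂ} (hf : Differentiable ℂ f) (k : ℕ) (c : Fin k → ZMod q) (z : ℂ) :
    ‖Wr (fun i => proj f (c i)) z‖ ≤ Mx q f k z := by
  have hq : (q : ℝ) ≠ 0 := Nat.cast_ne_zero.2 (NeZero.ne q)
  rw [C03_multi (fun i => proj f (c i)) (fun j => rot f j) (fun j => rot_differentiable hf j)
    (fun i j => (q : ℂ)⁻¹ * ZMod.stdAddChar (-(j * c i))) (fun i z => by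
      unfold proj rot
      rw [Finset.mul_sum]
      exact Finset.sum_congr rfl (fun j _ => by ring)) z]
  refine (norm_sum_le _ _).trans ?_
  have h1 : ∀ γ : Fin k → ZMod q,
      ‖(∏ i, ((q : ℂ)⁻¹ * ZMod.stdAddChar (-(γ i * c i)))) * Wr (fun i => rot f (γ i)) z‖ ≤
        ((q : ℝ)⁻¹) ^ k * Mx q f k z := by
    intro γ
    rw [norm_mul, norm_prod]
    have h2 : ∏ i : Fin k, ‖(q : ℂ)⁻¹ * (ZMod.stdAddChar (-(γ i * c i)) : ℂ)‖ = ((q : ℝ)⁻¹) ^ k := by
      rw [Finset.prod_congr rfl (g := fun _ => (q : ℝ)⁻¹)]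
      · simp
      · intro i _
        rw [norm_mul, norm_char, mul_one, norm_inv, Complex.norm_natCast]
    rw [h2]
    exact mul_le_mul_of_nonneg_left (norm_WS_le_Mx f γ z) (by positivity)
  refine (Finset.sum_le_sum fun γ _ => h1 γ).trans ?_
  rw [Finset.sum_const, Finset.card_univ, Fintype.card_fun, ZMod.card, Fintype.card_fin,
    nsmul_eq_mul, ← mul_assoc, Nat.cast_pow, ← mul_pow, mul_inv_cancel₀ hq, one_pow, one_mul]

theorem Wr_proj_factor {f : ℂ → ℂ} (hf : Differentiable ℂ f) (k : ℕ) (c : Fin k → ZMod q) :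
    ∃ e : ℕ, e < q ∧ ∃ g : ℂ → ℂ, Differentiable ℂ g ∧
      ∀ z, Wr (fun i => proj f (c i)) z = z ^ e * g (z ^ q) := by
  have hW : Differentiable ℂ (Wr (fun i => proj f (c i))) :=
    Wr_differentiable _ (fun i => proj_differentiable hf (c i))
  set ζ : ℂ := ZMod.stdAddChar (1 : ZMod q) with hζ
  -- the derivatives of the projections
  have hder : ∀ (d : ZMod q) (b : ℕ) (z : ℂ), ζ ^ b * iteratedDeriv b (proj f d) (ζ * z) =
      ZMod.stdAddChar d * iteratedDeriv b (proj f d) z := by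
    intro d b z
    have h1 : iteratedDeriv b (fun z => proj f d (ζ * z)) z =
        ζ ^ b * iteratedDeriv b (proj f d) (ζ * z) := by
      rw [iteratedDeriv_comp_const_mul (proj_differentiable hf d).contDiff]
    have h2 : (fun z => proj f d (ζ * z)) = fun z => ZMod.stdAddChar d * proj f d z :=
      funext (fun z => proj_rot f d z)
    rw [← h1, h2, iteratedDeriv_const_mul_field]
  have hchar : ∀ n : ℕ, ζ ^ n = ZMod.stdAddChar (n : ZMod q) := by
    intro n
    rw [hζ, ← AddChar.map_nsmul_eq_pow, nsmul_one]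
  set d : ZMod q := ∑ i, c i - ∑ b : Fin k, ((b : ℕ) : ZMod q) with hd
  have hfun : ∀ z, Wr (fun i => proj f (c i)) (ζ * z) =
      ZMod.stdAddChar d * Wr (fun i => proj f (c i)) z := by
    intro z
    have h1 : (∏ b : Fin k, ζ ^ (b : ℕ)) * Wr (fun i => proj f (c i)) (ζ * z) =
        (∏ i : Fin k, (ZMod.stdAddChar (c i) : ℂ)) * Wr (fun i => proj f (c i)) z := by
      unfold Wr
      rw [← Matrix.det_mul_row, ← Matrix.det_mul_column]
      congr 1
      ext i b
      simp only [Matrix.of_apply]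
      exact hder (c i) b z
    have h2 : (∏ b : Fin k, ζ ^ (b : ℕ)) =
        ZMod.stdAddChar (∑ b : Fin k, ((b : ℕ) : ZMod q)) := by
      rw [C03_char_sum]
      exact Finset.prod_congr rfl (fun b _ => hchar b)
    have h3 : (∏ i : Fin k, (ZMod.stdAddChar (c i) : ℂ)) = ZMod.stdAddChar (∑ i, c i) := by
      rw [C03_char_sum]
    rw [h2, h3] at h1
    have h4 : (ZMod.stdAddChar (∑ i, c i) : ℂ) =
        ZMod.stdAddChar (∑ b : Fin k, ((b : ℕ) : ZMod q)) * ZMod.stdAddChar d := by
      rw [← AddChar.map_add_eq_mul, hd]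
      congr 1
      ring
    rw [h4, mul_assoc] at h1
    have h5 : (ZMod.stdAddChar (∑ b : Fin k, ((b : ℕ) : ZMod q)) : ℂ) ≠ 0 := by
      rw [← norm_pos_iff, norm_char]
      norm_num
    exact mul_left_cancel₀ h5 h1
  refine ⟨d.val, ZMod.val_lt d, eigen_factor _ hW d.val (ZMod.val_lt d) ?_⟩
  intro z
  rw [← hζ, hfun z, hchar, ZMod.natCast_zmod_val]

end Pool.Agent.LibPer37
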