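import Mathlib

/-! Task C04 (60-110 lines): a polynomial with a coefficient of modulus `≥ 1` is small at few points. -/

set_option autoImplicit false

namespace Pool.Agent.LibPer37

/-- the coefficients are bounded by the values at the nodes of an injective tuple -/
private lemma C04_inv (N : ℕ) (t : Fin N → ℂ) (ht : Function.Injective t) :
    ∃ K : ℝ, 0 ≤ K ∧ ∀ (x : Fin N → ℂ) (b : ℝ) (n₀ : Fin N), 0 ≤ b →
      (∀ i, ‖∑ m : Fin N, x m * t i ^ (m : ℕ)‖ ≤ b) → ‖x n₀‖ ≤ K * b := by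
  classical
  set A : Matrix (Fin N) (Fin N) ℂ := Matrix.vandermonde t with hA
  have hdet : IsUnit A.det := by
    rw [isUnit_iff_ne_zero, hA, Matrix.det_vandermonde_ne_zero_iff]
    exact ht
  refine ⟨∑ i, ∑ j, ‖A⁻¹ i j‖, Finset.sum_nonneg fun i _ => Finset.sum_nonneg fun j _ =>
    norm_nonneg _, fun x b n₀ hb h => ?_⟩
  have h1 : A⁻¹.mulVec (A.mulVec x) = x := by
    rw [Matrix.mulVec_mulVec, Matrix.nonsing_inv_mul A hdet, Matrix.one_mulVec]
  have h2 : ∀ i, ‖A.mulVec x i‖ ≤ b := by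
    intro i
    refine le_trans (le_of_eq ?_) (h i)
    congr 1
    unfold Matrix.mulVec dotProduct
    refine Finset.sum_congr rfl fun m _ => ?_
    have e : A i m = t i ^ (m : ℕ) := Matrix.vandermonde_apply t i m
    show A i m * x m = x m * t i ^ (m : ℕ)
    rw [e, mul_comm]
  calc ‖x n₀‖ = ‖A⁻¹.mulVec (A.mulVec x) n₀‖ := by rw [h1]
    _ ≤ ∑ j, ‖A⁻¹ n₀ j‖ * b := by
        unfold Matrix.mulVec dotProduct
        refine (norm_sum_le _ _).trans (Finset.sum_le_sum fun j _ => ?_)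
        rw [norm_mul]
        exact mul_le_mul_of_nonneg_left (h2 j) (norm_nonneg _)
    _ = (∑ j, ‖A⁻¹ n₀ j‖) * b := by rw [Finset.sum_mul]
    _ ≤ (∑ i, ∑ j, ‖A⁻¹ i j‖) * b := by
        refine mul_le_mul_of_nonneg_right ?_ hb
        exact Finset.single_le_sum (f := fun i => ∑ j, ‖A⁻¹ i j‖)
          (fun i _ => Finset.sum_nonneg fun j _ => norm_nonneg _) (Finset.mem_univ n₀)

theorem few_small (N : ℕ) (hN : 1 ≤ N) (T : Finset ℂ) :
    ∃ η : ℝ, 0 < η ∧ η ≤ 1 ∧ ∀ x : Fin N → ℂ, ∀ n₀ : Fin N,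
      (T.filter fun τ => ‖∑ m : Fin N, x m * τ ^ (m : ℕ)‖ < η * ‖x n₀‖).card < N := by
  classical
  -- a common constant for all injective tuples with values in `T`
  have hK : ∃ K : ℝ, 0 ≤ K ∧ ∀ t : Fin N → ℂ, Function.Injective t → (∀ i, t i ∈ T) →
      ∀ (x : Fin N → ℂ) (b : ℝ) (n₀ : Fin N), 0 ≤ b →
        (∀ i, ‖∑ m : Fin N, x m * t i ^ (m : ℕ)‖ ≤ b) → ‖x n₀‖ ≤ K * b := by
    have hex : ∀ t : Fin N → T, ∃ K : ℝ, 0 ≤ K ∧ (Function.Injective (fun i => (t i : ℂ)) →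
        ∀ (x : Fin N → ℂ) (b : ℝ) (n₀ : Fin N), 0 ≤ b →
          (∀ i, ‖∑ m : Fin N, x m * (t i : ℂ) ^ (m : ℕ)‖ ≤ b) → ‖x n₀‖ ≤ K * b) := by
      intro t
      by_cases ht : Function.Injective (fun i => (t i : ℂ))
      · obtain ⟨K, hK0, hK⟩ := C04_inv N (fun i => (t i : ℂ)) ht
        exact ⟨K, hK0, fun _ => hK⟩
      · exact ⟨0, le_rfl, fun h => absurd h ht⟩
    choose K hK0 hK using hex
    refine ⟨∑ t, K t, Finset.sum_nonneg fun t _ => hK0 t, fun t ht htT x b n₀ hb h => ?_⟩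
    have h1 := hK (fun i => ⟨t i, htT i⟩) ht x b n₀ hb h
    refine h1.trans (mul_le_mul_of_nonneg_right ?_ hb)
    exact Finset.single_le_sum (f := K) (fun t _ => hK0 t) (Finset.mem_univ _)
  obtain ⟨K, hK0, hK⟩ := hK
  refine ⟨1 / (2 * (K + 1)), by positivity, ?_, fun x n₀ => ?_⟩
  · rw [div_le_one (by positivity)]
    linarith
  · by_contra hcard
    rw [not_lt] at hcard
    obtain ⟨U, hU, hUc⟩ := Finset.exists_subset_card_eq hcard
    have e : Fin N ≃ U := (Finset.equivFinOfCardEq hUc).symm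
    have hmem : ∀ i, (e i : ℂ) ∈ T ∧
        ‖∑ m : Fin N, x m * (e i : ℂ) ^ (m : ℕ)‖ < 1 / (2 * (K + 1)) * ‖x n₀‖ := fun i =>
      Finset.mem_filter.mp (hU (e i).2)
    have hb : 0 ≤ 1 / (2 * (K + 1)) * ‖x n₀‖ := by positivity
    have h1 := hK (fun i => (e i : ℂ)) (fun i j hij => e.injective (Subtype.ext hij))
      (fun i => (hmem i).1) x _ n₀ hb (fun i => (hmem i).2.le)
    have hpos : 0 < ‖x n₀‖ := by
      have h2 := (norm_nonneg _).trans_lt (hmem n₀).2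
      have h3 : 0 < 1 / (2 * (K + 1)) := by positivity
      exact (pos_iff_pos_of_mul_pos h2).mp h3
    have h4 : K * (1 / (2 * (K + 1)) * ‖x n₀‖) < ‖x n₀‖ := by
      have h5 : K * (1 / (2 * (K + 1))) < 1 := by
        rw [mul_one_div, div_lt_one (by positivity)]
        linarith
      calc K * (1 / (2 * (K + 1)) * ‖x n₀‖) = K * (1 / (2 * (K + 1))) * ‖x n₀‖ := by ring
        _ < 1 * ‖x n₀‖ := mul_lt_mul_of_pos_right h5 hpos
        _ = ‖x n₀‖ := one_mul _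
    linarith

end Pool.Agent.LibPer37
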