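import Pool.Agent.LibPer37.C03
import Pool.Agent.LibPer37.C04

/-! Task C05 (120-180 lines): the auxiliary functions `H_τ`.

HINT.  For `c : Fin k → ZMod q` let `e c`, `g c` be as in `Wr_proj_factor`.  Number the tuples by
`Fin N`, `N = q^k` (`Fintype.equivFin`, `Fintype.card_fun`, `ZMod.card`), and for `τ ∈ ℂ` put
`H_τ w = ∑ c, g c w * τ ^ (number of c)`.
Let `T₁` be a set of `t₀ + N` different complex numbers.  At most `N - 1` of them have `H_τ = 0` identically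
(otherwise by Vandermonde, or by `few_small` at each point, all `g c` vanish, so all `Wr (proj ∘ c)` vanish and
`Mx q f k = 0`, `Mx_le_sum_proj`, contradicting `hne`).  Choose `t₀` of the others, `τ : Fin t₀ → ℂ` injective.
For `‖z‖ ≥ 1`: `‖g c (z^q)‖ ≤ ‖z‖^(e c) ‖g c (z^q)‖ = ‖Wr (proj ∘ c) z‖ ≤ Mx q f k z` gives the first
inequality with `C = ∑ ‖τ‖^n + ...`.  Conversely `Mx q f k z ≤ ∑_c ‖z‖^(e c) ‖g c (z^q)‖ ≤ N ‖z‖^q max_c ‖g c (z^q)‖`
and by `few_small` (with `n₀` the number of the tuple where the maximum is attained) fewer than `N` of the `τ i`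
have `‖H_τ (z^q)‖ < η max_c ‖g c (z^q)‖`; take `C ≥ N / η` (strict inequality: if `C ‖z‖^q ‖H (z^q)‖ < Mx` then
`‖H (z^q)‖ < η max`). -/

set_option autoImplicit false

namespace Pool.Agent.LibPer37

variable {q : ℕ} [NeZero q]

theorem family {f : ℂ → ℂ} (hf : Differentiable ℂ f) (k : ℕ)
    (hne : ∃ s : Fin k → ZMod q, ∃ z, WS f s z ≠ 0) (t₀ : ℕ) :
    ∃ (H : Fin t₀ → ℂ → ℂ) (C : ℝ), 1 ≤ C ∧ (∀ i, Differentiable ℂ (H i)) ∧
      (∀ i, ∃ w, H i w ≠ 0) ∧
      (∀ i, ∀ z : ℂ, 1 ≤ ‖z‖ → ‖H i (z ^ q)‖ ≤ C * Mx q f k z) ∧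
      (∀ z : ℂ, 1 ≤ ‖z‖ →
        (Finset.univ.filter fun i => C * ‖z‖ ^ q * ‖H i (z ^ q)‖ < Mx q f k z).card < q ^ k) := by
  classical
  choose e he g hgd hg using fun c : Fin k → ZMod q => Wr_proj_factor hf k c
  have hcard : Fintype.card (Fin k → ZMod q) = q ^ k := by
    rw [Fintype.card_fun, ZMod.card, Fintype.card_fin]
  set N : ℕ := q ^ k with hNdef
  have hN1 : 1 ≤ N := Nat.one_le_iff_ne_zero.2 (pow_ne_zero _ (NeZero.ne q))
  have eq : (Fin k → ZMod q) ≃ Fin N := Fintype.equivFinOfCardEq hcard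
  -- the coefficients
  set x : ℂ → Fin N → ℂ := fun w m => g (eq.symm m) w with hx
  set T₁ : Finset ℂ := (Finset.range (t₀ + N)).image (fun n : ℕ => (n : ℂ)) with hT₁
  have hT₁card : T₁.card = t₀ + N := by
    rw [hT₁, Finset.card_image_of_injective _ Nat.cast_injective, Finset.card_range]
  obtain ⟨η, hη, -, hfew⟩ := few_small N hN1 T₁
  -- the bad numbers
  set Z : Finset ℂ := T₁.filter fun τ => ∀ w, ∑ m : Fin N, x w m * τ ^ (m : ℕ) = 0 with hZ
  have hZcard : Z.card < N := by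
    obtain ⟨s, z, hs⟩ := hne
    have h1 : 0 < Mx q f k z := lt_of_lt_of_le (norm_pos_iff.2 hs) (norm_WS_le_Mx f s z)
    have h2 := lt_of_lt_of_le h1 (Mx_le_sum_proj hf k z)
    obtain ⟨c, -, hc⟩ := Finset.exists_ne_zero_of_sum_ne_zero h2.ne'
    rw [norm_ne_zero_iff, hg c z] at hc
    have hgc : g c (z ^ q) ≠ 0 := right_ne_zero_of_mul hc
    have hxc : 0 < ‖x (z ^ q) (eq c)‖ := by
      rw [norm_pos_iff, hx]
      simp only [Equiv.symm_apply_apply]
      exact hgc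
    refine lt_of_le_of_lt (Finset.card_le_card ?_) (hfew (x (z ^ q)) (eq c))
    intro τ hτ
    rw [hZ, Finset.mem_filter] at hτ
    rw [Finset.mem_filter]
    refine ⟨hτ.1, ?_⟩
    rw [hτ.2 (z ^ q), norm_zero]
    positivity
  have hcard2 : t₀ ≤ (T₁ \ Z).card := by
    have h1 : T₁.card - Z.card ≤ (T₁ \ Z).card := Finset.le_card_sdiff Z T₁
    omega
  obtain ⟨T₂, hT₂, hT₂card⟩ := Finset.exists_subset_card_eq hcard2
  set τ : Fin t₀ → ℂ := fun i => ((T₂.equivFinOfCardEq hT₂card).symm i : ℂ) with hτ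
  have hτinj : Function.Injective τ := by
    intro i j hij
    exact (T₂.equivFinOfCardEq hT₂card).symm.injective (Subtype.ext hij)
  have hτmem : ∀ i, τ i ∈ T₁ ∧ τ i ∉ Z := by
    intro i
    have h1 : τ i ∈ T₂ := ((T₂.equivFinOfCardEq hT₂card).symm i).2
    exact Finset.mem_sdiff.1 (hT₂ h1)
  set H : Fin t₀ → ℂ → ℂ := fun i w => ∑ m : Fin N, x w m * τ i ^ (m : ℕ) with hH
  set C₀ : ℝ := ∑ i : Fin t₀, ∑ m : Fin N, ‖τ i‖ ^ (m : ℕ) with hC₀
  have hC₀0 : 0 ≤ C₀ := Finset.sum_nonneg fun _ _ => Finset.sum_nonneg fun _ _ => by positivity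
  have hNη : 0 ≤ (N : ℝ) / η := by positivity
  refine ⟨H, 1 + N / η + C₀, by linarith, ?_, ?_, ?_, ?_⟩
  · intro i
    rw [hH]
    simp only [hx]
    exact Differentiable.fun_sum fun m _ => (hgd _).mul_const _
  · intro i
    by_contra hcon
    push Not at hcon
    exact (hτmem i).2 (Finset.mem_filter.2 ⟨(hτmem i).1, hcon⟩)
  · intro i z hz
    have hgz : ∀ c, ‖g c (z ^ q)‖ ≤ Mx q f k z := by
      intro c
      calc ‖g c (z ^ q)‖ = 1 * ‖g c (z ^ q)‖ := (one_mul _).symm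
        _ ≤ ‖z‖ ^ e c * ‖g c (z ^ q)‖ :=
            mul_le_mul_of_nonneg_right (one_le_pow₀ hz) (norm_nonneg _)
        _ = ‖Wr (fun i => proj f (c i)) z‖ := by rw [hg c z, norm_mul, norm_pow]
        _ ≤ Mx q f k z := Wr_proj_le_Mx hf k c z
    have hMx := Mx_nonneg (q := q) f k z
    calc ‖H i (z ^ q)‖ ≤ ∑ m : Fin N, ‖x (z ^ q) m * τ i ^ (m : ℕ)‖ := norm_sum_le _ _
      _ ≤ ∑ m : Fin N, Mx q f k z * ‖τ i‖ ^ (m : ℕ) := by
          refine Finset.sum_le_sum fun m _ => ?_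
          rw [norm_mul, norm_pow]
          exact mul_le_mul_of_nonneg_right (hgz _) (by positivity)
      _ = (∑ m : Fin N, ‖τ i‖ ^ (m : ℕ)) * Mx q f k z := by rw [← Finset.mul_sum, mul_comm]
      _ ≤ C₀ * Mx q f k z := by
          refine mul_le_mul_of_nonneg_right ?_ hMx
          exact Finset.single_le_sum (f := fun i => ∑ m : Fin N, ‖τ i‖ ^ (m : ℕ))
            (fun _ _ => Finset.sum_nonneg fun _ _ => by positivity) (Finset.mem_univ i)
      _ ≤ (1 + N / η + C₀) * Mx q f k z := mul_le_mul_of_nonneg_right (by linarith) hMx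
  · intro z hz
    have hzq : 1 ≤ ‖z‖ ^ q := one_le_pow₀ hz
    have : Nonempty (Fin N) := ⟨⟨0, hN1⟩⟩
    obtain ⟨n₀, hn₀⟩ := Finite.exists_max (fun m : Fin N => ‖x (z ^ q) m‖)
    have hMle : Mx q f k z ≤ N * ‖z‖ ^ q * ‖x (z ^ q) n₀‖ := by
      calc Mx q f k z ≤ ∑ c : Fin k → ZMod q, ‖Wr (fun i => proj f (c i)) z‖ :=
            Mx_le_sum_proj hf k z
        _ ≤ ∑ _c : Fin k → ZMod q, ‖z‖ ^ q * ‖x (z ^ q) n₀‖ := by
            refine Finset.sum_le_sum fun c _ => ?_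
            rw [hg c z, norm_mul, norm_pow]
            refine mul_le_mul (pow_le_pow_right₀ hz (he c).le) ?_ (norm_nonneg _) (by positivity)
            have h1 := hn₀ (eq c)
            rw [hx] at h1 ⊢
            simp only [Equiv.symm_apply_apply] at h1
            exact h1
        _ = N * ‖z‖ ^ q * ‖x (z ^ q) n₀‖ := by
            rw [Finset.sum_const, Finset.card_univ, hcard, nsmul_eq_mul]
            ring
    refine lt_of_le_of_lt ?_ (hfew (x (z ^ q)) n₀)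
    rw [← Finset.card_image_of_injective _ hτinj]
    refine Finset.card_le_card ?_
    intro σ hσ
    rw [Finset.mem_image] at hσ
    obtain ⟨i, hi, rfl⟩ := hσ
    rw [Finset.mem_filter] at hi
    rw [Finset.mem_filter]
    refine ⟨(hτmem i).1, ?_⟩
    by_contra hcon
    rw [not_lt] at hcon
    have h1 : ‖H i (z ^ q)‖ = ‖∑ m : Fin N, x (z ^ q) m * τ i ^ (m : ℕ)‖ := rfl
    have h2 : N * ‖z‖ ^ q * ‖x (z ^ q) n₀‖ ≤ (1 + N / η + C₀) * ‖z‖ ^ q * ‖H i (z ^ q)‖ := by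
      calc N * ‖z‖ ^ q * ‖x (z ^ q) n₀‖ = (N / η) * ‖z‖ ^ q * (η * ‖x (z ^ q) n₀‖) := by
            field_simp
        _ ≤ (N / η) * ‖z‖ ^ q * ‖H i (z ^ q)‖ := by
            rw [h1]
            exact mul_le_mul_of_nonneg_left hcon (by positivity)
        _ ≤ _ := by
            refine mul_le_mul_of_nonneg_right ?_ (norm_nonneg _)
            exact mul_le_mul_of_nonneg_right (by linarith) (by positivity)
    exact absurd (hMle.trans h2) (not_le.2 hi.2)

end Pool.Agent.LibPer37
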