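import Pool.Agent.LibPer37.B01

/-! Task C06 (60-110 lines): growth of `Mx` and of functions of `z^q`.

HINT.  `growth_Mx`: Cauchy's estimate on the circle of radius one around `z`
(`Complex.norm_iteratedDeriv_le_of_forall_mem_sphere_norm_le`): `‖iteratedDeriv a (rot f j) z‖ ≤
a! * max ‖f‖ ≤ a! * exp ((‖z‖+1)^ρ₁)` for `‖z‖` large; the determinant is a sum of `k!` products of `k` entries
(`Matrix.det_le` or `Matrix.det_apply`), so `‖WS f s z‖ ≤ K * exp (k * (‖z‖+1)^ρ₁) ≤ exp (‖z‖^ρ₂)` for large `‖z‖`.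
`growth_root`: put `z = w^(1/q)` (`‖z‖^q = ‖w‖`; every `w` is a `q`-th power), `‖g w‖ ≤ C exp (‖w‖^(ρ₂/q)) ≤
exp (‖w‖^σ₁)` for `‖w‖` large. -/

set_option autoImplicit false

open Filter Topology

namespace Pool.Agent.LibPer37

variable {q : ℕ} [NeZero q]

private theorem ev_add_rpow_le (K c a b : ℝ) (ha : 0 ≤ a) (hab : a < b) :
    ∀ᶠ r : ℝ in atTop, K + c * r ^ a ≤ r ^ b := by
  have h1 := (tendsto_rpow_atTop (sub_pos.mpr hab)).eventually_ge_atTop (|K| + |c|)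
  filter_upwards [h1, eventually_ge_atTop (1 : ℝ)] with r h2 hr
  have hr0 : (0 : ℝ) < r := by linarith
  have h3 : (1 : ℝ) ≤ r ^ a := Real.one_le_rpow hr ha
  have h4 : r ^ b = r ^ (b - a) * r ^ a := by
    rw [← Real.rpow_add hr0, sub_add_cancel]
  rw [h4]
  have h5 : K ≤ |K| * r ^ a := by
    have := mul_le_mul_of_nonneg_left h3 (abs_nonneg K)
    linarith [le_abs_self K]
  have h6 : c * r ^ a ≤ |c| * r ^ a := mul_le_mul_of_nonneg_right (le_abs_self c) (by linarith)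
  have h7 : (|K| + |c|) * r ^ a ≤ r ^ (b - a) * r ^ a :=
    mul_le_mul_of_nonneg_right h2 (by linarith)
  linarith

private theorem norm_det_le {k : ℕ} (A : Matrix (Fin k) (Fin k) ℂ) (x : ℝ)
    (h : ∀ i j, ‖A i j‖ ≤ x) : ‖A.det‖ ≤ (k.factorial : ℝ) * x ^ k := by
  have h1 := Matrix.det_le (A := A) (abv := NormedField.toAbsoluteValue ℂ) (x := x) h
  rw [Fintype.card_fin, nsmul_eq_mul] at h1
  exact h1

theorem growth_Mx {f : ℂ → ℂ} (hf : Differentiable ℂ f) (ρ₁ ρ₂ : ℝ) (h1 : 0 < ρ₁) (h12 : ρ₁ < ρ₂)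
    (hgr : ∀ᶠ r : ℝ in atTop, ∀ z : ℂ, ‖z‖ = r → ‖f z‖ ≤ Real.exp (r ^ ρ₁)) (k : ℕ) :
    ∀ᶠ r : ℝ in atTop, ∀ z : ℂ, ‖z‖ = r → Mx q f k z ≤ Real.exp (r ^ ρ₂) := by
  obtain ⟨R₀, hR₀⟩ := eventually_atTop.mp hgr
  have hbig := ev_add_rpow_le (Real.log ((k.factorial : ℝ) * (k.factorial : ℝ) ^ k))
    ((k : ℝ) * 2 ^ ρ₁) ρ₁ ρ₂ h1.le h12
  filter_upwards [hbig, eventually_ge_atTop (R₀ + 1), eventually_ge_atTop (1 : ℝ)] with r hr1 hr2 hr3
  intro z hz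
  obtain ⟨s, hs⟩ := exists_Mx (q := q) f k z
  rw [← hs]
  have hent : ∀ i a : Fin k, ‖iteratedDeriv (a : ℕ) (rot f (s i)) z‖
      ≤ (k.factorial : ℝ) * Real.exp ((r + 1) ^ ρ₁) := by
    intro i a
    have e1 := Complex.norm_iteratedDeriv_le_of_forall_mem_sphere_norm_le (c := z) (R := 1)
      (C := Real.exp ((r + 1) ^ ρ₁)) (f := rot f (s i)) (a : ℕ) one_pos
      (rot_differentiable hf _).diffContOnCl (by
        intro w hw
        have hw' : ‖w - z‖ = 1 := by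
          rw [← dist_eq_norm]
          exact hw
        have hn1 : ‖w‖ ≤ r + 1 := by
          have := norm_add_le (w - z) z
          rw [sub_add_cancel, hw', hz] at this
          linarith
        have hn2 : R₀ ≤ ‖w‖ := by
          have := norm_sub_norm_le z w
          rw [norm_sub_rev, hw', hz] at this
          linarith
        have e2 := hR₀ ‖w‖ hn2 (ZMod.stdAddChar (s i) * w) (by rw [norm_mul, norm_char, one_mul])
        show ‖f (ZMod.stdAddChar (s i) * w)‖ ≤ _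
        refine e2.trans (Real.exp_le_exp.mpr ?_)
        exact Real.rpow_le_rpow (norm_nonneg _) hn1 h1.le)
    refine e1.trans ?_
    rw [one_pow, div_one]
    apply mul_le_mul_of_nonneg_right _ (Real.exp_pos _).le
    exact_mod_cast Nat.factorial_le a.2.le
  have hdet : ‖WS f s z‖ ≤ (k.factorial : ℝ) *
      ((k.factorial : ℝ) * Real.exp ((r + 1) ^ ρ₁)) ^ k := norm_det_le _ _ hent
  refine hdet.trans ?_
  have hk : (0 : ℝ) < (k.factorial : ℝ) * (k.factorial : ℝ) ^ k := by positivity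
  have h5 : (k.factorial : ℝ) * ((k.factorial : ℝ) * Real.exp ((r + 1) ^ ρ₁)) ^ k
      = Real.exp (Real.log ((k.factorial : ℝ) * (k.factorial : ℝ) ^ k) + k * (r + 1) ^ ρ₁) := by
    rw [Real.exp_add, Real.exp_log hk, Real.exp_nat_mul, mul_pow]
    ring
  rw [h5]
  apply Real.exp_le_exp.mpr
  refine le_trans ?_ hr1
  have h6 : (r + 1) ^ ρ₁ ≤ 2 ^ ρ₁ * r ^ ρ₁ := by
    rw [← Real.mul_rpow (by norm_num) (by linarith)]
    exact Real.rpow_le_rpow (by linarith) (by linarith) h1.le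
  have h7 : (k : ℝ) * (r + 1) ^ ρ₁ ≤ k * (2 ^ ρ₁ * r ^ ρ₁) :=
    mul_le_mul_of_nonneg_left h6 (Nat.cast_nonneg k)
  linarith

theorem growth_root (g : ℂ → ℂ) (q : ℕ) (hq : q ≠ 0) (C ρ₂ σ₁ : ℝ) (h : 0 < ρ₂) (h' : ρ₂ < q * σ₁)
    (hg : ∀ᶠ r : ℝ in atTop, ∀ z : ℂ, ‖z‖ = r → ‖g (z ^ q)‖ ≤ C * Real.exp (r ^ ρ₂)) :
    ∀ᶠ r : ℝ in atTop, ∀ w : ℂ, ‖w‖ = r → ‖g w‖ ≤ Real.exp (r ^ σ₁) := by
  have hq0 : (0 : ℝ) < q := by exact_mod_cast Nat.pos_of_ne_zero hq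
  have hroot : Tendsto (fun r : ℝ => r ^ ((q : ℝ)⁻¹)) atTop atTop :=
    tendsto_rpow_atTop (inv_pos.mpr hq0)
  have h1 := hroot.eventually hg
  have hlt : ρ₂ / q < σ₁ := by
    rw [div_lt_iff₀ hq0]
    linarith
  have h2 := ev_add_rpow_le (Real.log (max C 1)) 1 (ρ₂ / q) σ₁ (by positivity) hlt
  filter_upwards [h1, h2, eventually_ge_atTop (1 : ℝ)] with r hr1 hr2 hr3
  intro w hw
  obtain ⟨z, hz⟩ := IsAlgClosed.exists_pow_nat_eq w (Nat.pos_of_ne_zero hq)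
  have hzn : ‖z‖ = r ^ ((q : ℝ)⁻¹) := by
    have e1 : ‖z‖ ^ q = r := by rw [← norm_pow, hz, hw]
    rw [← e1, Real.pow_rpow_inv_natCast (norm_nonneg _) hq]
  have e2 := hr1 z hzn
  rw [hz] at e2
  refine e2.trans ?_
  have e3 : (r ^ ((q : ℝ)⁻¹)) ^ ρ₂ = r ^ (ρ₂ / q) := by
    rw [← Real.rpow_mul (by linarith)]
    congr 1
    rw [div_eq_inv_mul]
  rw [e3]
  have hmax : (0 : ℝ) < max C 1 := lt_of_lt_of_le one_pos (le_max_right _ _)
  calc C * Real.exp (r ^ (ρ₂ / q)) ≤ max C 1 * Real.exp (r ^ (ρ₂ / q)) :=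
        mul_le_mul_of_nonneg_right (le_max_left _ _) (Real.exp_pos _).le
    _ = Real.exp (Real.log (max C 1) + 1 * r ^ (ρ₂ / q)) := by
        rw [Real.exp_add, Real.exp_log hmax, one_mul]
    _ ≤ Real.exp (r ^ σ₁) := Real.exp_le_exp.mpr hr2

end Pool.Agent.LibPer37
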