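import Pool.Agent.LibPer37.C02
import Pool.Agent.LibPer37.A05
import Pool.Agent.LibPer37.B01

/-! Task C07 (60-110 lines): the top level exists and is at most the number of classes.

HINT.  If `s : Fin k → ZMod q` with `k > card Cs`, then `rot f (s i) = ∑ c ∈ Cs, stdAddChar (s i * c) • proj f c`
(`rot_eq_sum`, `proj_eq_zero`); the `k × Cs` matrix of coefficients has a nonzero left kernel vector `d`
(`exists_nontrivial_relation...`, `LinearIndependent` and cardinality: `k` vectors in `Cs → ℂ`), so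
`∑ i, d i * rot f (s i) = 0` and `Wr_zero_of_dependent` gives `WS f s = 0`.
`M` = the largest `k` such that some `WS f s`, `s : Fin k → ZMod q`, is not identically zero (`Nat.find` or
`Nat.findGreatest`); length one: `WS f ![0] = f`, which is not identically zero, so `M ≥ 1`. -/

set_option autoImplicit false

namespace Pool.Agent.LibPer37

variable {q : ℕ} [NeZero q]

private theorem C07_dep {f : ℂ → ℂ} (hf : Differentiable ℂ f) (Cs : Finset (ZMod q))
    (h : ∀ n : ℕ, iteratedDeriv n f 0 ≠ 0 → (n : ZMod q) ∈ Cs) {k : ℕ} (hk : Cs.card < k)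
    (s : Fin k → ZMod q) (z : ℂ) : WS f s z = 0 := by
  classical
  have hnot : ¬ LinearIndependent ℂ (fun (i : Fin k) (c : Cs) =>
      (ZMod.stdAddChar (s i * (c : ZMod q)) : ℂ)) := by
    intro hli
    have h1 := hli.fintype_card_le_finrank
    rw [Fintype.card_fin, Module.finrank_fintype_fun_eq_card, Fintype.card_coe] at h1
    omega
  rw [Fintype.not_linearIndependent_iff] at hnot
  obtain ⟨g, hg, i, hi⟩ := hnot
  have hproj : ∀ c : ZMod q, c ∉ Cs → ∀ z, proj f c z = 0 := by
    intro c hc z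
    refine proj_eq_zero hf c ?_ z
    rintro n hn rfl
    exact hc (h n hn)
  refine Wr_zero_of_dependent k (fun i => rot f (s i)) (fun i => rot_differentiable hf (s i)) g
    (fun h0 => hi (congrFun h0 i)) ?_ z
  intro z
  have h1 : ∀ i, rot f (s i) z = ∑ c : Cs, (ZMod.stdAddChar (s i * (c : ZMod q)) : ℂ) *
      proj f (c : ZMod q) z := by
    intro i
    rw [rot_eq_sum, ← Finset.sum_subset (Finset.subset_univ Cs)]
    · rw [← Finset.sum_coe_sort]
    · intro c _ hc
      rw [hproj c hc, mul_zero]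
  simp_rw [h1, Finset.mul_sum]
  rw [Finset.sum_comm]
  refine Finset.sum_eq_zero fun c _ => ?_
  have h2 := congrFun hg c
  simp only [Finset.sum_apply, Pi.smul_apply, smul_eq_mul, Pi.zero_apply] at h2
  calc ∑ i, g i * ((ZMod.stdAddChar (s i * (c : ZMod q)) : ℂ) * proj f (c : ZMod q) z)
      = (∑ i, g i * (ZMod.stdAddChar (s i * (c : ZMod q)) : ℂ)) * proj f (c : ZMod q) z := by
        rw [Finset.sum_mul]
        refine Finset.sum_congr rfl fun i _ => ?_
        ring
    _ = 0 := by rw [h2, zero_mul]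

theorem exists_top {f : ℂ → ℂ} (hf : Differentiable ℂ f) (hne : ∃ z, f z ≠ 0) (Cs : Finset (ZMod q))
    (h : ∀ n : ℕ, iteratedDeriv n f 0 ≠ 0 → (n : ZMod q) ∈ Cs) :
    ∃ M : ℕ, 1 ≤ M ∧ M ≤ Cs.card ∧ Top q f M := by
  classical
  have hP1 : ∃ s : Fin 1 → ZMod q, ∃ z, WS f s z ≠ 0 := by
    obtain ⟨z, hz⟩ := hne
    refine ⟨fun _ => 0, z, ?_⟩
    have h1 : WS f (fun _ : Fin 1 => (0 : ZMod q)) z = f z := by
      simp [WS, Wr, rot, Matrix.det_unique]
    rw [h1]
    exact hz
  have hN : 1 ≤ Cs.card := by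
    by_contra hcon
    obtain ⟨s, z, hz⟩ := hP1
    exact hz (C07_dep hf Cs h (by omega) s z)
  refine ⟨Nat.findGreatest (fun k => ∃ s : Fin k → ZMod q, ∃ z, WS f s z ≠ 0) Cs.card,
    Nat.le_findGreatest hN hP1, Nat.findGreatest_le _, ?_, ?_⟩
  · exact Nat.findGreatest_spec (P := fun k => ∃ s : Fin k → ZMod q, ∃ z, WS f s z ≠ 0) hN hP1
  · intro s z
    by_contra hcon
    by_cases hle : Nat.findGreatest (fun k => ∃ s : Fin k → ZMod q, ∃ z, WS f s z ≠ 0) Cs.card + 1 ≤
        Cs.card
    · exact Nat.findGreatest_is_greatest (P := fun k => ∃ s : Fin k → ZMod q, ∃ z, WS f s z ≠ 0)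
        (Nat.lt_succ_self _) hle ⟨s, z, hcon⟩
    · exact hcon (C07_dep hf Cs h (by omega) s z)

end Pool.Agent.LibPer37
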