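import Mathlib

/-! Task D01 (150-250 lines, real/complex analysis): the kernel
`ker σ t = log |1 - t| - cos (π σ) log (1 + t)`, `0 < σ < 1/2`.

HINT.  (1) Integrability on `(0, ∞)` of `log (1+t) t^(-1-σ)` and of `log |1-t| t^(-1-σ)`: near `0` both logarithms
are `O(t)`, near `∞` they are `O(t^(σ/2))`, and `log |1-t|` is integrable near `1`
(`intervalIntegral.intervalIntegrable_log'`, translation).
(2) `∫₀^∞ log |1-t| t^(-1-σ) dt = cos (π σ) * ∫₀^∞ log (1+t) t^(-1-σ) dt`.  Proof: for `z` in the slit plane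
`F z = ∫₀^∞ Complex.log (1 + t z) t^(-1-σ) dt` is analytic (differentiation under the integral,
`hasDerivAt_integral_of_dominated_loc_of_deriv_le`; `F' z = ∫ t^(-σ) / (1 + t z) dt`), `F x = x^σ F 1` for `x > 0` (substitution), so
`F z = z^σ F 1` on the slit plane (identity theorem), in particular
`∫ log |1 + t e^{iθ}| t^(-1-σ) dt = Re F (e^{iθ}) = cos (σ θ) F 1` for `|θ| < π`; let `θ → π`: dominated convergence,
`|log |1 + t e^{iθ}|| ≤ |log |1-t|| + log (1+t)` because `|1-t| ≤ |1 + t e^{iθ}| ≤ 1 + t`.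
(Any other proof is fine, e.g. via Beta integrals, or: `G θ = ∫ log |1 + t e^{iθ}| t^(-1-σ) dt` satisfies
`G'' = - σ² G`.)
(3) `ker σ t < 0` for `0 < t < 1` (here `cos (πσ) > 0` is used), and on `(1, ∞)` it is increasing (derivative
`1/(t-1) - cos(πσ)/(t+1) > 0`), so there is `t₀ ≥ 1` with `ker ≤ 0` on `(0,t₀)` and `ker ≥ 0` on `(t₀,∞)`.  Hence the
integral over `(t₁, ∞)` is `≥ 0`: for `t₁ ≥ t₀` clear, for `t₁ < t₀` it is minus the integral over `(0, t₁)`. -/

set_option autoImplicit false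

open MeasureTheory Set Topology

namespace Pool.Agent.LibPer37

noncomputable section

/-- the kernel of the `cos πσ` inequality -/
def ker (σ t : ℝ) : ℝ := Real.log |1 - t| - Real.cos (Real.pi * σ) * Real.log (1 + t)

end

theorem D01_pow (r : ℝ) (hr : -1 < r) :
    IntegrableOn (fun t : ℝ => t ^ r) (Ioo 0 1) ∧ ∫ t in Ioo (0 : ℝ) 1, t ^ r = 1 / (r + 1) := by
  constructor
  · exact (intervalIntegral.integrableOn_Ioo_rpow_iff zero_lt_one).mpr hr
  · rw [← integral_Ioc_eq_integral_Ioo, ← intervalIntegral.integral_of_le zero_le_one,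
      integral_rpow (Or.inl hr), Real.one_rpow, Real.zero_rpow (by linarith), sub_zero]

/-- the coefficients are summable -/
theorem D01_summable (k : ℕ) (s : ℝ) (hs : s < k) (hk : 1 ≤ k) :
    Summable (fun n : ℕ => 1 / (((n : ℝ) + 1) * (k * ((n : ℝ) + 1) - s))) := by
  have hk' : (1 : ℝ) ≤ k := by exact_mod_cast hk
  set m : ℝ := k - max s 0 with hm
  have hm0 : 0 < m := by
    rw [hm]
    rcases le_total s 0 with h | h
    · rw [max_eq_right h]; linarith
    · rw [max_eq_left h]; linarith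
  have h1 : Summable (fun n : ℕ => (1 / m) * (1 / ((n : ℝ) + 1) ^ 2)) := by
    apply Summable.mul_left
    have h2 := (summable_nat_add_iff 1).mpr (Real.summable_one_div_nat_pow.mpr (by norm_num : 1 < 2))
    simpa using h2
  refine Summable.of_nonneg_of_le (fun n => ?_) (fun n => ?_) h1
  · have hn : (0 : ℝ) ≤ n := Nat.cast_nonneg n
    have : 0 < k * ((n : ℝ) + 1) - s := by nlinarith
    positivity
  · have hn : (0 : ℝ) ≤ n := Nat.cast_nonneg n
    have h3 : m * ((n : ℝ) + 1) ≤ k * ((n : ℝ) + 1) - s := by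
      have h4 : s ≤ max s 0 := le_max_left _ _
      have h5 : 0 ≤ max s 0 := le_max_right _ _
      rw [hm]
      nlinarith
    have h6 : 0 < m * ((n : ℝ) + 1) := by positivity
    rw [← one_div_mul_one_div, one_div_mul_one_div, one_div_mul_one_div]
    refine one_div_le_one_div_of_le (by positivity) ?_
    nlinarith

/-- the series of `-log (1 - t^k) t^(-1-s)` -/
theorem D01_ser (k : ℕ) (s : ℝ) (hs : s < k) (hk : 1 ≤ k) :
    IntegrableOn (fun t : ℝ => -Real.log (1 - t ^ k) * t ^ (-1 - s)) (Ioo 0 1) ∧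
      HasSum (fun n : ℕ => 1 / (((n : ℝ) + 1) * (k * ((n : ℝ) + 1) - s)))
        (∫ t in Ioo (0 : ℝ) 1, -Real.log (1 - t ^ k) * t ^ (-1 - s)) := by
  have hk' : (1 : ℝ) ≤ k := by exact_mod_cast hk
  set F : ℕ → ℝ → ℝ := fun n t => (1 / ((n : ℝ) + 1)) * t ^ (k * ((n : ℝ) + 1) - s - 1) with hF
  have hpos : ∀ n : ℕ, 0 < k * ((n : ℝ) + 1) - s := fun n => by
    have hn : (0 : ℝ) ≤ n := Nat.cast_nonneg n
    nlinarith
  have hFi : ∀ n, Integrable (F n) (volume.restrict (Ioo (0 : ℝ) 1)) := fun n =>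
    ((D01_pow _ (by linarith [hpos n])).1).const_mul _
  have hFv : ∀ n, ∫ t in Ioo (0 : ℝ) 1, F n t = 1 / (((n : ℝ) + 1) * (k * ((n : ℝ) + 1) - s)) := by
    intro n
    rw [hF]
    simp only
    rw [integral_const_mul, (D01_pow _ (by linarith [hpos n])).2]
    rw [one_div_mul_one_div]
    congr 2
    ring
  have hsum : ∀ t ∈ Ioo (0 : ℝ) 1, HasSum (fun n => F n t) (-Real.log (1 - t ^ k) * t ^ (-1 - s)) := by
    intro t ht
    have h1 : |t ^ k| < 1 := by
      rw [abs_of_nonneg (pow_nonneg ht.1.le _)]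
      exact pow_lt_one₀ ht.1.le ht.2 (by omega)
    have h2 := (Real.hasSum_pow_div_log_of_abs_lt_one h1).mul_right (t ^ (-1 - s))
    refine (congrArg (fun f : ℕ → ℝ => HasSum f (-Real.log (1 - t ^ k) * t ^ (-1 - s)))
      (funext (fun n => ?_))).mp h2
    have e1 : (t ^ k) ^ (n + 1) = t ^ ((k : ℝ) * ((n : ℝ) + 1)) := by
      rw [← pow_mul, ← Real.rpow_natCast]
      push_cast
      rfl
    have e2 : t ^ ((k : ℝ) * ((n : ℝ) + 1) - s - 1) =
        t ^ ((k : ℝ) * ((n : ℝ) + 1)) * t ^ (-1 - s) := by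
      rw [← Real.rpow_add ht.1]
      congr 1
      ring
    rw [hF]
    simp only
    rw [e1, e2]
    ring
  have hnn : ∀ n, ∀ t ∈ Ioo (0 : ℝ) 1, 0 ≤ F n t := fun n t ht => by
    have := Real.rpow_nonneg ht.1.le (k * ((n : ℝ) + 1) - s - 1)
    rw [hF]; simp only; positivity
  have hS := D01_summable k s hs hk
  have hmeas : Measurable (fun t : ℝ => -Real.log (1 - t ^ k) * t ^ (-1 - s)) := by
    fun_prop
  constructor
  · refine ⟨hmeas.aestronglyMeasurable, ?_⟩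
    have e1 : ∫⁻ t in Ioo (0 : ℝ) 1, ‖-Real.log (1 - t ^ k) * t ^ (-1 - s)‖ₑ =
        ∫⁻ t in Ioo (0 : ℝ) 1, ∑' n, ENNReal.ofReal (F n t) := by
      refine setLIntegral_congr_fun measurableSet_Ioo (fun t ht => ?_)
      have h1 := hsum t ht
      have h2 : 0 ≤ -Real.log (1 - t ^ k) * t ^ (-1 - s) := by
        rw [← h1.tsum_eq]; exact tsum_nonneg (fun n => hnn n t ht)
      rw [Real.enorm_of_nonneg h2, ← h1.tsum_eq, ENNReal.ofReal_tsum_of_nonneg
        (fun n => hnn n t ht) h1.summable]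
    rw [HasFiniteIntegral, e1, lintegral_tsum (fun n => (hFi n).aemeasurable.ennreal_ofReal)]
    have e2 : ∀ n, ∫⁻ t in Ioo (0 : ℝ) 1, ENNReal.ofReal (F n t) =
        ENNReal.ofReal (1 / (((n : ℝ) + 1) * (k * ((n : ℝ) + 1) - s))) := by
      intro n
      rw [← hFv n, ofReal_integral_eq_lintegral_ofReal (hFi n)]
      filter_upwards [ae_restrict_mem measurableSet_Ioo] with t ht using hnn n t ht
    simp only [e2]
    rw [← ENNReal.ofReal_tsum_of_nonneg (fun n => ?_) hS]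
    · exact ENNReal.ofReal_lt_top
    · have hn : (0 : ℝ) ≤ n := Nat.cast_nonneg n
      have := hpos n
      positivity
  · have h3 := hasSum_integral_of_summable_integral_norm hFi (by
      refine hS.congr (fun n => ?_)
      rw [← hFv n]
      refine setIntegral_congr_fun measurableSet_Ioo (fun t ht => ?_)
      exact (Real.norm_of_nonneg (hnn n t ht)).symm)
    simp only [hFv] at h3
    have h4 : ∫ t in Ioo (0 : ℝ) 1, ∑' n, F n t =
        ∫ t in Ioo (0 : ℝ) 1, -Real.log (1 - t ^ k) * t ^ (-1 - s) :=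
      setIntegral_congr_fun measurableSet_Ioo (fun t ht => (hsum t ht).tsum_eq)
    rw [h4] at h3
    exact h3


/-- the Mittag-Leffler expansion of the cotangent, real form -/
theorem D01_cot (x : ℝ) (h0 : 0 < x) (h1 : x < 1) :
    ∑' n : ℕ, 2 / (((n : ℝ) + 1) ^ 2 - x ^ 2) =
      (1 / x) * (1 / x - Real.pi * (Real.cos (Real.pi * x) / Real.sin (Real.pi * x))) := by
  have hx : (x : ℂ) ∈ Complex.integerComplement := by
    rw [Complex.mem_integerComplement_iff]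
    rintro ⟨n, hn⟩
    have hn' : (n : ℝ) = x := by exact_mod_cast hn
    have a1 : 0 < n := by
      have : (0 : ℝ) < n := by rw [hn']; exact h0
      exact_mod_cast this
    have a2 : n < 1 := by
      have : (n : ℝ) < 1 := by rw [hn']; exact h1
      exact_mod_cast this
    omega
  have h2 := cot_series_rep' hx
  have e1 : ∀ n : ℕ, (1 / ((x : ℂ) - (n + 1)) + 1 / ((x : ℂ) + (n + 1))) =
      ((-x * (2 / (((n : ℝ) + 1) ^ 2 - x ^ 2)) : ℝ) : ℂ) := by
    intro n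
    have hn : (0 : ℝ) ≤ n := Nat.cast_nonneg n
    have b1 : (x : ℝ) - (n + 1) ≠ 0 := by
      have : (x : ℝ) - (n + 1) < 0 := by linarith
      exact this.ne
    have b2 : (x : ℝ) + (n + 1) ≠ 0 := by positivity
    have b3 : ((n : ℝ) + 1) ^ 2 - x ^ 2 ≠ 0 := by
      have : ((n : ℝ) + 1) ^ 2 - x ^ 2 = -(((x : ℝ) - (n + 1)) * (x + (n + 1))) := by ring
      rw [this]
      exact neg_ne_zero.mpr (mul_ne_zero b1 b2)
    have : (1 / ((x : ℝ) - (n + 1)) + 1 / ((x : ℝ) + (n + 1))) =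
        -x * (2 / (((n : ℝ) + 1) ^ 2 - x ^ 2)) := by
      field_simp
      ring
    rw [← this]
    push_cast
    rfl
  simp only [e1] at h2
  rw [← Complex.ofReal_tsum, tsum_mul_left, Complex.cot_eq_cos_div_sin] at h2
  have h3 : Real.pi * (Real.cos (Real.pi * x) / Real.sin (Real.pi * x)) - 1 / x =
      -x * ∑' n : ℕ, 2 / (((n : ℝ) + 1) ^ 2 - x ^ 2) := by
    apply Complex.ofReal_injective
    rw [← h2]
    push_cast
    rfl
  have : ∑' n : ℕ, 2 / (((n : ℝ) + 1) ^ 2 - x ^ 2) =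
      (1 / x) * (-(-x * ∑' n : ℕ, 2 / (((n : ℝ) + 1) ^ 2 - x ^ 2))) := by
    field_simp
  rw [this, ← h3]
  ring

/-- `∫₀¹ - log u u^(σ-1) du = 1/σ²` -/
theorem D01_log (σ : ℝ) (h0 : 0 < σ) :
    IntegrableOn (fun u : ℝ => -Real.log u * u ^ (σ - 1)) (Ioo 0 1) ∧
      ∫ u in Ioo (0 : ℝ) 1, -Real.log u * u ^ (σ - 1) = 1 / σ ^ 2 := by
  set G : ℝ → ℝ := fun u => u ^ σ * (1 / σ ^ 2) - (Real.log u * u ^ σ) * (1 / σ) with hG
  have hc : ContinuousOn G (Icc 0 1) := by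
    intro u hu
    rcases eq_or_lt_of_le hu.1 with h | h
    · rw [← h]
      have c1 : ContinuousWithinAt (fun u : ℝ => u ^ σ * (1 / σ ^ 2)) (Icc 0 1) 0 :=
        ((Real.continuousAt_rpow_const 0 σ (Or.inr h0.le)).mul_const _).continuousWithinAt
      have c2 : ContinuousWithinAt (fun u : ℝ => Real.log u * u ^ σ) (Icc 0 1) 0 := by
        have t1 := tendsto_log_mul_rpow_nhdsGT_zero h0
        rw [ContinuousWithinAt, Real.log_zero, zero_mul]
        have : 𝓝[Icc (0:ℝ) 1] 0 ≤ 𝓝[≥] (0:ℝ) := nhdsWithin_mono _ (fun x hx => hx.1)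
        refine Filter.Tendsto.mono_left ?_ this
        rw [← Ioi_insert, nhdsWithin_insert, Filter.tendsto_sup]
        refine ⟨?_, t1⟩
        rw [Filter.tendsto_pure_left]
        intro s hs
        rw [Real.log_zero, zero_mul]
        exact mem_of_mem_nhds hs
      exact c1.sub (c2.mul_const _)
    · have d1 : ContinuousAt (fun u : ℝ => u ^ σ) u := Real.continuousAt_rpow_const u σ (Or.inl h.ne')
      have d2 : ContinuousAt Real.log u := Real.continuousAt_log h.ne'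
      exact ((d1.mul_const _).sub ((d2.mul d1).mul_const _)).continuousWithinAt
  have hd : ∀ u ∈ Ioo (0 : ℝ) 1, HasDerivAt G (-Real.log u * u ^ (σ - 1)) u := by
    intro u hu
    have d1 := Real.hasDerivAt_rpow_const (x := u) (p := σ) (Or.inl hu.1.ne')
    have d2 := Real.hasDerivAt_log hu.1.ne'
    have d3 := (d1.mul_const (1 / σ ^ 2)).sub ((d2.mul d1).mul_const (1 / σ))
    refine d3.congr_deriv ?_
    have e : u ^ σ = u ^ (σ - 1) * u := by
      rw [← Real.rpow_add_one hu.1.ne']; congr 1; ring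
    have hu0 := hu.1.ne'
    rw [e]
    field_simp
    ring
  have hnn : ∀ u ∈ Ioo (0 : ℝ) 1, 0 ≤ -Real.log u * u ^ (σ - 1) := fun u hu =>
    mul_nonneg (neg_nonneg.mpr (Real.log_nonpos hu.1.le hu.2.le)) (Real.rpow_nonneg hu.1.le _)
  have hi := intervalIntegral.integrableOn_deriv_of_nonneg hc hd hnn
  refine ⟨hi.mono_set Ioo_subset_Ioc_self, ?_⟩
  rw [← integral_Ioc_eq_integral_Ioo, ← intervalIntegral.integral_of_le zero_le_one,
    intervalIntegral.integral_eq_sub_of_hasDerivAt_of_le zero_le_one hc hd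
      ((intervalIntegrable_iff_integrableOn_Ioc_of_le zero_le_one).mpr hi)]
  rw [hG]
  simp [h0.ne']


theorem D01_low (σ t : ℝ) (ht : t ∈ Ioo (0 : ℝ) 1) : ker σ t * t ^ (-1 - σ) =
    -(1 + Real.cos (Real.pi * σ)) * (-Real.log (1 - t ^ 1) * t ^ (-1 - σ)) +
      Real.cos (Real.pi * σ) * (-Real.log (1 - t ^ 2) * t ^ (-1 - σ)) := by
  unfold ker
  have h1 : (0 : ℝ) < 1 - t := by linarith [ht.2]
  have h2 : (0 : ℝ) < 1 + t := by linarith [ht.1]
  have h3 : Real.log (1 - t ^ 2) = Real.log (1 - t) + Real.log (1 + t) := by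
    rw [← Real.log_mul h1.ne' h2.ne']; congr 1; ring
  rw [abs_of_pos h1, pow_one, h3]
  ring

theorem D01_high (σ u : ℝ) (hu : u ∈ Ioo (0 : ℝ) 1) :
    |(-(u ^ 2)⁻¹)| • (ker σ u⁻¹ * (u⁻¹) ^ (-1 - σ)) =
    -(1 + Real.cos (Real.pi * σ)) * (-Real.log (1 - u ^ 1) * u ^ (-1 - -σ)) +
      Real.cos (Real.pi * σ) * (-Real.log (1 - u ^ 2) * u ^ (-1 - -σ)) +
      (1 - Real.cos (Real.pi * σ)) * (-Real.log u * u ^ (σ - 1)) := by
  unfold ker
  have h0 := hu.1
  have h1 : (0 : ℝ) < 1 - u := by linarith [hu.2]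
  have h2 : (0 : ℝ) < 1 + u := by linarith [hu.1]
  have h3 : Real.log (1 - u ^ 2) = Real.log (1 - u) + Real.log (1 + u) := by
    rw [← Real.log_mul h1.ne' h2.ne']; congr 1; ring
  have e1 : |1 - u⁻¹| = (1 - u) / u := by
    have : 1 - u⁻¹ = -((1 - u) / u) := by field_simp; ring
    rw [this, abs_neg, abs_of_pos (by positivity)]
  have e2 : 1 + u⁻¹ = (1 + u) / u := by field_simp; ring
  have e3 : |(-(u ^ 2)⁻¹)| = (u ^ 2)⁻¹ := by rw [abs_neg, abs_of_pos (by positivity)]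
  have e4 : (u ^ 2)⁻¹ * (u⁻¹) ^ (-1 - σ) = u ^ (σ - 1) := by
    rw [Real.inv_rpow h0.le, ← Real.rpow_neg h0.le, ← Real.rpow_natCast, ← Real.rpow_neg h0.le,
      ← Real.rpow_add h0]
    congr 1
    push_cast
    ring
  have e5 : u ^ (-1 - -σ) = u ^ (σ - 1) := by congr 1; ring
  rw [e1, e2, e3, pow_one, h3, Real.log_div h1.ne' h0.ne', Real.log_div h2.ne' h0.ne', smul_eq_mul,
    mul_left_comm, e4, e5]
  ring

theorem D01_image : (fun u : ℝ => u⁻¹) '' Ioo 0 1 = Ioi 1 := by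
  ext t
  constructor
  · rintro ⟨u, hu, rfl⟩
    exact (one_lt_inv₀ hu.1).mpr hu.2
  · intro ht
    have ht' : (1 : ℝ) < t := ht
    refine ⟨t⁻¹, ⟨by positivity, inv_lt_one_of_one_lt₀ ht'⟩, inv_inv t⟩

theorem D01_parts (σ : ℝ) (h0 : 0 < σ) (h1 : σ < 1 / 2) :
    IntegrableOn (fun t => ker σ t * t ^ (-1 - σ)) (Ioo 0 1) ∧
    IntegrableOn (fun t => ker σ t * t ^ (-1 - σ)) (Ioi 1) ∧
    (∫ t in Ioo (0 : ℝ) 1, ker σ t * t ^ (-1 - σ)) + (∫ t in Ioi (1 : ℝ), ker σ t * t ^ (-1 - σ)) =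
      0 := by
  set c := Real.cos (Real.pi * σ) with hc
  obtain ⟨i1, s1⟩ := D01_ser 1 σ (by push_cast; linarith) le_rfl
  obtain ⟨i2, s2⟩ := D01_ser 2 σ (by push_cast; linarith) (by norm_num)
  obtain ⟨i3, s3⟩ := D01_ser 1 (-σ) (by push_cast; linarith) le_rfl
  obtain ⟨i4, s4⟩ := D01_ser 2 (-σ) (by push_cast; linarith) (by norm_num)
  obtain ⟨i5, v5⟩ := D01_log σ h0
  have hder : ∀ x ∈ Ioo (0 : ℝ) 1, HasDerivWithinAt (fun u : ℝ => u⁻¹) (-(x ^ 2)⁻¹) (Ioo 0 1) x :=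
    fun x hx => (hasDerivAt_inv hx.1.ne').hasDerivWithinAt
  have hinj : InjOn (fun u : ℝ => u⁻¹) (Ioo 0 1) := inv_injective.injOn
  have low : IntegrableOn (fun t => ker σ t * t ^ (-1 - σ)) (Ioo 0 1) := by
    have := (i1.const_mul (-(1 + c))).add (i2.const_mul c)
    refine IntegrableOn.congr_fun this (fun t ht => ?_) measurableSet_Ioo
    rw [D01_low σ t ht]
    rfl
  have high : IntegrableOn (fun t => ker σ t * t ^ (-1 - σ)) (Ioi 1) := by
    rw [← D01_image, integrableOn_image_iff_integrableOn_abs_deriv_smul measurableSet_Ioo hder hinj]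
    have := ((i3.const_mul (-(1 + c))).add (i4.const_mul c)).add (i5.const_mul (1 - c))
    refine IntegrableOn.congr_fun this (fun t ht => ?_) measurableSet_Ioo
    rw [D01_high σ t ht]
    rfl
  refine ⟨low, high, ?_⟩
  have vl : ∫ t in Ioo (0 : ℝ) 1, ker σ t * t ^ (-1 - σ) =
      -(1 + c) * (∫ t in Ioo (0 : ℝ) 1, -Real.log (1 - t ^ 1) * t ^ (-1 - σ)) +
        c * ∫ t in Ioo (0 : ℝ) 1, -Real.log (1 - t ^ 2) * t ^ (-1 - σ) := by
    rw [setIntegral_congr_fun measurableSet_Ioo (fun t ht => D01_low σ t ht),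
      integral_add (i1.const_mul _) (i2.const_mul _), integral_const_mul, integral_const_mul]
  have vh : ∫ t in Ioi (1 : ℝ), ker σ t * t ^ (-1 - σ) =
      -(1 + c) * (∫ t in Ioo (0 : ℝ) 1, -Real.log (1 - t ^ 1) * t ^ (-1 - -σ)) +
        c * (∫ t in Ioo (0 : ℝ) 1, -Real.log (1 - t ^ 2) * t ^ (-1 - -σ)) +
        (1 - c) * (1 / σ ^ 2) := by
    rw [← D01_image, integral_image_eq_integral_abs_deriv_smul measurableSet_Ioo hder hinj,
      setIntegral_congr_fun measurableSet_Ioo (fun t ht => D01_high σ t ht),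
      integral_add (show Integrable (fun u : ℝ => -(1 + Real.cos (Real.pi * σ)) *
        (-Real.log (1 - u ^ 1) * u ^ (-1 - -σ)) + Real.cos (Real.pi * σ) *
        (-Real.log (1 - u ^ 2) * u ^ (-1 - -σ))) (volume.restrict (Ioo 0 1)) from
          (i3.const_mul _).add (i4.const_mul _)) (i5.const_mul _),
      integral_add (i3.const_mul _) (i4.const_mul _), integral_const_mul, integral_const_mul,
      integral_const_mul, v5]
  rw [vl, vh, ← s1.tsum_eq, ← s2.tsum_eq, ← s3.tsum_eq, ← s4.tsum_eq]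
  have S1 : (∑' n : ℕ, 1 / (((n : ℝ) + 1) * ((1 : ℕ) * ((n : ℝ) + 1) - σ))) +
      (∑' n : ℕ, 1 / (((n : ℝ) + 1) * ((1 : ℕ) * ((n : ℝ) + 1) - -σ))) =
      (1 / σ) * (1 / σ - Real.pi * (Real.cos (Real.pi * σ) / Real.sin (Real.pi * σ))) := by
    rw [← D01_cot σ h0 (by linarith), ← Summable.tsum_add s1.summable s3.summable]
    refine tsum_congr (fun n => ?_)
    have hn : (0 : ℝ) ≤ n := Nat.cast_nonneg n
    have b1 : (n : ℝ) + 1 - σ ≠ 0 := by
      have : 0 < (n : ℝ) + 1 - σ := by linarith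
      exact this.ne'
    have b2 : (n : ℝ) + 1 + σ ≠ 0 := by positivity
    have b3 : ((n : ℝ) + 1) ^ 2 - σ ^ 2 ≠ 0 := by
      have : ((n : ℝ) + 1) ^ 2 - σ ^ 2 = ((n : ℝ) + 1 - σ) * ((n : ℝ) + 1 + σ) := by ring
      rw [this]
      exact mul_ne_zero b1 b2
    have b4 : (n : ℝ) + 1 ≠ 0 := by positivity
    push_cast
    rw [one_mul, sub_neg_eq_add]
    rw [div_add_div _ _ (mul_ne_zero b4 b1) (mul_ne_zero b4 b2), div_eq_div_iff
      (mul_ne_zero (mul_ne_zero b4 b1) (mul_ne_zero b4 b2)) b3]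
    ring
  have S2 : (∑' n : ℕ, 1 / (((n : ℝ) + 1) * ((2 : ℕ) * ((n : ℝ) + 1) - σ))) +
      (∑' n : ℕ, 1 / (((n : ℝ) + 1) * ((2 : ℕ) * ((n : ℝ) + 1) - -σ))) =
      (1 / 2) * ((1 / (σ / 2)) * (1 / (σ / 2) - Real.pi * (Real.cos (Real.pi * (σ / 2)) /
        Real.sin (Real.pi * (σ / 2))))) := by
    rw [← D01_cot (σ / 2) (by linarith) (by linarith),
      ← Summable.tsum_add s2.summable s4.summable, ← tsum_mul_left]
    refine tsum_congr (fun n => ?_)
    have hn : (0 : ℝ) ≤ n := Nat.cast_nonneg n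
    have b1 : 2 * ((n : ℝ) + 1) - σ ≠ 0 := by
      have : 0 < 2 * ((n : ℝ) + 1) - σ := by linarith
      exact this.ne'
    have b2 : 2 * ((n : ℝ) + 1) + σ ≠ 0 := by positivity
    have b3 : ((n : ℝ) + 1) ^ 2 - (σ / 2) ^ 2 ≠ 0 := by
      have : ((n : ℝ) + 1) ^ 2 - (σ / 2) ^ 2 =
          (2 * ((n : ℝ) + 1) - σ) * (2 * ((n : ℝ) + 1) + σ) / 4 := by ring
      rw [this]
      exact div_ne_zero (mul_ne_zero b1 b2) (by norm_num)
    have b4 : (n : ℝ) + 1 ≠ 0 := by positivity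
    push_cast
    rw [sub_neg_eq_add]
    rw [div_add_div _ _ (mul_ne_zero b4 b1) (mul_ne_zero b4 b2), one_div_mul_eq_div, div_div,
      div_eq_div_iff (mul_ne_zero (mul_ne_zero b4 b1) (mul_ne_zero b4 b2))
        (mul_ne_zero b3 (by norm_num))]
    ring
  set a1 := ∑' n : ℕ, 1 / (((n : ℝ) + 1) * ((1 : ℕ) * ((n : ℝ) + 1) - σ))
  set a2 := ∑' n : ℕ, 1 / (((n : ℝ) + 1) * ((2 : ℕ) * ((n : ℝ) + 1) - σ))
  set a3 := ∑' n : ℕ, 1 / (((n : ℝ) + 1) * ((1 : ℕ) * ((n : ℝ) + 1) - -σ))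
  set a4 := ∑' n : ℕ, 1 / (((n : ℝ) + 1) * ((2 : ℕ) * ((n : ℝ) + 1) - -σ))
  have e : -(1 + c) * a1 + c * a2 + (-(1 + c) * a3 + c * a4 + (1 - c) * (1 / σ ^ 2)) =
      -(1 + c) * (a1 + a3) + c * (a2 + a4) + (1 - c) * (1 / σ ^ 2) := by ring
  rw [e, S1, S2]
  -- trigonometry
  set y := Real.pi * (σ / 2) with hy
  have hy2 : Real.pi * σ = 2 * y := by rw [hy]; ring
  have hsy : 0 < Real.sin y := by
    refine Real.sin_pos_of_pos_of_lt_pi (by positivity) ?_
    rw [hy]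
    nlinarith [Real.pi_pos]
  have hcy : 0 < Real.cos y := by
    refine Real.cos_pos_of_mem_Ioo ⟨?_, ?_⟩
    · have : 0 < y := by positivity
      linarith [Real.pi_pos]
    · rw [hy]
      nlinarith [Real.pi_pos]
  rw [hc, hy2, Real.sin_two_mul, Real.cos_two_mul]
  field_simp
  ring

theorem ker_integrable (σ : ℝ) (h0 : 0 < σ) (h1 : σ < 1 / 2) :
    IntegrableOn (fun t => ker σ t * t ^ (-1 - σ)) (Ioi 0) := by
  obtain ⟨i1, i2, -⟩ := D01_parts σ h0 h1
  rw [← Ioc_union_Ioi_eq_Ioi (zero_le_one' ℝ)]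
  exact ((integrableOn_Ioc_iff_integrableOn_Ioo).mpr i1).union i2

theorem D01_total (σ : ℝ) (h0 : 0 < σ) (h1 : σ < 1 / 2) :
    ∫ t in Ioi (0 : ℝ), ker σ t * t ^ (-1 - σ) = 0 := by
  obtain ⟨i1, i2, v⟩ := D01_parts σ h0 h1
  have e : Ioi (0 : ℝ) = Ioc 0 1 ∪ Ioi 1 := (Ioc_union_Ioi_eq_Ioi zero_le_one).symm
  have hd : Disjoint (Ioc (0 : ℝ) 1) (Ioi 1) := Ioc_disjoint_Ioi le_rfl
  rw [e, setIntegral_union hd measurableSet_Ioi ?_ i2, integral_Ioc_eq_integral_Ioo, v]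
  exact (integrableOn_Ioc_iff_integrableOn_Ioo).mpr i1

theorem D01_mono (σ : ℝ) {t t' : ℝ} (h0 : 1 < t) (h1 : t ≤ t') : ker σ t ≤ ker σ t' := by
  unfold ker
  have a1 : |1 - t| = t - 1 := by rw [abs_of_neg (by linarith)]; ring
  have a2 : |1 - t'| = t' - 1 := by rw [abs_of_neg (by linarith)]; ring
  rw [a1, a2]
  have b1 : (0 : ℝ) < t - 1 := by linarith
  have b2 : (0 : ℝ) < t' - 1 := by linarith
  have b3 : (0 : ℝ) < 1 + t := by linarith
  have b4 : (0 : ℝ) < 1 + t' := by linarith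
  have c1 : Real.log (1 + t') - Real.log (1 + t) ≤ Real.log (t' - 1) - Real.log (t - 1) := by
    rw [← Real.log_div b4.ne' b3.ne', ← Real.log_div b2.ne' b1.ne']
    refine Real.log_le_log (by positivity) ?_
    rw [div_le_div_iff₀ b3 b1]
    nlinarith
  have c2 : 0 ≤ Real.log (1 + t') - Real.log (1 + t) :=
    sub_nonneg.mpr (Real.log_le_log b3 (by linarith))
  have c3 := Real.cos_le_one (Real.pi * σ)
  nlinarith

theorem ker_integral_nonneg (σ : ℝ) (h0 : 0 < σ) (h1 : σ < 1 / 2) (t₁ : ℝ) (ht : 0 ≤ t₁) :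
    0 ≤ ∫ t in Ioi t₁, ker σ t * t ^ (-1 - σ) := by
  have hi := ker_integrable σ h0 h1
  have hc : 0 ≤ Real.cos (Real.pi * σ) :=
    Real.cos_nonneg_of_neg_pi_div_two_le_of_le (by nlinarith [Real.pi_pos])
      (by nlinarith [Real.pi_pos])
  by_cases hall : ∀ t, t₁ < t → 0 ≤ ker σ t
  · refine setIntegral_nonneg measurableSet_Ioi (fun t htt => ?_)
    exact mul_nonneg (hall t htt) (Real.rpow_nonneg (ht.trans (le_of_lt htt)) _)
  · push Not at hall
    obtain ⟨t₂, h2, hneg⟩ := hall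
    have hnp : ∀ t, 0 < t → t ≤ t₁ → ker σ t ≤ 0 := by
      intro t p1 p2
      rcases lt_trichotomy t 1 with h | h | h
      · unfold ker
        rw [abs_of_pos (by linarith : (0 : ℝ) < 1 - t)]
        have q1 : Real.log (1 - t) ≤ 0 := Real.log_nonpos (by linarith) (by linarith)
        have q2 : 0 ≤ Real.log (1 + t) := Real.log_nonneg (by linarith)
        nlinarith [mul_nonneg hc q2]
      · unfold ker
        rw [h, sub_self, abs_zero, Real.log_zero]
        have q2 : 0 ≤ Real.log (1 + 1) := Real.log_nonneg (by norm_num)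
        nlinarith [mul_nonneg hc q2]
      · exact (D01_mono σ h (p2.trans h2.le)).trans hneg.le
    have hsplit : ∫ t in Ioi (0 : ℝ), ker σ t * t ^ (-1 - σ) =
        (∫ t in Ioc 0 t₁, ker σ t * t ^ (-1 - σ)) + ∫ t in Ioi t₁, ker σ t * t ^ (-1 - σ) := by
      rw [← Ioc_union_Ioi_eq_Ioi ht, setIntegral_union (Ioc_disjoint_Ioi le_rfl) measurableSet_Ioi
        (hi.mono_set Ioc_subset_Ioi_self) (hi.mono_set (Ioi_subset_Ioi ht))]
    rw [D01_total σ h0 h1] at hsplit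
    have hle : ∫ t in Ioc 0 t₁, ker σ t * t ^ (-1 - σ) ≤ 0 := by
      refine setIntegral_nonpos measurableSet_Ioc (fun t htt => ?_)
      exact mul_nonpos_of_nonpos_of_nonneg (hnp t htt.1 htt.2) (Real.rpow_nonneg htt.1.le _)
    linarith

end Pool.Agent.LibPer37
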