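import Pool.Agent.LibPer37.D01

/-! Task D02 (100-160 lines): polynomials.

HINT.  Put `KP P r = ∑ over the roots a of P (P.roots, a multiset, all ≠ 0 as P(0) ≠ 0) of ker σ (r^q / ‖a‖)`.
(i) integrability and sign: for one root substitute `t = r^q / ‖a‖` (`integral_comp_rpow_Ioi`,
`integral_comp_mul_left_Ioi`; `r^(-1-qσ) dr` becomes `const * t^(-1-σ) dt` with a positive constant), `D01`.
(ii) over `ℂ` the polynomial splits: `P.eval w = P.eval 0 * ∏ (1 - w/a)` (`Polynomial.eval_eq_prod_roots_sub_of_splits`,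
`IsAlgClosed.splits`).  For `‖w‖ = R`, with no root on the circle of radius `R`:
`log |1 - R/‖a‖| ≤ log ‖1 - w/a‖` (here `R ≠ ‖a‖`) and `log ‖1 - w'/a‖ ≤ log (1 + R/‖a‖)`
(the left side is the logarithm of a positive number because `w'` is not a root), `cos (πσ) ≥ 0`. -/

set_option autoImplicit false

open MeasureTheory Set

namespace Pool.Agent.LibPer37

private theorem D02_image (q : ℕ) (hq : 1 ≤ q) (b : ℝ) (hb : 0 < b) (r₁ : ℝ) (hr : 0 < r₁) :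
    (fun r : ℝ => b⁻¹ * r ^ q) '' Ioi r₁ = Ioi (b⁻¹ * r₁ ^ q) := by
  ext y
  simp only [mem_image, mem_Ioi]
  constructor
  · rintro ⟨r, h1, rfl⟩
    have h2 : r₁ ^ q < r ^ q := pow_lt_pow_left₀ h1 hr.le (by omega)
    exact mul_lt_mul_of_pos_left h2 (inv_pos.2 hb)
  · intro hy
    have h1 : r₁ ^ q < b * y := by
      have h3 := mul_lt_mul_of_pos_left hy hb
      rwa [← mul_assoc, mul_inv_cancel₀ hb.ne', one_mul] at h3
    have h2 : 0 ≤ b * y := le_trans (pow_nonneg hr.le q) h1.le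
    refine ⟨(b * y) ^ ((q : ℝ)⁻¹), ?_, ?_⟩
    · by_contra hcon
      push Not at hcon
      have h3 : ((b * y) ^ ((q : ℝ)⁻¹)) ^ q ≤ r₁ ^ q :=
        pow_le_pow_left₀ (Real.rpow_nonneg h2 _) hcon q
      rw [Real.rpow_inv_natCast_pow h2 (by omega)] at h3
      linarith
    · rw [Real.rpow_inv_natCast_pow h2 (by omega), ← mul_assoc, inv_mul_cancel₀ hb.ne', one_mul]

private theorem D02_deriv (q : ℕ) (b : ℝ) (s : Set ℝ) (r : ℝ) :
    HasDerivWithinAt (fun r : ℝ => b⁻¹ * r ^ q) (b⁻¹ * (q * r ^ (q - 1))) s r :=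
  ((hasDerivAt_pow q r).const_mul b⁻¹).hasDerivWithinAt

private theorem D02_inj (q : ℕ) (hq : 1 ≤ q) (b : ℝ) (hb : 0 < b) (r₁ : ℝ) (hr : 0 < r₁) :
    InjOn (fun r : ℝ => b⁻¹ * r ^ q) (Ioi r₁) := by
  intro x hx y hy hxy
  have h1 : x ^ q = y ^ q := mul_left_cancel₀ (inv_pos.2 hb).ne' hxy
  exact (pow_left_inj₀ (hr.trans hx).le (hr.trans hy).le (by omega)).1 h1

private theorem D02_eq (σ : ℝ) (q : ℕ) (hq : 1 ≤ q) (b : ℝ) (hb : 0 < b) (r : ℝ) (hr : 0 < r) :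
    ker σ (r ^ q / b) * r ^ (-1 - q * σ) = (q * b ^ σ)⁻¹ *
      (|b⁻¹ * (q * r ^ (q - 1))| • (ker σ (b⁻¹ * r ^ q) * (b⁻¹ * r ^ q) ^ (-1 - σ))) := by
  have hq' : (0 : ℝ) < q := by exact_mod_cast hq
  have h1 : r ^ q / b = b⁻¹ * r ^ q := by
    rw [div_eq_inv_mul]
  have h2 : (b⁻¹ * r ^ q) ^ (-1 - σ) = b ^ (1 + σ) * r ^ (-(q : ℝ) - q * σ) := by
    rw [Real.mul_rpow (inv_nonneg.2 hb.le) (pow_nonneg hr.le q), ← Real.rpow_neg_one b,
      ← Real.rpow_mul hb.le, ← Real.rpow_natCast r q, ← Real.rpow_mul hr.le]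
    congr 2 <;> ring
  have h3 : r ^ (q - 1) = r ^ ((q : ℝ) - 1) := by
    rw [← Real.rpow_natCast, Nat.cast_sub hq, Nat.cast_one]
  have h4 : r ^ ((q : ℝ) - 1) * r ^ (-(q : ℝ) - q * σ) = r ^ (-1 - q * σ) := by
    rw [← Real.rpow_add hr]
    congr 1
    ring
  have h5 : b ^ (1 + σ) = b * b ^ σ := by
    rw [Real.rpow_add hb, Real.rpow_one]
  rw [h1, h2, h3, abs_of_pos (by positivity), smul_eq_mul, ← h4, h5]
  have h6 : b ^ σ ≠ 0 := (Real.rpow_pos_of_pos hb σ).ne'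
  field_simp

private theorem D02_one (σ : ℝ) (h0 : 0 < σ) (h1 : σ < 1 / 2) (q : ℕ) (hq : 1 ≤ q) (b : ℝ)
    (hb : 0 < b) (r₁ : ℝ) (hr : 0 < r₁) :
    IntegrableOn (fun r => ker σ (r ^ q / b) * r ^ (-1 - q * σ)) (Ioi r₁) ∧
      0 ≤ ∫ r in Ioi r₁, ker σ (r ^ q / b) * r ^ (-1 - q * σ) := by
  have hpos : 0 < b⁻¹ * r₁ ^ q := mul_pos (inv_pos.2 hb) (pow_pos hr q)
  have hint : IntegrableOn (fun t => ker σ t * t ^ (-1 - σ)) (Ioi (b⁻¹ * r₁ ^ q)) :=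
    (ker_integrable σ h0 h1).mono_set (Ioi_subset_Ioi hpos.le)
  have hnn := ker_integral_nonneg σ h0 h1 _ hpos.le
  rw [← D02_image q hq b hb r₁ hr] at hint hnn
  rw [integrableOn_image_iff_integrableOn_abs_deriv_smul measurableSet_Ioi
    (fun x _ => D02_deriv q b _ x) (D02_inj q hq b hb r₁ hr)] at hint
  rw [integral_image_eq_integral_abs_deriv_smul measurableSet_Ioi
    (fun x _ => D02_deriv q b _ x) (D02_inj q hq b hb r₁ hr)] at hnn
  have heq : EqOn (fun r => ker σ (r ^ q / b) * r ^ (-1 - q * σ)) (fun r => (q * b ^ σ)⁻¹ *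
      (|b⁻¹ * (q * r ^ (q - 1))| • (ker σ (b⁻¹ * r ^ q) * (b⁻¹ * r ^ q) ^ (-1 - σ)))) (Ioi r₁) :=
    fun r hr' => D02_eq σ q hq b hb r (hr.trans hr')
  constructor
  · exact (integrableOn_congr_fun heq measurableSet_Ioi).2 (hint.const_mul _)
  · rw [setIntegral_congr_fun measurableSet_Ioi heq, integral_const_mul]
    exact mul_nonneg (inv_nonneg.2 (by positivity)) hnn

private theorem D02_meas (σ : ℝ) (q : ℕ) (b : ℝ) : Measurable (fun r : ℝ => ker σ (r ^ q / b)) := by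
  unfold ker
  fun_prop

private theorem D02_multi (σ : ℝ) (h0 : 0 < σ) (h1 : σ < 1 / 2) (q : ℕ) (hq : 1 ≤ q)
    (s : Multiset ℂ) (hs : ∀ a ∈ s, a ≠ 0) :
    Measurable (fun r : ℝ => (s.map (fun a => ker σ (r ^ q / ‖a‖))).sum) ∧
      (∀ r₁ : ℝ, 0 < r₁ → IntegrableOn (fun r : ℝ =>
        (s.map (fun a => ker σ (r ^ q / ‖a‖))).sum * r ^ (-1 - q * σ)) (Ioi r₁)) ∧
      (∀ r₁ : ℝ, 0 < r₁ → 0 ≤ ∫ r in Ioi r₁,
        (s.map (fun a => ker σ (r ^ q / ‖a‖))).sum * r ^ (-1 - q * σ)) := by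
  induction s using Multiset.induction_on with
  | empty => simp
  | cons a s ih =>
    obtain ⟨i1, i2, i3⟩ := ih fun b hb => hs b (Multiset.mem_cons_of_mem hb)
    have ha : 0 < ‖a‖ := norm_pos_iff.2 (hs a (Multiset.mem_cons_self a s))
    simp only [Multiset.map_cons, Multiset.sum_cons, add_mul]
    refine ⟨(D02_meas σ q _).add i1, ?_, ?_⟩
    · intro r₁ hr
      exact (D02_one σ h0 h1 q hq ‖a‖ ha r₁ hr).1.add (i2 r₁ hr)
    · intro r₁ hr
      rw [integral_add (D02_one σ h0 h1 q hq ‖a‖ ha r₁ hr).1 (i2 r₁ hr)]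
      exact add_nonneg (D02_one σ h0 h1 q hq ‖a‖ ha r₁ hr).2 (i3 r₁ hr)

private theorem D02_logprod (s : Multiset ℂ) (w : ℂ) (hs : ∀ a ∈ s, w - a ≠ 0) :
    Real.log ‖(s.map (fun a => w - a)).prod‖ = (s.map (fun a => Real.log ‖w - a‖)).sum ∧
      (s.map (fun a => w - a)).prod ≠ 0 := by
  induction s using Multiset.induction_on with
  | empty => simp
  | cons a s ih =>
    obtain ⟨i1, i2⟩ := ih fun b hb => hs b (Multiset.mem_cons_of_mem hb)
    have ha := hs a (Multiset.mem_cons_self a s)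
    simp only [Multiset.map_cons, Multiset.sum_cons, Multiset.prod_cons]
    refine ⟨?_, mul_ne_zero ha i2⟩
    rw [norm_mul, Real.log_mul (norm_ne_zero_iff.2 ha) (norm_ne_zero_iff.2 i2), i1]

private theorem D02_ineq (c : ℝ) (hc : 0 ≤ c) (σ : ℝ) (hσ : c = Real.cos (Real.pi * σ))
    (R : ℝ) (w w' a : ℂ) (hw : ‖w‖ = R) (hw' : ‖w'‖ = R) (ha0 : a ≠ 0)
    (ha : ‖a‖ ≠ R) :
    ker σ (R / ‖a‖) ≤ (Real.log ‖w - a‖ - Real.log ‖(0 : ℂ) - a‖) -
      c * (Real.log ‖w' - a‖ - Real.log ‖(0 : ℂ) - a‖) := by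
  have hap : 0 < ‖a‖ := norm_pos_iff.2 ha0
  have hn : ‖(0 : ℂ) - a‖ = ‖a‖ := by rw [zero_sub, norm_neg]
  have hwa : 0 < ‖w - a‖ := by
    rw [norm_pos_iff, sub_ne_zero]
    rintro rfl
    exact ha hw
  have hwa' : 0 < ‖w' - a‖ := by
    rw [norm_pos_iff, sub_ne_zero]
    rintro rfl
    exact ha hw'
  rw [hn, ← Real.log_div hwa.ne' hap.ne', ← Real.log_div hwa'.ne' hap.ne']
  unfold ker
  rw [← hσ]
  have e1 : |1 - R / ‖a‖| = |‖w‖ - ‖a‖| / ‖a‖ := by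
    rw [hw, ← abs_of_pos hap, ← abs_div, abs_of_pos hap, abs_sub_comm]
    congr 1
    field_simp
  have h1 : Real.log |1 - R / ‖a‖| ≤ Real.log (‖w - a‖ / ‖a‖) := by
    apply Real.log_le_log
    · rw [abs_pos, sub_ne_zero]
      intro h
      apply ha
      rw [eq_div_iff hap.ne', one_mul] at h
      exact h
    · rw [e1]
      exact div_le_div_of_nonneg_right (abs_norm_sub_norm_le w a) hap.le
  have h2 : Real.log (‖w' - a‖ / ‖a‖) ≤ Real.log (1 + R / ‖a‖) := by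
    apply Real.log_le_log (div_pos hwa' hap)
    have h3 : 1 + R / ‖a‖ = (‖w'‖ + ‖a‖) / ‖a‖ := by
      rw [hw']
      field_simp
      ring
    rw [h3]
    exact div_le_div_of_nonneg_right (norm_sub_le w' a) hap.le
  have h4 := mul_le_mul_of_nonneg_left h2 hc
  linarith

theorem poly_ker (σ : ℝ) (h0 : 0 < σ) (h1 : σ < 1 / 2) (q : ℕ) (hq : 1 ≤ q) (P : Polynomial ℂ)
    (hP : P.eval 0 ≠ 0) :
    ∃ K : ℝ → ℝ, Measurable K ∧
      (∀ r₁ : ℝ, 0 < r₁ → IntegrableOn (fun r => K r * r ^ (-1 - q * σ)) (Ioi r₁)) ∧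
      (∀ r₁ : ℝ, 0 < r₁ → 0 ≤ ∫ r in Ioi r₁, K r * r ^ (-1 - q * σ)) ∧
      ∀ r : ℝ, 0 < r → (∀ w : ℂ, ‖w‖ = r ^ q → P.eval w ≠ 0) → ∀ w w' : ℂ, ‖w‖ = r ^ q →
        ‖w'‖ = r ^ q → K r + (1 - Real.cos (Real.pi * σ)) * Real.log ‖P.eval 0‖ ≤
          Real.log ‖P.eval w‖ - Real.cos (Real.pi * σ) * Real.log ‖P.eval w'‖ := by
  have hP0 : P ≠ 0 := by
    rintro rfl
    exact hP (by simp)
  have hroots : ∀ a ∈ P.roots, a ≠ 0 := by
    rintro a ha rfl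
    exact hP (Polynomial.isRoot_of_mem_roots ha)
  obtain ⟨m1, m2, m3⟩ := D02_multi σ h0 h1 q hq P.roots hroots
  refine ⟨_, m1, m2, m3, ?_⟩
  intro r hr hno w w' hw hw'
  have hc : 0 ≤ Real.cos (Real.pi * σ) := by
    apply Real.cos_nonneg_of_neg_pi_div_two_le_of_le <;> nlinarith [Real.pi_pos]
  have hlead : P.leadingCoeff ≠ 0 := Polynomial.leadingCoeff_ne_zero.2 hP0
  have heval : ∀ z : ℂ, P.eval z = P.leadingCoeff * (P.roots.map (fun a => z - a)).prod := by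
    intro z
    exact (IsAlgClosed.splits P).eval_eq_prod_roots z
  have hlog : ∀ z : ℂ, P.eval z ≠ 0 → Real.log ‖P.eval z‖ =
      Real.log ‖P.leadingCoeff‖ + (P.roots.map (fun a => Real.log ‖z - a‖)).sum := by
    intro z hz
    have h2 : ∀ a ∈ P.roots, z - a ≠ 0 := by
      intro a ha h3
      rw [sub_eq_zero] at h3
      apply hz
      rw [h3]
      exact Polynomial.isRoot_of_mem_roots ha
    obtain ⟨h4, h5⟩ := D02_logprod P.roots z h2
    rw [heval z, norm_mul, Real.log_mul (norm_ne_zero_iff.2 hlead) (norm_ne_zero_iff.2 h5), h4]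
  rw [hlog w (hno w hw), hlog w' (hno w' hw'), hlog 0 hP]
  have hsum : (P.roots.map (fun a => ker σ (r ^ q / ‖a‖))).sum ≤
      (P.roots.map (fun a => (Real.log ‖w - a‖ - Real.log ‖(0 : ℂ) - a‖) -
      Real.cos (Real.pi * σ) * (Real.log ‖w' - a‖ - Real.log ‖(0 : ℂ) - a‖))).sum := by
    apply Multiset.sum_map_le_sum_map
    intro a ha
    refine D02_ineq _ hc σ rfl (r ^ q) w w' a hw hw' (hroots a ha) ?_
    intro h
    exact hno a h (Polynomial.isRoot_of_mem_roots ha)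
  rw [Multiset.sum_map_sub, Multiset.sum_map_mul_left, Multiset.sum_map_sub,
    Multiset.sum_map_sub] at hsum
  nlinarith [hsum]

end Pool.Agent.LibPer37
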