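import Pool.Agent.LibPer37.D02

/-! Task D03 (150-230 lines): the averaged `cos πσ` inequality for one entire function of order `< σ < 1/2`.

HINT.  First let `H 0 ≠ 0`.  Let `a n` be the Taylor coefficients; `∑ ‖a n‖ R^n ≤ 2 * max_{‖w‖ = 2R} ‖H w‖`
(Cauchy: `‖a n‖ (2R)^n ≤ max_{2R} ‖H‖`), so with `σ₁ < σ₂ < σ` there is `B ≥ 1` with
`∑ ‖a n‖ R^n ≤ exp (B * (1 + R^σ₂))` for all `R ≥ 0`.  The Taylor polynomials `P n` (`n ≥ 1` terms) satisfy the same
bound, `P n (0) = H 0`, and converge to `H` pointwise.  Let `K n` be given by `poly_ker` for `P n`.  Let `Z₁` be the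
countable set of `r` with `r^q = ‖a‖` for a root `a` of some `P n`.  For `r ≥ 1`, `r ∉ Z₁` the inequality with `w = w'`
gives `K n r ≤ (1 - cos) (log ‖P n w‖ - log ‖H 0‖) ≤ G r := B' * r^(q * σ₂)`, and `G r * r^(-1-qσ)` is integrable on
`(r₁, ∞)`.  Reverse Fatou: put `u n r = ofReal ((G r - K n r) * r^(-1-qσ))`, `L r = liminf u n r`
(`lintegral_liminf_le`): `∫⁻_{Ioi r₁} L ≤ liminf ∫⁻ u n = liminf (∫ G.. - ∫ K n..) ≤ ∫_{Ioi r₁} G r * r^(-1-qσ) < ∞`.
Put `K r = G r - (L r).toReal / r^(-1-qσ)` and `Z = toMeasurable volume (Z₁ ∪ ({L = ∞} ∩ Ioi 1) ∪ {1})`, a null set.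
Then `K r ≤ G r`, the integral of `K r * r^(-1-qσ)` over `(r₁,∞)` is `∫ G - ∫ L ≥ 0`, and for `r ∉ Z`, `H` without zeros on
the circle: `K n r ≤ log ‖P n w‖ - cos log ‖P n w'‖ - (1-cos) log ‖H 0‖ → log ‖H w‖ - cos log ‖H w'‖ - (1-cos) log ‖H 0‖`,
so `(L r).toReal / r^(-1-qσ) ≥ G r - ` this limit.
General `H`: `H w = w^d * H₀ w` with `H₀ 0 ≠ 0`, `H₀` entire of the same growth; for `‖w‖ = ‖w'‖ = R ≥ 1` the factor adds
`(1 - cos) d log R ≥ 0` to the right side. -/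

set_option autoImplicit false

open MeasureTheory Set Filter Topology

namespace Pool.Agent.LibPer37

/-- Taylor series with the zero at the origin removed, and the bound for the sections -/
theorem D03_series (σ₁ : ℝ) (h0 : 0 < σ₁) (H : ℂ → ℂ) (hH : Differentiable ℂ H)
    (hne : ∃ w, H w ≠ 0)
    (hgr : ∀ᶠ r : ℝ in atTop, ∀ w : ℂ, ‖w‖ = r → ‖H w‖ ≤ Real.exp (r ^ σ₁)) :
    ∃ (a : ℕ → ℂ) (d : ℕ) (B : ℝ), a 0 ≠ 0 ∧ 0 ≤ B ∧
      (∀ w : ℂ, H w = w ^ d * ∑' n, a n * w ^ n) ∧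
      (∀ w : ℂ, Summable (fun n => a n * w ^ n)) ∧
      ∀ R : ℝ, 1 ≤ R → ∀ N : ℕ, ∑ n ∈ Finset.range N, ‖a n‖ * R ^ n ≤ Real.exp (B * R ^ σ₁) := by
  classical
  set b : ℕ → ℂ := fun n => ((n.factorial : ℂ))⁻¹ * iteratedDeriv n H 0 with hb
  have hser : ∀ w : ℂ, HasSum (fun n => b n * w ^ n) (H w) := by
    intro w
    have := Complex.hasSum_taylorSeries_of_entire hH 0 w
    refine (congrArg (fun f : ℕ → ℂ => HasSum f (H w)) (funext (fun n => ?_))).mp this
    simp only [sub_zero, smul_eq_mul, hb]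
    ring
  have hex : ∃ n, b n ≠ 0 := by
    by_contra hcon
    push Not at hcon
    obtain ⟨w, hw⟩ := hne
    have h1 := hser w
    simp only [hcon, zero_mul] at h1
    exact hw (h1.unique hasSum_zero)
  set d := Nat.find hex with hd
  have hdn : b d ≠ 0 := Nat.find_spec hex
  have hlt : ∀ n < d, b n = 0 := fun n hn => by
    have := Nat.find_min hex hn
    simpa using this
  obtain ⟨R₁, hR₁⟩ := Filter.eventually_atTop.mp hgr
  set R₀ : ℝ := max R₁ 1 with hR₀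
  have hR₀1 : 1 ≤ R₀ := le_max_right _ _
  -- Cauchy
  have hcau : ∀ n : ℕ, ∀ ρ : ℝ, R₀ ≤ ρ → ‖b n‖ ≤ Real.exp (ρ ^ σ₁) / ρ ^ n := by
    intro n ρ hρ
    have hρ0 : 0 < ρ := by linarith
    have h1 := Complex.norm_iteratedDeriv_le_of_forall_mem_sphere_norm_le (f := H) (c := 0)
      (R := ρ) (C := Real.exp (ρ ^ σ₁)) n hρ0 hH.diffContOnCl (by
        intro z hz
        rw [mem_sphere_zero_iff_norm] at hz
        exact hR₁ ρ ((le_max_left _ _).trans hρ) z hz)
    rw [hb]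
    simp only [norm_mul, norm_inv, Complex.norm_natCast]
    have hf : (0 : ℝ) < n.factorial := by exact_mod_cast n.factorial_pos
    rw [inv_mul_le_iff₀ hf]
    rw [mul_div_assoc] at h1
    exact h1
  set B : ℝ := Real.log 2 + (2 * R₀) ^ σ₁ with hB
  have hB0 : 0 ≤ B := by
    have := Real.log_nonneg (by norm_num : (1 : ℝ) ≤ 2)
    have := Real.rpow_nonneg (by linarith : (0 : ℝ) ≤ 2 * R₀) σ₁
    positivity
  have hbound : ∀ R : ℝ, 1 ≤ R → ∀ N : ℕ, ∑ n ∈ Finset.range N, ‖b (n + d)‖ * R ^ n ≤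
      Real.exp (B * R ^ σ₁) := by
    intro R hR N
    set ρ : ℝ := 2 * R₀ * R with hρ
    have hρR : 2 * R ≤ ρ := by rw [hρ]; nlinarith
    have hρ0 : R₀ ≤ ρ := by rw [hρ]; nlinarith
    have hρ1 : 1 ≤ ρ := hR₀1.trans hρ0
    have h1 : ∀ n ∈ Finset.range N, ‖b (n + d)‖ * R ^ n ≤ Real.exp (ρ ^ σ₁) * (1 / 2) ^ n := by
      intro n _
      have h2 := hcau (n + d) ρ hρ0
      have h3 : Real.exp (ρ ^ σ₁) / ρ ^ (n + d) ≤ Real.exp (ρ ^ σ₁) / ρ ^ n := by
        refine div_le_div_of_nonneg_left (Real.exp_pos _).le (by positivity) ?_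
        exact pow_le_pow_right₀ hρ1 (by omega)
      have h4 : R ^ n / ρ ^ n ≤ (1 / 2) ^ n := by
        rw [← div_pow]
        refine pow_le_pow_left₀ (by positivity) ?_ n
        rw [div_le_div_iff₀ (by linarith) (by norm_num)]
        linarith
      calc ‖b (n + d)‖ * R ^ n ≤ Real.exp (ρ ^ σ₁) / ρ ^ n * R ^ n :=
            mul_le_mul_of_nonneg_right (h2.trans h3) (by positivity)
        _ = Real.exp (ρ ^ σ₁) * (R ^ n / ρ ^ n) := by ring
        _ ≤ _ := mul_le_mul_of_nonneg_left h4 (Real.exp_pos _).le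
    have h5 : ∑ n ∈ Finset.range N, ((1 : ℝ) / 2) ^ n ≤ 2 :=
      (Summable.sum_le_tsum (Finset.range N) (fun i _ => by positivity)
        summable_geometric_two).trans tsum_geometric_two.le
    have h6 : ρ ^ σ₁ = (2 * R₀) ^ σ₁ * R ^ σ₁ := by
      rw [hρ, Real.mul_rpow (by linarith) (by linarith)]
    have h7 : 1 ≤ R ^ σ₁ := Real.one_le_rpow hR h0.le
    have h8 : 0 ≤ Real.log 2 := Real.log_nonneg (by norm_num)
    calc ∑ n ∈ Finset.range N, ‖b (n + d)‖ * R ^ n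
        ≤ ∑ n ∈ Finset.range N, Real.exp (ρ ^ σ₁) * (1 / 2) ^ n := Finset.sum_le_sum h1
      _ = Real.exp (ρ ^ σ₁) * ∑ n ∈ Finset.range N, (1 / 2) ^ n := by rw [Finset.mul_sum]
      _ ≤ Real.exp (ρ ^ σ₁) * 2 := mul_le_mul_of_nonneg_left h5 (Real.exp_pos _).le
      _ = Real.exp (ρ ^ σ₁ + Real.log 2) := by rw [Real.exp_add, Real.exp_log (by norm_num)]
      _ ≤ Real.exp (B * R ^ σ₁) := by
          apply Real.exp_le_exp.mpr
          rw [h6, hB]
          nlinarith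
  have hsm : ∀ w : ℂ, Summable (fun n => b (n + d) * w ^ n) := by
    intro w
    refine Summable.of_norm_bounded (g := fun n => ‖b (n + d)‖ * (max ‖w‖ 1) ^ n) ?_ (fun n => ?_)
    · exact summable_of_sum_range_le (fun n => by positivity)
        (hbound (max ‖w‖ 1) (le_max_right _ _))
    · rw [norm_mul, norm_pow]
      exact mul_le_mul_of_nonneg_left
        (pow_le_pow_left₀ (norm_nonneg _) (le_max_left _ _) n) (norm_nonneg _)
  refine ⟨fun n => b (n + d), d, B, by simpa using hdn, hB0, ?_, hsm, hbound⟩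
  intro w
  have h1 := (hasSum_nat_add_iff' d).mpr (hser w)
  have h2 : ∑ i ∈ Finset.range d, b i * w ^ i = 0 :=
    Finset.sum_eq_zero (fun i hi => by rw [hlt i (Finset.mem_range.mp hi), zero_mul])
  rw [h2, sub_zero] at h1
  have h3 := (hsm w).hasSum.mul_left (w ^ d)
  have h4 : (fun n => w ^ d * (b (n + d) * w ^ n)) = fun n => b (n + d) * w ^ (n + d) := by
    funext n; rw [pow_add]; ring
  rw [h4] at h3
  exact h1.unique h3

theorem entire_ker (σ σ₁ : ℝ) (h0 : 0 < σ₁) (h01 : σ₁ < σ) (h1 : σ < 1 / 2) (q : ℕ) (hq : 1 ≤ q)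
    (H : ℂ → ℂ) (hH : Differentiable ℂ H) (hne : ∃ w, H w ≠ 0)
    (hgr : ∀ᶠ r : ℝ in atTop, ∀ w : ℂ, ‖w‖ = r → ‖H w‖ ≤ Real.exp (r ^ σ₁)) :
    ∃ (K : ℝ → ℝ) (C : ℝ) (Z : Set ℝ), 0 ≤ C ∧ MeasurableSet Z ∧ volume Z = 0 ∧
      (∀ r₁ : ℝ, 1 ≤ r₁ → IntegrableOn (fun r => K r * r ^ (-1 - q * σ)) (Ioi r₁)) ∧
      (∀ r₁ : ℝ, 1 ≤ r₁ → 0 ≤ ∫ r in Ioi r₁, K r * r ^ (-1 - q * σ)) ∧
      (∀ r : ℝ, 1 ≤ r → K r ≤ C * r ^ (q * σ)) ∧
      ∀ r : ℝ, 1 ≤ r → r ∉ Z → (∀ w : ℂ, ‖w‖ = r ^ q → H w ≠ 0) → ∀ w w' : ℂ, ‖w‖ = r ^ q →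
        ‖w'‖ = r ^ q → K r ≤
          Real.log ‖H w‖ - Real.cos (Real.pi * σ) * Real.log ‖H w'‖ + C := by
  classical
  obtain ⟨a, d, B, ha0, hB0, hHa, hsm, hbd⟩ := D03_series σ₁ h0 H hH hne hgr
  have hσ : 0 < σ := h0.trans h01
  set c := Real.cos (Real.pi * σ) with hc
  have hc0 : 0 ≤ c := Real.cos_nonneg_of_neg_pi_div_two_le_of_le (by nlinarith [Real.pi_pos])
      (by nlinarith [Real.pi_pos])
  have hc1 : c ≤ 1 := Real.cos_le_one _
  have hqr : (1 : ℝ) ≤ q := by exact_mod_cast hq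
  -- sections
  set P : ℕ → Polynomial ℂ := fun N => ∑ n ∈ Finset.range (N + 1), Polynomial.C (a n) *
    Polynomial.X ^ n with hP
  have hPe : ∀ N w, (P N).eval w = ∑ n ∈ Finset.range (N + 1), a n * w ^ n := by
    intro N w
    rw [hP]
    simp [Polynomial.eval_finsetSum]
  have hP0 : ∀ N, (P N).eval 0 = a 0 := by
    intro N
    rw [hPe, Finset.sum_range_succ']
    simp
  have hPne : ∀ N, (P N).eval 0 ≠ 0 := fun N => by rw [hP0]; exact ha0
  have hPb : ∀ N : ℕ, ∀ R : ℝ, 1 ≤ R → ∀ w : ℂ, ‖w‖ = R →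
      ‖(P N).eval w‖ ≤ Real.exp (B * R ^ σ₁) := by
    intro N R hR w hw
    rw [hPe]
    refine (norm_sum_le _ _).trans ?_
    refine le_trans (le_of_eq ?_) (hbd R hR (N + 1))
    exact Finset.sum_congr rfl (fun n _ => by rw [norm_mul, norm_pow, hw])
  choose K hKm hKi hKp hKe using fun N => poly_ker σ hσ h1 q hq (P N) (hPne N)
  set E : ℝ := |Real.log ‖a 0‖| with hE
  have hE0 : 0 ≤ E := abs_nonneg _
  set G : ℝ → ℝ := fun r => (B + E) * r ^ ((q : ℝ) * σ₁) with hG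
  set φ : ℝ → ℝ := fun r => r ^ (-1 - (q : ℝ) * σ) with hφ
  have hφpos : ∀ r, 1 ≤ r → 0 < φ r := fun r hr => Real.rpow_pos_of_pos (by linarith) _
  -- exceptional radii of the sections
  set Z₁ : Set ℝ := ⋃ N : ℕ, ⋃ x ∈ ((P N).roots.toFinset : Set ℂ), {r : ℝ | 0 < r ∧ r ^ q = ‖x‖}
    with hZ₁
  have hZ₁c : Z₁.Countable := by
    refine countable_iUnion (fun N => ?_)
    refine Set.Countable.biUnion (Finset.countable_toSet _) (fun x _ => ?_)
    refine Set.Subsingleton.countable ?_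
    rintro r ⟨hr, hr'⟩ t ⟨ht, ht'⟩
    exact (pow_left_inj₀ hr.le ht.le (by omega)).mp (hr'.trans ht'.symm)
  have hZ₁r : ∀ r, 0 < r → r ∉ Z₁ → ∀ N, ∀ w : ℂ, ‖w‖ = r ^ q → (P N).eval w ≠ 0 := by
    intro r hr hrZ N w hw hev
    apply hrZ
    rw [hZ₁]
    simp only [mem_iUnion]
    refine ⟨N, w, ?_, hr, hw.symm⟩
    have hne0 : P N ≠ 0 := by
      intro h
      apply hPne N
      rw [h]; simp
    simp [hne0, hev]
  -- K N ≤ G
  have hKG : ∀ r, 1 ≤ r → r ∉ Z₁ → ∀ N, K N r ≤ G r := by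
    intro r hr hrZ N
    have hr0 : 0 < r := by linarith
    have hnz := hZ₁r r hr0 hrZ N
    set w : ℂ := ((r ^ q : ℝ) : ℂ) with hw
    have hwn : ‖w‖ = r ^ q := by
      rw [hw, Complex.norm_real, Real.norm_of_nonneg (by positivity)]
    have h2 := hKe N r hr0 hnz w w hwn hwn
    rw [hP0] at h2
    have hRq : (1 : ℝ) ≤ r ^ q := one_le_pow₀ hr
    have h3 := hPb N (r ^ q) hRq w hwn
    have h4 : Real.log ‖(P N).eval w‖ ≤ B * (r ^ q) ^ σ₁ := by
      rw [Real.log_le_iff_le_exp (norm_pos_iff.mpr (hnz w hwn))]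
      exact h3
    have h5 : (r ^ q) ^ σ₁ = r ^ ((q : ℝ) * σ₁) := by
      rw [Real.rpow_mul hr0.le, Real.rpow_natCast]
    have h6 : 1 ≤ r ^ ((q : ℝ) * σ₁) := Real.one_le_rpow hr (by positivity)
    have h7 : -Real.log ‖a 0‖ ≤ E := neg_le_abs _
    have h8 : 0 ≤ 1 - c := by linarith
    rw [h5] at h4
    have h9 : Real.log ‖(P N).eval w‖ - Real.log ‖a 0‖ ≤ G r := by
      rw [hG]
      simp only
      nlinarith
    have h10 : 0 ≤ G r := by rw [hG]; simp only; positivity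
    have h11 : K N r ≤ (1 - c) * (Real.log ‖(P N).eval w‖ - Real.log ‖a 0‖) := by
      rw [← hc] at h2
      linarith
    calc K N r ≤ (1 - c) * (Real.log ‖(P N).eval w‖ - Real.log ‖a 0‖) := h11
      _ ≤ (1 - c) * G r := mul_le_mul_of_nonneg_left h9 h8
      _ ≤ 1 * G r := mul_le_mul_of_nonneg_right (by linarith) h10
      _ = G r := one_mul _
  -- measurability and integrability
  have hGm : Measurable G := by rw [hG]; fun_prop
  have hφm : Measurable φ := by rw [hφ]; fun_prop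
  have hGi : ∀ r₁ : ℝ, 1 ≤ r₁ → IntegrableOn (fun r => G r * φ r) (Ioi r₁) := by
    intro r₁ hr₁
    have h2 : IntegrableOn (fun r : ℝ => r ^ (-1 - (q : ℝ) * (σ - σ₁))) (Ioi r₁) :=
      integrableOn_Ioi_rpow_of_lt (by nlinarith) (by linarith)
    refine IntegrableOn.congr_fun (h2.const_mul (B + E)) (fun r hr => ?_) measurableSet_Ioi
    have hr0 : (0 : ℝ) < r := by
      have : r₁ < r := hr
      linarith
    rw [hG, hφ]
    simp only
    rw [mul_assoc, ← Real.rpow_add hr0]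
    congr 2
    ring
  set u : ℕ → ℝ → ENNReal := fun N r => ENNReal.ofReal ((G r - K N r) * φ r) with hu
  have hum : ∀ N, Measurable (u N) := fun N => ((hGm.sub (hKm N)).mul hφm).ennreal_ofReal
  set L : ℝ → ENNReal := fun r => liminf (fun N => u N r) atTop with hL
  have hLm : Measurable L := Measurable.liminf hum
  have hLint : ∀ r₁ : ℝ, 1 ≤ r₁ → ∫⁻ r in Ioi r₁, L r ≤ ENNReal.ofReal (∫ r in Ioi r₁, G r * φ r) := by
    intro r₁ hr₁
    refine (lintegral_liminf_le hum).trans ?_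
    have hN : ∀ N, ∫⁻ r in Ioi r₁, u N r ≤ ENNReal.ofReal (∫ r in Ioi r₁, G r * φ r) := by
      intro N
      have i1 := hGi r₁ hr₁
      have i2 : IntegrableOn (fun r => K N r * φ r) (Ioi r₁) := hKi N r₁ (by linarith)
      have i3 : IntegrableOn (fun r => (G r - K N r) * φ r) (Ioi r₁) := by
        refine (i1.sub i2).congr_fun (fun r _ => ?_) measurableSet_Ioi
        simp only [Pi.sub_apply]
        ring
      have hnn : 0 ≤ᵐ[volume.restrict (Ioi r₁)] fun r => (G r - K N r) * φ r := by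
        have hz : ∀ᵐ r ∂(volume.restrict (Ioi r₁)), r ∉ Z₁ :=
          ae_restrict_of_ae (hZ₁c.ae_notMem volume)
        filter_upwards [hz, ae_restrict_mem measurableSet_Ioi] with r hrz hr
        have hr1 : 1 ≤ r := hr₁.trans (le_of_lt hr)
        exact mul_nonneg (sub_nonneg.mpr (hKG r hr1 hrz N)) (hφpos r hr1).le
      rw [hu]
      simp only
      rw [← ofReal_integral_eq_lintegral_ofReal i3 hnn]
      apply ENNReal.ofReal_le_ofReal
      have e : ∫ r in Ioi r₁, (G r - K N r) * φ r =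
          (∫ r in Ioi r₁, G r * φ r) - ∫ r in Ioi r₁, K N r * φ r := by
        rw [← integral_sub i1 i2]
        congr 1
        funext r
        ring
      rw [e]
      have := hKp N r₁ (by linarith)
      linarith
    calc liminf (fun N => ∫⁻ r in Ioi r₁, u N r) atTop
        ≤ liminf (fun _ : ℕ => ENNReal.ofReal (∫ r in Ioi r₁, G r * φ r)) atTop :=
          liminf_le_liminf (Filter.Eventually.of_forall hN)
      _ = _ := liminf_const _
  have hLfin : ∀ r₁ : ℝ, 1 ≤ r₁ → ∫⁻ r in Ioi r₁, L r ≠ ⊤ := fun r₁ hr₁ =>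
    ne_top_of_le_ne_top ENNReal.ofReal_ne_top (hLint r₁ hr₁)
  have hLi : ∀ r₁ : ℝ, 1 ≤ r₁ → IntegrableOn (fun r => (L r).toReal) (Ioi r₁) := fun r₁ hr₁ =>
    integrable_toReal_of_lintegral_ne_top hLm.aemeasurable (hLfin r₁ hr₁)
  have hGnn : ∀ r₁ : ℝ, 1 ≤ r₁ → 0 ≤ ∫ r in Ioi r₁, G r * φ r := by
    intro r₁ hr₁
    refine setIntegral_nonneg measurableSet_Ioi (fun r hr => ?_)
    have hr1 : 1 ≤ r := hr₁.trans (le_of_lt hr)
    refine mul_nonneg ?_ (hφpos r hr1).le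
    rw [hG]; simp only; positivity
  have hLle : ∀ r₁ : ℝ, 1 ≤ r₁ → ∫ r in Ioi r₁, (L r).toReal ≤ ∫ r in Ioi r₁, G r * φ r := by
    intro r₁ hr₁
    rw [integral_toReal hLm.aemeasurable (ae_lt_top hLm (hLfin r₁ hr₁))]
    exact ENNReal.toReal_le_of_le_ofReal (hGnn r₁ hr₁) (hLint r₁ hr₁)
  -- the function K
  set Kf : ℝ → ℝ := fun r => G r - (L r).toReal * (φ r)⁻¹ with hKf
  have hKφ : ∀ r, 1 ≤ r → Kf r * φ r = G r * φ r - (L r).toReal := by
    intro r hr
    have := (hφpos r hr).ne'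
    rw [hKf]
    simp only
    field_simp
  refine ⟨Kf, B + E, Z₁ ∪ ({r | L r = ⊤} ∩ Ioi 1) ∪ {1}, by positivity, ?_, ?_, ?_, ?_, ?_, ?_⟩
  · exact (hZ₁c.measurableSet.union ((hLm (measurableSet_singleton ⊤)).inter
      measurableSet_Ioi)).union (measurableSet_singleton 1)
  · refine measure_union_null (measure_union_null (hZ₁c.measure_zero volume) ?_) (by simp)
    have h2 := ae_lt_top hLm (hLfin 1 le_rfl)
    rw [ae_restrict_iff' measurableSet_Ioi] at h2
    have h3 : {r | L r = ⊤} ∩ Ioi 1 = {r | ¬ (r ∈ Ioi (1 : ℝ) → L r < ⊤)} := by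
      ext r
      simp only [mem_inter_iff, Set.mem_ofPred_eq, not_forall, not_lt, top_le_iff]
      constructor
      · rintro ⟨x, y⟩; exact ⟨y, x⟩
      · rintro ⟨x, y⟩; exact ⟨y, x⟩
    rw [h3]
    exact h2
  · intro r₁ hr₁
    refine IntegrableOn.congr_fun ((hGi r₁ hr₁).sub (hLi r₁ hr₁)) (fun r hr => ?_)
      measurableSet_Ioi
    exact (hKφ r (hr₁.trans (le_of_lt hr))).symm
  · intro r₁ hr₁
    have e : ∫ r in Ioi r₁, Kf r * φ r =
        (∫ r in Ioi r₁, G r * φ r) - ∫ r in Ioi r₁, (L r).toReal := by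
      rw [← integral_sub (hGi r₁ hr₁) (hLi r₁ hr₁)]
      exact setIntegral_congr_fun measurableSet_Ioi (fun r hr => hKφ r (hr₁.trans (le_of_lt hr)))
    have h2 := hLle r₁ hr₁
    have h3 : 0 ≤ ∫ r in Ioi r₁, Kf r * φ r := by rw [e]; linarith
    exact h3
  · intro r hr
    have h2 : G r ≤ (B + E) * r ^ ((q : ℝ) * σ) := by
      rw [hG]
      simp only
      refine mul_le_mul_of_nonneg_left ?_ (by positivity)
      exact Real.rpow_le_rpow_of_exponent_le hr (by nlinarith)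
    have h3 : 0 ≤ (L r).toReal * (φ r)⁻¹ :=
      mul_nonneg ENNReal.toReal_nonneg (inv_nonneg.mpr (hφpos r hr).le)
    rw [hKf]
    simp only
    linarith
  · intro r hr hrZ hHne w w' hw hw'
    rw [mem_union, mem_union, not_or, not_or] at hrZ
    obtain ⟨⟨hrZ₁, hrL⟩, hr1⟩ := hrZ
    have hr0 : 0 < r := by linarith
    have hrlt : 1 < r := lt_of_le_of_ne hr (fun h => hr1 (by rw [← h]; rfl))
    have hLne : L r ≠ ⊤ := fun h => hrL ⟨h, hrlt⟩
    have hφr := hφpos r hr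
    have hRq : (1 : ℝ) ≤ r ^ q := one_le_pow₀ hr
    set f : ℂ → ℂ := fun z => ∑' n, a n * z ^ n with hf
    have hw0 : w ≠ 0 := by
      rw [← norm_pos_iff, hw]; positivity
    have hw0' : w' ≠ 0 := by
      rw [← norm_pos_iff, hw']; positivity
    have hfw : f w ≠ 0 := by
      intro h
      apply hHne w hw
      rw [hHa w]
      have : ∑' n, a n * w ^ n = 0 := h
      rw [this, mul_zero]
    have hfw' : f w' ≠ 0 := by
      intro h
      apply hHne w' hw'
      rw [hHa w']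
      have : ∑' n, a n * w' ^ n = 0 := h
      rw [this, mul_zero]
    have hconv : ∀ z : ℂ, f z ≠ 0 →
        Tendsto (fun N => Real.log ‖(P N).eval z‖) atTop (𝓝 (Real.log ‖f z‖)) := by
      intro z hz
      have h2 : Tendsto (fun N => ∑ n ∈ Finset.range N, a n * z ^ n) atTop (𝓝 (f z)) :=
        (hsm z).hasSum.tendsto_sum_nat
      have h3 := h2.comp (tendsto_add_atTop_nat 1)
      have h4 : Tendsto (fun N => (P N).eval z) atTop (𝓝 (f z)) := by
        refine h3.congr (fun N => ?_)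
        rw [hPe]
        rfl
      exact (Real.continuousAt_log (norm_ne_zero_iff.mpr hz)).tendsto.comp h4.norm
    set T : ℝ := Real.log ‖f w‖ - c * Real.log ‖f w'‖ - (1 - c) * Real.log ‖a 0‖ with hT
    have hlim : Tendsto (fun N => Real.log ‖(P N).eval w‖ - c * Real.log ‖(P N).eval w'‖ -
        (1 - c) * Real.log ‖a 0‖) atTop (𝓝 T) :=
      ((hconv w hfw).sub ((hconv w' hfw').const_mul c)).sub_const _
    have hLge : ENNReal.ofReal ((G r - T) * φ r) ≤ L r := by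
      have h2 : Tendsto (fun N => ENNReal.ofReal ((G r - (Real.log ‖(P N).eval w‖ -
          c * Real.log ‖(P N).eval w'‖ - (1 - c) * Real.log ‖a 0‖)) * φ r)) atTop
          (𝓝 (ENNReal.ofReal ((G r - T) * φ r))) :=
        (ENNReal.continuous_ofReal.tendsto _).comp ((hlim.const_sub (G r)).mul_const (φ r))
      rw [← h2.liminf_eq]
      refine liminf_le_liminf (Filter.Eventually.of_forall (fun N => ?_))
      apply ENNReal.ofReal_le_ofReal
      refine mul_le_mul_of_nonneg_right ?_ hφr.le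
      have h3 := hKe N r hr0 (hZ₁r r hr0 hrZ₁ N) w w' hw hw'
      rw [hP0, ← hc] at h3
      linarith
    have h4 : (G r - T) * φ r ≤ (L r).toReal := (ENNReal.ofReal_le_iff_le_toReal hLne).mp hLge
    have h5 : Kf r ≤ T := by
      have h6 : G r - T ≤ (L r).toReal * (φ r)⁻¹ := by
        rw [← div_eq_mul_inv, le_div_iff₀ hφr]
        exact h4
      rw [hKf]
      simp only
      linarith
    have e1 : Real.log ‖H w‖ = d * Real.log (r ^ q) + Real.log ‖f w‖ := by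
      rw [hHa w, norm_mul, norm_pow, hw, Real.log_mul (by positivity) (norm_ne_zero_iff.mpr hfw),
        Real.log_pow]
    have e2 : Real.log ‖H w'‖ = d * Real.log (r ^ q) + Real.log ‖f w'‖ := by
      rw [hHa w', norm_mul, norm_pow, hw', Real.log_mul (by positivity)
        (norm_ne_zero_iff.mpr hfw'), Real.log_pow]
    have h7 : 0 ≤ (1 - c) * (d * Real.log (r ^ q)) :=
      mul_nonneg (by linarith) (mul_nonneg (Nat.cast_nonneg _) (Real.log_nonneg hRq))
    have h8 : -((1 - c) * Real.log ‖a 0‖) ≤ E := by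
      have h9 : -Real.log ‖a 0‖ ≤ E := neg_le_abs _
      calc -((1 - c) * Real.log ‖a 0‖) = (1 - c) * -Real.log ‖a 0‖ := by ring
        _ ≤ (1 - c) * E := mul_le_mul_of_nonneg_left h9 (by linarith)
        _ ≤ 1 * E := mul_le_mul_of_nonneg_right (by linarith) hE0
        _ = E := one_mul _
    rw [e1, e2]
    rw [hT] at h5
    have h10 : c * (d * Real.log (r ^ q) + Real.log ‖f w'‖) =
        c * (d * Real.log (r ^ q)) + c * Real.log ‖f w'‖ := by ring
    have h11 : (1 - c) * (d * Real.log (r ^ q)) =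
        d * Real.log (r ^ q) - c * (d * Real.log (r ^ q)) := by ring
    rw [h10]
    rw [h11] at h7
    linarith

end Pool.Agent.LibPer37
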