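import Mathlib

/-! # Entire functions with exponents in few residue classes: definitions (helper37, MP_309e42_an Q2)

`q ≥ 1`, `ζ = exp (2πi/q)`, `rot f j` is the rotated function `z ↦ f (ζ^j z)`, `WS f s` is the Wronskian of
the functions `rot f (s 0), …, rot f (s (k-1))` and `Mx q f k z` is the maximum of `‖WS f s z‖` over all
`k`-tuples `s` of residues. -/

set_option autoImplicit false

open Filter Topology

namespace Pool.Agent.LibPer37

noncomputable section

/-- the Wronskian of `k` functions -/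
def Wr {k : ℕ} (u : Fin k → ℂ → ℂ) (z : ℂ) : ℂ :=
  (Matrix.of fun i a : Fin k => iteratedDeriv (a : ℕ) (u i) z).det

/-- append a function to a tuple of functions -/
def app {n : ℕ} (T : Fin n → ℂ → ℂ) (a : ℂ → ℂ) : Fin (n + 1) → ℂ → ℂ :=
  Fin.snoc (α := fun _ => ℂ → ℂ) T a

variable {q : ℕ} [NeZero q]

/-- the rotated function `z ↦ f (ζ^j z)`, `ζ = exp (2πi/q)` -/
def rot (f : ℂ → ℂ) (j : ZMod q) : ℂ → ℂ := fun z => f (ZMod.stdAddChar j * z)

/-- the Wronskian of rotated functions -/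
def WS (f : ℂ → ℂ) {k : ℕ} (s : Fin k → ZMod q) : ℂ → ℂ := Wr (fun i => rot f (s i))

variable (q) in
/-- the largest absolute value of a Wronskian of `k` rotated functions -/
def Mx (f : ℂ → ℂ) (k : ℕ) (z : ℂ) : ℝ :=
  Finset.univ.sup' Finset.univ_nonempty (fun s : Fin k → ZMod q => ‖WS f s z‖)

/-- the part of `f` with exponents `≡ c mod q` -/
def proj (f : ℂ → ℂ) (c : ZMod q) : ℂ → ℂ := fun z =>
  (q : ℂ)⁻¹ * ∑ j : ZMod q, ZMod.stdAddChar (-(j * c)) * f (ZMod.stdAddChar j * z)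

variable (q) in
/-- the circle of radius `r` is good: the Wronskians of at most `M + 1` rotated functions which do not
vanish identically have no zero on it and logarithmic derivative at most `r ^ C` -/
def Good (f : ℂ → ℂ) (M C : ℕ) (r : ℝ) : Prop :=
  ∀ k : ℕ, k ≤ M + 1 → ∀ s : Fin k → ZMod q, (∃ z, WS f s z ≠ 0) → ∀ z : ℂ, ‖z‖ = r →
    WS f s z ≠ 0 ∧ ‖deriv (WS f s) z‖ ≤ r ^ C * ‖WS f s z‖

variable (q) in
/-- `M` is the largest length of a tuple of rotated functions with nonvanishing Wronskian -/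
def Top (f : ℂ → ℂ) (M : ℕ) : Prop :=
  (∃ s : Fin M → ZMod q, ∃ z, WS f s z ≠ 0) ∧ ∀ s : Fin (M + 1) → ZMod q, ∀ z, WS f s z = 0

end

end Pool.Agent.LibPer37
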