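import Pool.Agent.LibPer37.Defs

/-! Further definitions and simple facts. -/

set_option autoImplicit false

open Filter Topology

namespace Pool.Agent.LibPer37

noncomputable section

variable {q : ℕ} [NeZero q]

/-- append a residue to a tuple of residues -/
def appZ {n : ℕ} (T : Fin n → ZMod q) (j : ZMod q) : Fin (n + 1) → ZMod q :=
  Fin.snoc (α := fun _ => ZMod q) T j

theorem rot_appZ (f : ℂ → ℂ) {n : ℕ} (T : Fin n → ZMod q) (j : ZMod q) :
    (fun i => rot f (appZ T j i)) = app (fun i => rot f (T i)) (rot f j) := by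
  funext i
  refine Fin.lastCases ?_ (fun i => ?_) i
  · simp [appZ, app]
  · simp [appZ, app]

theorem WS_appZ (f : ℂ → ℂ) {n : ℕ} (T : Fin n → ZMod q) (j : ZMod q) :
    WS f (appZ T j) = Wr (app (fun i => rot f (T i)) (rot f j)) := by
  unfold WS
  rw [rot_appZ]

theorem rot_differentiable {f : ℂ → ℂ} (hf : Differentiable ℂ f) (j : ZMod q) :
    Differentiable ℂ (rot f j) := by
  unfold rot
  fun_prop

theorem norm_WS_le_Mx (f : ℂ → ℂ) {k : ℕ} (s : Fin k → ZMod q) (z : ℂ) : ‖WS f s z‖ ≤ Mx q f k z :=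
  Finset.le_sup' (fun s : Fin k → ZMod q => ‖WS f s z‖) (Finset.mem_univ s)

theorem exists_Mx (f : ℂ → ℂ) (k : ℕ) (z : ℂ) : ∃ s : Fin k → ZMod q, ‖WS f s z‖ = Mx q f k z := by
  obtain ⟨s, -, hs⟩ := Finset.exists_mem_eq_sup' (Finset.univ_nonempty)
    (fun s : Fin k → ZMod q => ‖WS f s z‖)
  exact ⟨s, hs.symm⟩

theorem Mx_nonneg (f : ℂ → ℂ) (k : ℕ) (z : ℂ) : 0 ≤ Mx q f k z := by
  obtain ⟨s, hs⟩ := exists_Mx (q := q) f k z
  rw [← hs]
  exact norm_nonneg _

variable (q) in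
/-- the logarithm of the maximum of `Mx q f k` on the circle of radius `r` -/
def SS (f : ℂ → ℂ) (k : ℕ) (r : ℝ) : ℝ := Real.log (sSup (Mx q f k '' Metric.sphere 0 r))

variable (q) in
/-- the logarithm of the minimum of `Mx q f k` on the circle of radius `r` -/
def II (f : ℂ → ℂ) (k : ℕ) (r : ℝ) : ℝ := Real.log (sInf (Mx q f k '' Metric.sphere 0 r))

end

end Pool.Agent.LibPer37
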