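import Mathlib

/-! Task E01 (80-140 lines): finite factorization with count.

HINT.  Let `P N` be the statement: there are `a : Fin N → ℂ` with `0 < ‖a i‖ ≤ T` and an entire `g` with
`F z = (∏ i, (1 - z / a i)) * g z` for all `z`.  `P 0` holds with `g = F`.  If `P N` holds with `g` having a zero
`b` in the closed disc of radius `T` (`b ≠ 0` because `g 0 = F 0 ≠ 0`), then `g z = (1 - z/b) * g₁ z` with
`g₁ z = - b * dslope g b z`... (entire: `Differentiable` of `dslope`, `differentiableOn_dslope`) and `P (N+1)` holds.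
If `P N` holds then `2^N ‖F 0‖ ≤ B` where `B` bounds `F` on the circle `‖z‖ = 3T`: there `‖1 - z/a i‖ ≥ 2`,
so `‖g z‖ ≤ B / 2^N`, and `‖F 0‖ = ‖g 0‖ ≤ B / 2^N` by the maximum principle
(`Complex.norm_le_of_forall_mem_frontier_norm_le`).  So `N` is bounded; take the largest `N` with `P N`
(`Nat.findGreatest` or well-foundedness): the corresponding `g` has no zero in the closed disc. -/

set_option autoImplicit false

namespace Pool.Agent.LibPer37

theorem E01_div (g : ℂ → ℂ) (hg : Differentiable ℂ g) (b : ℂ) (hb : b ≠ 0) (h : g b = 0) :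
    ∃ g₁ : ℂ → ℂ, Differentiable ℂ g₁ ∧ ∀ z, g z = (1 - z / b) * g₁ z := by
  refine ⟨fun z => -b * dslope g b z, ?_, fun z => ?_⟩
  · have h1 : DifferentiableOn ℂ (dslope g b) Set.univ :=
      (Complex.differentiableOn_dslope Filter.univ_mem).mpr hg.differentiableOn
    exact (differentiableOn_univ.mp h1).const_mul _
  · have h1 := sub_smul_dslope g b z
    rw [h, sub_zero, smul_eq_mul] at h1
    rw [← h1]
    field_simp
    ring

/-- bound for the last factor -/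
theorem E01_bound (F : ℂ → ℂ) (T B : ℝ) (hT : 0 < T)
    (hB : ∀ z : ℂ, ‖z‖ = 3 * T → ‖F z‖ ≤ B) (N : ℕ) (a : Fin N → ℂ) (g : ℂ → ℂ)
    (ha : ∀ i, 0 < ‖a i‖ ∧ ‖a i‖ ≤ T) (hg : Differentiable ℂ g)
    (he : ∀ z, F z = (∏ i, (1 - z / a i)) * g z) (z : ℂ) (hz : ‖z‖ ≤ 3 * T) :
    ‖g z‖ ≤ B / 2 ^ N := by
  have hfr : ∀ w ∈ frontier (Metric.ball (0 : ℂ) (3 * T)), ‖g w‖ ≤ B / 2 ^ N := by
    intro w hw
    rw [frontier_ball _ (by positivity), mem_sphere_zero_iff_norm] at hw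
    have h1 := hB w hw
    rw [he w, norm_mul, norm_prod] at h1
    have h2 : (2 : ℝ) ^ N ≤ ∏ i : Fin N, ‖1 - w / a i‖ := by
      have : (2 : ℝ) ^ N = ∏ _i : Fin N, (2 : ℝ) := by simp
      rw [this]
      refine Finset.prod_le_prod (fun i _ => by norm_num) (fun i _ => ?_)
      have h3 : (3 : ℝ) ≤ ‖w / a i‖ := by
        rw [norm_div, hw, le_div_iff₀ (ha i).1]
        linarith [(ha i).2]
      have h4 := norm_sub_norm_le (w / a i) 1
      rw [norm_one] at h4
      rw [norm_sub_rev]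
      linarith
    rw [le_div_iff₀ (by positivity)]
    have h5 := mul_le_mul_of_nonneg_right h2 (norm_nonneg (g w))
    linarith
  have hcl : z ∈ closure (Metric.ball (0 : ℂ) (3 * T)) := by
    rw [closure_ball _ (by positivity)]
    simpa using hz
  exact Complex.norm_le_of_forall_mem_frontier_norm_le Metric.isBounded_ball
    hg.diffContOnCl hfr hcl

theorem E01_zero (F : ℂ → ℂ) (_h0 : F 0 ≠ 0) (N : ℕ) (a : Fin N → ℂ) (g : ℂ → ℂ)
    (he : ∀ z, F z = (∏ i, (1 - z / a i)) * g z) : g 0 = F 0 := by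
  rw [he 0]; simp

theorem factor (F : ℂ → ℂ) (hF : Differentiable ℂ F) (h0 : F 0 ≠ 0) (T B : ℝ) (hT : 0 < T)
    (hB : ∀ z : ℂ, ‖z‖ = 3 * T → ‖F z‖ ≤ B) :
    ∃ (N : ℕ) (a : Fin N → ℂ) (g : ℂ → ℂ), (∀ i, 0 < ‖a i‖ ∧ ‖a i‖ ≤ T) ∧ Differentiable ℂ g ∧
      (∀ z, F z = (∏ i, (1 - z / a i)) * g z) ∧ (∀ z : ℂ, ‖z‖ ≤ T → g z ≠ 0) ∧
      (∀ z : ℂ, ‖z‖ ≤ 3 * T → ‖g z‖ ≤ B) ∧ (2 : ℝ) ^ N * ‖F 0‖ ≤ B := by
  by_cases hex : ∃ (N : ℕ) (a : Fin N → ℂ) (g : ℂ → ℂ), (∀ i, 0 < ‖a i‖ ∧ ‖a i‖ ≤ T) ∧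
      Differentiable ℂ g ∧ (∀ z, F z = (∏ i, (1 - z / a i)) * g z) ∧ (∀ z : ℂ, ‖z‖ ≤ T → g z ≠ 0)
  · obtain ⟨N, a, g, ha, hg, he, hz⟩ := hex
    have hb := E01_bound F T B hT hB N a g ha hg he
    have hF0 : ‖F 0‖ ≤ B / 2 ^ N := by
      rw [← E01_zero F h0 N a g he]
      exact hb 0 (by simpa using (by positivity : (0 : ℝ) ≤ 3 * T))
    have h2 : (0 : ℝ) < 2 ^ N := by positivity
    have hB0 : 0 ≤ B := by
      have := (norm_nonneg (F 0)).trans hF0
      by_contra hneg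
      push Not at hneg
      have := div_neg_of_neg_of_pos hneg h2
      linarith
    refine ⟨N, a, g, ha, hg, he, hz, fun z hz' => (hb z hz').trans ?_, ?_⟩
    · exact div_le_self hB0 (one_le_pow₀ (by norm_num))
    · rw [le_div_iff₀ h2] at hF0
      linarith
  · exfalso
    push Not at hex
    have hall : ∀ N : ℕ, ∃ (a : Fin N → ℂ) (g : ℂ → ℂ), (∀ i, 0 < ‖a i‖ ∧ ‖a i‖ ≤ T) ∧
        Differentiable ℂ g ∧ (∀ z, F z = (∏ i, (1 - z / a i)) * g z) := by
      intro N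
      induction N with
      | zero => exact ⟨Fin.elim0, F, fun i => i.elim0, hF, fun z => by simp⟩
      | succ N ih =>
        obtain ⟨a, g, ha, hg, he⟩ := ih
        obtain ⟨b, hb, hgb⟩ := hex N a g ha hg he
        have hb0 : b ≠ 0 := by
          rintro rfl
          rw [E01_zero F h0 N a g he] at hgb
          exact h0 hgb
        obtain ⟨g₁, hg₁, he₁⟩ := E01_div g hg b hb0 hgb
        refine ⟨Fin.snoc a b, g₁, ?_, hg₁, fun z => ?_⟩
        · intro i
          refine Fin.lastCases ?_ (fun j => ?_) i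
          · simp only [Fin.snoc_last]
            exact ⟨norm_pos_iff.mpr hb0, hb⟩
          · simp only [Fin.snoc_castSucc]
            exact ha j
        · rw [Fin.prod_univ_castSucc]
          simp only [Fin.snoc_castSucc, Fin.snoc_last]
          rw [mul_assoc, ← he₁, he]
    have hF0 : 0 < ‖F 0‖ := norm_pos_iff.mpr h0
    obtain ⟨N, hN⟩ := pow_unbounded_of_one_lt (B / ‖F 0‖) (by norm_num : (1 : ℝ) < 2)
    obtain ⟨a, g, ha, hg, he⟩ := hall N
    have hb := E01_bound F T B hT hB N a g ha hg he 0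
      (by simpa using (by positivity : (0 : ℝ) ≤ 3 * T))
    rw [E01_zero F h0 N a g he, le_div_iff₀ (by positivity)] at hb
    rw [div_lt_iff₀ hF0] at hN
    linarith

end Pool.Agent.LibPer37
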