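import Pool.Agent.LibPer37.E01
import Pool.Agent.LibMaier.BC

/-! Task E02 (100-150 lines): minimum modulus off the zeros.

HINT.  Apply `factor` with `T = 4 R`: `F = ∏ (1 - z/a i) * g`, `‖g‖ ≤ B` for `‖z‖ ≤ 12 R`, `g` without zeros for
`‖z‖ ≤ 4R`, `2^N ‖F 0‖ ≤ B`.  Put `Q = log (B / ‖F 0‖) ≥ 0` (note `g 0 = F 0`).
`Pool.Agent.LibMaier.exists_log` on `ball 0 (4R)`: `g z = g 0 * exp (h z)`, `h 0 = 0`, `Re h ≤ Q`.
Borel-Caratheodory (`Complex.borelCaratheodory_zero`; it wants `Re h < M` or `≤ M` with `M > 0`: use `M = Q + 1`):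
for `‖z‖ ≤ 2R`: `‖h z‖ ≤ 2 (Q+1) ‖z‖ / (4R - ‖z‖) ≤ 2 (Q + 1)`.  So `‖g z‖ ≥ ‖F 0‖ exp (-2 (Q+1))`.
`‖1 - z/a i‖ ≥ |‖z‖ - ‖a i‖| / ‖a i‖ ≥ δ / (4R)`.  `N ≤ Q / log 2 ≤ 2 Q`.  Here `δ ≤ R` so `δ/(4R) < 1`. -/

set_option autoImplicit false

namespace Pool.Agent.LibPer37

theorem min_modulus (F : ℂ → ℂ) (hF : Differentiable ℂ F) (h0 : F 0 ≠ 0) (R B : ℝ) (hR : 0 < R)
    (hB : ∀ z : ℂ, ‖z‖ = 12 * R → ‖F z‖ ≤ B) :
    ∃ (N : ℕ) (a : Fin N → ℂ), (N : ℝ) ≤ 2 * Real.log (B / ‖F 0‖) ∧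
      (∀ z : ℂ, ‖z‖ ≤ 4 * R → F z = 0 → ∃ i, z = a i) ∧
      ∀ z : ℂ, ‖z‖ ≤ 2 * R → ∀ δ : ℝ, 0 < δ → δ ≤ R → (∀ i, δ ≤ |‖z‖ - ‖a i‖|) →
        ‖F 0‖ * Real.exp (-2 * (Real.log (B / ‖F 0‖) + 1)) * (δ / (4 * R)) ^ N ≤ ‖F z‖ := by
  have h4R : 0 < 4 * R := by positivity
  obtain ⟨N, a, g, ha, hg, hfac, hgne, hgB, h2N⟩ := factor F hF h0 (4 * R) B h4R
    (fun z hz => hB z (by rw [hz]; ring))
  have hF0 : 0 < ‖F 0‖ := norm_pos_iff.2 h0
  have hg0 : g 0 = F 0 := by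
    rw [hfac 0]
    simp
  have hBF : (2 : ℝ) ^ N ≤ B / ‖F 0‖ := by
    rw [le_div_iff₀ hF0]
    exact h2N
  have h2Npos : (0 : ℝ) < 2 ^ N := by positivity
  have hlogN : (N : ℝ) * Real.log 2 ≤ Real.log (B / ‖F 0‖) := by
    rw [← Real.log_pow]
    exact Real.log_le_log h2Npos hBF
  have hN0 : (0 : ℝ) ≤ N := by positivity
  have hQ0 : 0 ≤ Real.log (B / ‖F 0‖) :=
    le_trans (mul_nonneg hN0 (Real.log_nonneg (by norm_num))) hlogN
  refine ⟨N, a, ?_, ?_, ?_⟩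
  · have hl2 := Real.log_two_gt_d9
    nlinarith
  · intro z hz hFz
    rw [hfac z, mul_eq_zero] at hFz
    rcases hFz with h | h
    · rw [Finset.prod_eq_zero_iff] at h
      obtain ⟨i, -, hi⟩ := h
      refine ⟨i, ?_⟩
      have hai : a i ≠ 0 := norm_pos_iff.1 (ha i).1
      rw [sub_eq_zero, eq_div_iff hai, one_mul] at hi
      exact hi.symm
    · exact absurd h (hgne z hz)
  · intro z hz δ hδ hδR hai
    obtain ⟨h, hh0, hhd, -, hh2⟩ := Pool.Agent.LibMaier.exists_log h4R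
      (g := g) hg.differentiableOn (fun w hw => hgne w (by
        rw [mem_ball_zero_iff] at hw
        exact hw.le))
    have hmaps : Set.MapsTo h (Metric.ball 0 (4 * R))
        {w | w.re ≤ Real.log (B / ‖F 0‖) + 1} := by
      intro w hw
      have h1 : ‖g w‖ = ‖F 0‖ * Real.exp (h w).re := by
        rw [hh2 w hw, norm_mul, Complex.norm_exp, hg0]
      have hw' : ‖w‖ < 4 * R := by
        rwa [mem_ball_zero_iff] at hw
      have h2 : Real.exp (h w).re ≤ B / ‖F 0‖ := by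
        rw [le_div_iff₀ hF0, mul_comm, ← h1]
        exact hgB w (by linarith)
      have h3 : (h w).re ≤ Real.log (B / ‖F 0‖) := by
        rw [← Real.log_exp (h w).re]
        exact Real.log_le_log (Real.exp_pos _) h2
      show (h w).re ≤ Real.log (B / ‖F 0‖) + 1
      linarith
    have hzb : z ∈ Metric.ball (0 : ℂ) (4 * R) := by
      rw [mem_ball_zero_iff]
      linarith
    have hbc := Complex.borelCaratheodory_zero (by linarith) hhd hmaps h4R hzb hh0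
    have hbc2 : ‖h z‖ ≤ 2 * (Real.log (B / ‖F 0‖) + 1) := by
      refine hbc.trans ?_
      rw [div_le_iff₀ (by linarith)]
      refine mul_le_mul_of_nonneg_left ?_ (by linarith)
      linarith
    have hgz : ‖F 0‖ * Real.exp (-2 * (Real.log (B / ‖F 0‖) + 1)) ≤ ‖g z‖ := by
      rw [hh2 z hzb, norm_mul, Complex.norm_exp, hg0]
      refine mul_le_mul_of_nonneg_left (Real.exp_le_exp.2 ?_) hF0.le
      have := Complex.abs_re_le_norm (h z)
      rw [abs_le] at this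
      linarith [this.1]
    have hprod : (δ / (4 * R)) ^ N ≤ ‖∏ i, (1 - z / a i)‖ := by
      rw [norm_prod]
      have e1 : (δ / (4 * R)) ^ N = ∏ _i : Fin N, (δ / (4 * R)) := by
        rw [Finset.prod_const, Finset.card_univ, Fintype.card_fin]
      rw [e1]
      refine Finset.prod_le_prod (fun i _ => by positivity) fun i _ => ?_
      have hane : a i ≠ 0 := norm_pos_iff.1 (ha i).1
      have e2 : 1 - z / a i = (a i - z) / a i := by
        rw [sub_div, div_self hane]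
      rw [e2, norm_div]
      refine div_le_div₀ (norm_nonneg _) ?_ (ha i).1 (ha i).2
      refine (hai i).trans ?_
      rw [norm_sub_rev]
      exact abs_norm_sub_norm_le z (a i)
    rw [hfac z, norm_mul, mul_comm ‖∏ i, (1 - z / a i)‖]
    exact mul_le_mul hgz hprod (by positivity) (norm_nonneg _)

end Pool.Agent.LibPer37
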