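import Pool.Agent.LibPer37.E02

/-! Task E03 (120-200 lines): one function, exceptional set on a dyadic interval.

HINT.  `F` entire with `F 0 ≠ 0` and `‖F z‖ ≤ exp (‖z‖^A)` for `‖z‖ ≥ R₀` (`A ≥ 1` natural).  For `n` large put
`R = 2^(n+1)`, `B = exp ((12 R)^A)`, `δ = 2^(-(n * D))` with a natural `D` to be chosen (large depending on `A`, `b`), and
let `a : Fin N → ℂ` be as in `min_modulus`; `N ≤ C R^A`.  Let `E n` be the union of the `N` intervals
`(‖a i‖ - 2δ, ‖a i‖ + 2δ)` intersected with `[2^n, 2^(n+1)]`; its volume is at most `4 N δ ≤ 2^(-(n*b))` for `n` large.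
Let `2^n ≤ r ≤ 2^(n+1)`, `r ∉ E n`, `‖z‖ = r`.  Then `F` has no zero in the disc of radius `δ` about `z` (zeros there
have modulus `≤ 4R`, so are some `a i`, and `|r - ‖a i‖| < δ`), `‖F z‖ ≥ exp (-C' R^(A+1))` by `min_modulus`, and
`‖F‖ ≤ B` on the disc (maximum principle), so `Pool.Agent.LibMaier.logDeriv_le_of_ne_zero` applied to
`w ↦ F (z + w)` gives `‖F' z / F z‖ ≤ 2 log (B / ‖F z‖) / δ ≤ r^C`. -/

set_option autoImplicit false

open MeasureTheory

namespace Pool.Agent.LibPer37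

/-- the numerical estimate for the logarithmic derivative -/
theorem E03_num (n D A' : ℕ) (hn : 1 ≤ n) (Q P : ℝ) (hQ : Q ≤ 2 * P) (hP1 : 1 ≤ P)
    (hP : P ≤ 2 ^ ((n + 5) * A')) :
    2 * (3 * Q + 2 + 2 * (2 * P) * (n + 3 + n * D)) * 2 ^ (n * D) ≤
      ((2 : ℝ) ^ n) ^ (3 * D + 6 * A' + 18) := by
  have hn' : (1 : ℝ) ≤ n := by exact_mod_cast hn
  have hD : (0 : ℝ) ≤ D := by positivity
  have h1 : 3 * Q + 2 + 2 * (2 * P) * (n + 3 + n * D) ≤ 2 * P * (n * (12 + 2 * D)) := by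
    have h2 : 3 * Q + 2 ≤ 2 * P * 4 := by linarith
    have h3 : 2 * P * 4 + 2 * (2 * P) * (n + 3 + n * D) = 2 * P * (10 + 2 * n + 2 * n * D) := by
      ring
    have h4 : 10 + 2 * (n : ℝ) + 2 * n * D ≤ n * (12 + 2 * D) := by nlinarith
    calc 3 * Q + 2 + 2 * (2 * P) * (n + 3 + n * D)
        ≤ 2 * P * 4 + 2 * (2 * P) * (n + 3 + n * D) := by linarith
      _ = 2 * P * (10 + 2 * n + 2 * n * D) := h3
      _ ≤ 2 * P * (n * (12 + 2 * D)) := mul_le_mul_of_nonneg_left h4 (by positivity)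
  have h5 : (n : ℝ) ≤ 2 ^ n := by exact_mod_cast (Nat.lt_two_pow_self (n := n)).le
  have h6 : (12 + 2 * (D : ℝ)) ≤ 2 ^ (12 + 2 * D) := by
    exact_mod_cast (Nat.lt_two_pow_self (n := 12 + 2 * D)).le
  calc 2 * (3 * Q + 2 + 2 * (2 * P) * (n + 3 + n * D)) * 2 ^ (n * D)
      ≤ 2 * (2 * P * (n * (12 + 2 * D))) * 2 ^ (n * D) := by
        refine mul_le_mul_of_nonneg_right ?_ (by positivity)
        linarith
    _ ≤ 2 * (2 * 2 ^ ((n + 5) * A') * (2 ^ n * 2 ^ (12 + 2 * D))) * 2 ^ (n * D) := by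
        refine mul_le_mul_of_nonneg_right ?_ (by positivity)
        refine mul_le_mul_of_nonneg_left ?_ (by norm_num)
        refine mul_le_mul (by linarith) ?_ (by positivity) (by positivity)
        exact mul_le_mul h5 h6 (by positivity) (by positivity)
    _ = 2 ^ (2 + (n + 5) * A' + n + (12 + 2 * D) + n * D) := by
        rw [pow_add, pow_add, pow_add, pow_add]
        ring
    _ ≤ 2 ^ (n * (3 * D + 6 * A' + 18)) := by
        refine pow_le_pow_right₀ (by norm_num) ?_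
        nlinarith
    _ = ((2 : ℝ) ^ n) ^ (3 * D + 6 * A' + 18) := by rw [pow_mul]

theorem good_dyadic (F : ℂ → ℂ) (hF : Differentiable ℂ F) (h0 : F 0 ≠ 0) (A : ℕ) (R₀ : ℝ)
    (hgr : ∀ z : ℂ, R₀ ≤ ‖z‖ → ‖F z‖ ≤ Real.exp (‖z‖ ^ A)) (b : ℕ) :
    ∃ (C n₀ : ℕ), ∀ n : ℕ, n₀ ≤ n → ∃ E : Set ℝ, MeasurableSet E ∧
      volume E ≤ ENNReal.ofReal (2 ^ (-((n : ℝ) * b))) ∧
      ∀ r : ℝ, 2 ^ n ≤ r → r ≤ 2 ^ (n + 1) → r ∉ E → ∀ z : ℂ, ‖z‖ = r →
        F z ≠ 0 ∧ ‖deriv F z‖ ≤ r ^ C * ‖F z‖ := by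
  have hF0 : 0 < ‖F 0‖ := norm_pos_iff.2 h0
  obtain ⟨m, hm⟩ := exists_nat_gt (max (R₀ + 1) (|Real.log ‖F 0‖| + 1))
  have hm1 : R₀ + 1 < m := lt_of_le_of_lt (le_max_left _ _) hm
  have hm2 : |Real.log ‖F 0‖| + 1 < m := lt_of_le_of_lt (le_max_right _ _) hm
  set A' : ℕ := A + 1 with hA'
  set D : ℕ := b + 4 + 6 * A' with hD
  refine ⟨3 * D + 6 * A' + 18, m + 1, fun n hn => ?_⟩
  have hn1 : 1 ≤ n := by omega
  have hmn : (m : ℝ) ≤ 2 ^ n := by
    have h1 : m ≤ 2 ^ n := (show m ≤ n by omega).trans (Nat.lt_two_pow_self (n := n)).le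
    exact_mod_cast h1
  have h2n1 : (1 : ℝ) ≤ 2 ^ n := one_le_pow₀ (by norm_num)
  set R : ℝ := 2 ^ (n + 1) with hR
  have hR2 : R = 2 * 2 ^ n := by rw [hR, pow_succ]; ring
  have hR1 : 1 ≤ R := by rw [hR2]; linarith
  have hRpos : 0 < R := by linarith
  set P : ℝ := (12 * R) ^ A' with hP
  have hP12 : 12 * R ≤ P := by
    rw [hP, hA', pow_succ]
    have : (1 : ℝ) ≤ (12 * R) ^ A := one_le_pow₀ (by linarith)
    nlinarith
  have hP1 : 1 ≤ P := by linarith
  have hPle : P ≤ 2 ^ ((n + 5) * A') := by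
    rw [hP, pow_mul]
    refine pow_le_pow_left₀ (by positivity) ?_ _
    rw [hR2, show n + 5 = n + 1 + 4 by ring, pow_add, pow_add]
    norm_num
    nlinarith
  -- growth
  have hgrow : ∀ w : ℂ, R₀ ≤ ‖w‖ → ‖w‖ ≤ 12 * R → ‖F w‖ ≤ Real.exp P := by
    intro w hw1 hw2
    refine (hgr w hw1).trans (Real.exp_le_exp.2 ?_)
    calc ‖w‖ ^ A ≤ (12 * R) ^ A := pow_le_pow_left₀ (norm_nonneg _) hw2 _
      _ ≤ (12 * R) ^ A' := pow_le_pow_right₀ (by linarith) (by omega)
  obtain ⟨N, a, hN, hzero, hlow⟩ := min_modulus F hF h0 R (Real.exp P) hRpos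
    (fun z hz => hgrow z (by rw [hz]; linarith) (by rw [hz]))
  have hQ : Real.log (Real.exp P / ‖F 0‖) = P - Real.log ‖F 0‖ := by
    rw [Real.log_div (Real.exp_ne_zero _) hF0.ne', Real.log_exp]
  rw [hQ] at hN hlow
  set Q : ℝ := P - Real.log ‖F 0‖ with hQdef
  have habs := abs_le.1 (le_refl |Real.log ‖F 0‖|)
  have hQ2P : Q ≤ 2 * P := by
    have : -Real.log ‖F 0‖ ≤ |Real.log ‖F 0‖| := neg_le_abs _
    linarith
  have hN4P : (N : ℝ) ≤ 4 * P := by linarith
  -- the radius of the small discs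
  set δ : ℝ := ((2 : ℝ) ^ (n * D))⁻¹ with hδ
  have hδpos : 0 < δ := by positivity
  have hδ1 : δ ≤ 1 := inv_le_one_of_one_le₀ (one_le_pow₀ (by norm_num))
  refine ⟨⋃ i : Fin N, Set.Ioo (‖a i‖ - 2 * δ) (‖a i‖ + 2 * δ),
    MeasurableSet.iUnion fun i => measurableSet_Ioo, ?_, ?_⟩
  · -- the volume
    calc volume (⋃ i : Fin N, Set.Ioo (‖a i‖ - 2 * δ) (‖a i‖ + 2 * δ))
        ≤ ∑ i : Fin N, volume (Set.Ioo (‖a i‖ - 2 * δ) (‖a i‖ + 2 * δ)) :=
          measure_iUnion_fintype_le _ _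
      _ = ∑ _i : Fin N, ENNReal.ofReal (4 * δ) := by
          refine Finset.sum_congr rfl fun i _ => ?_
          rw [Real.volume_Ioo]
          congr 1
          ring
      _ = ENNReal.ofReal (N * (4 * δ)) := by
          rw [Finset.sum_const, Finset.card_univ, Fintype.card_fin, nsmul_eq_mul,
            ENNReal.ofReal_mul (p := (N : ℝ)) (by positivity), ENNReal.ofReal_natCast]
      _ ≤ ENNReal.ofReal (2 ^ (-((n : ℝ) * b))) := by
          refine ENNReal.ofReal_le_ofReal ?_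
          have e1 : (2 : ℝ) ^ (-((n : ℝ) * b)) = ((2 : ℝ) ^ (n * b))⁻¹ := by
            rw [Real.rpow_neg (by norm_num), ← Nat.cast_mul, Real.rpow_natCast]
          rw [e1, hδ]
          have e2 : (N : ℝ) * (4 * ((2 : ℝ) ^ (n * D))⁻¹) = (N * 4) / 2 ^ (n * D) := by
            rw [div_eq_mul_inv]
            ring
          rw [e2, div_le_iff₀ (by positivity), inv_mul_eq_div, le_div_iff₀ (by positivity)]
          calc (N : ℝ) * 4 * 2 ^ (n * b) ≤ (4 * 2 ^ ((n + 5) * A')) * 4 * 2 ^ (n * b) := by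
                refine mul_le_mul_of_nonneg_right ?_ (by positivity)
                linarith
            _ = 2 ^ ((n + 5) * A' + 4 + n * b) := by
                rw [pow_add, pow_add]
                ring
            _ ≤ 2 ^ (n * D) := by
                refine pow_le_pow_right₀ (by norm_num) ?_
                rw [hD]
                nlinarith
  · intro r hr1 hr2 hrE z hz
    have hfar : ∀ i, 2 * δ ≤ |‖z‖ - ‖a i‖| := by
      intro i
      by_contra hlt
      rw [not_le, abs_lt] at hlt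
      apply hrE
      rw [Set.mem_iUnion]
      refine ⟨i, ?_, ?_⟩
      · rw [hz] at hlt
        linarith [hlt.1]
      · rw [hz] at hlt
        linarith [hlt.2]
    have hz2R : ‖z‖ ≤ 2 * R := by
      rw [hz]
      linarith
    have hFz := hlow z hz2R δ hδpos (by linarith) fun i => by
      have := hfar i
      linarith
    have h4R : 0 < 4 * R := by positivity
    have hFzpos : 0 < ‖F z‖ := by
      refine lt_of_lt_of_le ?_ hFz
      have := Real.exp_pos (-2 * (Q + 1))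
      positivity
    have hFzne : F z ≠ 0 := norm_pos_iff.1 hFzpos
    refine ⟨hFzne, ?_⟩
    -- the small disc
    have hball : ∀ w ∈ Metric.ball (0 : ℂ) δ, F (z + w) ≠ 0 := by
      intro w hw hzw
      rw [mem_ball_zero_iff] at hw
      have h1 : ‖z + w‖ ≤ 4 * R := by
        refine (norm_add_le z w).trans ?_
        linarith
      obtain ⟨i, hi⟩ := hzero (z + w) h1 hzw
      have h2 := hfar i
      have h3 : |‖z‖ - ‖a i‖| ≤ ‖w‖ := by
        rw [← hi]
        refine (abs_norm_sub_norm_le z (z + w)).trans ?_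
        rw [sub_add_cancel_left, norm_neg]
      linarith
    have hballB : ∀ w ∈ Metric.ball (0 : ℂ) δ, ‖F (z + w)‖ ≤ Real.exp P := by
      intro w hw
      rw [mem_ball_zero_iff] at hw
      refine hgrow (z + w) ?_ ?_
      · have h1 : ‖z‖ - ‖w‖ ≤ ‖z + w‖ := by
          have := norm_sub_norm_le z (-w)
          rwa [norm_neg, sub_neg_eq_add] at this
        rw [hz] at h1
        linarith
      · refine (norm_add_le z w).trans ?_
        linarith
    have hdg : Differentiable ℂ (fun w => F (z + w)) := hF.comp (differentiable_id.const_add z)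
    have hlog := Pool.Agent.LibMaier.logDeriv_le_of_ne_zero hδpos (K := Real.exp P)
      (g := fun w => F (z + w)) hdg.differentiableOn hball hballB
    have hderiv : deriv (fun w => F (z + w)) 0 = deriv F z := by
      rw [deriv_comp_const_add, add_zero]
    rw [hderiv, add_zero, norm_div, div_le_iff₀ hFzpos] at hlog
    refine hlog.trans (mul_le_mul_of_nonneg_right ?_ (norm_nonneg _))
    -- the numerical estimate
    have hl1 : Real.log (Real.exp P / ‖F z‖) ≤ 3 * Q + 2 + 2 * (2 * P) * (n + 3 + n * D) := by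
      rw [Real.log_div (Real.exp_ne_zero _) hFzpos.ne', Real.log_exp]
      have h1 : Real.log (‖F 0‖ * Real.exp (-2 * (Q + 1)) * (δ / (4 * R)) ^ N) ≤
          Real.log ‖F z‖ :=
        Real.log_le_log (by
          have := Real.exp_pos (-2 * (Q + 1))
          positivity) hFz
      rw [Real.log_mul (by
          have := Real.exp_pos (-2 * (Q + 1))
          positivity) (by positivity), Real.log_mul hF0.ne' (Real.exp_ne_zero _), Real.log_exp,
        Real.log_pow] at h1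
      have h2 : -((n : ℝ) + 3 + n * D) ≤ Real.log (δ / (4 * R)) := by
        have e1 : δ / (4 * R) = ((2 : ℝ) ^ (n + 3 + n * D))⁻¹ := by
          rw [hδ, hR, pow_add, pow_add, pow_add]
          field_simp
          norm_num
        rw [e1, Real.log_inv, Real.log_pow]
        have hl2 : Real.log 2 ≤ 1 := by
          have := Real.log_two_lt_d9
          linarith
        have h3 : ((n + 3 + n * D : ℕ) : ℝ) * Real.log 2 ≤ ((n + 3 + n * D : ℕ) : ℝ) * 1 :=
          mul_le_mul_of_nonneg_left hl2 (by positivity)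
        push_cast at h3 ⊢
        linarith
      have h3 : (N : ℝ) * -((n : ℝ) + 3 + n * D) ≤ N * Real.log (δ / (4 * R)) :=
        mul_le_mul_of_nonneg_left h2 (by positivity)
      have h4 : (N : ℝ) * ((n : ℝ) + 3 + n * D) ≤ 4 * P * ((n : ℝ) + 3 + n * D) :=
        mul_le_mul_of_nonneg_right hN4P (by positivity)
      linarith
    have hnum := E03_num n D A' hn1 Q P hQ2P hP1 hPle
    calc 2 * Real.log (Real.exp P / ‖F z‖) / δ
        = 2 * Real.log (Real.exp P / ‖F z‖) * 2 ^ (n * D) := by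
          rw [hδ, div_inv_eq_mul]
      _ ≤ 2 * (3 * Q + 2 + 2 * (2 * P) * (n + 3 + n * D)) * 2 ^ (n * D) := by
          refine mul_le_mul_of_nonneg_right ?_ (by positivity)
          linarith
      _ ≤ ((2 : ℝ) ^ n) ^ (3 * D + 6 * A' + 18) := hnum
      _ ≤ r ^ (3 * D + 6 * A' + 18) := pow_le_pow_left₀ (by positivity) hr1 _

end Pool.Agent.LibPer37
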