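import Pool.Agent.LibPer37.E03

/-! Task E04: the exceptional set for finitely many functions. -/

set_option autoImplicit false

open MeasureTheory Filter

namespace Pool.Agent.LibPer37

/-- splitting off the zero at the origin -/
theorem E04_factor (F : ℂ → ℂ) (hF : Differentiable ℂ F) (hne : ∃ z, F z ≠ 0) :
    ∃ (d : ℕ) (G : ℂ → ℂ), Differentiable ℂ G ∧ G 0 ≠ 0 ∧ ∀ z, F z = z ^ d * G z := by
  have han : AnalyticAt ℂ F 0 := hF.analyticAt 0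
  have hnz : ¬ ∀ᶠ z in nhds (0 : ℂ), F z = 0 := by
    intro h
    obtain ⟨z, hz⟩ := hne
    apply hz
    have hfa : AnalyticOnNhd ℂ F Set.univ := fun x _ => hF.analyticAt x
    have hfe := AnalyticOnNhd.eq_of_eventuallyEq hfa (analyticOnNhd_const (v := (0 : ℂ))) h
    rw [hfe]
  obtain ⟨d, g, hg, hg0, hFg⟩ := (han.exists_eventuallyEq_pow_smul_nonzero_iff).2 hnz
  simp only [sub_zero, smul_eq_mul] at hFg
  refine ⟨d, fun z => if z = 0 then g 0 else F z / z ^ d, ?_, ?_, ?_⟩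
  · intro z
    by_cases hz : z = 0
    · subst hz
      refine hg.differentiableAt.congr_of_eventuallyEq ?_
      filter_upwards [hFg] with w hw
      by_cases hw0 : w = 0
      · subst hw0
        simp
      · rw [if_neg hw0, hw]
        field_simp
    · have h1 : DifferentiableAt ℂ (fun w => F w / w ^ d) z :=
        (hF z).div (differentiableAt_id.pow d) (pow_ne_zero d hz)
      refine h1.congr_of_eventuallyEq ?_
      filter_upwards [isOpen_ne.mem_nhds hz] with w hw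
      exact if_neg hw
  · simpa using hg0
  · intro z
    by_cases hz : z = 0
    · subst hz
      show F 0 = 0 ^ d * (if (0 : ℂ) = 0 then g 0 else F 0 / 0 ^ d)
      rw [if_pos rfl]
      exact hFg.self_of_nhds
    · show F z = z ^ d * (if z = 0 then g 0 else F z / z ^ d)
      rw [if_neg hz]
      field_simp

theorem E04_one (F : ℂ → ℂ) (hF : Differentiable ℂ F) (hne : ∃ z, F z ≠ 0) (ρ : ℝ)
    (hgr : ∀ᶠ r : ℝ in atTop, ∀ z : ℂ, ‖z‖ = r → ‖F z‖ ≤ Real.exp (r ^ ρ)) (b : ℕ) :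
    ∃ (C n₀ : ℕ), ∀ n : ℕ, n₀ ≤ n → ∃ E : Set ℝ, MeasurableSet E ∧
      volume E ≤ ENNReal.ofReal (2 ^ (-((n : ℝ) * b))) ∧
      ∀ r : ℝ, 2 ^ n ≤ r → r ≤ 2 ^ (n + 1) → r ∉ E → ∀ z : ℂ, ‖z‖ = r →
        F z ≠ 0 ∧ ‖deriv F z‖ ≤ r ^ C * ‖F z‖ := by
  obtain ⟨d, G, hG, hG0, hFG⟩ := E04_factor F hF hne
  obtain ⟨A, hA⟩ := exists_nat_gt ρ
  obtain ⟨R, hR⟩ := eventually_atTop.1 hgr
  have hgrG : ∀ z : ℂ, max R 1 ≤ ‖z‖ → ‖G z‖ ≤ Real.exp (‖z‖ ^ A) := by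
    intro z hz
    have h1 : 1 ≤ ‖z‖ := (le_max_right _ _).trans hz
    have h2 : ‖G z‖ ≤ ‖F z‖ := by
      rw [hFG z, norm_mul, norm_pow]
      exact le_mul_of_one_le_left (norm_nonneg _) (one_le_pow₀ h1)
    refine h2.trans ((hR ‖z‖ ((le_max_left _ _).trans hz) z rfl).trans ?_)
    rw [Real.exp_le_exp, ← Real.rpow_natCast]
    exact Real.rpow_le_rpow_of_exponent_le h1 hA.le
  obtain ⟨C, n₀, h⟩ := good_dyadic G hG hG0 A (max R 1) hgrG b
  refine ⟨C + d + 1, max n₀ 1, ?_⟩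
  intro n hn
  obtain ⟨E, hE1, hE2, hE3⟩ := h n ((le_max_left _ _).trans hn)
  refine ⟨E, hE1, hE2, ?_⟩
  intro r hr1 hr2 hrE z hz
  obtain ⟨h3, h4⟩ := hE3 r hr1 hr2 hrE z hz
  have hn1 : 1 ≤ n := (le_max_right _ _).trans hn
  have hr : (2 : ℝ) ≤ r := by
    refine le_trans ?_ hr1
    calc (2 : ℝ) = 2 ^ 1 := by norm_num
      _ ≤ 2 ^ n := pow_le_pow_right₀ (by norm_num) hn1
  have hz0 : z ≠ 0 := by
    rw [← norm_pos_iff, hz]
    linarith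
  have hFn : ‖F z‖ = r ^ d * ‖G z‖ := by
    rw [hFG z, norm_mul, norm_pow, hz]
  refine ⟨?_, ?_⟩
  · rw [hFG z]
    exact mul_ne_zero (pow_ne_zero d hz0) h3
  · have hder : deriv F z = d * z ^ (d - 1) * G z + z ^ d * deriv G z := by
      have h5 : HasDerivAt F (d * z ^ (d - 1) * G z + z ^ d * deriv G z) z := by
        have h6 : F = fun z => z ^ d * G z := funext hFG
        rw [h6]
        exact (hasDerivAt_pow d z).mul (hG z).hasDerivAt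
      exact h5.deriv
    have hGn : 0 ≤ ‖G z‖ := norm_nonneg _
    have h7 : ‖deriv F z‖ ≤ d * r ^ (d - 1) * ‖G z‖ + r ^ d * (r ^ C * ‖G z‖) := by
      rw [hder]
      refine (norm_add_le _ _).trans ?_
      rw [norm_mul, norm_mul, norm_mul, norm_pow, norm_pow, hz, Complex.norm_natCast]
      exact add_le_add le_rfl (mul_le_mul_of_nonneg_left h4 (by positivity))
    have h8 : r ^ (d - 1) ≤ r ^ d := pow_le_pow_right₀ (by linarith) (by omega)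
    have h9 : (d : ℝ) + r ^ C ≤ r ^ (C + d + 1) := by
      have h10 : (1 : ℝ) ≤ r ^ C := one_le_pow₀ (by linarith)
      have h11 : (d : ℝ) + 1 ≤ r ^ (d + 1) := by
        have h12 : (d : ℝ) + 1 ≤ 2 ^ (d + 1) := by
          have := (Nat.lt_two_pow_self (n := d + 1)).le
          exact_mod_cast this
        refine h12.trans ?_
        exact pow_le_pow_left₀ (by norm_num) hr _
      have h13 : r ^ (C + d + 1) = r ^ C * r ^ (d + 1) := by
        rw [← pow_add]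
        rfl
      rw [h13]
      have h14 : r ^ C * ((d : ℝ) + 1) ≤ r ^ C * r ^ (d + 1) :=
        mul_le_mul_of_nonneg_left h11 (by linarith)
      have h15 : (0 : ℝ) ≤ d := Nat.cast_nonneg d
      nlinarith
    calc ‖deriv F z‖ ≤ d * r ^ (d - 1) * ‖G z‖ + r ^ d * (r ^ C * ‖G z‖) := h7
      _ ≤ d * r ^ d * ‖G z‖ + r ^ d * (r ^ C * ‖G z‖) := by
          have : (d : ℝ) * r ^ (d - 1) * ‖G z‖ ≤ d * r ^ d * ‖G z‖ :=
            mul_le_mul_of_nonneg_right (mul_le_mul_of_nonneg_left h8 (Nat.cast_nonneg d)) hGn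
          linarith
      _ = (d + r ^ C) * (r ^ d * ‖G z‖) := by ring
      _ ≤ r ^ (C + d + 1) * (r ^ d * ‖G z‖) :=
          mul_le_mul_of_nonneg_right h9 (by positivity)
      _ = r ^ (C + d + 1) * ‖F z‖ := by rw [hFn]

theorem E04_pow (n b : ℕ) : (2 : ℝ) ^ (-((n : ℝ) * b)) = ((1 / 2 : ℝ) ^ b) ^ n := by
  rw [Real.rpow_neg (by norm_num), ← Nat.cast_mul, Real.rpow_natCast, ← pow_mul, one_div, inv_pow,
    mul_comm]

theorem E04_dyadic (r : ℝ) (N : ℕ) (h : (2 : ℝ) ^ N ≤ r) :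
    ∃ m : ℕ, N ≤ m ∧ (2 : ℝ) ^ m ≤ r ∧ r < 2 ^ (m + 1) := by
  have h1 : (1 : ℝ) ≤ r := (one_le_pow₀ (by norm_num : (1 : ℝ) ≤ 2)).trans h
  obtain ⟨m, hm1, hm2⟩ := exists_nat_pow_near h1 (by norm_num : (1 : ℝ) < 2)
  refine ⟨m, ?_, hm1, hm2⟩
  have h2 : (2 : ℝ) ^ N < 2 ^ (m + 1) := lt_of_le_of_lt h hm2
  have h3 := (pow_lt_pow_iff_right₀ (by norm_num : (1 : ℝ) < 2)).1 h2
  omega

theorem E04_tsum (x : ℝ) (hx0 : 0 ≤ x) (hx : x ≤ 1 / 2) (m K : ℕ) :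
    ∑' j : ℕ, (K : ENNReal) * ENNReal.ofReal (x ^ (m + j)) ≤ ENNReal.ofReal (K * (2 * x ^ m)) := by
  have h1 : ∀ j : ℕ, (K : ENNReal) * ENNReal.ofReal (x ^ (m + j)) ≤
      ENNReal.ofReal (K * x ^ m * (1 / 2) ^ j) := by
    intro j
    rw [← ENNReal.ofReal_natCast, ← ENNReal.ofReal_mul (Nat.cast_nonneg K)]
    refine ENNReal.ofReal_le_ofReal ?_
    rw [pow_add, mul_assoc]
    refine mul_le_mul_of_nonneg_left ?_ (Nat.cast_nonneg K)
    exact mul_le_mul_of_nonneg_left (pow_le_pow_left₀ hx0 hx j) (pow_nonneg hx0 m)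
  refine (ENNReal.tsum_le_tsum h1).trans ?_
  have h2 : Summable fun j : ℕ => (K : ℝ) * x ^ m * (1 / 2) ^ j :=
    summable_geometric_two.mul_left _
  rw [← ENNReal.ofReal_tsum_of_nonneg (fun j => by positivity) h2, tsum_mul_left,
    tsum_geometric_two]
  refine ENNReal.ofReal_le_ofReal (le_of_eq ?_)
  ring

theorem E04_final (K b m : ℕ) (hm : 1 + K + b ≤ m) (r : ℝ) (hr : 0 < r) (hr2 : r < 2 ^ (m + 1)) :
    (K : ℝ) * (2 * ((1 / 2 : ℝ) ^ (b + 1)) ^ m) ≤ r ^ (-(b : ℝ)) := by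
  have h1 : (((2 : ℝ) ^ (m + 1)) ^ b)⁻¹ ≤ r ^ (-(b : ℝ)) := by
    rw [Real.rpow_neg hr.le, Real.rpow_natCast]
    exact inv_anti₀ (pow_pos hr b) (pow_le_pow_left₀ hr.le hr2.le b)
  refine le_trans ?_ h1
  have h2 : (((2 : ℝ) ^ (m + 1)) ^ b)⁻¹ = (1 / 2) ^ (b * m) * (1 / 2) ^ b := by
    rw [← pow_mul, ← pow_add, one_div, inv_pow]
    congr 2
    ring
  have h3 : ((1 / 2 : ℝ) ^ (b + 1)) ^ m = (1 / 2) ^ (b * m) * (1 / 2) ^ m := by
    rw [← pow_mul, ← pow_add]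
    congr 1
    ring
  rw [h2, h3]
  have h4 : (K : ℝ) * (2 * (1 / 2) ^ m) ≤ (1 / 2) ^ b := by
    have h5 : (1 / 2 : ℝ) ^ m ≤ (1 / 2) ^ (1 + K + b) :=
      pow_le_pow_of_le_one (by norm_num) (by norm_num) hm
    have h6 : (K : ℝ) * (1 / 2) ^ K ≤ 1 := by
      have h7 : (K : ℝ) ≤ 2 ^ K := by exact_mod_cast (Nat.lt_two_pow_self (n := K)).le
      rw [one_div, inv_pow, ← div_eq_mul_inv, div_le_one (by positivity)]
      exact h7
    calc (K : ℝ) * (2 * (1 / 2) ^ m) ≤ K * (2 * (1 / 2) ^ (1 + K + b)) := by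
          gcongr
      _ = (K * (1 / 2) ^ K) * (1 / 2) ^ b := by
          rw [pow_add, pow_add]
          ring
      _ ≤ 1 * (1 / 2) ^ b := mul_le_mul_of_nonneg_right h6 (by positivity)
      _ = (1 / 2) ^ b := one_mul _
  calc (K : ℝ) * (2 * ((1 / 2) ^ (b * m) * (1 / 2) ^ m)) =
        (1 / 2) ^ (b * m) * (K * (2 * (1 / 2) ^ m)) := by ring
    _ ≤ (1 / 2) ^ (b * m) * (1 / 2) ^ b := mul_le_mul_of_nonneg_left h4 (by positivity)

theorem good_set {ι : Type} [Finite ι] (F : ι → ℂ → ℂ) (hF : ∀ i, Differentiable ℂ (F i))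
    (hne : ∀ i, ∃ z, F i z ≠ 0) (ρ : ℝ)
    (hgr : ∀ i, ∀ᶠ r : ℝ in atTop, ∀ z : ℂ, ‖z‖ = r → ‖F i z‖ ≤ Real.exp (r ^ ρ)) (b : ℕ) :
    ∃ (C : ℕ) (R₁ : ℝ) (E : Set ℝ), 1 ≤ R₁ ∧ MeasurableSet E ∧
      (∀ r₁ : ℝ, R₁ ≤ r₁ → volume (E ∩ Set.Ici r₁) ≤ ENNReal.ofReal (r₁ ^ (-(b : ℝ)))) ∧
      ∀ r : ℝ, R₁ ≤ r → r ∉ E → ∀ i, ∀ z : ℂ, ‖z‖ = r →
        F i z ≠ 0 ∧ ‖deriv (F i) z‖ ≤ r ^ C * ‖F i z‖ := by
  classical
  cases nonempty_fintype ι
  choose C n₀ h using fun i => E04_one (F i) (hF i) (hne i) ρ (hgr i) (b + 1)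
  have h' : ∀ (i : ι) (n : ℕ), ∃ E : Set ℝ, MeasurableSet E ∧
      (n₀ i ≤ n → volume E ≤ ENNReal.ofReal (2 ^ (-((n : ℝ) * ((b + 1 : ℕ) : ℝ)))) ∧
      ∀ r : ℝ, 2 ^ n ≤ r → r ≤ 2 ^ (n + 1) → r ∉ E → ∀ z : ℂ, ‖z‖ = r →
        F i z ≠ 0 ∧ ‖deriv (F i) z‖ ≤ r ^ C i * ‖F i z‖) := by
    intro i n
    by_cases hn : n₀ i ≤ n
    · obtain ⟨E, h1, h2, h3⟩ := h i n hn
      exact ⟨E, h1, fun _ => ⟨h2, h3⟩⟩
    · exact ⟨∅, MeasurableSet.empty, fun h => absurd h hn⟩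
  choose E hEm hE using h'
  set K : ℕ := Fintype.card ι with hK
  set N : ℕ := Finset.univ.sup n₀ + (1 + K + b) with hN
  have hNn : ∀ (i : ι) (n : ℕ), N ≤ n → n₀ i ≤ n := by
    intro i n hn
    have : n₀ i ≤ Finset.univ.sup n₀ := Finset.le_sup (Finset.mem_univ i)
    omega
  set D : ℕ → Set ℝ := fun n => (⋃ i, E i n) ∩ Set.Ico (2 ^ n) (2 ^ (n + 1)) with hD
  have hDm : ∀ n, MeasurableSet (D n) := fun n =>
    (MeasurableSet.iUnion fun i => hEm i n).inter measurableSet_Ico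
  refine ⟨Finset.univ.sup C, 2 ^ N, ⋃ j : ℕ, D (N + j), one_le_pow₀ (by norm_num),
    MeasurableSet.iUnion fun j => hDm _, ?_, ?_⟩
  · intro r₁ hr₁
    obtain ⟨m, hm1, hm2, hm3⟩ := E04_dyadic r₁ N hr₁
    have hsub : (⋃ j : ℕ, D (N + j)) ∩ Set.Ici r₁ ⊆ ⋃ j : ℕ, D (m + j) := by
      rintro x ⟨hx1, hx2⟩
      obtain ⟨j, hj⟩ := Set.mem_iUnion.1 hx1
      have hx3 : x < 2 ^ (N + j + 1) := hj.2.2
      have hx4 : r₁ ≤ x := hx2
      have h4 : (2 : ℝ) ^ m < 2 ^ (N + j + 1) := lt_of_le_of_lt (hm2.trans hx4) hx3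
      have h5 := (pow_lt_pow_iff_right₀ (by norm_num : (1 : ℝ) < 2)).1 h4
      refine Set.mem_iUnion.2 ⟨N + j - m, ?_⟩
      have h6 : m + (N + j - m) = N + j := by omega
      rw [h6]
      exact hj
    refine (measure_mono hsub).trans ((measure_iUnion_le _).trans ?_)
    have hx : ((1 / 2 : ℝ) ^ (b + 1)) ≤ 1 / 2 := by
      calc ((1 / 2 : ℝ) ^ (b + 1)) ≤ (1 / 2) ^ 1 :=
            pow_le_pow_of_le_one (by norm_num) (by norm_num) (by omega)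
        _ = 1 / 2 := pow_one _
    have hDv : ∀ j : ℕ, volume (D (m + j)) ≤
        (K : ENNReal) * ENNReal.ofReal (((1 / 2 : ℝ) ^ (b + 1)) ^ (m + j)) := by
      intro j
      refine (measure_mono Set.inter_subset_left).trans ((measure_iUnion_fintype_le _ _).trans ?_)
      have h4 : ∀ i ∈ (Finset.univ : Finset ι), volume (E i (m + j)) ≤
          ENNReal.ofReal (((1 / 2 : ℝ) ^ (b + 1)) ^ (m + j)) := by
        intro i _
        rw [← E04_pow]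
        exact (hE i (m + j) (hNn i _ (by omega))).1
      refine (Finset.sum_le_card_nsmul _ _ _ h4).trans (le_of_eq ?_)
      rw [nsmul_eq_mul, Finset.card_univ]
    refine (ENNReal.tsum_le_tsum hDv).trans ((E04_tsum _ (by positivity) hx m K).trans ?_)
    refine ENNReal.ofReal_le_ofReal ?_
    refine E04_final K b m (by omega) r₁ ?_ hm3
    exact lt_of_lt_of_le (by positivity) hm2
  · intro r hr hrE i z hz
    obtain ⟨m, hm1, hm2, hm3⟩ := E04_dyadic r N hr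
    have hrE' : r ∉ E i m := by
      intro hmem
      apply hrE
      refine Set.mem_iUnion.2 ⟨m - N, ?_⟩
      have h6 : N + (m - N) = m := by omega
      rw [h6]
      exact ⟨Set.mem_iUnion.2 ⟨i, hmem⟩, hm2, hm3⟩
    obtain ⟨h4, h5⟩ := (hE i m (hNn i m hm1)).2 r hm2 hm3.le hrE' z hz
    refine ⟨h4, h5.trans ?_⟩
    refine mul_le_mul_of_nonneg_right ?_ (norm_nonneg _)
    have h6 : (1 : ℝ) ≤ r := (one_le_pow₀ (by norm_num : (1 : ℝ) ≤ 2)).trans hm2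
    exact pow_le_pow_right₀ h6 (Finset.le_sup (Finset.mem_univ i))

end Pool.Agent.LibPer37
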