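import Mathlib

/-! Task G01: the final integration (real analysis). -/

set_option autoImplicit false

open MeasureTheory Set

namespace Pool.Agent.LibPer37

theorem G01_log_le (β : ℝ) (hβ : 0 < β) (r₁ r : ℝ) (h1 : 0 < r₁) (h : r₁ ≤ r) :
    (1 + Real.log r) * r ^ (-1 - β) ≤
      (1 + Real.log r₁) * r ^ (-1 - β) + (2 / β * r₁ ^ (-(β / 2))) * r ^ (-1 - β / 2) := by
  have hr : 0 < r := lt_of_lt_of_le h1 h
  have h2 : Real.log r = Real.log r₁ + Real.log (r / r₁) := by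
    rw [Real.log_div hr.ne' h1.ne']
    ring
  have h3 : Real.log (r / r₁) ≤ (r / r₁) ^ (β / 2) / (β / 2) :=
    Real.log_le_rpow_div (div_pos hr h1).le (by positivity)
  have h4 : (r / r₁) ^ (β / 2) = r ^ (β / 2) * r₁ ^ (-(β / 2)) := by
    rw [Real.div_rpow hr.le h1.le, Real.rpow_neg h1.le, div_eq_mul_inv]
  have h5 : r ^ (-1 - β / 2) = r ^ (β / 2) * r ^ (-1 - β) := by
    rw [← Real.rpow_add hr]
    congr 1
    ring
  have h6 : 0 < r ^ (-1 - β) := Real.rpow_pos_of_pos hr _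
  rw [h5, h2]
  have h7 : Real.log (r / r₁) ≤ 2 / β * r₁ ^ (-(β / 2)) * r ^ (β / 2) := by
    refine h3.trans (le_of_eq ?_)
    rw [h4]
    field_simp
  nlinarith [mul_le_mul_of_nonneg_right h7 h6.le]

theorem final_real (β : ℝ) (hβ : 0 < β) (Φ S : ℝ → ℝ) (E : Set ℝ) (hE : MeasurableSet E) (b : ℕ)
    (hb : β ≤ b) (R₁ : ℝ) (hR : 1 ≤ R₁)
    (hvol : ∀ r₁ : ℝ, R₁ ≤ r₁ → volume (E ∩ Ici r₁) ≤ ENNReal.ofReal (r₁ ^ (-(b : ℝ))))
    (hint : ∀ r₁ : ℝ, R₁ ≤ r₁ → IntegrableOn (fun r => Φ r * r ^ (-1 - β)) (Ioi r₁))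
    (hpos : ∀ r₁ : ℝ, R₁ ≤ r₁ → 0 ≤ ∫ r in Ioi r₁, Φ r * r ^ (-1 - β))
    (hS0 : ∀ r : ℝ, R₁ ≤ r → 0 ≤ S r) (hSm : ∀ r s : ℝ, R₁ ≤ r → r ≤ s → S r ≤ S s)
    (δ C : ℝ) (hδ : 0 < δ) (h1 : ∀ r : ℝ, R₁ ≤ r → Φ r ≤ C * r ^ β)
    (h2 : ∀ r : ℝ, R₁ ≤ r → r ∉ E → Φ r ≤ -δ * S r + C * (1 + Real.log r)) :
    ∃ C₂ R₂ : ℝ, ∀ r : ℝ, R₂ ≤ r → S r ≤ C₂ * (1 + Real.log r) := by
  refine ⟨|C| * (1 + 1 / β + 4 / β ^ 2) * 2 ^ (2 + β) / δ, max R₁ 2, ?_⟩
  intro r₁ hr₁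
  have hrR : R₁ ≤ r₁ := (le_max_left _ _).trans hr₁
  have hr2 : (2 : ℝ) ≤ r₁ := (le_max_right _ _).trans hr₁
  have hr0 : 0 < r₁ := by linarith
  have hlog : 0 ≤ Real.log r₁ := Real.log_nonneg (by linarith)
  have hb1 : (1 : ℝ) ≤ b := by
    have : 0 < b := by
      rcases Nat.eq_zero_or_pos b with h | h
      · subst h
        simp at hb
        linarith
      · exact h
    exact_mod_cast this
  -- the volumes
  have hvE : volume (E ∩ Ioi r₁) ≤ ENNReal.ofReal (r₁ ^ (-(b : ℝ))) :=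
    (measure_mono (inter_subset_inter_right E Ioi_subset_Ici_self)).trans (hvol r₁ hrR)
  have hvEfin : volume (E ∩ Ioi r₁) ≠ ⊤ := ne_top_of_le_ne_top ENNReal.ofReal_ne_top hvE
  have hvEr : (volume (E ∩ Ioi r₁)).toReal ≤ r₁ ^ (-(b : ℝ)) :=
    ENNReal.toReal_le_of_le_ofReal (Real.rpow_nonneg hr0.le _) hvE
  have hrb : r₁ ^ (-(b : ℝ)) ≤ 1 / 2 := by
    have h3 : r₁ ^ (-(b : ℝ)) ≤ r₁ ^ (-1 : ℝ) :=
      Real.rpow_le_rpow_of_exponent_le (by linarith) (by linarith)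
    have h4 : r₁ ^ (-1 : ℝ) ≤ 1 / 2 := by
      rw [Real.rpow_neg_one, inv_eq_one_div]
      exact one_div_le_one_div_of_le (by norm_num) hr2
    linarith
  have hrbβ : r₁ ^ (-(b : ℝ)) ≤ r₁ ^ (-β) :=
    Real.rpow_le_rpow_of_exponent_le (by linarith) (by linarith)
  set W : Set ℝ := Ioc r₁ (2 * r₁) \ E with hW
  have hWm : MeasurableSet W := measurableSet_Ioc.diff hE
  have hWfin : volume W ≠ ⊤ := by
    refine ne_top_of_le_ne_top ?_ (measure_mono (sdiff_subset : W ⊆ Ioc r₁ (2 * r₁)))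
    rw [Real.volume_Ioc]
    exact ENNReal.ofReal_ne_top
  have hWvol : r₁ / 2 ≤ (volume W).toReal := by
    have h3 : volume (Ioc r₁ (2 * r₁)) ≤ volume W + volume (E ∩ Ioi r₁) := by
      refine (measure_mono ?_).trans (measure_union_le _ _)
      intro x hx
      by_cases hxE : x ∈ E
      · exact Or.inr ⟨hxE, hx.1⟩
      · exact Or.inl ⟨hx, hxE⟩
    have h4 : (volume (Ioc r₁ (2 * r₁))).toReal ≤ (volume W).toReal + (volume (E ∩ Ioi r₁)).toReal := by
      rw [← ENNReal.toReal_add hWfin hvEfin]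
      exact ENNReal.toReal_mono (ENNReal.add_ne_top.2 ⟨hWfin, hvEfin⟩) h3
    rw [Real.volume_Ioc, ENNReal.toReal_ofReal (by linarith)] at h4
    linarith
  -- the majorant
  have hp1 : (-1 - β) < -1 := by linarith
  have hp2 : (-1 - β / 2) < -1 := by linarith
  have hi1 : IntegrableOn (fun r : ℝ => r ^ (-1 - β)) (Ioi r₁) := integrableOn_Ioi_rpow_of_lt hp1 hr0
  have hi2 : IntegrableOn (fun r : ℝ => r ^ (-1 - β / 2)) (Ioi r₁) :=
    integrableOn_Ioi_rpow_of_lt hp2 hr0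
  have hi3 : IntegrableOn (E.indicator fun _ : ℝ => |C|) (Ioi r₁) := by
    rw [IntegrableOn, integrable_indicator_iff hE, IntegrableOn, Measure.restrict_restrict hE]
    exact integrableOn_const hvEfin
  have hi4 : IntegrableOn (W.indicator fun _ : ℝ => (δ * S r₁ * (2 * r₁) ^ (-1 - β))) (Ioi r₁) := by
    rw [IntegrableOn, integrable_indicator_iff hWm, IntegrableOn, Measure.restrict_restrict hWm]
    refine integrableOn_const ?_
    exact ne_top_of_le_ne_top hWfin (measure_mono inter_subset_left)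
  have hWI : W ∩ Ioi r₁ = W := by
    refine inter_eq_left.2 ?_
    intro x hx
    exact hx.1.1
  set c1 : ℝ := |C| * (1 + Real.log r₁) with hc1
  set c2 : ℝ := |C| * (2 / β * r₁ ^ (-(β / 2))) with hc2
  have hS1 : 0 ≤ S r₁ := hS0 r₁ hrR
  have hi5 : IntegrableOn (fun r : ℝ => c1 * r ^ (-1 - β) + c2 * r ^ (-1 - β / 2)) (Ioi r₁) :=
    (hi1.const_mul c1).add (hi2.const_mul c2)
  have hi6 : IntegrableOn (fun r : ℝ => E.indicator (fun _ : ℝ => |C|) r +
      (c1 * r ^ (-1 - β) + c2 * r ^ (-1 - β / 2))) (Ioi r₁) := hi3.add hi5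
  have key : ∫ r in Ioi r₁, Φ r * r ^ (-1 - β) ≤
      ∫ r in Ioi r₁, (E.indicator (fun _ : ℝ => |C|) r + (c1 * r ^ (-1 - β) + c2 * r ^ (-1 - β / 2)) -
        W.indicator (fun _ : ℝ => (δ * S r₁ * (2 * r₁) ^ (-1 - β))) r) := by
    refine setIntegral_mono_on (hint r₁ hrR)
      (hi6.sub hi4) measurableSet_Ioi ?_
    intro r hr
    have hr' : r₁ < r := hr
    have hrpos : 0 < r := by linarith
    have hlr : 0 ≤ Real.log r := Real.log_nonneg (by linarith)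
    have hpw : 0 < r ^ (-1 - β) := Real.rpow_pos_of_pos hrpos _
    have hpw2 : 0 < r ^ (-1 - β / 2) := Real.rpow_pos_of_pos hrpos _
    have hc1' : 0 ≤ c1 * r ^ (-1 - β) := by positivity
    have hc2' : 0 ≤ c2 * r ^ (-1 - β / 2) := by positivity
    by_cases hrE : r ∈ E
    · rw [indicator_of_mem hrE, indicator_of_notMem (fun h => h.2 hrE)]
      have h3 : Φ r * r ^ (-1 - β) ≤ |C| := by
        calc Φ r * r ^ (-1 - β) ≤ (C * r ^ β) * r ^ (-1 - β) :=
              mul_le_mul_of_nonneg_right (h1 r (hrR.trans hr'.le)) hpw.le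
          _ = C * r ^ (-1 : ℝ) := by
              rw [mul_assoc, ← Real.rpow_add hrpos]
              congr 2
              ring
          _ ≤ |C| * r ^ (-1 : ℝ) :=
              mul_le_mul_of_nonneg_right (le_abs_self C) (Real.rpow_nonneg hrpos.le _)
          _ ≤ |C| * 1 := by
              refine mul_le_mul_of_nonneg_left ?_ (abs_nonneg C)
              rw [Real.rpow_neg_one]
              exact inv_le_one_of_one_le₀ (by linarith)
          _ = |C| := mul_one _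
      linarith
    · rw [indicator_of_notMem hrE]
      have h3 := h2 r (hrR.trans hr'.le) hrE
      have h4 : C * (1 + Real.log r) ≤ |C| * (1 + Real.log r) :=
        mul_le_mul_of_nonneg_right (le_abs_self C) (by linarith)
      have h5 : |C| * ((1 + Real.log r) * r ^ (-1 - β)) ≤
          c1 * r ^ (-1 - β) + c2 * r ^ (-1 - β / 2) := by
        have := mul_le_mul_of_nonneg_left (G01_log_le β hβ r₁ r hr0 hr'.le) (abs_nonneg C)
        rw [hc1, hc2]
        linarith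
      have h6 : Φ r * r ^ (-1 - β) ≤
          -(δ * S r * r ^ (-1 - β)) + (c1 * r ^ (-1 - β) + c2 * r ^ (-1 - β / 2)) := by
        calc Φ r * r ^ (-1 - β) ≤ (-δ * S r + |C| * (1 + Real.log r)) * r ^ (-1 - β) :=
              mul_le_mul_of_nonneg_right (by linarith) hpw.le
          _ = -(δ * S r * r ^ (-1 - β)) + |C| * ((1 + Real.log r) * r ^ (-1 - β)) := by ring
          _ ≤ _ := by linarith
      by_cases hrW : r ∈ W
      · rw [indicator_of_mem hrW]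
        have h7 : r ≤ 2 * r₁ := hrW.1.2
        have h8 : (2 * r₁) ^ (-1 - β) ≤ r ^ (-1 - β) :=
          Real.rpow_le_rpow_of_nonpos hrpos h7 (by linarith)
        have h9 : S r₁ ≤ S r := hSm r₁ r hrR hr'.le
        have h10 : δ * S r₁ * (2 * r₁) ^ (-1 - β) ≤ δ * S r * r ^ (-1 - β) := by
          have : 0 ≤ (2 * r₁) ^ (-1 - β) := Real.rpow_nonneg (by linarith) _
          have h11 : δ * S r₁ ≤ δ * S r := mul_le_mul_of_nonneg_left h9 hδ.le
          have h12 : 0 ≤ δ * S r₁ := by positivity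
          exact mul_le_mul h11 h8 this (h12.trans h11)
        linarith
      · rw [indicator_of_notMem hrW]
        have h9 : 0 ≤ S r := hS0 r (hrR.trans hr'.le)
        have : 0 ≤ δ * S r * r ^ (-1 - β) := by positivity
        linarith
  have hcomp : ∫ r in Ioi r₁, (E.indicator (fun _ : ℝ => |C|) r + (c1 * r ^ (-1 - β) + c2 * r ^ (-1 - β / 2)) -
        W.indicator (fun _ : ℝ => (δ * S r₁ * (2 * r₁) ^ (-1 - β))) r) =
      |C| * (volume (E ∩ Ioi r₁)).toReal + (c1 * (r₁ ^ (-β) / β) + c2 * (r₁ ^ (-(β / 2)) / (β / 2))) -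
        δ * S r₁ * (2 * r₁) ^ (-1 - β) * (volume W).toReal := by
    rw [integral_sub hi6 hi4, integral_add hi3 hi5,
      integral_add (hi1.const_mul c1) (hi2.const_mul c2), integral_const_mul, integral_const_mul,
      integral_Ioi_rpow_of_lt hp1 hr0, integral_Ioi_rpow_of_lt hp2 hr0,
      integral_indicator hE, integral_indicator hWm, Measure.restrict_restrict hE,
      Measure.restrict_restrict hWm, hWI, setIntegral_const, setIntegral_const]
    have e1 : (-1 - β + 1) = -β := by ring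
    have e2 : (-1 - β / 2 + 1) = -(β / 2) := by ring
    rw [e1, e2, smul_eq_mul, smul_eq_mul, neg_div_neg_eq, neg_div_neg_eq, Measure.real, Measure.real]
    ring
  have h0 := (hpos r₁ hrR).trans key
  rw [hcomp] at h0
  -- final computation
  have hrβ : 0 < r₁ ^ (-β) := Real.rpow_pos_of_pos hr0 _
  have e3 : r₁ ^ (-(β / 2)) * r₁ ^ (-(β / 2)) = r₁ ^ (-β) := by
    rw [← Real.rpow_add hr0]
    congr 1
    ring
  have e4 : (2 * r₁) ^ (-1 - β) = 2 ^ (-1 - β) * (r₁ ^ (-β) / r₁) := by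
    rw [Real.mul_rpow (by norm_num) hr0.le]
    congr 1
    rw [div_eq_mul_inv, ← Real.rpow_neg_one r₁, ← Real.rpow_add hr0]
    congr 1
    ring
  have hA : |C| * (volume (E ∩ Ioi r₁)).toReal ≤ |C| * r₁ ^ (-β) :=
    mul_le_mul_of_nonneg_left (hvEr.trans hrbβ) (abs_nonneg C)
  have hB : c2 * (r₁ ^ (-(β / 2)) / (β / 2)) = |C| * r₁ ^ (-β) * (4 / β ^ 2) := by
    rw [hc2, ← e3]
    field_simp
    ring
  have hD : δ * S r₁ * (2 * r₁) ^ (-1 - β) * (r₁ / 2) ≤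
      δ * S r₁ * (2 * r₁) ^ (-1 - β) * (volume W).toReal := by
    refine mul_le_mul_of_nonneg_left hWvol ?_
    have : 0 ≤ (2 * r₁) ^ (-1 - β) := Real.rpow_nonneg (by linarith) _
    positivity
  have hD' : δ * S r₁ * (2 * r₁) ^ (-1 - β) * (r₁ / 2) =
      r₁ ^ (-β) * (δ * S r₁ * 2 ^ (-1 - β) / 2) := by
    rw [e4]
    field_simp
  have hF : r₁ ^ (-β) * (δ * S r₁ * 2 ^ (-1 - β) / 2) ≤
      r₁ ^ (-β) * (|C| * (1 + Real.log r₁) * (1 + 1 / β + 4 / β ^ 2)) := by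
    have h3 : |C| * r₁ ^ (-β) + (c1 * (r₁ ^ (-β) / β) + |C| * r₁ ^ (-β) * (4 / β ^ 2)) ≤
        r₁ ^ (-β) * (|C| * (1 + Real.log r₁) * (1 + 1 / β + 4 / β ^ 2)) := by
      have e5 : r₁ ^ (-β) * (|C| * (1 + Real.log r₁) * (1 + 1 / β + 4 / β ^ 2)) -
          (|C| * r₁ ^ (-β) + (c1 * (r₁ ^ (-β) / β) + |C| * r₁ ^ (-β) * (4 / β ^ 2))) =
          r₁ ^ (-β) * |C| * Real.log r₁ * (1 + 4 / β ^ 2) := by
        rw [hc1]
        ring
      have : 0 ≤ r₁ ^ (-β) * |C| * Real.log r₁ * (1 + 4 / β ^ 2) := by positivity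
      linarith
    rw [hB] at h0
    linarith
  have hG := le_of_mul_le_mul_left hF hrβ
  have e6 : (2 : ℝ) ^ (-1 - β) * 2 ^ (2 + β) = 2 := by
    rw [← Real.rpow_add (by norm_num)]
    have : (-1 - β + (2 + β)) = 1 := by ring
    rw [this, Real.rpow_one]
  have h2p : (0 : ℝ) < 2 ^ (2 + β) := Real.rpow_pos_of_pos (by norm_num) _
  have hH := mul_le_mul_of_nonneg_right hG h2p.le
  have e7 : δ * S r₁ * 2 ^ (-1 - β) / 2 * 2 ^ (2 + β) = δ * S r₁ := by
    calc δ * S r₁ * 2 ^ (-1 - β) / 2 * 2 ^ (2 + β) = δ * S r₁ / 2 * (2 ^ (-1 - β) * 2 ^ (2 + β)) := by ring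
      _ = δ * S r₁ := by rw [e6]; ring
  rw [e7] at hH
  have e8 : |C| * (1 + 1 / β + 4 / β ^ 2) * 2 ^ (2 + β) / δ * (1 + Real.log r₁) =
      (|C| * (1 + Real.log r₁) * (1 + 1 / β + 4 / β ^ 2) * 2 ^ (2 + β)) / δ := by
    ring
  rw [e8, le_div_iff₀ hδ]
  linarith

end Pool.Agent.LibPer37
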