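import Pool.Agent.LibAV71.MaxMod

/-! Task G02: polynomials. -/

set_option autoImplicit false

open Filter Topology

namespace Pool.Agent.LibPer37

open Pool.Agent.LibAV71

theorem G02_small (c A C₂ : ℝ) (n : ℕ) (hn : C₂ < n) (R₂ : ℝ)
    (h : ∀ r : ℝ, R₂ ≤ r → 1 ≤ r → c * r ^ n ≤ A * r ^ C₂) : c ≤ 0 := by
  have ht : Tendsto (fun r : ℝ => A * r ^ (-((n : ℝ) - C₂))) atTop (𝓝 (A * 0)) :=
    (tendsto_rpow_neg_atTop (by linarith)).const_mul A
  rw [mul_zero] at ht
  refine ge_of_tendsto ht ?_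
  filter_upwards [eventually_ge_atTop R₂, eventually_ge_atTop (1 : ℝ)] with r h1 h2
  have h3 := h r h1 h2
  have hr : 0 < r := by linarith
  have h4 : A * r ^ (-((n : ℝ) - C₂)) = A * r ^ C₂ / r ^ n := by
    rw [neg_sub, Real.rpow_sub hr, Real.rpow_natCast, mul_div_assoc]
  rw [h4, le_div_iff₀ (pow_pos hr n)]
  exact h3

theorem poly_of_growth (f : ℂ → ℂ) (hf : Differentiable ℂ f) (C₂ R₂ : ℝ)
    (h : ∀ r : ℝ, R₂ ≤ r → Real.log (MM f r) ≤ C₂ * (1 + Real.log r)) :
    ∃ P : Polynomial ℂ, ∀ z, f z = P.eval z := by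
  by_cases hnc : ∃ z w : ℂ, f z ≠ f w
  · obtain ⟨N, hN⟩ := exists_nat_gt C₂
    have hcoef : ∀ n : ℕ, N ≤ n → iteratedDeriv n f 0 / (n.factorial : ℂ) = 0 := by
      intro n hn
      have hn' : C₂ < n := lt_of_lt_of_le hN (by exact_mod_cast hn)
      rw [← norm_le_zero_iff]
      refine G02_small _ (Real.exp C₂) C₂ n hn' R₂ ?_
      intro r hr1 hr2
      have hr : 0 < r := by linarith
      have hMM : 0 < MM f r := MM_pos hf hnc hr
      refine (cauchy_le hf n r hr).trans ?_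
      have h1 := h r hr1
      rw [← Real.exp_log hMM]
      calc Real.exp (Real.log (MM f r)) ≤ Real.exp (C₂ * (1 + Real.log r)) := Real.exp_le_exp.2 h1
        _ = Real.exp C₂ * r ^ C₂ := by
          rw [Real.rpow_def_of_pos hr, ← Real.exp_add]
          congr 1
          ring
    refine ⟨∑ n ∈ Finset.range N, Polynomial.C (iteratedDeriv n f 0 / (n.factorial : ℂ)) *
      Polynomial.X ^ n, ?_⟩
    intro z
    rw [Polynomial.eval_finsetSum]
    have h1 := taylor_hasSum hf z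
    have h2 : HasSum (fun n : ℕ => (iteratedDeriv n f 0 / (n.factorial : ℂ)) * z ^ n)
        (∑ n ∈ Finset.range N, (iteratedDeriv n f 0 / (n.factorial : ℂ)) * z ^ n) := by
      refine hasSum_sum_of_ne_finset_zero ?_
      intro n hn
      rw [Finset.mem_range, not_lt] at hn
      rw [hcoef n hn, zero_mul]
    rw [h1.unique h2]
    refine Finset.sum_congr rfl ?_
    intro n _
    simp
  · push Not at hnc
    refine ⟨Polynomial.C (f 0), ?_⟩
    intro z
    rw [Polynomial.eval_C]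
    exact hnc z 0

theorem G02_bounds (P : Polynomial ℂ) (hP : 0 < P.natDegree) :
    ∀ᶠ r : ℝ in atTop, ∀ z : ℂ, ‖z‖ = r →
      ‖P.leadingCoeff‖ * r ^ P.natDegree / 2 ≤ ‖P.eval z‖ ∧
      ‖P.eval z‖ ≤ 2 * (‖P.leadingCoeff‖ * r ^ P.natDegree) := by
  set d := P.natDegree with hd
  set K : ℝ := ∑ i ∈ Finset.range d, ‖P.coeff i‖ with hK
  have hK0 : 0 ≤ K := Finset.sum_nonneg fun i _ => norm_nonneg _
  have hP0 : P ≠ 0 := by
    intro h0
    rw [hd, h0, Polynomial.natDegree_zero] at hP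
    exact absurd hP (lt_irrefl 0)
  have ha : 0 < ‖P.leadingCoeff‖ := by
    rw [norm_pos_iff]
    exact Polynomial.leadingCoeff_ne_zero.2 hP0
  filter_upwards [eventually_ge_atTop (1 : ℝ), eventually_ge_atTop (2 * K / ‖P.leadingCoeff‖)]
    with r hr1 hr2 z hz
  have hr : 0 < r := by linarith
  have h1 : P.eval z = (∑ i ∈ Finset.range d, P.coeff i * z ^ i) + P.leadingCoeff * z ^ d := by
    rw [Polynomial.eval_eq_sum_range, Finset.sum_range_succ]
    rfl
  have h2 : ‖∑ i ∈ Finset.range d, P.coeff i * z ^ i‖ ≤ K * r ^ (d - 1) := by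
    rw [hK, Finset.sum_mul]
    refine (norm_sum_le _ _).trans (Finset.sum_le_sum ?_)
    intro i hi
    rw [Finset.mem_range] at hi
    rw [norm_mul, norm_pow, hz]
    refine mul_le_mul_of_nonneg_left ?_ (norm_nonneg _)
    exact pow_le_pow_right₀ hr1 (by omega)
  have h3 : K * r ^ (d - 1) ≤ ‖P.leadingCoeff‖ * r ^ d / 2 := by
    have h4 : r ^ d = r ^ (d - 1) * r := by
      rw [← pow_succ]
      congr 1
      omega
    rw [div_le_iff₀ ha] at hr2
    rw [h4]
    have h5 : 0 < r ^ (d - 1) := pow_pos hr _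
    nlinarith
  have h4 : ‖P.leadingCoeff * z ^ d‖ = ‖P.leadingCoeff‖ * r ^ d := by
    rw [norm_mul, norm_pow, hz]
  constructor
  · have h5 : ‖P.leadingCoeff * z ^ d‖ - ‖∑ i ∈ Finset.range d, P.coeff i * z ^ i‖ ≤ ‖P.eval z‖ := by
      rw [h1, add_comm]
      exact norm_sub_le_norm_add _ _
    linarith
  · have h5 : ‖P.eval z‖ ≤ ‖∑ i ∈ Finset.range d, P.coeff i * z ^ i‖ + ‖P.leadingCoeff * z ^ d‖ := by
      rw [h1]
      exact norm_add_le _ _
    have h6 : 0 ≤ ‖P.leadingCoeff‖ * r ^ d := by positivity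
    linarith

theorem poly_min (P : Polynomial ℂ) (hP : 0 < P.natDegree) (κ : ℝ) (hκ : κ < 1) :
    ∀ᶠ r : ℝ in atTop, ∀ z : ℂ, ‖z‖ = r → MM (fun z => P.eval z) r ^ κ ≤ ‖P.eval z‖ := by
  set κ' : ℝ := max κ 0 with hκ'
  have hk0 : 0 ≤ κ' := le_max_right _ _
  have hk1 : κ' < 1 := max_lt hκ zero_lt_one
  have hP0 : P ≠ 0 := by
    rintro rfl
    simp at hP
  have ha : 0 < ‖P.leadingCoeff‖ := by
    rw [norm_pos_iff]
    exact Polynomial.leadingCoeff_ne_zero.2 hP0
  have hT : Tendsto (fun r : ℝ => ‖P.leadingCoeff‖ * r ^ P.natDegree) atTop atTop :=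
    (tendsto_pow_atTop hP.ne').const_mul_atTop ha
  have hT2 : Tendsto (fun r : ℝ => (‖P.leadingCoeff‖ * r ^ P.natDegree) ^ (1 - κ')) atTop atTop :=
    (tendsto_rpow_atTop (by linarith)).comp hT
  have hf : Differentiable ℂ (fun z : ℂ => P.eval z) := P.differentiable
  filter_upwards [G02_bounds P hP, hT.eventually_ge_atTop 2, eventually_gt_atTop (0 : ℝ),
    hT2.eventually_ge_atTop (2 * 2 ^ κ')] with r h1 h2 h3 h4 z hz
  set T : ℝ := ‖P.leadingCoeff‖ * r ^ P.natDegree with hTdef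
  have hTpos : 0 < T := by linarith
  obtain ⟨w, hw1, hw2⟩ := exists_eq_MM hf r h3.le
  have h5 : MM (fun z => P.eval z) r ≤ 2 * T := by
    rw [← hw2]
    exact (h1 w hw1).2
  have h6 : 1 ≤ MM (fun z => P.eval z) r := by
    rw [← hw2]
    refine le_trans ?_ (h1 w hw1).1
    linarith
  calc MM (fun z => P.eval z) r ^ κ ≤ MM (fun z => P.eval z) r ^ κ' :=
        Real.rpow_le_rpow_of_exponent_le h6 (le_max_left _ _)
    _ ≤ (2 * T) ^ κ' := Real.rpow_le_rpow (by linarith) h5 hk0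
    _ = 2 ^ κ' * T ^ κ' := Real.mul_rpow (by norm_num) hTpos.le
    _ ≤ T / 2 := by
        have h7 : T = T ^ (1 - κ') * T ^ κ' := by
          rw [← Real.rpow_add hTpos]
          have : (1 - κ' + κ') = 1 := by ring
          rw [this, Real.rpow_one]
        have h8 : 0 < T ^ κ' := Real.rpow_pos_of_pos hTpos _
        have h9 := mul_le_mul_of_nonneg_right h4 h8.le
        rw [← h7] at h9
        linarith
    _ ≤ ‖P.eval z‖ := (h1 z hz).1

end Pool.Agent.LibPer37
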