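import Pool.Agent.LibPer37.B01
import Pool.Agent.LibAV71.MaxMod

/-! Task G03 (30-60 lines): `SS q f 1 r = log M(r, f)`.

HINT.  `Mx q f 1 z` is the maximum of the `‖f (ζ^j z)‖` (`Mx_one`), so the maximum of `Mx q f 1` over the circle
`‖z‖ = r` is the maximum of `‖f‖` over it.  `Pool.Agent.LibAV71.MM`, `exists_eq_MM`, `norm_le_MM`. -/

set_option autoImplicit false

namespace Pool.Agent.LibPer37

variable {q : ℕ} [NeZero q]

theorem SS_one {f : ℂ → ℂ} (hf : Differentiable ℂ f) (r : ℝ) (hr : 0 ≤ r) :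
    SS q f 1 r = Real.log (Pool.Agent.LibAV71.MM f r) := by
  have hle : ∀ z : ℂ, ‖z‖ = r → Mx q f 1 z ≤ Pool.Agent.LibAV71.MM f r := by
    intro z hz
    obtain ⟨j, hj⟩ := (Mx_one (q := q) f z).2
    rw [hj]
    have h1 : ‖(ZMod.stdAddChar j : ℂ) * z‖ = r := by
      rw [norm_mul, norm_char, one_mul, hz]
    rw [← h1]
    exact Pool.Agent.LibAV71.norm_le_MM hf _
  obtain ⟨w, hw, he⟩ := Pool.Agent.LibAV71.exists_eq_MM hf r hr
  have hge : Pool.Agent.LibAV71.MM f r ≤ Mx q f 1 w := by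
    rw [← he]
    have h1 := (Mx_one (q := q) f w).1 0
    have h2 : rot f (0 : ZMod q) w = f w := by
      unfold rot
      rw [AddChar.map_zero_eq_one, one_mul]
    rw [h2] at h1
    exact h1
  have hgr : IsGreatest (Mx q f 1 '' Metric.sphere 0 r) (Pool.Agent.LibAV71.MM f r) := by
    constructor
    · exact ⟨w, by simpa using hw, le_antisymm (hle w hw) hge⟩
    · rintro _ ⟨z, hz, rfl⟩
      exact hle z (by simpa using hz)
  unfold SS
  rw [hgr.csSup_eq]

end Pool.Agent.LibPer37
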