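import Pool.Agent.LibPer37.C05
import Pool.Agent.LibPer37.C06
import Pool.Agent.LibPer37.D03

/-! Task G04: one level. -/

set_option autoImplicit false

open MeasureTheory Set Filter

namespace Pool.Agent.LibPer37

variable {q : ℕ} [NeZero q]

theorem G04_extrema {f : ℂ → ℂ} (hf : Differentiable ℂ f) (k : ℕ) (r : ℝ) (hr : 0 ≤ r) :
    ∃ z₁ z₂ : ℂ, ‖z₁‖ = r ∧ ‖z₂‖ = r ∧ II q f k r = Real.log (Mx q f k z₁) ∧
      SS q f k r = Real.log (Mx q f k z₂) ∧ Mx q f k z₁ ≤ Mx q f k z₂ := by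
  have hcomp : IsCompact (Metric.sphere (0 : ℂ) r) := isCompact_sphere 0 r
  have hne : (Metric.sphere (0 : ℂ) r).Nonempty := NormedSpace.sphere_nonempty.2 hr
  have hcont : ContinuousOn (Mx q f k) (Metric.sphere (0 : ℂ) r) := (Mx_continuous hf k).continuousOn
  obtain ⟨z₁, h1, e1⟩ := hcomp.exists_sInf_image_eq hne hcont
  obtain ⟨z₂, h2, e2⟩ := hcomp.exists_sSup_image_eq hne hcont
  refine ⟨z₁, z₂, by simpa using h1, by simpa using h2, ?_, ?_, ?_⟩
  · rw [II, e1]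
  · rw [SS, e2]
  · rw [← e2]
    exact le_csSup (hcomp.bddAbove_image hcont) ⟨z₁, h1, rfl⟩

/-- the averaging step: `N` indices with the bound `x`, the others with the bound `y` -/
theorem G04_average (t₀ N : ℕ) (ht : 0 < t₀) (κ : Fin t₀ → ℝ) (B : Finset (Fin t₀)) (hB : B.card = N)
    (x y L : ℝ) (hx : ∀ i, κ i ≤ x + L) (hy : ∀ i, i ∉ B → κ i ≤ y + L) :
    (1 / (t₀ : ℝ)) * ∑ i, κ i ≤ (1 - (N : ℝ) / t₀) * y + (N : ℝ) / t₀ * x + L := by
  have ht' : (0 : ℝ) < t₀ := by exact_mod_cast ht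
  have h1 : ∑ i, κ i ≤ N * (x + L) + (t₀ - N) * (y + L) := by
    rw [← Finset.sum_add_sum_compl B]
    refine add_le_add ?_ ?_
    · refine (Finset.sum_le_card_nsmul B κ (x + L) fun i _ => hx i).trans (le_of_eq ?_)
      rw [nsmul_eq_mul, hB]
    · refine (Finset.sum_le_card_nsmul Bᶜ κ (y + L) fun i hi => hy i (Finset.mem_compl.1 hi)).trans
        (le_of_eq ?_)
      have hle : B.card ≤ t₀ := by simpa using B.card_le_univ
      rw [nsmul_eq_mul, Finset.card_compl, Fintype.card_fin, Nat.cast_sub hle, hB]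
  calc (1 / (t₀ : ℝ)) * ∑ i, κ i ≤ (1 / (t₀ : ℝ)) * (N * (x + L) + (t₀ - N) * (y + L)) :=
        mul_le_mul_of_nonneg_left h1 (by positivity)
    _ = (1 - (N : ℝ) / t₀) * y + (N : ℝ) / t₀ * x + L := by
        field_simp
        ring

theorem level {f : ℂ → ℂ} (hf : Differentiable ℂ f) (k : ℕ)
    (hne : ∃ s : Fin k → ZMod q, ∃ z, WS f s z ≠ 0) (ρ σ : ℝ) (hρ : 0 < ρ) (hρσ : ρ < q * σ)
    (hσ : σ < 1 / 2)
    (hgr : ∀ᶠ r : ℝ in atTop, ∀ z : ℂ, ‖z‖ = r → ‖f z‖ ≤ Real.exp (r ^ ρ))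
    (N t₀ : ℕ) (hN : q ^ k ≤ N) (ht : N ≤ t₀) :
    ∃ (H : Fin t₀ → ℂ → ℂ) (K : ℝ → ℝ) (C : ℝ) (Z : Set ℝ), 0 ≤ C ∧ MeasurableSet Z ∧
      volume Z = 0 ∧ (∀ i, Differentiable ℂ (H i)) ∧ (∀ i, ∃ w, H i w ≠ 0) ∧
      (∀ i, ∀ᶠ r : ℝ in atTop, ∀ w : ℂ, ‖w‖ = r → ‖H i w‖ ≤ Real.exp (r ^ σ)) ∧
      (∀ r₁ : ℝ, 1 ≤ r₁ → IntegrableOn (fun r => K r * r ^ (-1 - q * σ)) (Ioi r₁)) ∧
      (∀ r₁ : ℝ, 1 ≤ r₁ → 0 ≤ ∫ r in Ioi r₁, K r * r ^ (-1 - q * σ)) ∧
      (∀ r : ℝ, 1 ≤ r → K r ≤ C * r ^ (q * σ)) ∧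
      ∀ r : ℝ, 1 ≤ r → r ∉ Z → (∀ i, ∀ w : ℂ, ‖w‖ = r ^ q → H i w ≠ 0) →
        (∀ z : ℂ, ‖z‖ = r → 0 < Mx q f k z) →
        K r ≤ (1 - (N : ℝ) / t₀) * (II q f k r - Real.cos (Real.pi * σ) * SS q f k r) +
          (N : ℝ) / t₀ * ((1 - Real.cos (Real.pi * σ)) * SS q f k r) + C * (1 + Real.log r) := by
  have hq0 : q ≠ 0 := NeZero.ne q
  have hq1 : 1 ≤ q := Nat.one_le_iff_ne_zero.2 hq0
  have hqr : (0 : ℝ) < q := by exact_mod_cast hq1
  have ht0 : 0 < t₀ := by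
    have : 0 < q ^ k := Nat.pow_pos (by omega)
    omega
  have ht0' : (0 : ℝ) < t₀ := by exact_mod_cast ht0
  set ρ₂ : ℝ := (ρ + q * σ) / 2 with hρ₂
  have hρ2a : ρ < ρ₂ := by rw [hρ₂]; linarith
  have hρ2b : ρ₂ < q * σ := by rw [hρ₂]; linarith
  set σ₁ : ℝ := (ρ₂ / q + σ) / 2 with hσ₁
  have hdiv : ρ₂ / q < σ := by
    rw [div_lt_iff₀ hqr]
    linarith
  have hσ1a : ρ₂ < q * σ₁ := by
    have h1 : ρ₂ / q < σ₁ := by rw [hσ₁]; linarith
    rw [div_lt_iff₀ hqr] at h1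
    linarith
  have hσ1b : σ₁ < σ := by rw [hσ₁]; linarith
  have hσ1c : 0 < σ₁ := by
    have h1 : 0 < ρ₂ / q := div_pos (by linarith) hqr
    rw [hσ₁]
    linarith
  have hσ0 : 0 < σ := by linarith
  obtain ⟨H, C₀, hC₀, hHd, hHne, hHle, hHcard⟩ := family hf k hne t₀
  have hgrH : ∀ i, ∀ᶠ r : ℝ in atTop, ∀ w : ℂ, ‖w‖ = r → ‖H i w‖ ≤ Real.exp (r ^ σ₁) := by
    intro i
    refine growth_root (H i) q hq0 C₀ ρ₂ σ₁ (by linarith) hσ1a ?_
    filter_upwards [growth_Mx (q := q) hf ρ ρ₂ hρ hρ2a hgr k, eventually_ge_atTop (1 : ℝ)] with r h1 h2 z hz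
    refine (hHle i z (by rw [hz]; exact h2)).trans ?_
    exact mul_le_mul_of_nonneg_left (h1 z hz) (by linarith)
  choose K C Z hC hZm hZ0 hint hpos hle hmain using fun i =>
    entire_ker σ σ₁ hσ1c hσ1b hσ q hq1 (H i) (hHd i) (hHne i) (hgrH i)
  set Cm : ℝ := ∑ i, C i with hCm
  have hCi : ∀ i, C i ≤ Cm := fun i =>
    Finset.single_le_sum (f := C) (fun j _ => hC j) (Finset.mem_univ i)
  have hCm0 : 0 ≤ Cm := Finset.sum_nonneg fun i _ => hC i
  have hlC : 0 ≤ Real.log C₀ := Real.log_nonneg hC₀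
  set L : ℝ := 2 * Real.log C₀ + q + Cm with hL
  have hL0 : 0 ≤ L := by positivity
  have hfun : (fun r : ℝ => (1 / (t₀ : ℝ) * ∑ i, K i r) * r ^ (-1 - q * σ)) =
      fun r : ℝ => (1 / (t₀ : ℝ)) * ∑ i, K i r * r ^ (-1 - q * σ) := by
    funext r
    rw [mul_assoc, Finset.sum_mul]
  have hintS : ∀ r₁ : ℝ, 1 ≤ r₁ →
      IntegrableOn (fun r : ℝ => ∑ i, K i r * r ^ (-1 - q * σ)) (Ioi r₁) := by
    intro r₁ hr₁
    exact integrable_finsetSum _ fun i _ => hint i r₁ hr₁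
  refine ⟨H, fun r => 1 / (t₀ : ℝ) * ∑ i, K i r, L, ⋃ i, Z i, hL0,
    MeasurableSet.iUnion hZm, ?_, hHd, hHne, ?_, ?_, ?_, ?_, ?_⟩
  · exact (measure_iUnion_null_iff).2 hZ0
  · intro i
    filter_upwards [hgrH i, eventually_ge_atTop (1 : ℝ)] with r h1 h2 w hw
    refine (h1 w hw).trans ?_
    rw [Real.exp_le_exp]
    exact Real.rpow_le_rpow_of_exponent_le h2 hσ1b.le
  · intro r₁ hr₁
    rw [hfun]
    exact (hintS r₁ hr₁).const_mul _
  · intro r₁ hr₁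
    rw [hfun, integral_const_mul, integral_finsetSum _ fun i _ => hint i r₁ hr₁]
    exact mul_nonneg (by positivity) (Finset.sum_nonneg fun i _ => hpos i r₁ hr₁)
  · intro r hr
    have hpw : 0 ≤ r ^ ((q : ℝ) * σ) := Real.rpow_nonneg (by linarith) _
    have h1 : ∑ i, K i r ≤ t₀ * (L * r ^ ((q : ℝ) * σ)) := by
      refine (Finset.sum_le_card_nsmul Finset.univ (fun i => K i r) (L * r ^ ((q : ℝ) * σ))
        fun i _ => ?_).trans (le_of_eq ?_)
      · refine (hle i r hr).trans (mul_le_mul_of_nonneg_right ?_ hpw)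
        have := hCi i
        rw [hL]
        linarith
      · rw [nsmul_eq_mul, Finset.card_univ, Fintype.card_fin]
    calc 1 / (t₀ : ℝ) * ∑ i, K i r ≤ 1 / (t₀ : ℝ) * (t₀ * (L * r ^ ((q : ℝ) * σ))) :=
          mul_le_mul_of_nonneg_left h1 (by positivity)
      _ = L * r ^ ((q : ℝ) * σ) := by
          field_simp
  · intro r hr hrZ hHnz hMx
    have hr0 : 0 < r := by linarith
    have hlr : 0 ≤ Real.log r := Real.log_nonneg hr
    have hrZi : ∀ i, r ∉ Z i := fun i h => hrZ (mem_iUnion.2 ⟨i, h⟩)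
    set c : ℝ := Real.cos (Real.pi * σ) with hc
    have hc0 : 0 ≤ c := by
      refine Real.cos_nonneg_of_mem_Icc ⟨?_, ?_⟩
      · have := mul_pos Real.pi_pos hσ0
        linarith [Real.pi_pos]
      · nlinarith [Real.pi_pos]
    have hc1 : c ≤ 1 := Real.cos_le_one _
    obtain ⟨z₁, z₂, hz1, hz2, hII, hSS, h12⟩ := G04_extrema (q := q) hf k r hr0.le
    have hM1 := hMx z₁ hz1
    have hM2 := hMx z₂ hz2
    have hIS : II q f k r ≤ SS q f k r := by
      rw [hII, hSS]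
      exact Real.log_le_log hM1 h12
    have hw1 : ‖z₁ ^ q‖ = r ^ q := by rw [norm_pow, hz1]
    have hw2 : ‖z₂ ^ q‖ = r ^ q := by rw [norm_pow, hz2]
    have hH1 : ∀ i, Real.log ‖H i (z₁ ^ q)‖ ≤ Real.log C₀ + II q f k r := by
      intro i
      rw [hII, ← Real.log_mul (by linarith) hM1.ne']
      refine Real.log_le_log (norm_pos_iff.2 (hHnz i _ hw1)) (hHle i z₁ ?_)
      rw [hz1]
      exact hr
    set B : Finset (Fin t₀) := Finset.univ.filter fun i =>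
      C₀ * ‖z₂‖ ^ q * ‖H i (z₂ ^ q)‖ < Mx q f k z₂ with hB
    have hBcard : B.card ≤ N := by
      have := hHcard z₂ (by rw [hz2]; exact hr)
      exact this.le.trans hN
    obtain ⟨B', hBB', hB'⟩ := Finset.exists_superset_card_eq hBcard (by simpa using ht)
    have hH2 : ∀ i, i ∉ B' → SS q f k r - Real.log C₀ - q * Real.log r ≤ Real.log ‖H i (z₂ ^ q)‖ := by
      intro i hi
      have h1 : i ∉ B := fun h => hi (hBB' h)
      rw [hB, Finset.mem_filter, not_and, not_lt, hz2] at h1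
      have h2 := h1 (Finset.mem_univ i)
      have h3 : 0 < ‖H i (z₂ ^ q)‖ := norm_pos_iff.2 (hHnz i _ hw2)
      have h4 := Real.log_le_log hM2 h2
      rw [← hSS, Real.log_mul (by positivity) h3.ne', Real.log_mul (by linarith) (by positivity),
        Real.log_pow] at h4
      linarith
    have hLL : L ≤ L * (1 + Real.log r) := by nlinarith
    refine G04_average t₀ N ht0 (fun i => K i r) B' hB' ((1 - c) * SS q f k r)
      (II q f k r - c * SS q f k r) (L * (1 + Real.log r)) ?_ ?_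
    · intro i
      have h1 := hmain i r hr (hrZi i) (hHnz i) (z₁ ^ q) (z₁ ^ q) hw1 hw1
      have h2 : (1 - c) * Real.log ‖H i (z₁ ^ q)‖ ≤ (1 - c) * (Real.log C₀ + SS q f k r) :=
        mul_le_mul_of_nonneg_left ((hH1 i).trans (by linarith)) (by linarith)
      have h3 : (1 - c) * Real.log C₀ ≤ Real.log C₀ := by nlinarith
      have h4 := hCi i
      show K i r ≤ _
      have h5 : Real.log C₀ + Cm ≤ L := by
        rw [hL]
        linarith
      linarith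
    · intro i hi
      have h1 := hmain i r hr (hrZi i) (hHnz i) (z₁ ^ q) (z₂ ^ q) hw1 hw2
      have h2 := hH1 i
      have h3 : c * (SS q f k r - Real.log C₀ - q * Real.log r) ≤ c * Real.log ‖H i (z₂ ^ q)‖ :=
        mul_le_mul_of_nonneg_left (hH2 i hi) hc0
      have h4 := hCi i
      have h5 : c * Real.log C₀ ≤ Real.log C₀ := by nlinarith
      have h6 : c * (q * Real.log r) ≤ q * Real.log r := by
        have : 0 ≤ q * Real.log r := by positivity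
        nlinarith
      have h7 : 2 * Real.log C₀ + q * Real.log r + Cm ≤ L * (1 + Real.log r) := by
        have e : L * (1 + Real.log r) - (2 * Real.log C₀ + q * Real.log r + Cm) =
            q + (2 * Real.log C₀ + Cm) * Real.log r := by
          rw [hL]
          ring
        have : 0 ≤ q + (2 * Real.log C₀ + Cm) * Real.log r := by positivity
        linarith
      show K i r ≤ _
      linarith

end Pool.Agent.LibPer37
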