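import Pool.Agent.LibPer37.G01
import Pool.Agent.LibPer37.G02
import Pool.Agent.LibPer37.G03
import Pool.Agent.LibPer37.G04
import Pool.Agent.LibPer37.B07
import Pool.Agent.LibPer37.C07
import Pool.Agent.LibPer37.E04

/-! Task G05 (helper37): the core theorem. -/

set_option autoImplicit false

open MeasureTheory Set Filter

namespace Pool.Agent.LibPer37

open Pool.Agent.LibAV71

variable {q : ℕ} [NeZero q]

/-- index type of the nonvanishing Wronskians -/
def G05_idx (q : ℕ) [NeZero q] (f : ℂ → ℂ) (M : ℕ) : Type :=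
  {p : (k : Fin (M + 2)) × (Fin (k : ℕ) → ZMod q) // ∃ z, WS f p.2 z ≠ 0}

instance (f : ℂ → ℂ) (M : ℕ) : Finite (G05_idx q f M) := by
  unfold G05_idx
  infer_instance

/-- the good radii -/
theorem G05_good {f : ℂ → ℂ} (hf : Differentiable ℂ f) (M t : ℕ) (ρ σ : ℝ) (hρ : 0 < ρ)
    (hgr : ∀ᶠ r : ℝ in atTop, ∀ z : ℂ, ‖z‖ = r → ‖f z‖ ≤ Real.exp (r ^ ρ))
    (H : Fin M → Fin t → ℂ → ℂ) (hH : ∀ k i, Differentiable ℂ (H k i))
    (hH0 : ∀ k i, ∃ w, H k i w ≠ 0)
    (hHg : ∀ k i, ∀ᶠ r : ℝ in atTop, ∀ w : ℂ, ‖w‖ = r → ‖H k i w‖ ≤ Real.exp (r ^ σ)) (b : ℕ) :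
    ∃ (C : ℕ) (R₁ : ℝ) (E : Set ℝ), 1 ≤ R₁ ∧ MeasurableSet E ∧
      (∀ r₁ : ℝ, R₁ ≤ r₁ → volume (E ∩ Set.Ici r₁) ≤ ENNReal.ofReal (r₁ ^ (-(b : ℝ)))) ∧
      ∀ r : ℝ, R₁ ≤ r → r ∉ E → Good q f M C r ∧
        ∀ k i, ∀ w : ℂ, ‖w‖ = r ^ q → H k i w ≠ 0 := by
  have hq : q ≠ 0 := NeZero.ne q
  let ρ' : ℝ := max (ρ + 1) (q * σ)
  let F : (G05_idx q f M ⊕ (Fin M × Fin t)) → ℂ → ℂ :=
    Sum.elim (fun p => WS f p.1.2) (fun x => fun z => H x.1 x.2 (z ^ q))
  have hF : ∀ i, Differentiable ℂ (F i) := by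
    rintro (p | x)
    · exact WS_differentiable hf _
    · exact (hH x.1 x.2).comp (differentiable_id.pow q)
  have hne : ∀ i, ∃ z, F i z ≠ 0 := by
    rintro (p | x)
    · exact p.2
    · obtain ⟨w, hw⟩ := hH0 x.1 x.2
      obtain ⟨z, hz⟩ := IsAlgClosed.exists_pow_nat_eq w (Nat.pos_of_ne_zero hq)
      refine ⟨z, ?_⟩
      show H x.1 x.2 (z ^ q) ≠ 0
      rwa [hz]
  have hFg : ∀ i, ∀ᶠ r : ℝ in atTop, ∀ z : ℂ, ‖z‖ = r → ‖F i z‖ ≤ Real.exp (r ^ ρ') := by
    rintro (p | x)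
    · filter_upwards [growth_Mx (q := q) hf ρ (ρ + 1) hρ (by linarith) hgr p.1.1,
        eventually_ge_atTop (1 : ℝ)] with r hr hr1 z hz
      refine (norm_WS_le_Mx f p.1.2 z).trans ((hr z hz).trans ?_)
      apply Real.exp_le_exp.mpr
      exact Real.rpow_le_rpow_of_exponent_le hr1 (le_max_left _ _)
    · have h1 : Tendsto (fun r : ℝ => r ^ q) atTop atTop := tendsto_pow_atTop hq
      filter_upwards [h1.eventually (hHg x.1 x.2), eventually_ge_atTop (1 : ℝ)] with r hr hr1 z hz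
      refine (hr (z ^ q) (by rw [norm_pow, hz])).trans ?_
      apply Real.exp_le_exp.mpr
      rw [← Real.rpow_natCast r q, ← Real.rpow_mul (by linarith)]
      exact Real.rpow_le_rpow_of_exponent_le hr1 (le_max_right _ _)
  obtain ⟨C, R₁, E, hR, hE, hvol, hgood⟩ := good_set F hF hne ρ' hFg b
  refine ⟨C, R₁, E, hR, hE, hvol, ?_⟩
  intro r hr hrE
  refine ⟨?_, ?_⟩
  · intro k hk s hs z hz
    exact hgood r hr hrE (Sum.inl ⟨⟨⟨k, by omega⟩, s⟩, hs⟩) z hz
  · intro k i w hw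
    obtain ⟨z, hz⟩ := IsAlgClosed.exists_pow_nat_eq w (Nat.pos_of_ne_zero hq)
    have hr0 : 0 ≤ r := by linarith
    have hzr : ‖z‖ = r := by
      have : ‖z‖ ^ q = r ^ q := by rw [← norm_pow, hz, hw]
      exact (pow_left_inj₀ (norm_nonneg _) hr0 hq).mp this
    have := (hgood r hr hrE (Sum.inr (k, i)) z hzr).1
    rw [← hz]
    exact this

theorem G05_nonconst {f : ℂ → ℂ} (hnp : ¬ ∃ P : Polynomial ℂ, ∀ z, f z = P.eval z) :
    ∃ z w : ℂ, f z ≠ f w := by
  by_contra h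
  push Not at h
  exact hnp ⟨Polynomial.C (f 0), fun z => by rw [Polynomial.eval_C]; exact h z 0⟩

theorem G05_real (M : ℕ) (w A S C K : Fin M → ℝ) (ν η c S₁ C' l : ℝ) (hν0 : 0 ≤ ν)
    (hν1 : ν ≤ 1 / 2) (hν2 : ν * (2 * M ^ 2) ≤ η / 4) (hη : 0 < η) (hc0 : 0 ≤ c) (hc1 : c ≤ 1)
    (hS1 : 0 ≤ S₁) (hC' : 0 ≤ C') (hl : 0 ≤ l) (hC : ∀ k, 0 ≤ C k) (hw0 : ∀ k, 0 ≤ w k)
    (hw2 : ∀ k, w k ≤ 2)
    (hb : ∀ k, K k ≤ (1 - ν) * A k + ν * ((1 - c) * S k) + C k * (1 + l))
    (hS : ∀ k, S k ≤ M * S₁ + C' * (1 + l))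
    (hmain : ∑ k, w k * A k ≤ -η * S₁ + C' * (1 + l)) :
    ∑ k, w k * K k ≤ -(η / 4) * S₁ + ((∑ k, 2 * C k) + (C' + 2 * M * C')) * (1 + l) := by
  have hM0 : (0 : ℝ) ≤ M := Nat.cast_nonneg M
  have hA0 : 0 ≤ (M : ℝ) * S₁ + C' * (1 + l) := by positivity
  have hstep : ∀ k : Fin M, w k * K k ≤
      (1 - ν) * (w k * A k) + ν * (2 * (M * S₁ + C' * (1 + l))) + 2 * C k * (1 + l) := by
    intro k
    have h1 := mul_le_mul_of_nonneg_left (hb k) (hw0 k)
    have h2 : w k * ((1 - c) * S k) ≤ 2 * (M * S₁ + C' * (1 + l)) := by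
      have hc : 0 ≤ w k * (1 - c) := mul_nonneg (hw0 k) (by linarith)
      have hc2 : w k * (1 - c) ≤ 2 := by
        have h3 := mul_le_mul_of_nonneg_right (hw2 k) (show 0 ≤ 1 - c by linarith)
        linarith
      calc w k * ((1 - c) * S k) = (w k * (1 - c)) * S k := by ring
        _ ≤ (w k * (1 - c)) * (M * S₁ + C' * (1 + l)) := mul_le_mul_of_nonneg_left (hS k) hc
        _ ≤ 2 * (M * S₁ + C' * (1 + l)) := mul_le_mul_of_nonneg_right hc2 hA0
    have h3 : w k * (C k * (1 + l)) ≤ 2 * C k * (1 + l) := by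
      have h4 : 0 ≤ C k * (1 + l) := mul_nonneg (hC k) (by linarith)
      have h5 := mul_le_mul_of_nonneg_right (hw2 k) h4
      linarith
    have h4 := mul_le_mul_of_nonneg_left h2 hν0
    calc w k * K k ≤ _ := h1
      _ = (1 - ν) * (w k * A k) + ν * (w k * ((1 - c) * S k)) + w k * (C k * (1 + l)) := by ring
      _ ≤ _ := by linarith
  have hsum1 : ∑ k, w k * K k ≤ (1 - ν) * (∑ k : Fin M, w k * A k) +
      M * (ν * (2 * (M * S₁ + C' * (1 + l)))) + (∑ k, 2 * C k) * (1 + l) := by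
    refine (Finset.sum_le_sum (fun k _ => hstep k)).trans (le_of_eq ?_)
    rw [Finset.sum_add_distrib, Finset.sum_add_distrib, ← Finset.mul_sum,
      Finset.sum_const, Finset.card_univ, Fintype.card_fin, nsmul_eq_mul, ← Finset.sum_mul]
  have h1ν : 0 ≤ 1 - ν := by linarith
  have h5 := mul_le_mul_of_nonneg_left hmain h1ν
  have h6 : (1 - ν) * (-η * S₁ + C' * (1 + l)) ≤ -(η / 2) * S₁ + C' * (1 + l) := by
    have e1 : 0 ≤ (1 / 2 - ν) * (η * S₁) :=
      mul_nonneg (by linarith) (mul_nonneg hη.le hS1)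
    have e2 : 0 ≤ ν * (C' * (1 + l)) :=
      mul_nonneg hν0 (mul_nonneg hC' (by linarith))
    nlinarith only [e1, e2]
  have h7 : M * (ν * (2 * (M * S₁ + C' * (1 + l)))) ≤ η / 4 * S₁ + 2 * M * C' * (1 + l) := by
    have e1 := mul_le_mul_of_nonneg_right hν2 hS1
    have e3 : 0 ≤ 2 * M * C' * (1 + l) := by positivity
    have e2 : ν * (2 * M * C' * (1 + l)) ≤ 1 * (2 * M * C' * (1 + l)) :=
      mul_le_mul_of_nonneg_right (by linarith) e3
    calc M * (ν * (2 * (M * S₁ + C' * (1 + l)))) =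
        ν * (2 * M ^ 2) * S₁ + ν * (2 * M * C' * (1 + l)) := by ring
      _ ≤ _ := by linarith
  have h8 : ((∑ k, 2 * C k) + (C' + 2 * M * C')) * (1 + l) =
      (∑ k, 2 * C k) * (1 + l) + C' * (1 + l) + 2 * M * C' * (1 + l) := by ring
  rw [h8]
  linarith

theorem core {f : ℂ → ℂ} (hf : Differentiable ℂ f) (hnp : ¬ ∃ P : Polynomial ℂ, ∀ z, f z = P.eval z)
    (M : ℕ) (hM : 1 ≤ M) (hT : Top q f M) (ρ σ κ : ℝ) (hρ : 0 < ρ) (hρσ : ρ < q * σ)
    (hσ : σ < 1 / 2) (hMσ : ((M : ℝ) - 1) * σ ≤ 1 / 2)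
    (hκ : κ < Real.cos (Real.pi * (M * σ)))
    (hgr : ∀ᶠ r : ℝ in atTop, ∀ z : ℂ, ‖z‖ = r → ‖f z‖ ≤ Real.exp (r ^ ρ)) :
    ∃ᶠ r : ℝ in atTop, ∀ z : ℂ, ‖z‖ = r → MM f r ^ κ ≤ ‖f z‖ := by
  by_contra hcon
  rw [not_frequently] at hcon
  have hnc := G05_nonconst hnp
  have hq0 : (0 : ℝ) < q := by exact_mod_cast Nat.pos_of_ne_zero (NeZero.ne q)
  have hσ0 : 0 < σ := by
    by_contra h
    push Not at h
    have : (q : ℝ) * σ ≤ 0 := mul_nonpos_of_nonneg_of_nonpos hq0.le h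
    linarith
  have hpi := Real.pi_pos
  set α : ℝ := Real.pi * σ with hαdef
  have hα : 0 ≤ α := by positivity
  have hMα : ((M : ℝ) - 1) * α ≤ Real.pi / 2 := by
    have : ((M : ℝ) - 1) * α = Real.pi * (((M : ℝ) - 1) * σ) := by rw [hαdef]; ring
    rw [this]
    nlinarith
  have hM1 : (1 : ℝ) ≤ M := by exact_mod_cast hM
  set η : ℝ := Real.cos (M * α) - κ with hηdef
  have hη : 0 < η := by
    have : Real.pi * (M * σ) = M * α := by rw [hαdef]; ring
    rw [this] at hκ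
    linarith
  -- the number of functions
  set N : ℕ := q ^ M with hNdef
  have hN1 : 1 ≤ N := Nat.one_le_pow _ _ (Nat.pos_of_ne_zero (NeZero.ne q))
  obtain ⟨t₀, ht₀⟩ := exists_nat_ge ((N : ℝ) * (2 + 8 * M ^ 2 / η))
  have hNpos : (0 : ℝ) < N := by exact_mod_cast hN1
  have hquo : 0 ≤ 8 * (M : ℝ) ^ 2 / η := by positivity
  have ht2 : 2 * (N : ℝ) ≤ t₀ := by nlinarith
  have htN : N ≤ t₀ := by
    have : (N : ℝ) ≤ t₀ := by linarith
    exact_mod_cast this
  have ht0 : (0 : ℝ) < t₀ := by linarith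
  set ν : ℝ := (N : ℝ) / t₀ with hνdef
  have hν0 : 0 ≤ ν := by positivity
  have hν1 : ν ≤ 1 / 2 := by
    rw [hνdef, div_le_iff₀ ht0]
    linarith
  have hν2 : ν * (2 * M ^ 2) ≤ η / 4 := by
    rw [hνdef, div_mul_eq_mul_div, div_le_iff₀ ht0]
    have h1 : (N : ℝ) * (8 * M ^ 2 / η) ≤ t₀ := by nlinarith
    have h2 : (N : ℝ) * (8 * M ^ 2) ≤ t₀ * η := by
      have := mul_le_mul_of_nonneg_right h1 hη.le
      calc (N : ℝ) * (8 * M ^ 2) = (N : ℝ) * (8 * M ^ 2 / η) * η := by field_simp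
        _ ≤ t₀ * η := this
    linarith
  -- the levels
  have hlev := fun k : Fin M => level (q := q) hf (k + 1)
    (lower_level hf hT (k + 1) (by omega)) ρ σ hρ hρσ hσ hgr N t₀
    (Nat.pow_le_pow_right (Nat.pos_of_ne_zero (NeZero.ne q)) (by omega)) htN
  choose H K C Z hC0 hZm hZ0 hHd hH0 hHg hKi hKp hKu hKb using hlev
  obtain ⟨Cg, R₁, E, hR₁, hEm, hEv, hEg⟩ := G05_good (q := q) hf M t₀ ρ σ hρ hgr H hHd hH0 hHg q
  obtain ⟨C', hC'0, hpt⟩ := pointwise (q := q) hf M hM hT α hα hMα Cg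
  -- thresholds
  obtain ⟨R₂, hR₂⟩ := eventually_atTop.mp hcon
  obtain ⟨R₃, hR₃⟩ := eventually_atTop.mp
    ((MM_tendsto hf hnc).eventually (eventually_ge_atTop (1 : ℝ)))
  set R : ℝ := max R₁ (max R₂ R₃) with hRdef
  have hRR₁ : R₁ ≤ R := le_max_left _ _
  have hRR₂ : R₂ ≤ R := (le_max_left _ _).trans (le_max_right _ _)
  have hRR₃ : R₃ ≤ R := (le_max_right _ _).trans (le_max_right _ _)
  have hR1 : 1 ≤ R := hR₁.trans hRR₁
  -- weights
  set w : Fin M → ℝ := fun k => if (k : ℕ) + 1 = M then 1 else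
    2 * Real.cos (((M : ℝ) - ((k : ℕ) + 1 : ℕ)) * α) with hwdef
  have hw0 : ∀ k, 0 ≤ w k := by
    intro k
    simp only [hwdef]
    split_ifs with h
    · norm_num
    · have hk : (k : ℕ) + 1 < M := lt_of_le_of_ne k.2 h
      have hk' : (((k : ℕ) + 1 : ℕ) : ℝ) ≤ (M : ℝ) := by exact_mod_cast hk.le
      have hk1 : (1 : ℝ) ≤ (((k : ℕ) + 1 : ℕ) : ℝ) := by exact_mod_cast Nat.le_add_left 1 k
      have : 0 ≤ Real.cos (((M : ℝ) - ((k : ℕ) + 1 : ℕ)) * α) := by
        apply Real.cos_nonneg_of_neg_pi_div_two_le_of_le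
        · have : 0 ≤ ((M : ℝ) - ((k : ℕ) + 1 : ℕ)) * α := mul_nonneg (by linarith) hα
          linarith
        · refine le_trans ?_ hMα
          apply mul_le_mul_of_nonneg_right _ hα
          linarith
      linarith
  have hw2 : ∀ k, w k ≤ 2 := by
    intro k
    simp only [hwdef]
    split_ifs with h
    · norm_num
    · have := Real.cos_le_one (((M : ℝ) - ((k : ℕ) + 1 : ℕ)) * α)
      linarith
  -- the sum over the levels
  have hsum : ∀ g : ℕ → ℝ, ∑ k : Fin M, w k * g (k + 1) =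
      g M + 2 * ∑ k ∈ Finset.Ico 1 M, Real.cos (((M : ℝ) - k) * α) * g k := by
    intro g
    have e1 : ∑ k : Fin M, w k * g (k + 1) = ∑ k ∈ Finset.range M,
        (if k + 1 = M then 1 else 2 * Real.cos (((M : ℝ) - (k + 1 : ℕ)) * α)) * g (k + 1) := by
      rw [← Fin.sum_univ_eq_sum_range (fun k => (if k + 1 = M then 1 else
        2 * Real.cos (((M : ℝ) - (k + 1 : ℕ)) * α)) * g (k + 1)) M]
    rw [e1]
    obtain ⟨m, rfl⟩ : ∃ m, M = m + 1 := ⟨M - 1, by omega⟩
    rw [Finset.sum_range_succ, if_pos rfl, one_mul, add_comm]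
    congr 1
    rw [Finset.sum_Ico_eq_sum_range, Finset.mul_sum]
    simp only [Nat.add_sub_cancel]
    apply Finset.sum_congr rfl
    intro k hk
    rw [Finset.mem_range] at hk
    rw [if_neg (by omega)]
    have : (1 + k : ℕ) = k + 1 := by omega
    rw [this]
    ring
  set Φ : ℝ → ℝ := fun r => ∑ k : Fin M, w k * K k r with hΦdef
  set β : ℝ := q * σ with hβdef
  have hβ : 0 < β := by positivity
  set Et : Set ℝ := E ∪ ⋃ k, Z k with hEtdef
  have hEtm : MeasurableSet Et := hEm.union (MeasurableSet.iUnion hZm)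
  have hZt : volume (⋃ k, Z k) = 0 := measure_iUnion_null hZ0
  -- apply the final integration lemma
  have hfin := final_real β hβ Φ (fun r => SS q f 1 r) Et hEtm q
    (by
      rw [hβdef]
      nlinarith) R hR1
    (by
      intro r₁ hr₁
      refine le_trans ?_ (hEv r₁ (hRR₁.trans hr₁))
      rw [hEtdef, union_inter_distrib_right]
      refine (measure_union_le _ _).trans ?_
      have : volume ((⋃ k, Z k) ∩ Ici r₁) = 0 := measure_mono_null inter_subset_left hZt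
      rw [this, add_zero])
    (by
      intro r₁ hr₁
      have h1 : (fun r => Φ r * r ^ (-1 - β)) =
          fun r => ∑ k : Fin M, w k * (K k r * r ^ (-1 - q * σ)) := by
        funext r
        simp only [hΦdef, Finset.sum_mul, hβdef]
        apply Finset.sum_congr rfl
        intro k _
        ring
      rw [h1]
      apply integrable_finsetSum
      intro k _
      exact (hKi k r₁ (hR1.trans hr₁)).const_mul _)
    (by
      intro r₁ hr₁
      have h1 : (fun r => Φ r * r ^ (-1 - β)) =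
          fun r => ∑ k : Fin M, w k * (K k r * r ^ (-1 - q * σ)) := by
        funext r
        simp only [hΦdef, Finset.sum_mul, hβdef]
        apply Finset.sum_congr rfl
        intro k _
        ring
      rw [h1, integral_finsetSum _ (fun k _ => (hKi k r₁ (hR1.trans hr₁)).const_mul _)]
      apply Finset.sum_nonneg
      intro k _
      rw [integral_const_mul]
      exact mul_nonneg (hw0 k) (hKp k r₁ (hR1.trans hr₁)))
    (by
      intro r hr
      show 0 ≤ SS q f 1 r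
      rw [SS_one hf r (by linarith)]
      exact Real.log_nonneg (hR₃ r (hRR₃.trans hr)))
    (by
      intro r s hr hrs
      show SS q f 1 r ≤ SS q f 1 s
      rw [SS_one hf r (by linarith), SS_one hf s (by linarith)]
      apply Real.log_le_log
      · exact lt_of_lt_of_le one_pos (hR₃ r (hRR₃.trans hr))
      · exact MM_mono hf (by linarith) hrs)
    (η / 4) ((∑ k, 2 * C k) + (C' + 2 * M * C')) (by positivity)
    (by
      intro r hr
      have hr1 : 1 ≤ r := hR1.trans hr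
      have hrp : 0 ≤ r ^ (q * σ) := Real.rpow_nonneg (by linarith) _
      calc Φ r = ∑ k : Fin M, w k * K k r := rfl
        _ ≤ ∑ k : Fin M, 2 * C k * r ^ (q * σ) := by
          apply Finset.sum_le_sum
          intro k _
          have h1 := hKu k r hr1
          have h2 : 0 ≤ C k * r ^ (q * σ) := mul_nonneg (hC0 k) hrp
          calc w k * K k r ≤ w k * (C k * r ^ (q * σ)) := mul_le_mul_of_nonneg_left h1 (hw0 k)
            _ ≤ 2 * (C k * r ^ (q * σ)) := mul_le_mul_of_nonneg_right (hw2 k) h2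
            _ = 2 * C k * r ^ (q * σ) := by ring
        _ = (∑ k, 2 * C k) * r ^ (q * σ) := by rw [Finset.sum_mul]
        _ ≤ ((∑ k, 2 * C k) + (C' + 2 * M * C')) * r ^ β := by
          rw [hβdef]
          apply mul_le_mul_of_nonneg_right _ hrp
          have : 0 ≤ C' + 2 * M * C' := by positivity
          linarith)
    (by
      intro r hr hrE
      have hr1 : 1 ≤ r := hR1.trans hr
      have hlog : 0 ≤ Real.log r := Real.log_nonneg hr1
      have hrE' : r ∉ E := fun h => hrE (Or.inl h)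
      have hrZ : ∀ k, r ∉ Z k := fun k h => hrE (Or.inr (mem_iUnion.mpr ⟨k, h⟩))
      obtain ⟨hG, hHn⟩ := hEg r (hRR₁.trans hr) hrE'
      obtain ⟨hp1, hp2, hp3, hp4⟩ := hpt r hr1 hG
      have hS0 : 0 ≤ SS q f 1 r := by
        rw [SS_one hf r (by linarith)]
        exact Real.log_nonneg (hR₃ r (hRR₃.trans hr))
      -- the low point
      have hlow := hR₂ r (hRR₂.trans hr)
      push Not at hlow
      obtain ⟨z, hz, hzlt⟩ := hlow
      obtain ⟨hfz, hch⟩ := hp3 z hz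
      have hMMpos : 0 < MM f r := lt_of_lt_of_le one_pos (hR₃ r (hRR₃.trans hr))
      have hlogf : Real.log ‖f z‖ ≤ κ * SS q f 1 r := by
        rw [SS_one hf r (by linarith), ← Real.log_rpow hMMpos]
        exact Real.log_le_log (norm_pos_iff.mpr hfz) hzlt.le
      -- bound for each level
      have hb : ∀ k : Fin M, K k r ≤ (1 - ν) * (II q f (k + 1) r - Real.cos α * SS q f (k + 1) r) +
          ν * ((1 - Real.cos α) * SS q f (k + 1) r) + C k * (1 + Real.log r) := by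
        intro k
        exact hKb k r hr1 (hrZ k) (hHn k) (hp1 (k + 1) (by omega))
      have hcos0 : 0 ≤ Real.cos α := by
        apply Real.cos_nonneg_of_neg_pi_div_two_le_of_le
        · linarith
        · rw [hαdef]
          have := mul_le_mul_of_nonneg_left hσ.le hpi.le
          linarith
      have hSk : ∀ k : Fin M, SS q f (k + 1) r ≤ M * SS q f 1 r + C' * (1 + Real.log r) := by
        intro k
        refine (hp4 (k + 1) (by omega) (by omega)).trans ?_
        have h1 : (((k : ℕ) + 1 : ℕ) : ℝ) ≤ M := by exact_mod_cast k.2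
        have h2 := mul_le_mul_of_nonneg_right h1 hS0
        linarith
      have hmain : ∑ k : Fin M, w k * (II q f (k + 1) r - Real.cos α * SS q f (k + 1) r) ≤
          -η * SS q f 1 r + C' * (1 + Real.log r) := by
        rw [hsum (fun k => II q f k r - Real.cos α * SS q f k r)]
        have h1 : -η * SS q f 1 r = κ * SS q f 1 r - Real.cos (M * α) * SS q f 1 r := by
          rw [hηdef]; ring
        rw [h1]
        linarith
      exact G05_real M w (fun k => II q f (k + 1) r - Real.cos α * SS q f (k + 1) r)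
        (fun k => SS q f (k + 1) r) C (fun k => K k r) ν η (Real.cos α) (SS q f 1 r) C'
        (Real.log r) hν0 hν1 hν2 hη hcos0 (Real.cos_le_one _) hS0 hC'0 hlog hC0 hw0 hw2 hb hSk
        hmain
        )
  obtain ⟨C₂, R₄, hC₂⟩ := hfin
  apply hnp
  refine poly_of_growth f hf C₂ (max R₄ 0) ?_
  intro r hr
  have h1 := hC₂ r ((le_max_left _ _).trans hr)
  rwa [SS_one hf r ((le_max_right _ _).trans hr)] at h1

end Pool.Agent.LibPer37
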