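import Pool.Agent.LibPer37.G05
import Pool.Agent.LibAV71.Order

/-! Task G06: Theorem A from `core`. -/

set_option autoImplicit false

open Filter

namespace Pool.Agent.LibPer37

open Pool.Agent.LibAV71

theorem G06_choose (q : ℕ) [NeZero q] (m : ℝ) (ρ : ℝ)
    (h1 : ρ < q / 2) (h2 : (m - 1) * ρ < q / 2) (h3 : ρ * m < q)
    (κ : ℝ) (hκ : κ < Real.cos (Real.pi * (ρ * m / q))) :
    ∃ ε : ℝ, 0 < ε ∧ ρ + 2 * ε < q / 2 ∧ (m - 1) * (ρ + 2 * ε) < q / 2 ∧ (ρ + 2 * ε) * m < q ∧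
      κ < Real.cos (Real.pi * ((ρ + 2 * ε) * m / q)) := by
  have c1 : Continuous fun ε : ℝ => ρ + 2 * ε := by fun_prop
  have c2 : Continuous fun ε : ℝ => (m - 1) * (ρ + 2 * ε) := by fun_prop
  have c3 : Continuous fun ε : ℝ => (ρ + 2 * ε) * m := by fun_prop
  have c4 : Continuous fun ε : ℝ => Real.cos (Real.pi * ((ρ + 2 * ε) * m / q)) := by fun_prop
  have e1 : ∀ᶠ ε : ℝ in nhds 0, ρ + 2 * ε < q / 2 :=
    c1.continuousAt.eventually_lt continuousAt_const (by simpa using h1)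
  have e2 : ∀ᶠ ε : ℝ in nhds 0, (m - 1) * (ρ + 2 * ε) < q / 2 :=
    c2.continuousAt.eventually_lt continuousAt_const (by simpa using h2)
  have e3 : ∀ᶠ ε : ℝ in nhds 0, (ρ + 2 * ε) * m < q :=
    c3.continuousAt.eventually_lt continuousAt_const (by simpa using h3)
  have e4 : ∀ᶠ ε : ℝ in nhds 0, κ < Real.cos (Real.pi * ((ρ + 2 * ε) * m / q)) :=
    continuousAt_const.eventually_lt c4.continuousAt (by simpa using hκ)
  have e5 : ∀ᶠ ε : ℝ in nhdsWithin 0 (Set.Ioi 0), ρ + 2 * ε < q / 2 ∧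
      (m - 1) * (ρ + 2 * ε) < q / 2 ∧ (ρ + 2 * ε) * m < q ∧
      κ < Real.cos (Real.pi * ((ρ + 2 * ε) * m / q)) :=
    nhdsWithin_le_nhds (e1.and (e2.and (e3.and e4)))
  obtain ⟨ε, h, hε⟩ := (e5.and self_mem_nhdsWithin).exists
  exact ⟨ε, hε, h⟩

theorem theoremA (q : ℕ) [NeZero q] (Cs : Finset (ZMod q)) (f : ℂ → ℂ) (hf : Differentiable ℂ f)
    (hnc : ∃ z w : ℂ, f z ≠ f w) (ρ : ℝ) (ho : OrdLe f ρ)
    (hexp : ∀ n : ℕ, iteratedDeriv n f 0 ≠ 0 → (n : ZMod q) ∈ Cs)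
    (h1 : ρ < q / 2) (h2 : ((Cs.card : ℝ) - 1) * ρ < q / 2) (h3 : ρ * Cs.card < q)
    (κ : ℝ) (hκ : κ < Real.cos (Real.pi * (ρ * Cs.card / q))) :
    ∃ᶠ r : ℝ in atTop, ∀ z : ℂ, ‖z‖ = r → MM f r ^ κ ≤ ‖f z‖ := by
  have hρ0 : 0 ≤ ρ := Order_nonneg f hf hnc ρ ho
  by_cases hP : ∃ P : Polynomial ℂ, ∀ z, f z = P.eval z
  · obtain ⟨P, hP⟩ := hP
    have hfP : f = fun z => P.eval z := funext hP
    have hdeg : 0 < P.natDegree := by
      rcases Nat.eq_zero_or_pos P.natDegree with h0 | h0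
      · exfalso
        obtain ⟨z, w, hzw⟩ := hnc
        apply hzw
        rw [hP, hP, Polynomial.eq_C_of_natDegree_eq_zero h0, Polynomial.eval_C, Polynomial.eval_C]
      · exact h0
    rw [hfP]
    exact (poly_min P hdeg κ (lt_of_lt_of_le hκ (Real.cos_le_one _))).frequently
  · have hne : ∃ z, f z ≠ 0 := by
      obtain ⟨z, w, hzw⟩ := hnc
      by_cases hz : f z = 0
      · refine ⟨w, fun hw => hzw ?_⟩
        rw [hz, hw]
      · exact ⟨z, hz⟩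
    obtain ⟨M, hM1, hM2, hT⟩ := exists_top hf hne Cs hexp
    obtain ⟨ε, hε, g1, g2, g3, g4⟩ := G06_choose q (Cs.card : ℝ) ρ h1 h2 h3 κ hκ
    have hq : (0 : ℝ) < q := by exact_mod_cast Nat.pos_of_ne_zero (NeZero.ne q)
    have hM2' : (M : ℝ) ≤ Cs.card := by exact_mod_cast hM2
    have hM1' : (1 : ℝ) ≤ M := by exact_mod_cast hM1
    set σ : ℝ := (ρ + 2 * ε) / q with hσ
    have hσ0 : 0 < σ := div_pos (by linarith) hq
    have hqσ : q * σ = ρ + 2 * ε := by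
      rw [hσ]
      field_simp
    refine core hf hP M hM1 hT (ρ + ε) σ κ (by linarith) (by rw [hqσ]; linarith) ?_ ?_ ?_ (ho ε hε)
    · rw [hσ, div_lt_iff₀ hq]
      linarith
    · have h4 : ((M : ℝ) - 1) * σ ≤ ((Cs.card : ℝ) - 1) * σ :=
        mul_le_mul_of_nonneg_right (by linarith) hσ0.le
      refine h4.trans ?_
      rw [hσ, ← mul_div_assoc, div_le_iff₀ hq]
      linarith
    · refine lt_of_lt_of_le g4 ?_
      have h5 : (ρ + 2 * ε) * Cs.card / q = Cs.card * σ := by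
        rw [hσ]
        ring
      rw [h5]
      have h6 : (M : ℝ) * σ ≤ Cs.card * σ := mul_le_mul_of_nonneg_right hM2' hσ0.le
      have h7 : (Cs.card : ℝ) * σ ≤ 1 := by
        rw [← h5, div_le_iff₀ hq]
        linarith
      refine Real.cos_le_cos_of_nonneg_of_le_pi ?_ ?_ ?_
      · positivity
      · nlinarith [Real.pi_pos]
      · exact mul_le_mul_of_nonneg_left h6 Real.pi_pos.le

end Pool.Agent.LibPer37
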