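import Pool.Agent.LibPer37.G06

/-! Task G07 (100-160 lines): Theorem B from Theorem A.

HINT.  `ρ ≥ 0` (`Order_nonneg`).  If `f` is a polynomial use `poly_min`.  Otherwise choose `ε > 0` with `ρ (D + ε) < 1/2`
and `κ < cos (π ρ (D + ε))`, and `q`, `Cs`, `n₀` from the hypothesis.  Let `P` be the Taylor polynomial of `f` of degree
`< n₀` and `g = f - P`: entire, not constant (else `f` would be a polynomial), of order at most `ρ`, with exponents `≥ n₀`, so all
in `Cs`; in particular `Cs` is not empty.  `1 ≤ card Cs ≤ (D + ε) q`, so `ρ ≤ ρ card Cs ≤ ρ (D+ε) q < q/2`: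
all hypotheses of `theoremA` hold, and `cos (π (ρ card Cs / q)) ≥ cos (π ρ (D + ε)) > κ`.  Take `κ'` with
`max κ 0 < κ' < cos (π ρ (D+ε))` (the cosine is positive).  `theoremA` for `g`, `κ'`: for arbitrarily large `r`,
`MM g r ^ κ' ≤ ‖g z‖` on `‖z‖ = r`.  `‖P z‖ ≤ B r^n₀`, and `MM g r` grows faster than every power of `r`
(otherwise `g` is a polynomial, `poly_of_growth`; note that `log MM g r > C₂ (1 + log r)` for arbitrarily large `r` is not
enough: use monotonicity of `BB` or Cauchy: if `g` has infinitely many nonzero Taylor coefficients `a n` then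
`MM g r ≥ ‖a n‖ r^n` for all `r`).  Hence `MM f r ≤ 2 MM g r`, and
`‖f z‖ ≥ MM g r ^ κ' - B r^n₀ ≥ MM g r ^ κ' / 2 ≥ (2 MM g r)^(max κ 0) ≥ MM f r ^ κ` for those `r` large. -/

set_option autoImplicit false

open Filter

namespace Pool.Agent.LibPer37

open Pool.Agent.LibAV71

private theorem G07_iter_poly (P : Polynomial ℂ) (n : ℕ) :
    iteratedDeriv n (fun z : ℂ => P.eval z) = fun z => (Polynomial.derivative^[n] P).eval z := by
  induction n with
  | zero => simp [iteratedDeriv_zero]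
  | succ n ih =>
    rw [iteratedDeriv_succ, ih]
    funext z
    rw [Polynomial.deriv, Function.iterate_succ_apply']

private theorem G07_iter_poly_zero (P : Polynomial ℂ) (n : ℕ) :
    iteratedDeriv n (fun z : ℂ => P.eval z) 0 = (n.factorial : ℂ) * P.coeff n := by
  rw [G07_iter_poly]
  change (Polynomial.derivative^[n] P).eval 0 = _
  rw [← Polynomial.coeff_zero_eq_eval_zero, Polynomial.coeff_iterate_derivative]
  simp [Nat.descFactorial_self]

private theorem G07_bound (P : Polynomial ℂ) (N : ℕ) (hP : P.natDegree ≤ N) :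
    ∃ B : ℝ, 0 < B ∧ ∀ z : ℂ, 1 ≤ ‖z‖ → ‖P.eval z‖ ≤ B * ‖z‖ ^ N := by
  refine ⟨(∑ i ∈ Finset.range (N + 1), ‖P.coeff i‖) + 1, by positivity, ?_⟩
  intro z hz
  rw [Polynomial.eval_eq_sum_range' (Nat.lt_succ_of_le hP)]
  calc ‖∑ i ∈ Finset.range (N + 1), P.coeff i * z ^ i‖
      ≤ ∑ i ∈ Finset.range (N + 1), ‖P.coeff i * z ^ i‖ := norm_sum_le _ _
    _ ≤ ∑ i ∈ Finset.range (N + 1), ‖P.coeff i‖ * ‖z‖ ^ N := by
        refine Finset.sum_le_sum fun i hi => ?_
        rw [norm_mul, norm_pow]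
        refine mul_le_mul_of_nonneg_left ?_ (norm_nonneg _)
        exact pow_le_pow_right₀ hz (by have := Finset.mem_range.1 hi; omega)
    _ = (∑ i ∈ Finset.range (N + 1), ‖P.coeff i‖) * ‖z‖ ^ N := by rw [Finset.sum_mul]
    _ ≤ _ := by
        have h1 : 0 ≤ ‖z‖ ^ N := by positivity
        nlinarith

/-- a function with infinitely many nonzero Taylor coefficients grows faster than every power -/
private theorem G07_growth {g : ℂ → ℂ} (hg : Differentiable ℂ g)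
    (hinf : ∀ N : ℕ, ∃ n : ℕ, N ≤ n ∧ iteratedDeriv n g 0 ≠ 0) (N : ℕ) :
    ∀ᶠ r : ℝ in atTop, r ^ N ≤ MM g r := by
  obtain ⟨n, hn, hne⟩ := hinf (N + 1)
  have hpos : 0 < ‖iteratedDeriv n g 0 / (n.factorial : ℂ)‖ := by
    rw [norm_pos_iff]
    exact div_ne_zero hne (by exact_mod_cast n.factorial_ne_zero)
  filter_upwards [eventually_ge_atTop (1 : ℝ),
    eventually_ge_atTop (1 / ‖iteratedDeriv n g 0 / (n.factorial : ℂ)‖)] with r h1 h2
  have h3 := cauchy_le hg n r (by linarith)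
  refine le_trans ?_ h3
  rw [div_le_iff₀ hpos] at h2
  calc r ^ N = 1 * r ^ N := (one_mul _).symm
    _ ≤ (r * ‖iteratedDeriv n g 0 / (n.factorial : ℂ)‖) * r ^ N :=
        mul_le_mul_of_nonneg_right h2 (by positivity)
    _ = ‖iteratedDeriv n g 0 / (n.factorial : ℂ)‖ * r ^ (N + 1) := by ring
    _ ≤ ‖iteratedDeriv n g 0 / (n.factorial : ℂ)‖ * r ^ n :=
        mul_le_mul_of_nonneg_left (pow_le_pow_right₀ h1 hn) hpos.le

private theorem G07_poly_le_exp (B : ℝ) (N : ℕ) (a : ℝ) (ha : 0 < a) :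
    ∀ᶠ r : ℝ in atTop, B * r ^ N ≤ Real.exp (r ^ a) := by
  -- `r ^ N = (r ^ a) ^ (N / a)`
  have h1 : Tendsto (fun x : ℝ => x ^ ((N : ℝ) / a) * Real.exp (-1 * x)) atTop (nhds 0) :=
    tendsto_rpow_mul_exp_neg_mul_atTop_nhds_zero _ 1 one_pos
  have h2 : Tendsto (fun r : ℝ => r ^ a) atTop atTop := tendsto_rpow_atTop ha
  have h3 := h1.comp h2
  have h4 : ∀ᶠ r : ℝ in atTop, ((fun x : ℝ => x ^ ((N : ℝ) / a) * Real.exp (-1 * x)) ∘
      (fun r : ℝ => r ^ a)) r < 1 / (|B| + 1) :=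
    h3.eventually (gt_mem_nhds (by positivity))
  filter_upwards [h4, eventually_ge_atTop (1 : ℝ)] with r h5 h6
  have hr : 0 ≤ r := by linarith
  simp only [Function.comp_apply] at h5
  have h7 : (r ^ a) ^ ((N : ℝ) / a) = r ^ N := by
    rw [← Real.rpow_mul hr, mul_div_cancel₀ _ ha.ne', Real.rpow_natCast]
  rw [h7, neg_one_mul, Real.exp_neg] at h5
  have hE := Real.exp_pos (r ^ a)
  rw [lt_div_iff₀ (by positivity)] at h5
  have h8 : r ^ N * (|B| + 1) < Real.exp (r ^ a) := by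
    have h9 := mul_lt_mul_of_pos_right h5 hE
    have h10 : r ^ N * (Real.exp (r ^ a))⁻¹ * (|B| + 1) * Real.exp (r ^ a) =
        r ^ N * (|B| + 1) := by
      field_simp
    rw [h10, one_mul] at h9
    exact h9
  have h11 : B ≤ |B| := le_abs_self B
  have h12 : 0 ≤ r ^ N := by positivity
  nlinarith

private theorem G07_order_sub {f : ℂ → ℂ} (ρ : ℝ) (hρ : 0 ≤ ρ) (h : OrdLe f ρ)
    (P : Polynomial ℂ) : OrdLe (fun z => f z - P.eval z) ρ := by
  intro ε hε
  obtain ⟨B, hB, hPB⟩ := G07_bound P P.natDegree le_rfl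
  have h1 := h (ε / 2) (by linarith)
  have h2 := G07_poly_le_exp B P.natDegree (ρ + ε / 2) (by linarith)
  have h3 : ∀ᶠ r : ℝ in atTop, 2 ≤ r ^ (ε / 2) :=
    (tendsto_rpow_atTop (by linarith : 0 < ε / 2)).eventually (eventually_ge_atTop 2)
  filter_upwards [h1, h2, h3, eventually_ge_atTop (1 : ℝ)] with r h4 h5 h6 h7 z hz
  have hr : 0 < r := by linarith
  have h8 : ‖P.eval z‖ ≤ Real.exp (r ^ (ρ + ε / 2)) := by
    have h9 := hPB z (by rw [hz]; exact h7)
    rw [hz] at h9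
    exact h9.trans h5
  have h10 : r ^ (ρ + ε) = r ^ (ρ + ε / 2) * r ^ (ε / 2) := by
    rw [← Real.rpow_add hr]
    congr 1
    ring
  have h11 : 1 ≤ r ^ (ρ + ε / 2) := Real.one_le_rpow h7 (by linarith)
  have h12 : Real.exp (r ^ (ρ + ε / 2)) + Real.exp (r ^ (ρ + ε / 2)) ≤
      Real.exp (r ^ (ρ + ε)) := by
    have h13 : r ^ (ρ + ε / 2) + r ^ (ρ + ε / 2) ≤ r ^ (ρ + ε) := by
      rw [h10]
      nlinarith
    have h14 : (2 : ℝ) ≤ Real.exp (r ^ (ρ + ε / 2)) := by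
      have := Real.add_one_le_exp (r ^ (ρ + ε / 2))
      linarith
    calc Real.exp (r ^ (ρ + ε / 2)) + Real.exp (r ^ (ρ + ε / 2))
        = 2 * Real.exp (r ^ (ρ + ε / 2)) := by ring
      _ ≤ Real.exp (r ^ (ρ + ε / 2)) * Real.exp (r ^ (ρ + ε / 2)) :=
          mul_le_mul_of_nonneg_right h14 (Real.exp_pos _).le
      _ = Real.exp (r ^ (ρ + ε / 2) + r ^ (ρ + ε / 2)) := (Real.exp_add _ _).symm
      _ ≤ _ := Real.exp_le_exp.2 h13
  calc ‖f z - P.eval z‖ ≤ ‖f z‖ + ‖P.eval z‖ := norm_sub_le _ _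
    _ ≤ Real.exp (r ^ (ρ + ε / 2)) + Real.exp (r ^ (ρ + ε / 2)) := add_le_add (h4 z hz) h8
    _ ≤ _ := h12

theorem theoremB (f : ℂ → ℂ) (hf : Differentiable ℂ f) (hnc : ∃ z w : ℂ, f z ≠ f w) (ρ D : ℝ)
    (ho : OrdLe f ρ) (hD : 0 ≤ D) (hρD : ρ * D < 1 / 2)
    (hcov : ∀ ε : ℝ, 0 < ε → ∃ (q : ℕ) (_ : NeZero q) (Cs : Finset (ZMod q)) (n₀ : ℕ),
      (Cs.card : ℝ) ≤ (D + ε) * q ∧
      ∀ n : ℕ, n₀ ≤ n → iteratedDeriv n f 0 ≠ 0 → (n : ZMod q) ∈ Cs)
    (κ : ℝ) (hκ : κ < Real.cos (Real.pi * (ρ * D))) :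
    ∃ᶠ r : ℝ in atTop, ∀ z : ℂ, ‖z‖ = r → MM f r ^ κ ≤ ‖f z‖ := by
  have hρ : 0 ≤ ρ := Order_nonneg f hf hnc ρ ho
  by_cases hpoly : ∃ P : Polynomial ℂ, ∀ z, f z = P.eval z
  · obtain ⟨P, hP⟩ := hpoly
    have hfP : f = fun z => P.eval z := funext hP
    have hdeg : 0 < P.natDegree := by
      by_contra hcon
      obtain ⟨z, w, hzw⟩ := hnc
      apply hzw
      rw [hP, hP, Polynomial.eq_C_of_natDegree_eq_zero (by omega : P.natDegree = 0)]
      simp
    have h1 := poly_min P hdeg κ (lt_of_lt_of_le hκ (Real.cos_le_one _))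
    rw [hfP]
    exact h1.frequently
  -- choice of `ε`
  obtain ⟨ε, hε, hε1, hε2⟩ : ∃ ε : ℝ, 0 < ε ∧ ρ * (D + ε) < 1 / 2 ∧
      κ < Real.cos (Real.pi * (ρ * (D + ε))) := by
    have hc1 : Continuous fun ε : ℝ => ρ * (D + ε) := by fun_prop
    have hc2 : Continuous fun ε : ℝ => Real.cos (Real.pi * (ρ * (D + ε))) := by fun_prop
    have h1 : ∀ᶠ ε in nhds (0 : ℝ), ρ * (D + ε) < 1 / 2 :=
      hc1.continuousAt.eventually_lt continuousAt_const (by simpa using hρD)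
    have h2 : ∀ᶠ ε in nhds (0 : ℝ), κ < Real.cos (Real.pi * (ρ * (D + ε))) :=
      continuousAt_const.eventually_lt hc2.continuousAt (by simpa using hκ)
    have h3 : ∀ᶠ ε in nhdsWithin (0 : ℝ) (Set.Ioi 0), ρ * (D + ε) < 1 / 2 ∧
        κ < Real.cos (Real.pi * (ρ * (D + ε))) :=
      (h1.and h2).filter_mono nhdsWithin_le_nhds
    obtain ⟨ε, h4, h5⟩ := (h3.and self_mem_nhdsWithin).exists
    exact ⟨ε, h5, h4⟩
  obtain ⟨q, hq0, Cs, n₀, hcard, hexp⟩ := hcov ε hε
  have hqpos : (0 : ℝ) < q := by exact_mod_cast Nat.pos_of_ne_zero hq0.ne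
  -- the Taylor polynomial
  let P : Polynomial ℂ := ∑ n ∈ Finset.range n₀,
    Polynomial.monomial n (iteratedDeriv n f 0 / (n.factorial : ℂ))
  have hPc : ∀ n, P.coeff n = if n < n₀ then iteratedDeriv n f 0 / (n.factorial : ℂ) else 0 := by
    intro n
    simp only [P, Polynomial.finsetSum_coeff, Polynomial.coeff_monomial]
    rw [Finset.sum_ite_eq']
    simp
  have hPdeg : P.natDegree ≤ n₀ := by
    rw [Polynomial.natDegree_le_iff_coeff_eq_zero]
    intro n hn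
    rw [hPc, if_neg (by omega)]
  let g : ℂ → ℂ := fun z => f z - P.eval z
  have hPdiff : Differentiable ℂ (fun z : ℂ => P.eval z) := P.differentiable
  have hg : Differentiable ℂ g := hf.sub hPdiff
  have hgder : ∀ n, iteratedDeriv n g 0 = if n < n₀ then 0 else iteratedDeriv n f 0 := by
    intro n
    have h1 : iteratedDeriv n g 0 = iteratedDeriv n f 0 -
        iteratedDeriv n (fun z : ℂ => P.eval z) 0 := by
      have h2 : g = f - fun z : ℂ => P.eval z := rfl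
      rw [h2]
      exact iteratedDeriv_sub hf.contDiff.contDiffAt hPdiff.contDiff.contDiffAt
    rw [h1, G07_iter_poly_zero, hPc]
    split_ifs with h
    · have h3 : (n.factorial : ℂ) ≠ 0 := by exact_mod_cast n.factorial_ne_zero
      field_simp
      ring
    · ring
  have hgnp : ¬ ∃ Q : Polynomial ℂ, ∀ z, g z = Q.eval z := by
    rintro ⟨Q, hQ⟩
    apply hpoly
    refine ⟨Q + P, fun z => ?_⟩
    rw [Polynomial.eval_add, ← hQ z]
    simp [g]
  have hinf : ∀ N : ℕ, ∃ n : ℕ, N ≤ n ∧ iteratedDeriv n g 0 ≠ 0 := by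
    intro N
    by_contra hcon
    push Not at hcon
    apply hgnp
    refine ⟨∑ n ∈ Finset.range N,
      Polynomial.monomial n (iteratedDeriv n g 0 / (n.factorial : ℂ)), fun z => ?_⟩
    have h1 := taylor_hasSum hg z
    have h2 : HasSum (fun n : ℕ => (iteratedDeriv n g 0 / (n.factorial : ℂ)) * z ^ n)
        (∑ n ∈ Finset.range N, (iteratedDeriv n g 0 / (n.factorial : ℂ)) * z ^ n) := by
      apply hasSum_sum_of_ne_finset_zero
      intro n hn
      rw [hcon n (by simpa using hn)]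
      simp
    rw [h1.unique h2, Polynomial.eval_finsetSum]
    refine Finset.sum_congr rfl fun n _ => ?_
    rw [Polynomial.eval_monomial]
  have hgnc : ∃ z w : ℂ, g z ≠ g w := by
    by_contra hcon
    push Not at hcon
    apply hgnp
    exact ⟨Polynomial.C (g 0), fun z => by rw [Polynomial.eval_C]; exact hcon z 0⟩
  have hgexp : ∀ n : ℕ, iteratedDeriv n g 0 ≠ 0 → (n : ZMod q) ∈ Cs := by
    intro n hn
    rw [hgder] at hn
    split_ifs at hn with h
    · exact absurd rfl hn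
    · exact hexp n (by omega) hn
  have hcard1 : (1 : ℝ) ≤ Cs.card := by
    obtain ⟨n, -, hn⟩ := hinf 0
    have h1 : 0 < Cs.card := Finset.card_pos.2 ⟨_, hgexp n hn⟩
    exact_mod_cast h1
  have hρcard : ρ * Cs.card ≤ ρ * (D + ε) * q := by
    rw [mul_assoc]
    exact mul_le_mul_of_nonneg_left hcard hρ
  have hρcard2 : ρ * Cs.card < q / 2 := by
    have h1 : ρ * (D + ε) * q < 1 / 2 * q := mul_lt_mul_of_pos_right hε1 hqpos
    linarith
  have hog : OrdLe g ρ := G07_order_sub ρ hρ ho P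
  -- the exponent
  have hcospos : 0 < Real.cos (Real.pi * (ρ * (D + ε))) := by
    apply Real.cos_pos_of_mem_Ioo
    constructor
    · have : 0 ≤ Real.pi * (ρ * (D + ε)) := by positivity
      linarith [Real.pi_pos]
    · nlinarith [Real.pi_pos]
  obtain ⟨κ', hκ1, hκ2⟩ : ∃ κ', max κ 0 < κ' ∧ κ' < Real.cos (Real.pi * (ρ * (D + ε))) :=
    exists_between (max_lt hε2 hcospos)
  have hκ'0 : 0 < κ' := lt_of_le_of_lt (le_max_right _ _) hκ1
  have hκ3 : κ' < Real.cos (Real.pi * (ρ * Cs.card / q)) := by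
    refine lt_of_lt_of_le hκ2 ?_
    apply Real.cos_le_cos_of_nonneg_of_le_pi
    · positivity
    · nlinarith [Real.pi_pos]
    · apply mul_le_mul_of_nonneg_left _ Real.pi_pos.le
      rw [div_le_iff₀ hqpos]
      exact hρcard
  have hA := theoremA q Cs g hg hgnc ρ hog hgexp (by nlinarith) (by nlinarith) (by linarith) κ' hκ3
  -- conclusion
  obtain ⟨B, hB, hPB⟩ := G07_bound P n₀ hPdeg
  obtain ⟨N, hN⟩ := exists_nat_ge (((n₀ : ℝ) + 1) / κ')
  have e1 := G07_growth hg hinf N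
  have e2 := G07_growth hg hinf (n₀ + 1)
  have e3 := (MM_tendsto hf hnc).eventually (eventually_ge_atTop 1)
  have e4 : ∀ᶠ r : ℝ in atTop, (2 : ℝ) ^ (max κ 0 + 1) ≤ MM g r ^ (κ' - max κ 0) :=
    ((tendsto_rpow_atTop (sub_pos.2 hκ1)).comp (MM_tendsto hg hgnc)).eventually
      (eventually_ge_atTop _)
  refine (hA.and_eventually (e1.and (e2.and (e3.and (e4.and ((eventually_ge_atTop
    (2 * B)).and (eventually_ge_atTop (1 : ℝ)))))))).mono ?_
  rintro r ⟨hr, h1, h2, h3, h4, h5, h6⟩ z hz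
  have hr0 : 0 < r := by linarith
  have hX : 0 < MM g r := lt_of_lt_of_le (by positivity) h1
  -- the polynomial part
  have hPz : ∀ w : ℂ, ‖w‖ = r → ‖P.eval w‖ ≤ B * r ^ n₀ := by
    intro w hw
    have h7 := hPB w (by rw [hw]; exact h6)
    rwa [hw] at h7
  have h8 : 2 * (B * r ^ n₀) ≤ r ^ (n₀ + 1) := by
    rw [pow_succ]
    have h9 : 0 ≤ r ^ n₀ := by positivity
    nlinarith
  have h10 : 2 * (B * r ^ n₀) ≤ MM g r ^ κ' := by
    refine h8.trans ?_
    have h11 : (n₀ : ℝ) + 1 ≤ N * κ' := by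
      rwa [div_le_iff₀ hκ'0] at hN
    calc r ^ (n₀ + 1) = r ^ ((n₀ : ℝ) + 1) := by
          rw [← Real.rpow_natCast]
          push_cast
          rfl
      _ ≤ r ^ (N * κ') := Real.rpow_le_rpow_of_exponent_le h6 h11
      _ = (r ^ N) ^ κ' := by rw [Real.rpow_mul hr0.le, Real.rpow_natCast]
      _ ≤ MM g r ^ κ' := Real.rpow_le_rpow (by positivity) h1 hκ'0.le
  have h12 : MM f r ≤ 2 * MM g r := by
    obtain ⟨w, hw, hw2⟩ := exists_eq_MM hf r hr0.le
    rw [← hw2]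
    have h13 : f w = g w + P.eval w := by simp [g]
    rw [h13]
    have h14 := norm_le_MM hg w
    rw [hw] at h14
    calc ‖g w + P.eval w‖ ≤ ‖g w‖ + ‖P.eval w‖ := norm_add_le _ _
      _ ≤ MM g r + B * r ^ n₀ := add_le_add h14 (hPz w hw)
      _ ≤ 2 * MM g r := by
        have h15 : 0 ≤ B * r ^ n₀ := by positivity
        linarith
  have h16 : MM g r ^ κ' / 2 ≤ ‖f z‖ := by
    have h17 : ‖g z‖ ≤ ‖f z‖ + ‖P.eval z‖ := norm_sub_le _ _
    have h18 := hr z hz
    have h19 := hPz z hz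
    linarith
  refine le_trans ?_ h16
  calc MM f r ^ κ ≤ MM f r ^ (max κ 0) := Real.rpow_le_rpow_of_exponent_le h3 (le_max_left _ _)
    _ ≤ (2 * MM g r) ^ (max κ 0) := Real.rpow_le_rpow (by linarith) h12 (le_max_right _ _)
    _ = 2 ^ (max κ 0) * MM g r ^ (max κ 0) := Real.mul_rpow (by norm_num) hX.le
    _ ≤ MM g r ^ κ' / 2 := by
      rw [le_div_iff₀ (by norm_num : (0 : ℝ) < 2)]
      have h20 : MM g r ^ κ' = MM g r ^ (max κ 0) * MM g r ^ (κ' - max κ 0) := by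
        rw [← Real.rpow_add hX]
        congr 1
        ring
      have h21 : (2 : ℝ) ^ (max κ 0 + 1) = 2 ^ (max κ 0) * 2 := by
        rw [Real.rpow_add (by norm_num), Real.rpow_one]
      rw [h20]
      rw [h21] at h4
      have h22 : 0 ≤ MM g r ^ (max κ 0) := Real.rpow_nonneg hX.le _
      calc 2 ^ (max κ 0) * MM g r ^ (max κ 0) * 2 = MM g r ^ (max κ 0) * (2 ^ (max κ 0) * 2) := by
            ring
        _ ≤ _ := mul_le_mul_of_nonneg_left h4 h22

end Pool.Agent.LibPer37
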