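import Pool.Agent.LibPer37.G07

/-! The final form: `limsup` in the extended reals. -/

set_option autoImplicit false

open Filter

namespace Pool.Agent.LibPer37

open Pool.Agent.LibAV71

noncomputable section

/-- the minimum modulus `m₀(r, f)` -/
def mm (f : ℂ → ℂ) (r : ℝ) : ℝ := sInf ((fun z => ‖f z‖) '' {z : ℂ | ‖z‖ = r})

open Classical in
/-- `log m₀(r,f) / log M(r,f)` with `log 0 = -∞` -/
def qf (f : ℂ → ℂ) (r : ℝ) : EReal :=
  if mm f r = 0 then ⊥ else ((Real.log (mm f r) / Real.log (MM f r) : ℝ) : EReal)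

end

theorem mm_ge (f : ℂ → ℂ) (r : ℝ) (hr : 0 ≤ r) (a : ℝ) (h : ∀ z : ℂ, ‖z‖ = r → a ≤ ‖f z‖) :
    a ≤ mm f r := by
  unfold mm
  apply le_csInf
  · exact ⟨‖f r‖, r, by simp [abs_of_nonneg hr], rfl⟩
  · rintro _ ⟨z, hz, rfl⟩
    exact h z hz

theorem limsup_ge (f : ℂ → ℂ) (hf : Differentiable ℂ f) (hnc : ∃ z w : ℂ, f z ≠ f w) (c : ℝ)
    (h : ∀ κ : ℝ, κ < c → ∃ᶠ r : ℝ in atTop, ∀ z : ℂ, ‖z‖ = r → MM f r ^ κ ≤ ‖f z‖) :
    (c : EReal) ≤ limsup (qf f) atTop := by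
  have hev := (MM_tendsto hf hnc).eventually (eventually_gt_atTop (1 : ℝ))
  apply le_of_forall_lt
  intro x hx
  induction x using EReal.rec with
  | bot =>
    obtain ⟨κ, hκ⟩ := exists_lt c
    have h1 : ((κ : ℝ) : EReal) ≤ limsup (qf f) atTop := by
      apply le_limsup_of_frequently_le
      · have := (h κ hκ).and_eventually (hev.and (eventually_ge_atTop (0 : ℝ)))
        refine this.mono ?_
        rintro r ⟨h1, h2, h3⟩
        have hpos : 0 < MM f r ^ κ := Real.rpow_pos_of_pos (by linarith) _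
        have hm := mm_ge f r h3 _ h1
        have hm0 : 0 < mm f r := lt_of_lt_of_le hpos hm
        unfold qf
        rw [if_neg hm0.ne']
        rw [EReal.coe_le_coe_iff, le_div_iff₀ (Real.log_pos h2), ← Real.log_rpow (by linarith)]
        exact Real.log_le_log hpos hm
      · isBoundedDefault
    exact lt_of_lt_of_le (EReal.bot_lt_coe κ) h1
  | top => exact absurd hx (by simp)
  | coe y =>
    have hy : y < c := by exact_mod_cast hx
    obtain ⟨κ, hκ1, hκ2⟩ := exists_between hy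
    have h1 : ((κ : ℝ) : EReal) ≤ limsup (qf f) atTop := by
      apply le_limsup_of_frequently_le
      · have := (h κ hκ2).and_eventually (hev.and (eventually_ge_atTop (0 : ℝ)))
        refine this.mono ?_
        rintro r ⟨h1, h2, h3⟩
        have hpos : 0 < MM f r ^ κ := Real.rpow_pos_of_pos (by linarith) _
        have hm := mm_ge f r h3 _ h1
        have hm0 : 0 < mm f r := lt_of_lt_of_le hpos hm
        unfold qf
        rw [if_neg hm0.ne']
        rw [EReal.coe_le_coe_iff, le_div_iff₀ (Real.log_pos h2), ← Real.log_rpow (by linarith)]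
        exact Real.log_le_log hpos hm
      · isBoundedDefault
    exact lt_of_lt_of_le (by exact_mod_cast hκ1) h1

/-- the elements of `Λ` lie in at most `m` residue classes mod `q` -/
def Cover (Λ : Set ℕ) (q : ℕ) (m : ℝ) : Prop :=
  ∃ R : Finset ℕ, (R.card : ℝ) ≤ m ∧ ∀ n ∈ Λ, n % q ∈ R

theorem Cover.finset {Λ : Set ℕ} {q : ℕ} [NeZero q] {m : ℝ} (h : Cover Λ q m) :
    ∃ Cs : Finset (ZMod q), (Cs.card : ℝ) ≤ m ∧ ∀ n ∈ Λ, (n : ZMod q) ∈ Cs := by
  classical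
  obtain ⟨R, hR, h⟩ := h
  refine ⟨R.image (fun a : ℕ => (a : ZMod q)), ?_, ?_⟩
  · refine le_trans ?_ hR
    exact_mod_cast Finset.card_image_le
  · intro n hn
    rw [Finset.mem_image]
    refine ⟨n % q, h n hn, ?_⟩
    simp

theorem finalA (q : ℕ) (hq : 0 < q) (m : ℕ) (f : ℂ → ℂ) (hf : Differentiable ℂ f)
    (hnc : ∃ z w : ℂ, f z ≠ f w) (ρ : ℝ) (ho : OrdLe f ρ)
    (hcov : Cover {n | iteratedDeriv n f 0 ≠ 0} q m)
    (h1 : ρ < q / 2) (h2 : ((m : ℝ) - 1) * ρ < q / 2) (h3 : ρ * (m / q) < 1) :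
    ((Real.cos (Real.pi * (ρ * (m / q))) : ℝ) : EReal) ≤ limsup (qf f) atTop := by
  haveI : NeZero q := ⟨hq.ne'⟩
  have hρ := Order_nonneg f hf hnc ρ ho
  have hq0 : (0 : ℝ) < q := by exact_mod_cast hq
  obtain ⟨Cs, hCs, hmem⟩ := hcov.finset
  have h3' : ρ * m < q := by
    rw [mul_div_assoc', div_lt_one hq0] at h3
    exact h3
  have hle : ρ * Cs.card ≤ ρ * m := mul_le_mul_of_nonneg_left hCs hρ
  apply limsup_ge f hf hnc
  intro κ hκ
  refine theoremA q Cs f hf hnc ρ ho (fun n hn => hmem n hn) h1 ?_ (by linarith) κ ?_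
  · refine lt_of_le_of_lt ?_ h2
    exact mul_le_mul_of_nonneg_right (by linarith) hρ
  · refine lt_of_lt_of_le hκ ?_
    have hpi := Real.pi_pos
    apply Real.cos_le_cos_of_nonneg_of_le_pi
    · positivity
    · have : ρ * (m / q) ≤ 1 := h3.le
      nlinarith
    · apply mul_le_mul_of_nonneg_left _ hpi.le
      rw [mul_div_assoc', div_le_div_iff_of_pos_right hq0]
      exact hle

theorem finalB (f : ℂ → ℂ) (hf : Differentiable ℂ f) (hnc : ∃ z w : ℂ, f z ≠ f w) (ρ D : ℝ)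
    (ho : OrdLe f ρ) (hρD : ρ * D < 1 / 2)
    (hcov : ∀ ε : ℝ, 0 < ε → ∃ q n₀ : ℕ, 0 < q ∧
      Cover {n | n₀ ≤ n ∧ iteratedDeriv n f 0 ≠ 0} q ((D + ε) * q)) :
    ((Real.cos (Real.pi * (ρ * D)) : ℝ) : EReal) ≤ limsup (qf f) atTop := by
  have hD : 0 ≤ D := by
    by_contra hneg
    push Not at hneg
    obtain ⟨q, n₀, hq, R, hR, -⟩ := hcov (-D / 2) (by linarith)
    have hq0 : (0 : ℝ) < q := by exact_mod_cast hq
    have h0 : (0 : ℝ) ≤ R.card := Nat.cast_nonneg _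
    nlinarith
  apply limsup_ge f hf hnc
  intro κ hκ
  refine theoremB f hf hnc ρ D ho hD hρD ?_ κ hκ
  intro ε hε
  obtain ⟨q, n₀, hq, hc⟩ := hcov ε hε
  haveI : NeZero q := ⟨hq.ne'⟩
  obtain ⟨Cs, hCs, hmem⟩ := hc.finset
  exact ⟨q, ⟨hq.ne'⟩, Cs, n₀, hCs, fun n hn h => hmem n ⟨hn, h⟩⟩

end Pool.Agent.LibPer37
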